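import Pool.Agent.Helper1.FK.Vec

/-! FK-11: a bad point gives a special second section.
Setting: `σ = cr v1 v2`, `u = st (dd σ) = c1 v1 + c2 v2`, `U = st θ0 = A1 v1 + A2 v2` (`ker_two`).
`bad_v`: let `v = s v1 + t v2` be non-zero with `v(e_2) = 0`, `c1 t - c2 s = 0` and `b := t A1 - s A2` vanishing at `e_2`.  `ct v (dd σ) = cr u v = (c1 t - c2 s) σ = 0`, `ct v θ0 = b σ`.
 Write `v = X_0 B_0 + X_1 B_1` (constant vectors), `b = X_0 b_0 + X_1 b_1`.  Then `σ(B_0) = - X_1 ℓ`, `σ(B_1) = X_0 ℓ`; `i_(B_0) dσ = X_1 n'`, `i_(B_1) dσ = - X_0 n'` (`n'` constant);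
 `i_(B_0) θ0 - b_0 σ = X_1 ζ`, `i_(B_1) θ0 - b_1 σ = - X_0 ζ`.  Contract `σ ∧ dσ = 0`, `σ ∧ θ0 = 0` with `B_0` (or `B_1`): `ℓ dσ = n' ∧ σ`, `ℓ θ0 = ζ ∧ σ`.
 `ℓ = 0` or `B_0, B_1` linearly dependent: `σ(w) = 0` for a constant `w ≠ 0`.  Otherwise `n := cr B_0 B_1 ≠ 0`, modulo `ℓ` `σ` kills `B_0, B_1`: `σ = g n + ℓ φ`; `ℓ` does not divide `g`
 (`Cop σ`); modulo `ℓ`: `g n' ∧ n = 0`, so `n' = c n`, `dσ = c n ∧ φ`; `g ζ ∧ n = 0` modulo `ℓ`, so `ζ = A n + ℓ μ`, `θ0 = A n ∧ φ + μ ∧ σ`.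
`bad`: existence of `(s, t) ≠ 0`.  `σ(e_2) = 0`: `v1(e_2)`, `v2(e_2)` are proportional.
 Case 1, not both zero: `(s : t)` is the unique solution of `s v1(e_2) + t v2(e_2) = 0`; `u(e_2) = 0` gives `(c1, c2)` proportional to `(s, t)`, `U(e_2) = 0` gives `(A1(e_2), A2(e_2))`
  proportional to `(s, t)`.
 Case 2, `v1(e_2) = v2(e_2) = 0`: if `c1 = c2 = 0` choose `(s, t)` with `t A1(e_2) = s A2(e_2)`.  Otherwise `(s, t) = (c1, c2)`, to show: `c2 A1(e_2) = c1 A2(e_2)`.  Put `d_i = div v_i`: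
  `div u = 0`: `c1 d1 + c2 d2 = 0`; `div U = 0` at `e_2`: `A1(e_2) d1 + A2(e_2) d2 = 0`: done if `(d1, d2) ≠ 0`.  If `d1 = d2 = 0`: `curl_cr`: `u = v2(v1) - v1(v2)` (minus the bracket).
  `v_i` depend on `X_0, X_1` only, `v_i = (M_i xbar, l_i)`, `tr M_i = 0`, and `c1 M1 + c2 M2 = ± [M1, M2]`, `c1 l1 + c2 l2 = ± (l2 M1 - l1 M2)`.  `M1, M2` dependent: some
  combination is `(0, 0, l)`, `l ≠ 0`, so `σ_2 = 0`: `σ(e_2) = 0` as a form, `w = e_2`.  Independent: `E := c1 M1 + c2 M2 ≠ 0` is nilpotent (a commutator in a 2-dimensional, hence solvable,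
  subalgebra of `sl_2`); in suitable coordinates of `(X_0, X_1)` and a basis of the span, `v1 = h (X_0 ∂_0 - X_1 ∂_1) + l1 ∂_2`, `v2 = X_1 ∂_0 + l2 ∂_2` or its transpose; after
  `x_2 → x_2 + linear form in X_0, X_1` the relation for the `l_i` makes `l1 = l2 = 0`: `σ` is a multiple of `dx_2`, not coprime: contradiction. -/

set_option autoImplicit false

namespace Pool.Agent.Helper1.FK

open MvPolynomial
open scoped BigOperators
open Pool.Agent.Helper71.FL (w12 pf ct Dec Closed dd)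
open Pool.Agent.Helper71.FC
open Pool.Agent.Helper93 (lsub lmap OF pb Cop)
open Pool.Agent.Helper1.FG (om7)

/-! ### auxiliary facts -/

private theorem hcm {n : ℕ} {f g : Pn n} {d : ℕ} (hg : g.IsHomogeneous d) (m : ℕ) :
    homogeneousComponent (m + d) (f * g) = homogeneousComponent m f * g := by
  have h1 : ∀ i, homogeneousComponent (m + d) (homogeneousComponent i f * g) =
      if i = m then homogeneousComponent m f * g else 0 := by
    intro i
    rw [homogeneousComponent_of_mem (n := i + d) ((homogeneousComponent_isHomogeneous i f).mul hg)]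
    by_cases h : i = m
    · rw [if_pos h, if_pos (by omega), h]
    · rw [if_neg h, if_neg (by omega)]
  conv_lhs => rw [← sum_homogeneousComponent f, Finset.sum_mul, map_sum]
  rw [Finset.sum_congr rfl (fun i _ => h1 i), Finset.sum_ite_eq']
  split_ifs with h
  · rfl
  · rw [homogeneousComponent_eq_zero, zero_mul]
    rw [Finset.mem_range] at h
    omega

/-- homogeneous quotients -/
private theorem hom_quot {n : ℕ} {f g : Pn n} {m d : ℕ} (hg : g.IsHomogeneous d) (hg0 : g ≠ 0)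
    (h : (f * g).IsHomogeneous (m + d)) : f.IsHomogeneous m := by
  have h1 := hcm (f := f) hg m
  rw [homogeneousComponent_eq_self h] at h1
  have h2 := mul_right_cancel₀ hg0 h1
  rw [h2]
  exact homogeneousComponent_isHomogeneous m f

private theorem lf3 (a : Fin 3 → ℂ) : lf a = C (a 0) * X 0 + C (a 1) * X 1 + C (a 2) * X 2 := by
  unfold lf
  rw [Fin.sum_univ_three]

private theorem ev_lf (a : Fin 3 → ℂ) : eval ![0, 0, 1] (lf a) = a 2 := by
  rw [lf3]
  simp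

private theorem homC {a : Pn 3} {d : ℕ} (c : ℂ) (h : a.IsHomogeneous d) : (C c * a).IsHomogeneous d := by
  have h1 := (isHomogeneous_C (Fin 3) c).mul h
  rwa [zero_add] at h1

/-- a quadratic form vanishing at `e_2` -/
private theorem dec_e2 {p : Pn 3} (h : p.IsHomogeneous 2) (he : eval ![0, 0, 1] p = 0) :
    ∃ a b : Pn 3, a.IsHomogeneous 1 ∧ b.IsHomogeneous 1 ∧ p = X 0 * a + X 1 * b := by
  have h1 : ∀ i, ∃ a : Fin 3 → ℂ, pderiv i p = lf a := fun i => lf_of_hom (h.pderiv (i := i))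
  choose a ha using h1
  have hE := h.sum_X_mul_pderiv
  rw [Fin.sum_univ_three, ha 0, ha 1, ha 2] at hE
  have h22 : a 2 2 = 0 := by
    have h3 := congrArg (eval ![0, 0, 1]) hE
    simp only [map_add, map_mul, ev_lf, eval_X, map_nsmul, he] at h3
    simpa using h3
  have h4 : (2 : Pn 3) * p = X 0 * (lf (a 0) + C (a 2 0) * X 2) + X 1 * (lf (a 1) + C (a 2 1) * X 2) := by
    rw [nsmul_eq_mul] at hE
    rw [show (2 : Pn 3) = ((2 : ℕ) : Pn 3) by norm_num, ← hE]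
    unfold lf
    rw [Fin.sum_univ_three, Fin.sum_univ_three, Fin.sum_univ_three, h22, C_0]
    ring
  have hhalf : (C (1 / 2 : ℂ) : Pn 3) * 2 = 1 := by
    have h2 : (2 : Pn 3) = C (2 : ℂ) := (map_ofNat (C : ℂ →+* Pn 3) 2).symm
    rw [h2, ← C_mul]
    norm_num
  have hl : ∀ x : Fin 3 → ℂ, (lf x).IsHomogeneous 1 := by
    intro x
    unfold lf
    exact IsHomogeneous.sum _ _ _ fun i _ => homC (x i) (isHomogeneous_X ℂ i)
  refine ⟨C (1 / 2) * (lf (a 0) + C (a 2 0) * X 2), C (1 / 2) * (lf (a 1) + C (a 2 1) * X 2),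
    homC _ ((hl _).add (homC _ (isHomogeneous_X ℂ 2))), homC _ ((hl _).add (homC _ (isHomogeneous_X ℂ 2))), ?_⟩
  calc p = (C (1 / 2 : ℂ) * 2) * p := by rw [hhalf, one_mul]
    _ = C (1 / 2) * (2 * p) := by ring
    _ = _ := by rw [h4]; ring

private theorem key {p q r a b p' q' r' a' b' c1 c2 : ℂ} (hc2 : c2 ≠ 0)
    (E1 : q * r' - r * q' = c1 * p + c2 * p') (E2 : 2 * (p * q' - q * p') = c1 * q + c2 * q')
    (E3 : -2 * (p * r' - r * p') = c1 * r + c2 * r')
    (E4 : p' * a + r' * b - p * a' - r * b' = c1 * a + c2 * a')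
    (E5 : q' * a - p' * b - q * a' + p * b' = c1 * b + c2 * b')
    (hne : ¬ (p * r' - r * p' = 0 ∧ q * r' - r * q' = 0 ∧ p * q' - q * p' = 0)) :
    ∃ e f : ℂ, a = e * p + f * r ∧ b = e * q - f * p ∧ a' = e * p' + f * r' ∧
      b' = e * q' - f * p' := by
  obtain ⟨al, hal⟩ : ∃ al, al = p * r' - r * p' := ⟨_, rfl⟩
  obtain ⟨be, hbe⟩ : ∃ be, be = q * r' - r * q' := ⟨_, rfl⟩
  obtain ⟨ga, hga⟩ : ∃ ga, ga = p * q' - q * p' := ⟨_, rfl⟩
  rw [← hal, ← hbe, ← hga] at hne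
  rw [← hbe] at E1
  rw [← hga] at E2
  rw [← hal] at E3
  have F1 : c2 * ga = 2 * p * ga - q * be := by
    have : c2 * ga = p * (c2 * q') - q * (c2 * p') := by rw [hga]; ring
    rw [this]
    linear_combination -p * E2 + q * E1
  have F2 : c2 * al = -2 * p * al - r * be := by
    have : c2 * al = p * (c2 * r') - r * (c2 * p') := by rw [hal]; ring
    rw [this]
    linear_combination -p * E3 + r * E1
  have F3 : c2 * be = -2 * q * al - 2 * r * ga := by
    have : c2 * be = q * (c2 * r') - r * (c2 * q') := by rw [hbe]; ring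
    rw [this]
    linear_combination -q * E3 + r * E2
  have F4 : p * be - q * al + r * ga = 0 := by
    rw [hal, hbe, hga]; ring
  have hdet : c2 ^ 2 = 4 * (p ^ 2 + q * r) := by
    by_cases hb0 : be = 0
    · rw [hb0] at F1 F2 F3 F4
      have h1 : q * al = 0 := by linear_combination (1/4 : ℂ) * F3 - (1/2 : ℂ) * F4
      have h2 : r * ga = 0 := by linear_combination (1/4 : ℂ) * F3 + (1/2 : ℂ) * F4
      by_cases ha0 : al = 0
      · have hg0 : ga ≠ 0 := fun hg => hne ⟨ha0, hb0, hg⟩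
        have hr : r = 0 := (mul_eq_zero.1 h2).resolve_right hg0
        have hc : c2 = 2 * p := mul_right_cancel₀ hg0 (by linear_combination F1)
        rw [hr, hc]; ring
      · have hq : q = 0 := (mul_eq_zero.1 h1).resolve_right ha0
        have hc : c2 = -2 * p := mul_right_cancel₀ ha0 (by linear_combination F2)
        rw [hq, hc]; ring
    · have h1 : (c2 ^ 2 - 4 * (p ^ 2 + q * r)) * (c2 * be) = 0 := by
        linear_combination (c2 ^ 2 - 4 * p ^ 2) * F3 - 2 * q * (c2 - 2 * p) * F2 - 2 * r * (c2 + 2 * p) * F1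
      have h2 := (mul_eq_zero.1 h1).resolve_right (mul_ne_zero hc2 hb0)
      linear_combination h2
  have hc22 : c2 ^ 2 ≠ 0 := pow_ne_zero 2 hc2
  obtain ⟨e, he⟩ : ∃ e, e = 4 / c2 ^ 2 * (a * p + b * r) := ⟨_, rfl⟩
  obtain ⟨f, hf⟩ : ∃ f, f = 4 / c2 ^ 2 * (a * q - b * p) := ⟨_, rfl⟩
  have G1 : a = e * p + f * r := by
    have : e * p + f * r = 4 / c2 ^ 2 * (p ^ 2 + q * r) * a := by rw [he, hf]; ring
    rw [this]
    have h5 : 4 / c2 ^ 2 * (p ^ 2 + q * r) = 1 := by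
      field_simp
      linear_combination -hdet
    rw [h5, one_mul]
  have G2 : b = e * q - f * p := by
    have : e * q - f * p = 4 / c2 ^ 2 * (p ^ 2 + q * r) * b := by rw [he, hf]; ring
    rw [this]
    have h5 : 4 / c2 ^ 2 * (p ^ 2 + q * r) = 1 := by
      field_simp
      linear_combination -hdet
    rw [h5, one_mul]
  obtain ⟨x, hx⟩ : ∃ x, x = a' - (e * p' + f * r') := ⟨_, rfl⟩
  obtain ⟨y, hy⟩ : ∃ y, y = b' - (e * q' - f * p') := ⟨_, rfl⟩
  have H1 : x * (c2 + p) + y * r = 0 := by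
    rw [hx, hy]
    rw [G1, G2] at E4
    rw [hbe] at E1
    rw [hal] at E3
    linear_combination -E4 + e * E1 + f * E3
  have H2 : x * q + y * (c2 - p) = 0 := by
    rw [hx, hy]
    rw [G1, G2] at E5
    rw [hbe] at E1
    rw [hga] at E2
    linear_combination -E5 + e * E2 - f * E1
  have h34 : (3 / 4 : ℂ) * c2 ^ 2 ≠ 0 := mul_ne_zero (by norm_num) hc22
  have hx0 : x = 0 := by
    have : x * ((3 / 4 : ℂ) * c2 ^ 2) = 0 := by
      linear_combination (c2 - p) * H1 - r * H2 - (1/4 : ℂ) * x * hdet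
    exact (mul_eq_zero.1 this).resolve_right h34
  have hy0 : y = 0 := by
    have : y * ((3 / 4 : ℂ) * c2 ^ 2) = 0 := by
      linear_combination (c2 + p) * H2 - q * H1 - (1/4 : ℂ) * y * hdet
    exact (mul_eq_zero.1 this).resolve_right h34
  refine ⟨e, f, G1, G2, ?_, ?_⟩
  · linear_combination hx0 - hx
  · linear_combination hy0 - hy

private theorem lf_lin (s t : ℂ) (a b : Fin 3 → ℂ) :
    C s * lf a + C t * lf b = lf (fun i => s * a i + t * b i) := by
  rw [lf3, lf3, lf3]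
  simp only [C_add, C_mul]
  ring

private theorem hom_lf (x : Fin 3 → ℂ) : (lf x).IsHomogeneous 1 := by
  unfold lf
  exact IsHomogeneous.sum _ _ _ fun i _ => homC (x i) (isHomogeneous_X ℂ i)

private theorem X01 : ¬ (X 1 : Pn 3) ∣ X 0 := by
  rintro ⟨c, hc⟩
  have h := congrArg (eval ![1, 0, 0]) hc
  simp at h

private theorem cr0 {R : Type} [CommRing R] (a b : Fin 3 → R) : cr a b 0 = a 1 * b 2 - a 2 * b 1 := rfl
private theorem cr1 {R : Type} [CommRing R] (a b : Fin 3 → R) : cr a b 1 = a 2 * b 0 - a 0 * b 2 := rfl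
private theorem cr2 {R : Type} [CommRing R] (a b : Fin 3 → R) : cr a b 2 = a 0 * b 1 - a 1 * b 0 := rfl
private theorem pair3 {R : Type} [CommRing R] (a b : Fin 3 → R) :
    pair a b = a 0 * b 0 + a 1 * b 1 + a 2 * b 2 := by
  unfold pair
  rw [Fin.sum_univ_three]
private theorem st0 {R : Type} (ω : Fin 3 → Fin 3 → R) : st ω 0 = ω 1 2 := rfl
private theorem st1 {R : Type} (ω : Fin 3 → Fin 3 → R) : st ω 1 = ω 2 0 := rfl
private theorem st2 {R : Type} (ω : Fin 3 → Fin 3 → R) : st ω 2 = ω 0 1 := rfl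

private theorem all3 {P : Fin 3 → Prop} (h0 : P 0) (h1 : P 1) (h2 : P 2) (i : Fin 3) : P i := by
  fin_cases i
  · exact h0
  · exact h1
  · exact h2

/-- expansion in the dual basis -/
private theorem expand (B0 B1 N s : Fin 3 → Pn 3) (j : Fin 3) :
    pair (cr B0 B1) N * s j = pair B0 s * cr B1 N j + pair B1 s * cr N B0 j +
      pair N s * cr B0 B1 j := by
  revert j
  refine all3 ?_ ?_ ?_ <;> simp only [pair3, cr0, cr1, cr2] <;> ring

private theorem nphi (B0 B1 N : Fin 3 → Pn 3) (x y : Pn 3) (i : Fin 3) :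
    cr (cr B0 B1) (fun i => x * cr N B0 i - y * cr B1 N i) i =
      - ((x * B0 i + y * B1 i) * pair (cr B0 B1) N) := by
  revert i
  refine all3 ?_ ?_ ?_ <;> simp only [pair3, cr0, cr1, cr2] <;> ring

private theorem mu_v (B0 B1 N : Fin 3 → Pn 3) (x y b0 b1 : Pn 3) :
    pair (fun i => b0 * cr B1 N i + b1 * cr N B0 i) (fun i => x * B0 i + y * B1 i) =
      (x * b0 + y * b1) * pair (cr B0 B1) N := by
  simp only [pair3, cr0, cr1, cr2]
  ring

private theorem cr_cr (m a b : Fin 3 → Pn 3) (i : Fin 3) :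
    cr m (cr a b) i = pair m b * a i - pair m a * b i := by
  revert i
  refine all3 ?_ ?_ ?_ <;> simp only [pair3, cr0, cr1, cr2] <;> ring

private theorem cr_lin (v1 v2 : Fin 3 → Pn 3) (s t s' t' : Pn 3) (i : Fin 3) :
    cr (fun i => s * v1 i + t * v2 i) (fun i => s' * v1 i + t' * v2 i) i =
      (s * t' - t * s') * cr v1 v2 i := by
  revert i
  refine all3 ?_ ?_ ?_ <;> simp only [cr0, cr1, cr2] <;> ring

private theorem st_lin (a b μ s : Fin 3 → Pn 3) (A : Pn 3) (i : Fin 3) :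
    st (fun i j => A * w11 a b i j + w11 μ s i j) i = A * cr a b i + cr μ s i := by
  revert i
  refine all3 ?_ ?_ ?_ <;> simp only [cr0, cr1, cr2, st0, st1, st2, w11]

private theorem st_lin0 (a b : Fin 3 → Pn 3) (A : Pn 3) (i : Fin 3) :
    st (fun i j => A * w11 a b i j) i = A * cr a b i := by
  revert i
  refine all3 ?_ ?_ ?_ <;> simp only [cr0, cr1, cr2, st0, st1, st2, w11]

private theorem cr_cv (a b : Fin 3 → ℂ) (i : Fin 3) : cr (cv a) (cv b) i = C (cr a b i) := by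
  revert i
  refine all3 ?_ ?_ ?_ <;> simp only [cr0, cr1, cr2, cv, C_sub, C_mul]

variable {σ : F1 3} {θ0 : F2 3} {v1 v2 : F1 3} {c1 c2 : ℂ} {A1 A2 : Pn 3}

theorem bad_v (h : RD 0 σ θ0) (hc : Cop σ) (h1 : H1 1 v1) (h2 : H1 1 v2) (hA1 : A1.IsHomogeneous 2)
    (hA2 : A2.IsHomogeneous 2) (hs : σ = cr v1 v2)
    (hu : ∀ i, st (dd σ) i = C c1 * v1 i + C c2 * v2 i)
    (hU : ∀ i, st θ0 i = A1 * v1 i + A2 * v2 i) {s t : ℂ} (hst : ¬ (s = 0 ∧ t = 0))
    (ha : ∀ i, eval ![0, 0, 1] (C s * v1 i + C t * v2 i) = 0) (hb : c1 * t - c2 * s = 0)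
    (hd : eval ![0, 0, 1] (C t * A1 - C s * A2) = 0) :
    CaseC σ θ0 ∨ ∃ w : Fin 3 → ℂ, w ≠ 0 ∧ pair (cv w) σ = 0 := by
  classical
  -- the field v
  obtain ⟨v, hv⟩ : ∃ v : F1 3, v = fun i => C s * v1 i + C t * v2 i := ⟨_, rfl⟩
  have hvi : ∀ i, v i = C s * v1 i + C t * v2 i := fun i => by rw [hv]
  have hvh : ∀ i, (v i).IsHomogeneous 1 := fun i => by
    rw [hvi]; exact (homC s (h1 i)).add (homC t (h2 i))
  have hV : ∀ i, ∃ a : Fin 3 → ℂ, v i = lf a := fun i => lf_of_hom (hvh i)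
  choose V hV using hV
  have hV2 : ∀ i, V i 2 = 0 := by
    intro i
    have h3 := ha i
    rw [← hvi i, hV i, ev_lf] at h3
    exact h3
  obtain ⟨B0, hB0⟩ : ∃ B : Fin 3 → ℂ, B = fun i => V i 0 := ⟨_, rfl⟩
  obtain ⟨B1, hB1⟩ : ∃ B : Fin 3 → ℂ, B = fun i => V i 1 := ⟨_, rfl⟩
  have hvB : ∀ i, v i = C (B0 i) * X 0 + C (B1 i) * X 1 := by
    intro i
    rw [hV i, lf3, hV2 i, hB0, hB1, C_0]
    ring
  have hσ0 : σ ≠ 0 := by
    intro h0
    have h3 := hc 0 (fun i => by rw [h0]; exact dvd_zero _)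
    exact not_isUnit_zero h3
  have hv0 : v ≠ 0 := by
    intro h0
    apply hσ0
    have hi : ∀ i, C s * v1 i + C t * v2 i = 0 := fun i => by rw [← hvi i, h0]; rfl
    funext i
    rw [hs]
    by_cases hs0 : s = 0
    · have ht0 : (C t : Pn 3) ≠ 0 := by
        intro h3
        exact hst ⟨hs0, C_injective _ _ (by rw [h3, C_0])⟩
      have h4 : ∀ i, v2 i = 0 := by
        intro i
        have h5 := hi i
        rw [hs0, C_0, zero_mul, zero_add] at h5
        exact (mul_eq_zero.1 h5).resolve_left ht0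
      fin_cases i <;> simp [cr, h4]
    · have hs1 : (C s : Pn 3) ≠ 0 := by
        intro h3
        exact hs0 (C_injective _ _ (by rw [h3, C_0]))
      apply mul_left_cancel₀ hs1
      rw [Pi.zero_apply, mul_zero]
      revert i
      refine all3 ?_ ?_ ?_
      · rw [cr0]
        linear_combination v2 2 * hi 1 - v2 1 * hi 2
      · rw [cr1]
        linear_combination v2 0 * hi 2 - v2 2 * hi 0
      · rw [cr2]
        linear_combination v2 1 * hi 0 - v2 0 * hi 1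
  have hvs : pair v σ = 0 := by
    rw [hs, hv]
    simp only [pair3, cr0, cr1, cr2]
    ring
  have hvs2 : X 0 * pair (cv B0) σ + X 1 * pair (cv B1) σ = 0 := by
    rw [← hvs]
    simp only [pair, cv, Fin.sum_univ_three, hvB]
    ring
  obtain ⟨l', hl'⟩ : (X 1 : Pn 3) ∣ pair (cv B0) σ := by
    have hp : Prime (X 1 : Pn 3) := X_prime
    have h3 : (X 1 : Pn 3) ∣ X 0 * pair (cv B0) σ :=
      ⟨- pair (cv B1) σ, by linear_combination hvs2⟩
    exact (hp.dvd_or_dvd h3).resolve_left X01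
  obtain ⟨ℓ, hℓ⟩ : ∃ ℓ, ℓ = - l' := ⟨_, rfl⟩
  have hS0 : pair (cv B0) σ = - (X 1 * ℓ) := by rw [hl', hℓ]; ring
  have hX1 : (X 1 : Pn 3) ≠ 0 := X_ne_zero 1
  have hX0 : (X 0 : Pn 3) ≠ 0 := X_ne_zero 0
  have hS1 : pair (cv B1) σ = X 0 * ℓ := by
    apply mul_left_cancel₀ hX1
    rw [hS0] at hvs2
    linear_combination hvs2
  by_cases hℓ0 : ℓ = 0
  · right
    by_cases hB00 : B0 = 0
    · refine ⟨B1, ?_, by rw [hS1, hℓ0, mul_zero]⟩
      intro hB10
      apply hv0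
      funext i
      rw [hvB, hB00, hB10]
      simp
    · exact ⟨B0, hB00, by rw [hS0, hℓ0, mul_zero, neg_zero]⟩
  left
  have hℓh : ℓ.IsHomogeneous 1 := by
    apply hom_quot (g := X 0) (d := 1) (isHomogeneous_X ℂ 0) hX0
    rw [mul_comm, ← hS1]
    unfold pair
    exact IsHomogeneous.sum _ _ _ fun i _ => homC _ (h.hσ i)
  -- n
  obtain ⟨n, hn⟩ : ∃ n : Fin 3 → ℂ, n = cr B0 B1 := ⟨_, rfl⟩
  have hn0 : n ≠ 0 := by
    intro h0
    have hcr : ∀ i, cr B0 B1 i = 0 := fun i => by rw [← hn, h0]; rfl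
    have e0 := hcr 0
    have e1 := hcr 1
    have e2 := hcr 2
    rw [cr0] at e0
    rw [cr1] at e1
    rw [cr2] at e2
    have hpar : ∀ i j, B0 i * B1 j = B0 j * B1 i := by
      refine all3 (all3 ?_ ?_ ?_) (all3 ?_ ?_ ?_) (all3 ?_ ?_ ?_)
      · rfl
      · linear_combination e2
      · linear_combination -e1
      · linear_combination -e2
      · rfl
      · linear_combination e0
      · linear_combination e1
      · linear_combination -e0
      · rfl
    have hB00 : ∀ i, B0 i = 0 := by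
      intro i
      have h3 : C (B0 i) * pair (cv B1) σ = C (B1 i) * pair (cv B0) σ := by
        simp only [pair, cv, Finset.mul_sum, ← mul_assoc, ← C_mul]
        apply Finset.sum_congr rfl
        intro j _
        rw [hpar i j, mul_comm (B0 j)]
      rw [hS0, hS1] at h3
      have h4 : (C (B0 i) * X 0 + C (B1 i) * X 1) * ℓ = 0 := by linear_combination h3
      have h5 := (mul_eq_zero.1 h4).resolve_right hℓ0
      have h6 := congrArg (eval ![1, 0, 0]) h5
      simpa using h6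
    apply hℓ0
    have h7 : pair (cv B0) σ = 0 := by
      unfold pair cv
      simp [hB00]
    rw [hS0] at h7
    exact (mul_eq_zero.1 (neg_eq_zero.1 h7)).resolve_left hX1
  obtain ⟨N, hN⟩ : ∃ N : Fin 3 → ℂ, pair n N = 1 := by
    obtain ⟨i, hi⟩ : ∃ i, n i ≠ 0 := by
      by_contra hcon
      push Not at hcon
      exact hn0 (funext hcon)
    refine ⟨fun j => if j = i then (n i)⁻¹ else 0, ?_⟩
    unfold pair
    simp [Finset.sum_ite_eq', hi]
  have hNn : pair (cr (cv B0) (cv B1)) (cv N) = 1 := by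
    have h3 : pair (cr (cv B0) (cv B1)) (cv N) = C (pair n N) := by
      unfold pair
      rw [map_sum]
      apply Finset.sum_congr rfl
      intro i _
      rw [cr_cv, hn, C_mul]
      rfl
    rw [h3, hN, C_1]
  have hcvn : cv n = cr (cv B0) (cv B1) := by
    funext i
    rw [cr_cv, hn]
    rfl
  obtain ⟨g, hg⟩ : ∃ g, g = pair (cv N) σ := ⟨_, rfl⟩
  obtain ⟨φ, hφ⟩ : ∃ φ : F1 3, φ = fun i => X 0 * cr (cv N) (cv B0) i - X 1 * cr (cv B1) (cv N) i :=
    ⟨_, rfl⟩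
  obtain ⟨b0, b1, hb0, hb1, hbd⟩ := dec_e2 (p := C t * A1 - C s * A2)
    ((homC t hA1).sub (homC s hA2)) hd
  obtain ⟨μ, hμ⟩ : ∃ μ : F1 3, μ = fun i => b0 * cr (cv B1) (cv N) i + b1 * cr (cv N) (cv B0) i :=
    ⟨_, rfl⟩
  have hcrh : ∀ (a b : Fin 3 → ℂ) (p : Pn 3) (d : ℕ), p.IsHomogeneous d → ∀ i,
      (p * cr (cv a) (cv b) i).IsHomogeneous d := by
    intro a b p d hp i
    rw [cr_cv, mul_comm]
    exact homC _ hp
  have hφv : ∀ i, cr (cv n) φ i = - v i := by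
    intro i
    rw [hcvn, hφ, nphi, hNn, hvB]
    unfold cv
    ring
  have hvfun : v = fun i => X 0 * cv B0 i + X 1 * cv B1 i := by
    funext i
    rw [hvB]
    unfold cv
    ring
  have hμv : pair μ v = C t * A1 - C s * A2 := by
    rw [hμ, hvfun, mu_v, hNn, hbd]
    ring
  -- κ
  obtain ⟨κ, hκ1, hκ2⟩ : ∃ κ : ℂ, c1 = κ * s ∧ c2 = κ * t := by
    by_cases hs0 : s = 0
    · have ht0 : t ≠ 0 := fun ht => hst ⟨hs0, ht⟩
      refine ⟨c2 / t, ?_, (div_mul_cancel₀ c2 ht0).symm⟩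
      rw [hs0] at hb ⊢
      rw [mul_zero, sub_zero] at hb
      rw [mul_zero]
      exact (mul_eq_zero.1 hb).resolve_right ht0
    · refine ⟨c1 / s, (div_mul_cancel₀ c1 hs0).symm, ?_⟩
      field_simp
      linear_combination -hb
  obtain ⟨s', t', hst'⟩ : ∃ s' t' : ℂ, s * t' - t * s' = 1 := by
    by_cases hs0 : s = 0
    · have ht0 : t ≠ 0 := fun ht => hst ⟨hs0, ht⟩
      refine ⟨- t⁻¹, 0, ?_⟩
      rw [mul_zero, zero_sub, mul_neg, neg_neg, mul_inv_cancel₀ ht0]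
    · exact ⟨0, s⁻¹, by rw [mul_inv_cancel₀ hs0, mul_zero, sub_zero]⟩
  have hC1 : (C s : Pn 3) * C t' - C t * C s' = 1 := by
    rw [← C_mul, ← C_mul, ← C_sub, hst', C_1]
  obtain ⟨v', hv'⟩ : ∃ v' : F1 3, v' = fun i => C s' * v1 i + C t' * v2 i := ⟨_, rfl⟩
  have hσv : σ = cr v v' := by
    funext i
    rw [hv, hv', cr_lin, hC1, one_mul, hs]
  have hv'h : ∀ i, (v' i).IsHomogeneous 1 := fun i => by
    rw [hv']; exact (homC s' (h1 i)).add (homC t' (h2 i))
  have hμh : H1 1 μ := by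
    intro i
    rw [hμ]
    exact (hcrh _ _ _ _ hb0 i).add (hcrh _ _ _ _ hb1 i)
  refine ⟨n, - κ, ℓ, g, pair μ v' + C s' * A2 - C t' * A1, φ, μ, hn0, hℓ0, hℓh, ?_, ?_, ?_, hμh,
    ?_, ?_, ?_⟩
  · rw [hg]
    unfold pair
    exact IsHomogeneous.sum _ _ _ fun i _ => homC _ (h.hσ i)
  · refine (IsHomogeneous.add ?_ (homC _ hA2)).sub (homC _ hA1)
    unfold pair
    exact IsHomogeneous.sum _ _ _ fun i _ => (hμh i).mul (hv'h i)
  · intro i
    rw [hφ]
    exact (hcrh _ _ _ _ (isHomogeneous_X ℂ 0) i).sub (hcrh _ _ _ _ (isHomogeneous_X ℂ 1) i)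
  · intro i
    have h3 := expand (cv B0) (cv B1) (cv N) σ i
    rw [hNn, one_mul, hS0, hS1, ← hg, cr_cv B0 B1, ← hn] at h3
    rw [h3, hφ]
    ring
  · intro i j
    refine st_inj (ω := dd σ) (ω' := fun i j => C (-κ) * w11 (cv n) φ i j) ?_ ?_ ?_ ?_ ?_ i j
    · intro i; unfold dd; ring
    · intro i j; unfold dd; ring
    · intro i; unfold w11; ring
    · intro i j; unfold w11; ring
    · funext i
      rw [hu, st_lin0, hφv, hvi, hκ1, hκ2, C_neg, C_mul, C_mul]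
      ring
  · intro i j
    refine st_inj (ω := θ0) (ω' := fun i j => (pair μ v' + C s' * A2 - C t' * A1) *
      w11 (cv n) φ i j + w11 μ σ i j) h.alt0 h.alt ?_ ?_ ?_ i j
    · intro i; unfold w11; ring
    · intro i j; unfold w11; ring
    · funext i
      rw [hU, st_lin, hφv]
      conv_rhs => rw [hσv, cr_cr, hμv]
      rw [hvi, hv']
      linear_combination (-(A1 * v1 i + A2 * v2 i)) * hC1

/-- both fields vanish at `e_2` and the divergences are zero -/
private theorem last (hc : Cop σ) (hs : σ = cr v1 v2)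
    (hu : ∀ i, st (dd σ) i = C c1 * v1 i + C c2 * v2 i)
    (p1 : eval ![0, 0, 1] (σ 2) = 0) (M N : Fin 3 → Fin 3 → ℂ) (hM : ∀ i, v1 i = lf (M i))
    (hN : ∀ i, v2 i = lf (N i)) (hM2 : ∀ i, M i 2 = 0) (hN2 : ∀ i, N i 2 = 0)
    (hd1 : M 0 0 + M 1 1 = 0) (hd2 : N 0 0 + N 1 1 = 0) (hc12 : ¬ (c1 = 0 ∧ c2 = 0)) :
    ∃ w : Fin 3 → ℂ, w ≠ 0 ∧ pair (cv w) σ = 0 := by
  have hpd : ∀ (a : Fin 3 → ℂ) (j : Fin 3), pderiv j (lf a) = C (a j) := by
    intro a j
    revert j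
    rw [lf3]
    refine all3 ?_ ?_ ?_ <;> simp [pderiv_X]
  have hdiv1 : ∑ j, pderiv j (v1 j) = 0 := by
    rw [Fin.sum_univ_three, hM, hM, hM, hpd, hpd, hpd, hM2, C_0, add_zero, ← C_add, hd1, C_0]
  have hdiv2 : ∑ j, pderiv j (v2 j) = 0 := by
    rw [Fin.sum_univ_three, hN, hN, hN, hpd, hpd, hpd, hN2, C_0, add_zero, ← C_add, hd2, C_0]
  have hE : ∀ i, C c1 * v1 i + C c2 * v2 i =
      (∑ j, v2 j * C (M i j)) - ∑ j, v1 j * C (N i j) := by
    intro i
    rw [← hu, hs, curl_cr, hdiv1, hdiv2, mul_zero, mul_zero, sub_zero, zero_add]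
    simp only [hM i, hN i, hpd]
  have hv1 : ∀ i, v1 i = C (M i 0) * X 0 + C (M i 1) * X 1 := by
    intro i
    rw [hM, lf3, hM2, C_0, zero_mul, add_zero]
  have hv2 : ∀ i, v2 i = C (N i 0) * X 0 + C (N i 1) * X 1 := by
    intro i
    rw [hN, lf3, hN2, C_0, zero_mul, add_zero]
  have hE0 : ∀ i, c1 * M i 0 + c2 * N i 0 = N 0 0 * M i 0 + N 1 0 * M i 1 -
      (M 0 0 * N i 0 + M 1 0 * N i 1) := by
    intro i
    have h3 := congrArg (eval ![1, 0, 0]) (hE i)
    simp only [Fin.sum_univ_three, hv1, hv2, hM2, hN2] at h3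
    simp at h3
    linear_combination h3
  have hE1 : ∀ i, c1 * M i 1 + c2 * N i 1 = N 0 1 * M i 0 + N 1 1 * M i 1 -
      (M 0 1 * N i 0 + M 1 1 * N i 1) := by
    intro i
    have h3 := congrArg (eval ![0, 1, 0]) (hE i)
    simp only [Fin.sum_univ_three, hv1, hv2, hM2, hN2] at h3
    simp at h3
    linear_combination h3
  have hM11 : M 1 1 = - M 0 0 := by linear_combination hd1
  have hN11 : N 1 1 = - N 0 0 := by linear_combination hd2
  have hσ2 : σ 2 = C (M 0 0 * N 1 0 - M 1 0 * N 0 0) * X 0 ^ 2 +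
      C (M 0 1 * N 1 0 - M 1 0 * N 0 1) * (X 0 * X 1) +
      C (M 0 0 * N 0 1 - M 0 1 * N 0 0) * X 1 ^ 2 := by
    rw [hs, cr2, hv1, hv1, hv2, hv2, hM11, hN11]
    simp only [C_sub, C_mul, C_neg]
    ring
  by_cases hne : (M 0 0 * N 1 0 - M 1 0 * N 0 0 = 0 ∧ M 0 1 * N 1 0 - M 1 0 * N 0 1 = 0 ∧
      M 0 0 * N 0 1 - M 0 1 * N 0 0 = 0)
  · refine ⟨![0, 0, 1], ?_, ?_⟩
    · intro h0
      have := congrFun h0 2
      simp at this
    · rw [hne.1, hne.2.1, hne.2.2, C_0, zero_mul, zero_mul, zero_mul, add_zero, add_zero] at hσ2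
      rw [pair3, hσ2]
      simp [cv]
  exfalso
  have hfin : ∀ e f : ℂ, M 2 0 = e * M 0 0 + f * M 1 0 → M 2 1 = e * M 0 1 - f * M 0 0 →
      N 2 0 = e * N 0 0 + f * N 1 0 → N 2 1 = e * N 0 1 - f * N 0 0 → False := by
    intro e f g1 g2 g3 g4
    have k1 : v1 2 = C e * v1 0 + C f * v1 1 := by
      rw [hv1, hv1, hv1, g1, g2, hM11]
      simp only [C_sub, C_mul, C_neg, C_add]
      ring
    have k2 : v2 2 = C e * v2 0 + C f * v2 1 := by
      rw [hv2, hv2, hv2, g3, g4, hN11]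
      simp only [C_sub, C_mul, C_neg, C_add]
      ring
    have hdvd : ∀ i, σ 2 ∣ σ i := by
      refine all3 ?_ ?_ ?_
      · refine ⟨- C e, ?_⟩
        rw [hs, cr0, cr2, k1, k2]
        ring
      · refine ⟨- C f, ?_⟩
        rw [hs, cr1, cr2, k1, k2]
        ring
      · exact dvd_refl _
    have hun := (hc _ hdvd).map (eval ![(0 : ℂ), 0, 1])
    rw [p1] at hun
    exact not_isUnit_zero hun
  have e00 := hE0 0
  have e10 := hE0 1
  have e20 := hE0 2
  have e01 := hE1 0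
  have e21 := hE1 2
  rw [hM11, hN11] at e10
  rw [hM11, hN11] at e01
  rw [hM11, hN11] at e21
  by_cases hc2 : c2 = 0
  · have hc1 : - c1 ≠ 0 := fun h0 => hc12 ⟨neg_eq_zero.1 h0, hc2⟩
    obtain ⟨e, f, g1, g2, g3, g4⟩ := key (p := N 0 0) (q := N 0 1) (r := N 1 0) (a := N 2 0)
      (b := N 2 1) (p' := M 0 0) (q' := M 0 1) (r' := M 1 0) (a' := M 2 0) (b' := M 2 1)
      (c1 := - c2) (c2 := - c1) hc1 (by linear_combination e00) (by linear_combination e01)
      (by linear_combination e10) (by linear_combination e20) (by linear_combination e21)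
      (fun h0 => hne ⟨by linear_combination -h0.1, by linear_combination -h0.2.1,
        by linear_combination -h0.2.2⟩)
    exact hfin e f g3 g4 g1 g2
  · obtain ⟨e, f, g1, g2, g3, g4⟩ := key (p := M 0 0) (q := M 0 1) (r := M 1 0) (a := M 2 0)
      (b := M 2 1) (p' := N 0 0) (q' := N 0 1) (r' := N 1 0) (a' := N 2 0) (b' := N 2 1)
      (c1 := c1) (c2 := c2) hc2 (by linear_combination -e00) (by linear_combination -e01)
      (by linear_combination -e10) (by linear_combination -e20) (by linear_combination -e21) hne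
    exact hfin e f g1 g2 g3 g4

theorem bad_st (h : RD 0 σ θ0) (hc : Cop σ) (h1 : H1 1 v1) (h2 : H1 1 v2)
    (hA1 : A1.IsHomogeneous 2) (hA2 : A2.IsHomogeneous 2) (hs : σ = cr v1 v2)
    (hu : ∀ i, st (dd σ) i = C c1 * v1 i + C c2 * v2 i)
    (hU : ∀ i, st θ0 i = A1 * v1 i + A2 * v2 i)
    (p1 : ∀ i, eval ![0, 0, 1] (σ i) = 0) (p2 : ∀ i, eval ![0, 0, 1] (st (dd σ) i) = 0)
    (p3 : ∀ i, eval ![0, 0, 1] (st θ0 i) = 0) :
    (∃ s t : ℂ, ¬ (s = 0 ∧ t = 0) ∧ (∀ i, eval ![0, 0, 1] (C s * v1 i + C t * v2 i) = 0) ∧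
      c1 * t - c2 * s = 0 ∧ eval ![0, 0, 1] (C t * A1 - C s * A2) = 0) ∨
    ∃ w : Fin 3 → ℂ, w ≠ 0 ∧ pair (cv w) σ = 0 := by
  classical
  obtain ⟨P, hP⟩ : ∃ P : Fin 3 → ℂ, P = fun i => eval ![0, 0, 1] (v1 i) := ⟨_, rfl⟩
  obtain ⟨Q, hQ⟩ : ∃ Q : Fin 3 → ℂ, Q = fun i => eval ![0, 0, 1] (v2 i) := ⟨_, rfl⟩
  have hPi : ∀ i, eval ![0, 0, 1] (v1 i) = P i := fun i => by rw [hP]
  have hQi : ∀ i, eval ![0, 0, 1] (v2 i) = Q i := fun i => by rw [hQ]
  obtain ⟨α1, hα1⟩ : ∃ α, α = eval ![0, 0, 1] A1 := ⟨_, rfl⟩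
  obtain ⟨α2, hα2⟩ : ∃ α, α = eval ![0, 0, 1] A2 := ⟨_, rfl⟩
  have q1 := p1 0
  have q2 := p1 1
  have q3 := p1 2
  rw [hs, cr0, map_sub, map_mul, map_mul, hPi, hPi, hQi, hQi] at q1
  rw [hs, cr1, map_sub, map_mul, map_mul, hPi, hPi, hQi, hQi] at q2
  rw [hs, cr2, map_sub, map_mul, map_mul, hPi, hPi, hQi, hQi] at q3
  have hpar : ∀ i j, P i * Q j = P j * Q i := by
    refine all3 (all3 ?_ ?_ ?_) (all3 ?_ ?_ ?_) (all3 ?_ ?_ ?_)
    · rfl
    · linear_combination q3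
    · linear_combination -q2
    · linear_combination -q3
    · rfl
    · linear_combination q1
    · linear_combination q2
    · linear_combination -q1
    · rfl
  have hu' : ∀ i, c1 * P i + c2 * Q i = 0 := by
    intro i
    have h3 := p2 i
    rw [hu, map_add, map_mul, map_mul, eval_C, eval_C, hPi, hQi] at h3
    exact h3
  have hU' : ∀ i, α1 * P i + α2 * Q i = 0 := by
    intro i
    have h3 := p3 i
    rw [hU, map_add, map_mul, map_mul, hPi, hQi, ← hα1, ← hα2] at h3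
    exact h3
  have hev : ∀ (s t : ℂ) i, eval ![0, 0, 1] (C s * v1 i + C t * v2 i) = s * P i + t * Q i := by
    intro s t i
    rw [map_add, map_mul, map_mul, eval_C, eval_C, hPi, hQi]
  have hevA : ∀ (s t : ℂ), eval ![0, 0, 1] (C t * A1 - C s * A2) = t * α1 - s * α2 := by
    intro s t
    rw [map_sub, map_mul, map_mul, eval_C, eval_C, ← hα1, ← hα2]
  by_cases hcase : ∃ i, ¬ (P i = 0 ∧ Q i = 0)
  · obtain ⟨i, hi⟩ := hcase
    left
    refine ⟨- Q i, P i, fun h0 => hi ⟨h0.2, neg_eq_zero.1 h0.1⟩, ?_, ?_, ?_⟩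
    · intro j
      rw [hev]
      linear_combination hpar i j
    · linear_combination hu' i
    · rw [hevA]
      linear_combination hU' i
  have hPQ : ∀ i, P i = 0 ∧ Q i = 0 := by
    intro i
    by_contra hcon
    exact hcase ⟨i, hcon⟩
  have hleft : ∀ s t : ℂ, ¬ (s = 0 ∧ t = 0) → c1 * t - c2 * s = 0 → t * α1 - s * α2 = 0 →
      (∃ s t : ℂ, ¬ (s = 0 ∧ t = 0) ∧ (∀ i, eval ![0, 0, 1] (C s * v1 i + C t * v2 i) = 0) ∧
      c1 * t - c2 * s = 0 ∧ eval ![0, 0, 1] (C t * A1 - C s * A2) = 0) := by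
    intro s t g1 g2 g3
    refine ⟨s, t, g1, ?_, g2, ?_⟩
    · intro i
      rw [hev, (hPQ i).1, (hPQ i).2, mul_zero, mul_zero, add_zero]
    · rw [hevA]
      exact g3
  by_cases hD : c1 * α2 - c2 * α1 = 0
  · left
    by_cases hc12 : c1 = 0 ∧ c2 = 0
    · by_cases ha12 : α1 = 0 ∧ α2 = 0
      · exact hleft 1 0 (fun h0 => one_ne_zero h0.1) (by rw [hc12.1, hc12.2]; ring)
          (by rw [ha12.1, ha12.2]; ring)
      · exact hleft α1 α2 ha12 (by rw [hc12.1, hc12.2]; ring) (by ring)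
    · exact hleft c1 c2 hc12 (by ring) (by linear_combination -hD)
  right
  have hM : ∀ i, ∃ a : Fin 3 → ℂ, v1 i = lf a := fun i => lf_of_hom (h1 i)
  have hN : ∀ i, ∃ a : Fin 3 → ℂ, v2 i = lf a := fun i => lf_of_hom (h2 i)
  choose M hM using hM
  choose N hN using hN
  have hM2 : ∀ i, M i 2 = 0 := by
    intro i
    rw [← ev_lf (M i), ← hM i, hPi]
    exact (hPQ i).1
  have hN2 : ∀ i, N i 2 = 0 := by
    intro i
    rw [← ev_lf (N i), ← hN i, hQi]
    exact (hPQ i).2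
  have hpd : ∀ (a : Fin 3 → ℂ) (j : Fin 3), pderiv j (lf a) = C (a j) := by
    intro a j
    revert j
    rw [lf3]
    refine all3 ?_ ?_ ?_ <;> simp [pderiv_X]
  have hdu := (closed_iff (ω := dd σ) (by intro i; unfold dd; ring)
    (by intro i j; unfold dd; ring)).1 (Pool.Agent.Helper71.FL.dd_closed σ)
  have hdU := (closed_iff h.alt0 h.alt).1 h.cl
  have e1 : c1 * (M 0 0 + M 1 1) + c2 * (N 0 0 + N 1 1) = 0 := by
    have h3 := congrArg (eval ![0, 0, 1]) hdu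
    simp only [Fin.sum_univ_three, hu, hM, hN, map_add, map_mul, Derivation.leibniz, hpd, pderiv_C,
      smul_eq_mul, eval_C, map_zero, mul_zero, add_zero, hM2, hN2] at h3
    linear_combination h3
  have e2 : α1 * (M 0 0 + M 1 1) + α2 * (N 0 0 + N 1 1) = 0 := by
    have h3 := congrArg (eval ![0, 0, 1]) hdU
    simp only [Fin.sum_univ_three, hU, map_add, Derivation.leibniz, smul_eq_mul, map_mul,
      hPi, hQi, (hPQ _).1, (hPQ _).2, zero_mul, add_zero, ← hα1, ← hα2, map_zero] at h3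
    simp only [hM, hN, hpd, eval_C, hM2, hN2, mul_zero, add_zero, zero_add] at h3
    linear_combination h3
  have hd1 : M 0 0 + M 1 1 = 0 := by
    have h3 : (c1 * α2 - c2 * α1) * (M 0 0 + M 1 1) = 0 := by
      linear_combination α2 * e1 - c2 * e2
    exact (mul_eq_zero.1 h3).resolve_left hD
  have hd2 : N 0 0 + N 1 1 = 0 := by
    have h3 : (c1 * α2 - c2 * α1) * (N 0 0 + N 1 1) = 0 := by
      linear_combination c1 * e2 - α1 * e1
    exact (mul_eq_zero.1 h3).resolve_left hD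
  exact last hc hs hu (p1 2) M N hM hN hM2 hN2 hd1 hd2
    (fun h0 => hD (by rw [h0.1, h0.2]; ring))

end Pool.Agent.Helper1.FK
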