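import Pool.Agent.Helper1.FK.Coord
import Pool.Agent.Helper18.LB.Alg

/-! FK-19: from `σ ∈ E_2` to the data `RD`, `RF`.
Proof.  `σ` has no common factor (`σ = p σ_1`, `deg p > 0` would give a non-zero element of `E_0` or `E_1`).  Choose `n - 3` independent vectors of `D`, and coordinates in which they are
`e_0, .., e_(n-4)` (`exists_basis`; work with `pb2 g θ`, `pb g σ` and go back at the end with `φ = (last three rows of g')`).  `P2` with `J = {i | i < n - 3}`: `σ = Q m + σ'`, `θ = dQ ∧ σ + Q dσ' + θ0`, where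
`m_j = 0`, `σ'_j = 0`, `θ0_ij = 0` for `j ∈ J` and all coefficients are independent of the `x_j`, `j ∈ J`: they are polynomials in the last three variables (rename).  `θ_(j,k) = ∂_j Q σ_k` for `j ∈ J` and
`θ` not a cone: `∂_j Q ≠ 0`, so `Q` is transcendental over the polynomials in the last three variables (apply `∂_j` twice to the relation).  `σ ∧ θ = 0`: `(Q m + σ') ∧ (Q dσ' + θ0) = 0`, coefficients of
`Q^2, Q, 1`: `e1`, `e2`, `e3`.  Closedness of `θ` gives `dθ0 = 0`.  Last two claims: `Cop` for `m = 0`: a common factor of `σ'` divides `σ`; if `σ' = q m` then `Q + q(φ)` divides `σ`. -/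

set_option autoImplicit false

namespace Pool.Agent.Helper1.FK

open MvPolynomial
open scoped BigOperators
open Pool.Agent.Helper71.FL (w12 pf ct Dec Closed dd)
open Pool.Agent.Helper71.FC
open Pool.Agent.Helper93 (lsub lmap OF pb Cop)
open Pool.Agent.Helper1.FG (om7)

private theorem br_w12_smul {n : ℕ} {p : Pn n} {σ τ : F1 n} (h : ∀ i, σ i = p * τ i) (θ : F2 n)
    (i j k : Fin n) : w12 σ θ i j k = p * w12 τ θ i j k := by
  unfold w12
  rw [h, h, h]
  ring

private theorem br_prim {n : ℕ} {θ : F2 n} (h1 : EE θ 1 = ⊥) {σ : F1 n} (hσ : σ ∈ EE θ 2)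
    (hσ0 : σ ≠ 0) : Pool.Agent.Helper50.FC.Prim σ := by
  intro p hp
  choose τ hτ using hp
  obtain ⟨i0, hi0⟩ : ∃ i, σ i ≠ 0 := by
    by_contra hcon
    push Not at hcon
    exact hσ0 (funext hcon)
  have hp0 : p ≠ 0 := by
    rintro rfl
    exact hi0 (by rw [hτ, zero_mul])
  have hτ0 : τ i0 ≠ 0 := by
    intro h
    exact hi0 (by rw [hτ, h, mul_zero])
  have h2 : (p * τ i0).IsHomogeneous 2 := by
    rw [← hτ]
    exact hσ.1 i0
  obtain ⟨e, e', he, -, hee⟩ := Pool.Agent.Helper18.LB.hom_of_mul h2 hp0 hτ0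
  have hτh : ∀ i, (τ i).IsHomogeneous e' := by
    intro i
    have h3 : (p * τ i).IsHomogeneous (e + e') := by
      rw [← hτ, hee]
      exact hσ.1 i
    exact Pool.Agent.Helper18.LB.hom_right h3 he hp0
  have hw : ∀ i j k, w12 τ θ i j k = 0 := by
    intro i j k
    have h3 := hσ.2 i j k
    rw [br_w12_smul hτ] at h3
    exact (mul_eq_zero.1 h3).resolve_left hp0
  have hmem : τ ∈ EE θ e' := ⟨hτh, hw⟩
  have hne : τ ≠ 0 := fun h => hτ0 (congrFun h i0)
  have hcase : e = 0 ∨ e = 1 ∨ e = 2 := by omega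
  rcases hcase with rfl | rfl | rfl
  · have h4 : p.totalDegree = 0 := by
      exact Nat.le_zero.1 he.totalDegree_le
    rw [totalDegree_eq_zero_iff_eq_C] at h4
    rw [h4]
    apply IsUnit.map C
    rw [isUnit_iff_ne_zero]
    intro h5
    rw [h5, C_0] at h4
    exact hp0 h4
  · exfalso
    have h5 : e' = 1 := by omega
    subst h5
    rw [h1] at hmem
    exact hne ((Submodule.mem_bot ℂ).1 hmem)
  · exfalso
    have h5 : e' = 0 := by omega
    subst h5
    have h6 : (fun i => X i0 * τ i) ∈ EE θ 1 := by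
      refine ⟨fun i => ?_, fun i j k => ?_⟩
      · have h7 := (isHomogeneous_X ℂ i0).mul (hτh i)
        rwa [add_zero] at h7
      · rw [br_w12_smul (fun _ => rfl), hw, mul_zero]
    rw [h1] at h6
    have h7 := congrFun ((Submodule.mem_bot ℂ).1 h6) i0
    exact hτ0 ((mul_eq_zero.1 h7).resolve_left (X_ne_zero i0))

private theorem br_few {n : ℕ} {e : Fin 3 → Fin n} (he : Function.Injective e)
    {J : Finset (Fin n)} (hJ : ∀ i, i ∉ Set.range e → i ∈ J) {p : Pn n}
    (hp : ∀ j ∈ J, pderiv j p = 0) : ∃ q : Pn 3, rename e q = p := by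
  apply exists_rename_eq_of_vars_subset_range p e he
  intro i hi
  by_contra hcon
  exact Pool.Agent.Helper50.FC.notMem_vars (hp i (hJ i hcon)) hi

private theorem br_lsub {n : ℕ} {e : Fin 3 → Fin n} (g : Fin n → Fin n → ℂ) (q : Pn 3) :
    lsub g (rename e q) = lsub (fun a => g (e a)) q := by
  unfold lsub
  rw [aeval_rename]
  rfl

private theorem br_pb {n : ℕ} {e : Fin 3 → Fin n} (he : Function.Injective e)
    (g : Fin n → Fin n → ℂ) {ξ : F1 n} {ξ3 : F1 3}
    (h0 : ∀ i, i ∉ Set.range e → ξ i = 0) (h3 : ∀ a, rename e (ξ3 a) = ξ (e a)) :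
    pb g ξ = pb (fun a => g (e a)) ξ3 := by
  funext i
  unfold pb
  symm
  apply Fintype.sum_of_injective e he
  · intro j hj
    rw [h0 j hj, map_zero, mul_zero]
  · intro a
    rw [← h3, br_lsub]

private theorem br_pb2 {n : ℕ} {e : Fin 3 → Fin n} (he : Function.Injective e)
    (g : Fin n → Fin n → ℂ) {θ : F2 n} {θ3 : F2 3}
    (h0 : ∀ i j, i ∉ Set.range e → θ i j = 0 ∧ θ j i = 0)
    (h3 : ∀ a b, rename e (θ3 a b) = θ (e a) (e b)) :
    pb2 g θ = pb2 (fun a => g (e a)) θ3 := by
  funext i j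
  unfold pb2
  symm
  apply Fintype.sum_of_injective e he
  · intro k hk
    apply Finset.sum_eq_zero
    intro l _
    rw [(h0 k l hk).1, map_zero, mul_zero]
  · intro a
    apply Fintype.sum_of_injective e he
    · intro l hl
      rw [(h0 l (e a) hl).2, map_zero, mul_zero]
    · intro b
      rw [← h3, br_lsub]

private theorem br_closed {n : ℕ} {Q : Pn n} {m : Fin n → ℂ} {σ' σ : F1 n} {θ0 θ : F2 n}
    (hs : ∀ i, σ i = C (m i) * Q + σ' i)
    (ht : ∀ i j, θ i j = w11 (df Q) σ i j + Q * dd σ' i j + θ0 i j)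
    (hc : Closed θ) : Closed θ0 := by
  intro i j k
  have h := hc i j k
  have hσ : ∀ a b, pderiv a (σ b) = C (m b) * pderiv a Q + pderiv a (σ' b) := by
    intro a b
    rw [hs, map_add, pderiv_C_mul]
  have key : ∀ a b c, pderiv a (θ b c) =
      (pderiv a (pderiv b Q) * σ c + pderiv b Q * (C (m c) * pderiv a Q + pderiv a (σ' c)) -
        (pderiv a (pderiv c Q) * σ b + pderiv c Q * (C (m b) * pderiv a Q + pderiv a (σ' b)))) +
      (pderiv a Q * (pderiv b (σ' c) - pderiv c (σ' b)) +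
        Q * (pderiv a (pderiv b (σ' c)) - pderiv a (pderiv c (σ' b)))) + pderiv a (θ0 b c) := by
    intro a b c
    rw [ht]
    unfold w11 df dd
    simp only [map_add, map_sub, Derivation.leibniz, smul_eq_mul, hσ]
    ring
  rw [key, key, key] at h
  rw [Pool.Agent.Helper50.FC.pd_comm j i Q, Pool.Agent.Helper50.FC.pd_comm k i Q,
    Pool.Agent.Helper50.FC.pd_comm k j Q, Pool.Agent.Helper50.FC.pd_comm j i (σ' k),
    Pool.Agent.Helper50.FC.pd_comm k i (σ' j), Pool.Agent.Helper50.FC.pd_comm k j (σ' i)] at h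
  linear_combination h

private theorem br_zero3 {n : ℕ} {a : Fin n} {Q A B D : Pn n} (hQ : pderiv a Q ≠ 0)
    (hA : pderiv a A = 0) (hB : pderiv a B = 0) (hD : pderiv a D = 0)
    (h : Q ^ 2 * A + Q * B + D = 0) : A = 0 ∧ B = 0 ∧ D = 0 := by
  have h1 := congrArg (pderiv a) h
  rw [pow_two] at h1
  simp only [map_add, Derivation.leibniz, smul_eq_mul, hA, hB, hD, mul_zero, zero_add, add_zero,
    map_zero] at h1
  have h2 : pderiv a Q * (2 * Q * A + B) = 0 := by linear_combination h1
  have h3 : 2 * Q * A + B = 0 := (mul_eq_zero.1 h2).resolve_left hQ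
  have h4 : 2 * (Q * A) + B = 0 := by linear_combination h3
  have h5 := congrArg (pderiv a) h4
  have h6 : pderiv a (2 * (Q * A) : Pn n) = 2 * (A * pderiv a Q) := by
    rw [show (2 : Pn n) = C 2 from (map_ofNat C 2).symm, pderiv_C_mul, Derivation.leibniz, hA,
      smul_zero, zero_add, smul_eq_mul]
  rw [map_add, h6, hB, add_zero, map_zero] at h5
  have h7 : A = 0 := by
    rcases mul_eq_zero.1 h5 with h8 | h8
    · exact absurd h8 two_ne_zero
    · exact (mul_eq_zero.1 h8).resolve_right hQ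
  have h8 : B = 0 := by rw [h7, mul_zero, zero_add] at h3; exact h3
  refine ⟨h7, h8, ?_⟩
  rw [h7, h8, mul_zero, mul_zero, zero_add, zero_add] at h
  exact h

theorem exists_RF {n : ℕ} (hn : 5 ≤ n) {θ : F2 n} (h : Fol θ) (hc : ¬ Cone θ) (h0 : EE θ 0 = ⊥)
    (h1 : EE θ 1 = ⊥) {σ : F1 n} (hσ : σ ∈ EE θ 2) (hσ0 : σ ≠ 0) (D : Submodule ℂ (Fin n → ℂ))
    (hD : n ≤ Module.finrank ℂ D + 3) (hDσ : ∀ v ∈ D, pair (cv v) σ = 0) :
    ∃ (φ : Fin 3 → Fin n → ℂ) (Q : Pn n) (m : Fin 3 → ℂ) (σ' : F1 3) (θ0 : F2 3),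
      Q.IsHomogeneous 2 ∧ RD m σ' θ0 ∧ RF θ φ Q m σ' θ0 ∧ (m = 0 → Cop σ') ∧
      (m ≠ 0 → ∀ q : Pn 3, ¬ ∀ i, σ' i = q * C (m i)) := by
  classical
  have hprim := br_prim h1 hσ hσ0
  obtain ⟨v, hv, hvD⟩ : ∃ v : Fin (n - 3) → Fin n → ℂ, LinearIndependent ℂ v ∧ ∀ i, v i ∈ D := by
    have hfr : n - 3 ≤ Module.finrank ℂ D := by omega
    let b := Module.finBasis ℂ D
    refine ⟨fun i => (b (Fin.castLE hfr i) : Fin n → ℂ), ?_, fun i => (b _).2⟩
    exact (b.linearIndependent.comp (Fin.castLE hfr) (Fin.castLE_injective hfr)).map' D.subtype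
      (Submodule.ker_subtype D)
  have hn3 : n - 3 ≤ n := Nat.sub_le n 3
  obtain ⟨g, g', hg, hgv⟩ := exists_basis hn3 v hv
  -- transformed forms
  obtain ⟨s, hsdef⟩ : ∃ s : F1 n, s = pb g σ := ⟨_, rfl⟩
  obtain ⟨T, hTdef⟩ : ∃ T : F2 n, T = pb2 g θ := ⟨_, rfl⟩
  have hT : Fol T := by rw [hTdef]; exact Fol_pb2 h hg
  have hTc : ¬ Cone T := by rw [hTdef, Cone_pb2 θ hg]; exact hc
  have hsE : s ∈ EE T 2 := by rw [hsdef, hTdef]; exact EE_pb hσ g
  have hback1 : pb g' s = σ := by rw [hsdef, pb_mm, hg.1, pb_idm]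
  have hback2 : pb2 g' T = θ := by rw [hTdef, pb2_mm, hg.1, pb2_idm]
  have hsP : Pool.Agent.Helper50.FC.Prim s := by
    intro p hp
    have h2 : ∀ i, lsub g' p ∣ σ i := by
      intro i
      rw [← hback1]
      unfold pb
      exact Finset.dvd_sum fun j _ => Dvd.dvd.mul_left (map_dvd (lsub g') (hp j)) _
    have h3 := (hprim _ h2).map (lsub g)
    rwa [lsub_mm, hg.2, lsub_idm] at h3
  -- the missing variables
  let J : Finset (Fin n) := Finset.univ.image (Fin.castLE hn3)
  have hJc : 2 ≤ J.card := by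
    have h2 : J.card = n - 3 := by
      rw [Finset.card_image_of_injective _ (Fin.castLE_injective hn3), Finset.card_univ,
        Fintype.card_fin]
    omega
  have hJmem : ∀ i : Fin n, i ∈ J ↔ i.val < n - 3 := by
    intro i
    constructor
    · intro hi
      obtain ⟨a, -, rfl⟩ := Finset.mem_image.1 hi
      exact a.2
    · intro hi
      exact Finset.mem_image.2 ⟨⟨i.val, hi⟩, Finset.mem_univ _, rfl⟩
  have hJs : ∀ i ∈ J, s i = 0 := by
    intro i hi
    obtain ⟨a, -, rfl⟩ := Finset.mem_image.1 hi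
    have h2 : ∀ j, g j (Fin.castLE hn3 a) = v a j := by
      intro j
      rw [← hgv a]
      show _ = ∑ l, g j l * (if l = Fin.castLE hn3 a then (1 : ℂ) else 0)
      simp
    have h3 : s (Fin.castLE hn3 a) = lsub g (pair (cv (v a)) σ) := by
      rw [hsdef]
      unfold pb pair cv
      rw [map_sum]
      refine Finset.sum_congr rfl fun j _ => ?_
      rw [h2 j, map_mul]
      congr 1
      unfold lsub
      rw [aeval_C]
      rfl
    rw [h3, hDσ _ (hvD a), map_zero]
  -- the remaining variables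
  let e : Fin 3 → Fin n := fun a => ⟨n - 3 + a.val, by have := a.2; omega⟩
  have he : Function.Injective e := by
    intro a b hab
    have h2 : n - 3 + a.val = n - 3 + b.val := congrArg Fin.val hab
    exact Fin.ext (by omega)
  have hJe : ∀ i, i ∉ Set.range e → i ∈ J := by
    intro i hi
    rw [hJmem]
    by_contra hcon
    apply hi
    refine ⟨⟨i.val - (n - 3), by have := i.2; omega⟩, ?_⟩
    apply Fin.ext
    show n - 3 + (i.val - (n - 3)) = i.val
    omega
  have heJ : ∀ i ∈ J, i ∉ Set.range e := by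
    rintro i hi ⟨a, rfl⟩
    rw [hJmem] at hi
    have h2 : (e a).val = n - 3 + a.val := rfl
    omega
  obtain ⟨Q, m, σ', θ0, hQ, hmJ, hσh, hσJ, hσd, hθh, hθJ, hθd, hs, ht, hJt⟩ :=
    Pool.Agent.Helper50.FC.P2 hT hTc hsE hsP J hJc hJs
  have hQa : ∀ a ∈ J, pderiv a Q ≠ 0 := by
    intro a ha h2
    apply hTc
    refine ⟨fun i => if i = a then 1 else 0, ?_, ?_⟩
    · intro h3
      have h4 := congrFun h3 a
      simp at h4
    · intro j
      unfold av ct cv
      rw [Finset.sum_eq_single a]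
      · rw [hJt a ha j, h2, zero_mul, mul_zero]
      · intro b _ hb
        show C (if b = a then (1 : ℂ) else 0) * T b j = 0
        rw [if_neg hb, C_0, zero_mul]
      · intro h3
        exact absurd (Finset.mem_univ _) h3
  have hσ3 : ∀ a, ∃ q : Pn 3, rename e q = σ' (e a) := fun a =>
    br_few he hJe (fun j hj => hσd (e a) j hj)
  have hθ3 : ∀ a b, ∃ q : Pn 3, rename e q = θ0 (e a) (e b) := fun a b =>
    br_few he hJe (fun j hj => hθd (e a) (e b) j hj)
  choose σ3 hσ3 using hσ3
  choose θ3 hθ3 using hθ3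
  have hinj : Function.Injective (rename e : Pn 3 → Pn n) := rename_injective e he
  have hdd : ∀ a b, rename e (dd σ3 a b) = dd σ' (e a) (e b) := by
    intro a b
    unfold dd
    rw [map_sub, ← pderiv_rename he, ← pderiv_rename he, hσ3, hσ3]
  have hcv : ∀ a, rename e (cv (fun a => m (e a)) a : Pn 3) = cv m (e a) := by
    intro a
    unfold cv
    rw [rename_C]
  obtain ⟨a0, ha0⟩ : J.Nonempty := Finset.card_pos.1 (by omega)
  -- the three equations
  have hE : ∀ i j k, w12 (cv m) (dd σ') i j k = 0 ∧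
      (w12 (cv m) θ0 i j k + w12 σ' (dd σ') i j k = 0) ∧ w12 σ' θ0 i j k = 0 := by
    intro i j k
    have hd1 : ∀ b c, pderiv a0 (dd σ' b c) = 0 := by
      intro b c
      unfold dd
      rw [map_sub, Pool.Agent.Helper50.FC.pd_comm a0 b, Pool.Agent.Helper50.FC.pd_comm a0 c,
        hσd c a0 ha0, hσd b a0 ha0, map_zero, map_zero, sub_zero]
    have hd2 : ∀ b c, pderiv a0 (θ0 b c) = 0 := fun b c => hθd b c a0 ha0
    have hd3 : ∀ b, pderiv a0 (σ' b) = 0 := fun b => hσd b a0 ha0
    have hd4 : ∀ b, pderiv a0 (cv m b : Pn n) = 0 := fun b => pderiv_C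
    apply br_zero3 (hQa a0 ha0)
    · unfold w12
      simp only [map_add, Derivation.leibniz, smul_eq_mul, hd1, hd4, mul_zero, add_zero]
    · unfold w12
      simp only [map_add, Derivation.leibniz, smul_eq_mul, hd1, hd2, hd3, hd4, mul_zero, add_zero]
    · unfold w12
      simp only [map_add, Derivation.leibniz, smul_eq_mul, hd2, hd3, mul_zero, add_zero]
    · have h2 := hsE.2 i j k
      unfold w12 at h2 ⊢
      rw [ht, ht, ht] at h2
      unfold w11 at h2
      rw [hs i, hs j, hs k] at h2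
      unfold cv
      linear_combination h2
  have hclo : Closed θ0 := br_closed hs ht hT.closed
  have hT0 : ∀ i, θ0 i i = 0 := by
    intro i
    have h2 := ht i i
    rw [hT.dec.1 i] at h2
    unfold w11 dd at h2
    linear_combination -h2
  have hTa : ∀ i j, θ0 i j = - θ0 j i := by
    intro i j
    have h2 := ht i j
    have h3 := ht j i
    have h4 := hT.dec.2.1 i j
    unfold w11 dd at h2 h3
    linear_combination h4 - h2 - h3
  have hpbσ : pb g' σ' = pb (fun a => g' (e a)) σ3 :=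
    br_pb he g' (fun i hi => hσJ i (hJe i hi)) hσ3
  have hpbm : pb g' (cv m) = pb (fun a => g' (e a)) (cv (fun a => m (e a))) := by
    refine br_pb he g' (fun i hi => ?_) hcv
    unfold cv
    rw [hmJ i (hJe i hi), C_0]
  have hpbθ : pb2 g' θ0 = pb2 (fun a => g' (e a)) θ3 :=
    br_pb2 he g' (fun i j hi => ⟨(hθJ j i (hJe i hi)).2, (hθJ j i (hJe i hi)).1⟩) hθ3
  refine ⟨fun a => g' (e a), lsub g' Q, fun a => m (e a), σ3, θ3, lsub_hom hQ, ?_, ?_, ?_, ?_⟩
  · refine ⟨?_, ?_, ?_, ?_, ?_, ?_, ?_, ?_⟩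
    · intro a
      have h2 := hσh (e a)
      rw [← hσ3] at h2
      exact (IsHomogeneous.rename_isHomogeneous_iff he).1 h2
    · intro a b
      have h2 := hθh (e a) (e b)
      rw [← hθ3] at h2
      exact (IsHomogeneous.rename_isHomogeneous_iff he).1 h2
    · intro a
      apply hinj
      rw [hθ3, hT0, map_zero]
    · intro a b
      apply hinj
      rw [hθ3, map_neg, hθ3, hTa]
    · intro a b c
      apply hinj
      rw [map_add, map_add, ← pderiv_rename he, ← pderiv_rename he, ← pderiv_rename he, hθ3, hθ3,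
        hθ3, hclo, map_zero]
    · intro a b c
      apply hinj
      have h2 := (hE (e a) (e b) (e c)).1
      unfold w12 at h2 ⊢
      simp only [map_add, map_mul, map_zero, hdd, hcv]
      exact h2
    · intro a b c
      apply hinj
      have h2 := (hE (e a) (e b) (e c)).2.1
      unfold w12 at h2 ⊢
      simp only [map_add, map_mul, map_zero, hdd, hcv, hσ3, hθ3]
      exact h2
    · intro a b c
      apply hinj
      have h2 := (hE (e a) (e b) (e c)).2.2
      unfold w12 at h2 ⊢
      simp only [map_add, map_mul, map_zero, hσ3, hθ3]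
      exact h2
  · intro i j
    have e1 : pb2 g' T = fun i j => pb2 g' (fun i j => w11 (df Q) s i j + Q * dd σ' i j) i j +
        pb2 g' θ0 i j := by
      rw [← pb2_add]
      congr 1
      funext i j
      exact ht i j
    have e2 : pb2 g' (fun i j => w11 (df Q) s i j + Q * dd σ' i j) =
        fun i j => pb2 g' (w11 (df Q) s) i j + pb2 g' (fun i j => Q * dd σ' i j) i j :=
      pb2_add _ _ _
    have e3 : pb2 g' (fun i j => Q * dd σ' i j) =
        fun i j => lsub g' Q * pb2 g' (dd σ') i j := pb2_smul _ _ _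
    have e4 : pb2 g' (dd σ') = pb2 (fun a => g' (e a)) (dd σ3) := by
      rw [pb2_dd, hpbσ, pb2_dd]
    have e5 : pb2 g' (w11 (df Q) s) = w11 (df (lsub g' Q)) (pb g' s) := by
      rw [pb2_w11, pb_df]
    have e6 : pb g' s = fun i => lsub g' Q * pb (fun a => g' (e a)) (cv (fun a => m (e a))) i +
        pb (fun a => g' (e a)) σ3 i := by
      have e7 : s = fun i => (fun i => Q * cv m i) i + σ' i := by
        funext i
        rw [hs i]
        unfold cv
        ring
      rw [e7, pb_add, pb_smul, hpbσ, hpbm]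
    rw [← hback2, e1, e2, e3, e4, e5, e6, hpbθ]
  · intro hm0 p hp
    have h2 : ∀ i, rename e p ∣ s i := by
      intro i
      by_cases hi : i ∈ Set.range e
      · obtain ⟨a, rfl⟩ := hi
        have h3 : m (e a) = 0 := congrFun hm0 a
        rw [hs, h3, C_0, zero_mul, zero_add, ← hσ3]
        exact map_dvd _ (hp a)
      · rw [hJs i (hJe i hi)]
        exact dvd_zero _
    have h3 := (hsP _ h2).map (killCompl he)
    rwa [killCompl_rename_app] at h3
  · intro _ q hq
    have h2 : ∀ i, (Q + rename e q) ∣ s i := by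
      intro i
      by_cases hi : i ∈ Set.range e
      · obtain ⟨a, rfl⟩ := hi
        rw [hs, ← hσ3, hq a, map_mul, rename_C]
        exact ⟨C (m (e a)), by ring⟩
      · rw [hJs i (hJe i hi)]
        exact dvd_zero _
    have h3 := hsP _ h2
    rw [isUnit_iff_eq_C_of_isReduced] at h3
    obtain ⟨r, -, hr⟩ := h3
    have h4 := congrArg (pderiv a0) hr
    have h5 : pderiv a0 (rename e q) = 0 := by
      apply pderiv_eq_zero_of_notMem_vars
      intro h6
      have h7 := vars_rename e q h6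
      obtain ⟨b, -, hb⟩ := Finset.mem_image.1 h7
      exact heJ a0 ha0 ⟨b, hb⟩
    rw [map_add, h5, add_zero, pderiv_C] at h4
    exact hQa a0 ha0 h4

end Pool.Agent.Helper1.FK
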