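import Pool.Agent.Helper1.FK.Defs

/-! FK-1: linear substitutions in `x'` and the substitution `y = y' + q0`.
Routine: `pb_mm`, `pb2_mm`, `pb2_dd`, `pb2_w11`, `pb_df`, `lsub_mm`, `w12_pb`, `Closed_pb2` of `Helper71/FC/GL.lean`; `pb φ (cv m)` has the constant
coefficients `∑ j, m j * φ j i`.  `RF_gauge`: with `Q = Y + q0(φ)`, `dQ ∧ (Q m + σ) + Q dσ + θ0 = dY ∧ (Y m + σ') + Y dσ' + θ0'`, `σ' = σ + q0 m`,
`θ0' = θ0 + dq0 ∧ σ' + q0 dσ`.  `Case*_pb`: if the transformed data are in the case, so are the original ones (apply the inverse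
substitution to the witnesses; `lf (mg n g) = lsub g (lf n)`). -/

set_option autoImplicit false

namespace Pool.Agent.Helper1.FK

open MvPolynomial
open scoped BigOperators
open Pool.Agent.Helper71.FL (w12 pf ct Dec Closed dd)
open Pool.Agent.Helper71.FC
open Pool.Agent.Helper93 (lsub lmap OF pb Cop)
open Pool.Agent.Helper1.FG (om7)

variable {n : ℕ} {m : Fin 3 → ℂ} {σ : F1 3} {θ0 : F2 3}

private theorem lsub_C' {M N : ℕ} (φ : Fin M → Fin N → ℂ) (c : ℂ) : lsub φ (C c : Pn M) = C c := by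
  unfold lsub; rw [aeval_C]; rfl

theorem pb_cv (g : Fin 3 → Fin n → ℂ) (i : Fin n) : pb g (cv m) i = C (∑ j, m j * g j i) := by
  unfold pb cv
  rw [map_sum]
  refine Finset.sum_congr rfl fun j _ => ?_
  rw [lsub_C', ← C_mul, mul_comm]

private theorem pb_cv3 (g : Fin 3 → Fin 3 → ℂ) : pb g (cv m) = cv (mg m g) := by
  funext i; rw [pb_cv]; rfl

private theorem mm_assoc' {a b c d : ℕ} (φ : Fin a → Fin b → ℂ) (ψ : Fin b → Fin c → ℂ)
    (χ : Fin c → Fin d → ℂ) : mm (mm φ ψ) χ = mm φ (mm ψ χ) := by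
  funext i j
  unfold mm
  simp only [Finset.sum_mul, Finset.mul_sum]
  rw [Finset.sum_comm]
  refine Finset.sum_congr rfl fun p _ => Finset.sum_congr rfl fun q _ => ?_
  ring

private theorem idm_mm' {a b : ℕ} (φ : Fin a → Fin b → ℂ) : mm (idm a) φ = φ := by
  funext i j
  simp [mm, idm]

private theorem inv_symm {g g' : Fin 3 → Fin 3 → ℂ} (hg : Inv g g') : Inv g' g := ⟨hg.2, hg.1⟩

private theorem pb_back {g g' : Fin 3 → Fin 3 → ℂ} (hg : Inv g g') (ξ : F1 3) :
    pb g' (pb g ξ) = ξ := by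
  rw [pb_mm, hg.1, pb_idm]

private theorem pb2_back {g g' : Fin 3 → Fin 3 → ℂ} (hg : Inv g g') (ξ : F2 3) :
    pb2 g' (pb2 g ξ) = ξ := by
  rw [pb2_mm, hg.1, pb2_idm]

private theorem lsub_back {g g' : Fin 3 → Fin 3 → ℂ} (hg : Inv g g') (ξ : Pn 3) :
    lsub g' (lsub g ξ) = ξ := by
  rw [lsub_mm, hg.1, lsub_idm]

private theorem cv_inj {a b : Fin 3 → ℂ} (h : (cv a : F1 3) = cv b) : a = b := by
  funext i
  exact C_injective _ _ (congrFun h i)

private theorem mg_back {g g' : Fin 3 → Fin 3 → ℂ} (hg : Inv g g') (m : Fin 3 → ℂ) :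
    mg (mg m g) g' = m := by
  apply cv_inj
  rw [← pb_cv3, ← pb_cv3, pb_back hg]

private theorem mg_ne {g g' : Fin 3 → Fin 3 → ℂ} (hg : Inv g g') {m : Fin 3 → ℂ} (h : m ≠ 0) :
    mg m g ≠ 0 := by
  intro h0
  apply h
  rw [← mg_back hg m, h0]
  funext i
  simp [mg]

private theorem lsub_ne {g g' : Fin 3 → Fin 3 → ℂ} (hg : Inv g g') {f : Pn 3} (h : f ≠ 0) :
    lsub g f ≠ 0 := by
  intro h0
  apply h
  rw [← lsub_back hg f, h0, map_zero]

private theorem pderiv_lsub' {M N : ℕ} (φ : Fin M → Fin N → ℂ) (f : Pn M) (i : Fin N) :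
    pderiv i (lsub φ f) = ∑ j, C (φ j i) * lsub φ (pderiv j f) :=
  (congrFun (pb_df φ f) i).symm

private theorem lsub_lf (g : Fin 3 → Fin 3 → ℂ) (a : Fin 3 → ℂ) :
    lsub g (lf a) = lf (mg a g) := by
  unfold lf mg
  rw [map_sum]
  have h1 : ∀ j, lsub g (C (a j) * X j : Pn 3) = ∑ l, C (a j * g j l) * X l := by
    intro j
    rw [map_mul, lsub_C']
    have : lsub g (X j : Pn 3) = ∑ l, C (g j l) * X l := by unfold lsub; rw [aeval_X]
    rw [this, Finset.mul_sum]
    refine Finset.sum_congr rfl fun l _ => ?_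
    rw [C_mul]; ring
  rw [Finset.sum_congr rfl fun j _ => h1 j, Finset.sum_comm]
  refine Finset.sum_congr rfl fun l _ => ?_
  rw [map_sum, Finset.sum_mul]

private theorem sum3_zero {g : Fin 3 → Fin 3 → ℂ} {F : Fin 3 → Fin 3 → Fin 3 → Pn 3}
    (h : ∀ a b c, F a b c = 0) (i j k : Fin 3) :
    (∑ a, ∑ b, ∑ c, C (g a i * g b j * g c k) * lsub g (F a b c)) = 0 := by
  refine Finset.sum_eq_zero fun a _ => Finset.sum_eq_zero fun b _ => Finset.sum_eq_zero fun c _ => ?_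
  rw [h, map_zero, mul_zero]

theorem RD_pb {g g' : Fin 3 → Fin 3 → ℂ} (hg : Inv g g') (h : RD m σ θ0) :
    RD (mg m g) (pb g σ) (pb2 g θ0) := by
  have hanti : ∀ i j, pb2 g θ0 i j = - pb2 g θ0 j i := by
    intro i j
    unfold pb2
    rw [Finset.sum_comm, ← Finset.sum_neg_distrib]
    apply Finset.sum_congr rfl; intro p _
    rw [← Finset.sum_neg_distrib]
    apply Finset.sum_congr rfl; intro q _
    rw [h.alt q p, map_neg, mul_comm (g q i)]
    ring
  refine ⟨pb_hom h.hσ, pb2_hom h.hθ, ?_, hanti, Closed_pb2 h.cl g, ?_, ?_, ?_⟩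
  · intro i
    have h4 := hanti i i
    have h5 : (2 : Pn 3) * pb2 g θ0 i i = 0 := by
      rw [two_mul]
      nth_rewrite 1 [h4]
      ring
    exact (mul_eq_zero.mp h5).resolve_left two_ne_zero
  · intro i j k
    rw [← pb_cv3, ← pb2_dd, w12_pb]
    exact sum3_zero h.e1 i j k
  · intro i j k
    rw [← pb_cv3, ← pb2_dd, w12_pb, w12_pb]
    have := sum3_zero (g := g) h.e2 i j k
    simp only [map_add, mul_add, Finset.sum_add_distrib] at this
    exact this
  · intro i j k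
    rw [w12_pb]
    exact sum3_zero h.e3 i j k

theorem RF_pb {θ : F2 n} {φ : Fin 3 → Fin n → ℂ} {Q : Pn n} {g g' : Fin 3 → Fin 3 → ℂ}
    (hg : Inv g g') (h : RF θ φ Q m σ θ0) :
    RF θ (mm g' φ) Q (mg m g) (pb g σ) (pb2 g θ0) := by
  have h1 : mm g (mm g' φ) = φ := by rw [← mm_assoc', hg.1, idm_mm']
  intro i j
  rw [← pb_cv3, ← pb2_dd, pb_mm, pb_mm, pb2_mm, pb2_mm, h1]
  exact h i j

private theorem dd_gS (m : Fin 3 → ℂ) (σ : F1 3) (q0 : Pn 3) (i j : Fin 3) :
    dd (gS m σ q0) i j = dd σ i j + w11 (df q0) (cv m) i j := by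
  simp only [dd, gS, map_add, Derivation.leibniz, smul_eq_mul, pderiv_C, w11, df, cv]
  ring

private theorem h_comm (i j : Fin 3) (p : Pn 3) : pderiv i (pderiv j p) = pderiv j (pderiv i p) := by
  classical
  have h : ⁅(pderiv i : Derivation ℂ (Pn 3) (Pn 3)), (pderiv j : Derivation ℂ (Pn 3) (Pn 3))⁆ = 0 := by
    apply MvPolynomial.derivation_ext
    intro k
    rw [Derivation.commutator_apply, pderiv_X, pderiv_X, Derivation.zero_apply]
    rcases eq_or_ne j k with h1 | h1 <;> rcases eq_or_ne i k with h2 | h2 <;>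
      simp [h1, h2]
  have h2 := congrArg (fun D => D p) h
  simp only [Derivation.commutator_apply, Derivation.zero_apply] at h2
  exact sub_eq_zero.mp h2

theorem RD_gauge (h : RD m σ θ0) {q0 : Pn 3} (hq : q0.IsHomogeneous 2) :
    RD m (gS m σ q0) (gT m σ θ0 q0) := by
  have hS : ∀ i, (gS m σ q0 i).IsHomogeneous 2 := by
    intro i
    exact (h.hσ i).add (by simpa using hq.mul (isHomogeneous_C (Fin 3) (m i)))
  have hdq : ∀ i, (pderiv i q0).IsHomogeneous 1 := fun i => hq.pderiv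
  have hddσ : ∀ i j, (dd σ i j).IsHomogeneous 1 := by
    intro i j
    exact ((h.hσ j).pderiv).sub ((h.hσ i).pderiv)
  refine ⟨hS, ?_, ?_, ?_, ?_, ?_, ?_, ?_⟩
  · intro i j
    refine ((h.hθ i j).add ?_).add ?_
    · exact ((hdq i).mul (hS j)).sub ((hdq j).mul (hS i))
    · exact hq.mul (hddσ i j)
  · intro i
    simp only [gT, h.alt0 i, w11, dd]
    ring
  · intro i j
    simp only [gT, h.alt i j, w11, dd]
    ring
  · intro i j k
    have h1 := h.cl i j k
    simp only [gT, gS, w11, dd, df, map_add, map_sub, Derivation.leibniz, smul_eq_mul, pderiv_C]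
    have c1 := h_comm i j q0
    have c2 := h_comm j k q0
    have c3 := h_comm k i q0
    have d1 := h_comm i j (σ k)
    have d2 := h_comm j k (σ i)
    have d3 := h_comm k i (σ j)
    linear_combination h1 + (σ k + q0 * C (m k)) * c1 + (σ i + q0 * C (m i)) * c2 +
      (σ j + q0 * C (m j)) * c3 + q0 * d1 + q0 * d2 + q0 * d3
  · intro i j k
    have h1 := h.e1 i j k
    simp only [w12, dd_gS, w11] at h1 ⊢
    linear_combination h1
  · intro i j k
    have h1 := h.e1 i j k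
    have h2 := h.e2 i j k
    simp only [w12, dd_gS, w11, gT, gS, cv, df] at h1 h2 ⊢
    linear_combination h2 + 2 * q0 * h1
  · intro i j k
    have h1 := h.e1 i j k
    have h2 := h.e2 i j k
    have h3 := h.e3 i j k
    simp only [w12, w11, gT, gS, cv, df] at h1 h2 h3 ⊢
    linear_combination h3 + q0 * h2 + q0 ^ 2 * h1

private theorem pb_gS {M : ℕ} (φ : Fin 3 → Fin M → ℂ) (m : Fin 3 → ℂ) (σ : F1 3) (q0 : Pn 3) :
    pb φ (gS m σ q0) = fun i => pb φ σ i + lsub φ q0 * pb φ (cv m) i := by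
  have : gS m σ q0 = fun i => σ i + (fun i => q0 * cv m i) i := rfl
  rw [this, pb_add, pb_smul]

private theorem pb2_dgS {M : ℕ} (φ : Fin 3 → Fin M → ℂ) (m : Fin 3 → ℂ) (σ : F1 3) (q0 : Pn 3) :
    pb2 φ (dd (gS m σ q0)) = fun i j => pb2 φ (dd σ) i j +
      w11 (df (lsub φ q0)) (pb φ (cv m)) i j := by
  have : dd (gS m σ q0) = fun i j => dd σ i j + w11 (df q0) (cv m) i j := by
    funext i j; exact dd_gS m σ q0 i j
  rw [this, pb2_add, pb2_w11, pb_df]

private theorem pb2_gT {M : ℕ} (φ : Fin 3 → Fin M → ℂ) (m : Fin 3 → ℂ) (σ : F1 3) (θ0 : F2 3)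
    (q0 : Pn 3) :
    pb2 φ (gT m σ θ0 q0) = fun i j => pb2 φ θ0 i j +
      w11 (df (lsub φ q0)) (pb φ (gS m σ q0)) i j + lsub φ q0 * pb2 φ (dd σ) i j := by
  have : gT m σ θ0 q0 = fun i j => (fun i j => θ0 i j + w11 (df q0) (gS m σ q0) i j) i j +
      (fun i j => q0 * dd σ i j) i j := rfl
  rw [this, pb2_add, pb2_add, pb2_smul, pb2_w11, pb_df]

theorem RF_gauge {θ : F2 n} {φ : Fin 3 → Fin n → ℂ} {Q : Pn n} (h : RF θ φ Q m σ θ0) (q0 : Pn 3) :
    RF θ φ (Q - lsub φ q0) m (gS m σ q0) (gT m σ θ0 q0) := by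
  intro i j
  rw [h i j, pb2_dgS, pb2_gT]
  simp only [pb_gS, w11, df, map_sub]
  ring

theorem Cop_pb3 {g g' : Fin 3 → Fin 3 → ℂ} (hg : Inv g g') (h : Cop σ) : Cop (pb g σ) := by
  intro p hp
  have h1 : IsUnit (lsub g' p) := by
    apply h
    intro j
    rw [← pb_back hg σ]
    show lsub g' p ∣ ∑ k, C (g' k j) * lsub g' (pb g σ k)
    apply Finset.dvd_sum
    intro k _
    exact Dvd.dvd.mul_left (map_dvd (lsub g') (hp k)) _
  rw [← lsub_back (inv_symm hg) p]
  exact h1.map (lsub g)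

private theorem lmap_back {g g' : Fin 3 → Fin 3 → ℂ} (hg : Inv g g') (w : Fin 3 → ℂ) :
    lmap g (lmap g' w) = w := by
  funext i
  show ∑ l, g i l * ∑ q, g' l q * w q = w i
  have h1 : ∀ q, ∑ l, g i l * g' l q = idm 3 i q := fun q => congrFun (congrFun hg.1 i) q
  simp only [Finset.mul_sum]
  rw [Finset.sum_comm]
  have h2 : ∀ q, ∑ l, g i l * (g' l q * w q) = idm 3 i q * w q := by
    intro q
    rw [← h1 q, Finset.sum_mul]
    refine Finset.sum_congr rfl fun l _ => ?_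
    ring
  rw [Finset.sum_congr rfl fun q _ => h2 q]
  simp [idm]

private theorem pair_pb (g : Fin 3 → Fin 3 → ℂ) (w : Fin 3 → ℂ) (ξ : F1 3) :
    pair (cv w) (pb g ξ) = lsub g (pair (cv (lmap g w)) ξ) := by
  show ∑ i, C (w i) * (∑ j, C (g j i) * lsub g (ξ j)) =
    lsub g (∑ j, C (∑ i, g j i * w i) * ξ j)
  simp only [Fin.sum_univ_three, map_add, map_mul, lsub_C']
  ring

private theorem caseA_push {g g' : Fin 3 → Fin 3 → ℂ} (hg : Inv g g')
    (h : CaseA m σ θ0) : CaseA (mg m g) (pb g σ) (pb2 g θ0) := by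
  obtain ⟨w, l, hw, hl, h1, h2, h3, h4⟩ := h
  have hb : lmap g (lmap g' w) = w := lmap_back hg w
  refine ⟨lmap g' w, lsub g l, ?_, lsub_hom hl, ?_, ?_, ?_, ?_⟩
  · intro h0
    apply hw
    rw [← hb, h0, map_zero]
  · have h5 : ∑ i, lmap g' w i * mg m g i = ∑ i, lmap g (lmap g' w) i * m i := by
      show ∑ i, lmap g' w i * (∑ j, m j * g j i) = ∑ i, (∑ l, g i l * lmap g' w l) * m i
      simp only [Fin.sum_univ_three]
      ring
    rw [h5, hb, h1]
  · rw [pair_pb, hb, h2, map_zero]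
  · intro j
    have h5 := congrFun (av_pb2 g (dd σ) (lmap g' w)) j
    rw [hb, pb2_dd] at h5
    have h6 : av (dd σ) w = fun j => (-l) * cv m j := by
      funext j
      rw [show av (dd σ) w j = ct (cv w) (dd σ) j from rfl, h3 j]
      unfold cv; ring
    rw [h6, pb_smul, pb_cv3] at h5
    rw [show ct (cv (lmap g' w)) (dd (pb g σ)) j = av (dd (pb g σ)) (lmap g' w) j from rfl, h5,
      map_neg]
    unfold cv; ring
  · intro j
    have h5 := congrFun (av_pb2 g θ0 (lmap g' w)) j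
    rw [hb] at h5
    have h6 : av θ0 w = fun j => (-l) * σ j := by
      funext j
      rw [show av θ0 w j = ct (cv w) θ0 j from rfl, h4 j]
      ring
    rw [h6, pb_smul] at h5
    rw [show ct (cv (lmap g' w)) (pb2 g θ0) j = av (pb2 g θ0) (lmap g' w) j from rfl, h5,
      map_neg]
    ring

theorem CaseA_pb {g g' : Fin 3 → Fin 3 → ℂ} (hg : Inv g g')
    (h : CaseA (mg m g) (pb g σ) (pb2 g θ0)) : CaseA m σ θ0 := by
  have := caseA_push (inv_symm hg) h
  rwa [mg_back hg, pb_back hg, pb2_back hg] at this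

private theorem caseB_push {g : Fin 3 → Fin 3 → ℂ}
    (h : CaseB m σ θ0) : CaseB (mg m g) (pb g σ) (pb2 g θ0) := by
  obtain ⟨μ, hμ, h1, h2⟩ := h
  refine ⟨pb g μ, pb_hom hμ, ?_, ?_⟩
  · intro i j
    rw [← pb2_dd, ← pb_cv3, ← pb2_w11]
    have : dd σ = w11 μ (cv m) := by funext i j; exact h1 i j
    rw [this]
  · intro i j
    rw [← pb2_w11]
    have : θ0 = w11 μ σ := by funext i j; exact h2 i j
    rw [← this]

theorem CaseB_pb {g g' : Fin 3 → Fin 3 → ℂ} (hg : Inv g g')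
    (h : CaseB (mg m g) (pb g σ) (pb2 g θ0)) : CaseB m σ θ0 := by
  have := caseB_push (g := g') h
  rwa [mg_back hg, pb_back hg, pb2_back hg] at this

private theorem gS_push (g : Fin 3 → Fin 3 → ℂ) (m : Fin 3 → ℂ) (σ : F1 3) (q0 : Pn 3) :
    gS (mg m g) (pb g σ) (lsub g q0) = pb g (gS m σ q0) := by
  rw [pb_gS, pb_cv3]
  rfl

private theorem gT_push (g : Fin 3 → Fin 3 → ℂ) (m : Fin 3 → ℂ) (σ : F1 3) (θ0 : F2 3)
    (q0 : Pn 3) :
    gT (mg m g) (pb g σ) (pb2 g θ0) (lsub g q0) = pb2 g (gT m σ θ0 q0) := by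
  rw [pb2_gT, ← gS_push, pb2_dd]
  rfl

private theorem case122_push {g g' : Fin 3 → Fin 3 → ℂ} (hg : Inv g g')
    (h : Case122 m σ θ0) : Case122 (mg m g) (pb g σ) (pb2 g θ0) := by
  obtain ⟨n, q0, q, m1, α, β, γ, s, t, hn, hq0, hq, h1, h2, h3⟩ := h
  refine ⟨mg n g, lsub g q0, lsub g q, m1, α, β, γ, s, t, mg_ne hg hn, lsub_hom hq0, lsub_hom hq,
    ?_, ?_, ?_⟩
  · intro i
    simp only [mg, h1, Fin.sum_univ_three]
    ring
  · intro i
    rw [gS_push, ← lsub_lf]
    have : gS m σ q0 = fun i => C α * lf n * pderiv i q + (C β * q + C γ * lf n ^ 2) * C (n i) :=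
      funext h2
    rw [this, pderiv_lsub']
    simp only [pb, mg, Fin.sum_univ_three, map_add, map_mul, map_pow, lsub_C']
    ring
  · intro i j
    rw [gT_push, ← lsub_lf, ← pb_cv3, ← pb_df, ← pb2_w11]
    have : gT m σ θ0 q0 = fun i j => (C s * q + C t * lf n ^ 2) * w11 (cv n) (df q) i j := by
      funext i j; exact h3 i j
    rw [this, pb2_smul]
    simp only [map_add, map_mul, map_pow, lsub_C']

theorem Case122_pb {g g' : Fin 3 → Fin 3 → ℂ} (hg : Inv g g')
    (h : Case122 (mg m g) (pb g σ) (pb2 g θ0)) : Case122 m σ θ0 := by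
  have := case122_push (inv_symm hg) h
  rwa [mg_back hg, pb_back hg, pb2_back hg] at this

private theorem mg_zero (g : Fin 3 → Fin 3 → ℂ) : mg 0 g = 0 := by
  funext i
  simp [mg]

private theorem case7_push {g : Fin 3 → Fin 3 → ℂ}
    (h : Case7 σ θ0) : Case7 (pb g σ) (pb2 g θ0) := by
  obtain ⟨a, b, x, q0, c, ka, kb, kx, kQ, ha, hb, hx, hq, h1, h2, h3, h4, h5⟩ := h
  refine ⟨lsub g a, lsub g b, lsub g x, lsub g q0, c, ka, kb, kx, kQ, lsub_hom ha, lsub_hom hb,
    lsub_hom hx, lsub_hom hq, h1, h2, h3, ?_, ?_⟩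
  · intro i
    have : σ = fun i => C c * (2 * x * pderiv i (a * b) + a * b * pderiv i x) := funext h4
    rw [this, ← map_mul, pderiv_lsub', pderiv_lsub']
    simp only [pb, Fin.sum_univ_three, map_add, map_mul, lsub_C', map_ofNat]
    ring
  · intro i j
    have h6 := gT_push g 0 σ θ0 q0
    rw [mg_zero] at h6
    rw [h6]
    have : gT 0 σ θ0 q0 = dd (fun i => om7 a b x 0 c ka kb kx kQ 0 i) := by
      funext i j; exact h5 i j
    rw [this, pb2_dd]
    congr 1
    funext i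
    simp only [om7, C_0, zero_mul, mul_zero, add_zero, map_zero, ← map_mul (lsub g), pderiv_lsub']
    simp only [pb, Fin.sum_univ_three, map_add, map_sub, map_mul, map_zero, map_neg, lsub_C',
      mul_zero, zero_mul, sub_zero]
    ring

theorem Case7_pb {g g' : Fin 3 → Fin 3 → ℂ} (hg : Inv g g')
    (h : Case7 (pb g σ) (pb2 g θ0)) : Case7 σ θ0 := by
  have := case7_push (g := g') h
  rwa [pb_back hg, pb2_back hg] at this

private theorem caseC_push {g g' : Fin 3 → Fin 3 → ℂ} (hg : Inv g g')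
    (h : CaseC σ θ0) : CaseC (pb g σ) (pb2 g θ0) := by
  obtain ⟨n, c, ℓ, G, A, φ, μ, hn, hℓ, hℓ1, hG, hA, hφ, hμ, h1, h2, h3⟩ := h
  refine ⟨mg n g, c, lsub g ℓ, lsub g G, lsub g A, pb g φ, pb g μ, mg_ne hg hn, lsub_ne hg hℓ,
    lsub_hom hℓ1, lsub_hom hG, lsub_hom hA, pb_hom hφ, pb_hom hμ, ?_, ?_, ?_⟩
  · intro i
    have : σ = fun i => G * C (n i) + ℓ * φ i := funext h1
    rw [this]
    simp only [pb, mg, Fin.sum_univ_three, map_add, map_mul, lsub_C']
    ring
  · intro i j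
    have : dd σ = fun i j => C c * w11 (cv n) φ i j := by funext i j; exact h2 i j
    rw [← pb2_dd, this, pb2_smul, lsub_C', pb2_w11, pb_cv3]
  · intro i j
    have : θ0 = fun i j => A * w11 (cv n) φ i j + w11 μ σ i j := by funext i j; exact h3 i j
    rw [← pb_cv3, ← pb2_w11, ← pb2_w11]
    conv_lhs => rw [this]
    have h7 : (fun i j => A * w11 (cv n) φ i j + w11 μ σ i j) =
      fun i j => (fun i j => A * w11 (cv n) φ i j) i j + w11 μ σ i j := rfl
    rw [h7, pb2_add, pb2_smul]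

theorem CaseC_pb {g g' : Fin 3 → Fin 3 → ℂ} (hg : Inv g g')
    (h : CaseC (pb g σ) (pb2 g θ0)) : CaseC σ θ0 := by
  have := caseC_push (inv_symm hg) h
  rwa [pb_back hg, pb2_back hg] at this

end Pool.Agent.Helper1.FK
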