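import Pool.Agent.Helper1.FK.Coord

/-! FK-2: gauge invariance of the cases: data obtained by `y = y' + q0` are in a case if and only if the original ones are.
CaseA: the field `w + l ∂_y` becomes `w + (l - w(q0)) ∂_(y')`.  CaseB: `μ` becomes `μ + dq0` (`dy + μ = dy' + (μ + dq0)`).  Case122, Case7: replace
the witness `q0` by the sum. -/

set_option autoImplicit false

namespace Pool.Agent.Helper1.FK

open MvPolynomial
open scoped BigOperators
open Pool.Agent.Helper71.FL (w12 pf ct Dec Closed dd)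
open Pool.Agent.Helper71.FC
open Pool.Agent.Helper93 (lsub lmap OF pb Cop)
open Pool.Agent.Helper1.FG (om7)

variable {m : Fin 3 → ℂ} {σ : F1 3} {θ0 : F2 3}

private theorem gS_add (m : Fin 3 → ℂ) (σ : F1 3) (q0 q1 : Pn 3) :
    gS m (gS m σ q0) q1 = gS m σ (q0 + q1) := by
  funext i
  unfold gS
  ring

private theorem dd_gS (m : Fin 3 → ℂ) (σ : F1 3) (q0 : Pn 3) (i j : Fin 3) :
    dd (gS m σ q0) i j = dd σ i j + (pderiv i q0 * C (m j) - pderiv j q0 * C (m i)) := by
  unfold dd gS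
  simp only [map_add, Derivation.leibniz, pderiv_C, smul_eq_mul]
  ring

private theorem gT_add (m : Fin 3 → ℂ) (σ : F1 3) (θ0 : F2 3) (q0 q1 : Pn 3) (i j : Fin 3) :
    gT m (gS m σ q0) (gT m σ θ0 q0) q1 i j = gT m σ θ0 (q0 + q1) i j := by
  unfold gT
  rw [gS_add, dd_gS]
  unfold w11 df gS
  simp only [map_add]
  ring

private theorem hom_w {q0 : Pn 3} (hq : q0.IsHomogeneous 2) (w : Fin 3 → ℂ) :
    (∑ i, C (w i) * pderiv i q0 : Pn 3).IsHomogeneous 1 := by
  refine IsHomogeneous.sum _ _ _ (fun i _ => ?_)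
  have h1 : (pderiv i q0).IsHomogeneous (2 - 1) := hq.pderiv
  have h2 := (isHomogeneous_C (Fin 3) (w i)).mul h1
  simpa using h2

theorem CaseA_gauge {q0 : Pn 3} (hq : q0.IsHomogeneous 2)
    (h : CaseA m (gS m σ q0) (gT m σ θ0 q0)) : CaseA m σ θ0 := by
  obtain ⟨w, l, hw, hl, hm, hp, hc, ht⟩ := h
  have hm' : (∑ i, C (w i) * C (m i) : Pn 3) = 0 := by
    have h1 := congrArg (C : ℂ → Pn 3) hm
    rw [map_zero] at h1
    rw [← h1, map_sum]
    apply Finset.sum_congr rfl
    intro i _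
    rw [C_mul]
  have hcs : ∀ j, ct (cv w) (dd σ) j =
      - ((l + ∑ i, C (w i) * pderiv i q0) * C (m j)) := by
    intro j
    have h1 := hc j
    have h2 : ct (cv w) (dd (gS m σ q0)) j = ct (cv w) (dd σ) j +
        ((∑ i, C (w i) * pderiv i q0) * C (m j) -
          pderiv j q0 * ∑ i, C (w i) * C (m i)) := by
      unfold ct cv
      simp only [dd_gS, Fin.sum_univ_three]
      ring
    rw [h2, hm', mul_zero, sub_zero] at h1
    linear_combination h1
  refine ⟨w, l + ∑ i, C (w i) * pderiv i q0, hw, hl.add (hom_w hq w), hm, ?_, hcs, ?_⟩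
  · have h1 : pair (cv w) (gS m σ q0) = pair (cv w) σ + q0 * ∑ i, C (w i) * C (m i) := by
      unfold pair cv gS
      simp only [Fin.sum_univ_three]
      ring
    rw [h1, hm', mul_zero, add_zero] at hp
    exact hp
  · intro j
    have h1 := ht j
    have h2 : ct (cv w) (gT m σ θ0 q0) j = ct (cv w) θ0 j +
        ((∑ i, C (w i) * pderiv i q0) * gS m σ q0 j - pderiv j q0 * pair (cv w) (gS m σ q0)) +
        q0 * ct (cv w) (dd σ) j := by
      unfold ct cv gT pair w11 df
      simp only [Fin.sum_univ_three]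
      ring
    rw [h2, hp, hcs j] at h1
    unfold gS at h1
    linear_combination h1

theorem CaseB_gauge {q0 : Pn 3} (hq : q0.IsHomogeneous 2)
    (h : CaseB m (gS m σ q0) (gT m σ θ0 q0)) : CaseB m σ θ0 := by
  obtain ⟨μ, hμ, h1, h2⟩ := h
  have h3 : ∀ i j, dd σ i j = w11 (fun i => μ i - pderiv i q0) (cv m) i j := by
    intro i j
    have h4 := h1 i j
    rw [dd_gS] at h4
    unfold w11 cv at h4 ⊢
    linear_combination h4
  refine ⟨fun i => μ i - pderiv i q0, fun i => (hμ i).sub ?_, h3, ?_⟩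
  · have h4 : (pderiv i q0).IsHomogeneous (2 - 1) := hq.pderiv
    exact h4
  · intro i j
    have h4 := h2 i j
    have h5 := h3 i j
    unfold gT at h4
    rw [h5] at h4
    unfold w11 df gS cv at h4
    unfold w11
    linear_combination h4

theorem Case122_gauge {q0 : Pn 3} (hq : q0.IsHomogeneous 2)
    (h : Case122 m (gS m σ q0) (gT m σ θ0 q0)) : Case122 m σ θ0 := by
  obtain ⟨n, q1, q, m1, α, β, γ, s, t, hn, hq1, hqq, hm, h1, h2⟩ := h
  refine ⟨n, q0 + q1, q, m1, α, β, γ, s, t, hn, hq.add hq1, hqq, hm, ?_, ?_⟩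
  · intro i
    rw [← gS_add]
    exact h1 i
  · intro i j
    rw [← gT_add]
    exact h2 i j

theorem Case7_gauge {q0 : Pn 3} (hq : q0.IsHomogeneous 2)
    (h : Case7 (gS 0 σ q0) (gT 0 σ θ0 q0)) : Case7 σ θ0 := by
  obtain ⟨a, b, x, q1, c, ka, kb, kx, kQ, ha, hb, hx, hq1, hk, hc, hab, h1, h2⟩ := h
  refine ⟨a, b, x, q0 + q1, c, ka, kb, kx, kQ, ha, hb, hx, hq.add hq1, hk, hc, hab, ?_, ?_⟩
  · intro i
    have h3 : gS 0 σ q0 i = σ i := by
      unfold gS
      simp
    rw [← h3]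
    exact h1 i
  · intro i j
    rw [← gT_add]
    exact h2 i j

end Pool.Agent.Helper1.FK
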