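import Pool.Agent.Helper71.FC.OK
import Pool.Agent.Helper50.FC.P2

/-!
Block K5 of the project on MP_45a28a (frozen statement S00166): some `σ ∈ E_2` depends on three variables only.
Then `θ` is the pullback, by three linear forms `x_0, x_1, x_2` (rows of `φ`) and one quadratic form `Q` (in place of `y`), of
`θ_R = dy ∧ (y m + σ) + y dσ + θ0`, `m` constant, `σ`, `θ0` forms on `ℂ^3` with coefficients of degree 2, 3.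
-/

set_option autoImplicit false

namespace Pool.Agent.Helper1.FK

open MvPolynomial
open scoped BigOperators
open Pool.Agent.Helper71.FL (w12 pf ct Dec Closed dd)
open Pool.Agent.Helper71.FC
open Pool.Agent.Helper93 (lsub lmap OF pb Cop)
open Pool.Agent.Helper1.FG (om7)

/-- the vector of a 2-form in three variables: `ω = i_(st ω) vol` -/
def st {A : Type} (ω : Fin 3 → Fin 3 → A) : Fin 3 → A := ![ω 1 2, ω 2 0, ω 0 1]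

/-- cross product -/
def cr {A : Type} [CommRing A] (a b : Fin 3 → A) : Fin 3 → A :=
  ![a 1 * b 2 - a 2 * b 1, a 2 * b 0 - a 0 * b 2, a 0 * b 1 - a 1 * b 0]

/-- homogeneous coefficients of degree `k` -/
def H1 (k : ℕ) (ξ : F1 3) : Prop := ∀ i, (ξ i).IsHomogeneous k

/-- the equations of `θ_R` -/
structure RD (m : Fin 3 → ℂ) (σ : F1 3) (θ0 : F2 3) : Prop where
  hσ : H1 2 σ
  hθ : ∀ i j, (θ0 i j).IsHomogeneous 3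
  alt0 : ∀ i, θ0 i i = 0
  alt : ∀ i j, θ0 i j = - θ0 j i
  cl : Closed θ0
  e1 : ∀ i j k, w12 (cv m) (dd σ) i j k = 0
  e2 : ∀ i j k, w12 (cv m) θ0 i j k + w12 σ (dd σ) i j k = 0
  e3 : ∀ i j k, w12 σ θ0 i j k = 0

/-- `θ` is the pullback of `θ_R` -/
def RF {n : ℕ} (θ : F2 n) (φ : Fin 3 → Fin n → ℂ) (Q : Pn n) (m : Fin 3 → ℂ) (σ : F1 3)
    (θ0 : F2 3) : Prop :=
  ∀ i j, θ i j = w11 (df Q) (fun i => Q * pb φ (cv m) i + pb φ σ i) i j +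
    Q * pb2 φ (dd σ) i j + pb2 φ θ0 i j

/-- the substitution `y = y' + q0`: new `σ` -/
noncomputable def gS (m : Fin 3 → ℂ) (σ : F1 3) (q0 : Pn 3) : F1 3 := fun i => σ i + q0 * C (m i)

/-- the substitution `y = y' + q0`: new `θ0` -/
noncomputable def gT (m : Fin 3 → ℂ) (σ : F1 3) (θ0 : F2 3) (q0 : Pn 3) : F2 3 := fun i j =>
  θ0 i j + w11 (df q0) (gS m σ q0) i j + q0 * dd σ i j

/-- a field `w + l ∂_y`, `w` constant, `l` linear, is killed by `θ_R` -/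
def CaseA (m : Fin 3 → ℂ) (σ : F1 3) (θ0 : F2 3) : Prop :=
  ∃ (w : Fin 3 → ℂ) (l : Pn 3), w ≠ 0 ∧ l.IsHomogeneous 1 ∧ (∑ i, w i * m i) = 0 ∧
    pair (cv w) σ = 0 ∧ (∀ j, ct (cv w) (dd σ) j = - (l * C (m j))) ∧
    ∀ j, ct (cv w) θ0 j = - (l * σ j)

/-- `(dy + μ) ∧ θ_R = 0` -/
def CaseB (m : Fin 3 → ℂ) (σ : F1 3) (θ0 : F2 3) : Prop :=
  ∃ μ : F1 3, H1 1 μ ∧ (∀ i j, dd σ i j = w11 μ (cv m) i j) ∧ ∀ i j, θ0 i j = w11 μ σ i j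

/-- pullback from weights (1,2,2) -/
def Case122 (m : Fin 3 → ℂ) (σ : F1 3) (θ0 : F2 3) : Prop :=
  ∃ (n : Fin 3 → ℂ) (q0 q : Pn 3) (m1 α β γ s t : ℂ), n ≠ 0 ∧ q0.IsHomogeneous 2 ∧
    q.IsHomogeneous 2 ∧ (∀ i, m i = m1 * n i) ∧
    (∀ i, gS m σ q0 i = C α * lf n * pderiv i q + (C β * q + C γ * lf n ^ 2) * C (n i)) ∧
    ∀ i j, gT m σ θ0 q0 i j = (C s * q + C t * lf n ^ 2) * w11 (cv n) (df q) i j

/-- the resonant forms (`m = 0`) -/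
def Case7 (σ : F1 3) (θ0 : F2 3) : Prop :=
  ∃ (a b x q0 : Pn 3) (c ka kb kx kQ : ℂ), a.IsHomogeneous 1 ∧ b.IsHomogeneous 1 ∧
    x.IsHomogeneous 1 ∧ q0.IsHomogeneous 2 ∧ ka + kb + kx + 2 * kQ = 0 ∧ c ≠ 0 ∧ ka ≠ kb ∧
    (∀ i, σ i = C c * (2 * x * pderiv i (a * b) + a * b * pderiv i x)) ∧
    ∀ i j, gT 0 σ θ0 q0 i j = dd (fun i => om7 a b x 0 c ka kb kx kQ 0 i) i j

/-- two weighted linear fields (`m = 0`) -/
def CaseD (σ : F1 3) (θ0 : F2 3) : Prop :=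
  ∃ (v1 v2 : F1 3) (c1 c2 : ℂ) (A1 A2 q : Pn 3), H1 1 v1 ∧ H1 1 v2 ∧ A1.IsHomogeneous 2 ∧
    A2.IsHomogeneous 2 ∧ σ = cr v1 v2 ∧ (∀ i, st (dd σ) i = C c1 * v1 i + C c2 * v2 i) ∧
    (∀ i, st θ0 i = A1 * v1 i + A2 * v2 i) ∧ q.IsHomogeneous 2 ∧
    ∀ p : Fin 3 → ℂ, (∀ i, eval p (σ i) = 0) →
      (∀ i, eval p (q * st (dd σ) i + st θ0 i) = 0) → p = 0

/-- a second section of degree 2 (`m = 0`), special form -/
def CaseC (σ : F1 3) (θ0 : F2 3) : Prop :=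
  ∃ (n : Fin 3 → ℂ) (c : ℂ) (ℓ g A : Pn 3) (φ μ : F1 3), n ≠ 0 ∧ ℓ ≠ 0 ∧ ℓ.IsHomogeneous 1 ∧
    g.IsHomogeneous 2 ∧ A.IsHomogeneous 2 ∧ H1 1 φ ∧ H1 1 μ ∧
    (∀ i, σ i = g * C (n i) + ℓ * φ i) ∧ (∀ i j, dd σ i j = C c * w11 (cv n) φ i j) ∧
    ∀ i j, θ0 i j = A * w11 (cv n) φ i j + w11 μ σ i j

/-- final outcomes for `m = 0` -/
def Out0 (σ : F1 3) (θ0 : F2 3) : Prop :=
  CaseA 0 σ θ0 ∨ CaseB 0 σ θ0 ∨ Case122 0 σ θ0 ∨ Case7 σ θ0 ∨ CaseD σ θ0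

/-- final outcomes for `m ≠ 0` -/
def OutM (m : Fin 3 → ℂ) (σ : F1 3) (θ0 : F2 3) : Prop :=
  CaseA m σ θ0 ∨ CaseB m σ θ0 ∨ Case122 m σ θ0

/-- action of a substitution on `m` -/
def mg (m : Fin 3 → ℂ) (g : Fin 3 → Fin 3 → ℂ) : Fin 3 → ℂ := fun i => ∑ j, m j * g j i

/-- the restated interface statement IW2 -/
def IW3 : Prop := ∀ (n : ℕ), 5 ≤ n → ∀ θ : F2 n, Fol θ → ¬ Cone θ → EE θ 0 = ⊥ → EE θ 1 = ⊥ →
  ∀ σ ∈ EE θ 2, σ ≠ 0 → ∀ D : Submodule ℂ (Fin n → ℂ), n ≤ Module.finrank ℂ D + 3 →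
    (∀ v ∈ D, pair (cv v) σ = 0) → OKF θ

end Pool.Agent.Helper1.FK
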