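import Pool.Agent.Helper1.FK.Vec

/-! FK-10: finitely many common zeros; choice of the quadric.
`fin_zero`: three quadratic forms in three variables without common factor have finitely many common zeros in the projective plane.  Proof without resultants: five
zeros, no two proportional, give a contradiction.  If three of them are on a line `ℓ = 0`, then `ℓ` divides all forms (`Z10.col`); if no three are on a line, then in the
coordinates of the first three the forms are `x y B_12 + y z B_23 + x z B_13`, and the other two zeros make all the forms proportional (`Z10.five`).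
`choose_q`: `q = t ℓ^2`, `ℓ` a linear form not vanishing at the finitely many zeros, `t` different from finitely many values. -/

set_option autoImplicit false

namespace Pool.Agent.Helper1.FK

open MvPolynomial
open scoped BigOperators
open Pool.Agent.Helper71.FL (w12 pf ct Dec Closed dd)
open Pool.Agent.Helper71.FC
open Pool.Agent.Helper93 (lsub lmap OF pb Cop)
open Pool.Agent.Helper1.FG (om7)

namespace Z10

theorem hom_eval {k : ℕ} {f : Pn 3} (h : f.IsHomogeneous k) (c : ℂ) (v : Fin 3 → ℂ) :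
    eval (c • v) f = c ^ k * eval v f := by
  rw [eval_eq, eval_eq, Finset.mul_sum]
  refine Finset.sum_congr rfl fun d hd => ?_
  have h2 : ∑ i ∈ d.support, d i = k := by
    have h3 : Finsupp.weight (fun _ : Fin 3 => (1 : ℕ)) d = k := h (mem_support_iff.1 hd)
    rw [← Finsupp.degree_eq_weight_one] at h3
    exact h3
  simp only [Pi.smul_apply, smul_eq_mul, mul_pow, Finset.prod_mul_distrib, Finset.prod_pow_eq_pow_sum, h2]
  ring

theorem cst {f : Pn 3} (h : f.IsHomogeneous 0) : ∃ c : ℂ, f = C c := by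
  have h2 : f.totalDegree = 0 := Nat.le_zero.1 h.totalDegree_le
  exact ⟨_, totalDegree_eq_zero_iff_eq_C.1 h2⟩

theorem lin {f : Pn 3} (h : f.IsHomogeneous 1) : ∃ a : Fin 3 → ℂ, ∀ v, eval v f = ∑ i, a i * v i := by
  have h1 := h.sum_X_mul_pderiv
  have h2 : ∀ i, ∃ c : ℂ, pderiv i f = C c := fun i => cst h.pderiv
  choose a ha using h2
  refine ⟨a, fun v => ?_⟩
  have h3 := congrArg (eval v) h1
  simp only [ha, map_sum, map_mul, eval_X, eval_C, one_smul] at h3
  rw [← h3]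
  exact Finset.sum_congr rfl fun i _ => mul_comm _ _

theorem quad {f : Pn 3} (h : f.IsHomogeneous 2) : ∃ a : Fin 3 → Fin 3 → ℂ,
    ∀ v, eval v f = ∑ i, ∑ j, a i j * v i * v j := by
  have h1 := h.sum_X_mul_pderiv
  have h2 : ∀ i, ∃ a : Fin 3 → ℂ, ∀ v, eval v (pderiv i f) = ∑ j, a j * v j := fun i => lin h.pderiv
  choose a ha using h2
  refine ⟨fun i j => a i j / 2, fun v => ?_⟩
  have h3 := congrArg (eval v) h1
  simp only [ha, map_sum, map_mul, eval_X, map_nsmul] at h3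
  have h4 : eval v f = (∑ i, v i * ∑ j, a i j * v j) / 2 := by
    rw [h3]
    simp
  rw [h4, Finset.sum_div]
  refine Finset.sum_congr rfl fun i _ => ?_
  rw [Finset.mul_sum, Finset.sum_div]
  exact Finset.sum_congr rfl fun j _ => by ring

/-- the polar form -/
def B (a : Fin 3 → Fin 3 → ℂ) (v w : Fin 3 → ℂ) : ℂ := ∑ i, ∑ j, (a i j * (v i * w j + w i * v j))

theorem quad_exp (a : Fin 3 → Fin 3 → ℂ) (p q w : Fin 3 → ℂ) (x y z : ℂ) :
    ∑ i, ∑ j, a i j * (x • p + y • q + z • w) i * (x • p + y • q + z • w) j =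
      x ^ 2 * (∑ i, ∑ j, a i j * p i * p j) + y ^ 2 * (∑ i, ∑ j, a i j * q i * q j) +
      z ^ 2 * (∑ i, ∑ j, a i j * w i * w j) + x * y * B a p q + y * z * B a q w + x * z * B a p w := by
  simp only [B, Fin.sum_univ_three, Pi.add_apply, Pi.smul_apply, smul_eq_mul]
  ring

def d3 (a b c : Fin 3 → ℂ) : ℂ :=
  a 0 * (b 1 * c 2 - b 2 * c 1) + a 1 * (b 2 * c 0 - b 0 * c 2) + a 2 * (b 0 * c 1 - b 1 * c 0)

theorem cram (a b c x : Fin 3 → ℂ) (i : Fin 3) :
    d3 a b c * x i = d3 x b c * a i + d3 a x c * b i + d3 a b x * c i := by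
  fin_cases i <;> simp [d3] <;> ring


theorem d3_rot (a b c : Fin 3 → ℂ) : d3 a b c = ∑ i, cr a b i * c i := by
  simp only [d3, cr, Fin.sum_univ_three]
  simp
  ring

theorem prop_of {p q : Fin 3 → ℂ} (hp : p ≠ 0) (hq : q ≠ 0) (h : cr p q = 0) :
    ∃ c : ℂ, c ≠ 0 ∧ p = c • q := by
  obtain ⟨j, hj⟩ : ∃ j, q j ≠ 0 := by
    by_contra hn
    push Not at hn
    exact hq (funext hn)
  have h0 : p 1 * q 2 - p 2 * q 1 = 0 := by simpa [cr] using congrFun h 0
  have h1 : p 2 * q 0 - p 0 * q 2 = 0 := by simpa [cr] using congrFun h 1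
  have h2 : p 0 * q 1 - p 1 * q 0 = 0 := by simpa [cr] using congrFun h 2
  have hk : ∀ i, p i * q j = p j * q i := by
    intro i
    fin_cases i <;> fin_cases j <;> simp <;> first | linear_combination h0 | linear_combination h1 | linear_combination h2 | linear_combination -h0 | linear_combination -h1 | linear_combination -h2
  have hpe : p = (p j / q j) • q := by
    funext i
    simp only [Pi.smul_apply, smul_eq_mul]
    rw [div_mul_eq_mul_div, eq_div_iff hj]
    exact hk i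
  refine ⟨p j / q j, ?_, hpe⟩
  intro h0
  rw [h0, zero_smul] at hpe
  exact hp hpe

theorem cr_self_smul (c : ℂ) (q : Fin 3 → ℂ) : cr (c • q) q = 0 := by
  funext i
  fin_cases i <;> simp [cr] <;> ring

theorem ex_w {p q : Fin 3 → ℂ} (h : cr p q ≠ 0) : ∃ w, d3 p q w ≠ 0 := by
  by_contra hn
  push Not at hn
  apply h
  funext i
  have h1 := hn (Pi.single i 1)
  rw [d3_rot] at h1
  simpa [Pi.single_apply] using h1

/-- the linear form with coefficients `n` -/
noncomputable def lz (n : Fin 3 → ℂ) : Pn 3 := ∑ i, C (n i) * X i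

theorem eval_lz (n v : Fin 3 → ℂ) : eval v (lz n) = ∑ i, n i * v i := by
  simp [lz]

theorem lz_hom (n : Fin 3 → ℂ) : (lz n).IsHomogeneous 1 := by
  unfold lz
  apply IsHomogeneous.sum
  intro i _
  have := (isHomogeneous_C (Fin 3) (n i)).mul (isHomogeneous_X ℂ i)
  simpa using this

theorem big_eq (a b c v : Fin 3 → ℂ) :
    d3 a b c • v = d3 v b c • a + d3 a v c • b + d3 a b v • c := by
  funext i
  have := cram a b c v i
  simpa using this

/-- a quadratic form in the coordinates of a basis -/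
theorem co {f : Pn 3} {α : Fin 3 → Fin 3 → ℂ} (hf : f.IsHomogeneous 2)
    (h : ∀ v, eval v f = ∑ i, ∑ j, α i j * v i * v j) (a b c v : Fin 3 → ℂ) :
    d3 a b c ^ 2 * eval v f = d3 v b c ^ 2 * eval a f + d3 a v c ^ 2 * eval b f +
      d3 a b v ^ 2 * eval c f + d3 v b c * d3 a v c * B α a b + d3 a v c * d3 a b v * B α b c +
      d3 v b c * d3 a b v * B α a c := by
  rw [← hom_eval hf, big_eq, h, h a, h b, h c]
  exact quad_exp α a b c _ _ _

theorem col {σ : F1 3} (hσ : H1 2 σ) (hc : Cop σ) {p q r : Fin 3 → ℂ} (hpq : cr p q ≠ 0)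
    (hpr : cr p r ≠ 0) (hqr : cr q r ≠ 0)
    (h1 : ∀ i, eval p (σ i) = 0) (h2 : ∀ i, eval q (σ i) = 0) (h3 : ∀ i, eval r (σ i) = 0) :
    d3 p q r ≠ 0 := by
  intro hd
  obtain ⟨w, hw⟩ := ex_w hpq
  choose α hα using fun i => quad (hσ i)
  have hx : d3 r q w ≠ 0 := by
    intro hx
    have h4 := big_eq p q w r
    rw [hx, hd, zero_smul, zero_smul, add_zero, zero_add] at h4
    apply hqr
    have h5 : r = ((d3 p q w)⁻¹ * d3 p r w) • q := by
      rw [mul_smul, ← h4, smul_smul, inv_mul_cancel₀ hw, one_smul]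
    rw [h5]
    funext i
    fin_cases i <;> simp [cr] <;> ring
  have hy : d3 p r w ≠ 0 := by
    intro hy
    have h4 := big_eq p q w r
    rw [hy, hd, zero_smul, zero_smul, add_zero, add_zero] at h4
    apply hpr
    have h5 : r = ((d3 p q w)⁻¹ * d3 r q w) • p := by
      rw [mul_smul, ← h4, smul_smul, inv_mul_cancel₀ hw, one_smul]
    rw [h5]
    funext i
    fin_cases i <;> simp [cr] <;> ring
  have hB : ∀ i, B (α i) p q = 0 := by
    intro i
    have h4 := co (hσ i) (hα i) p q w r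
    rw [h1, h2, h3, hd] at h4
    have h5 : d3 r q w * d3 p r w * B (α i) p q = 0 := by linear_combination -h4
    exact (mul_eq_zero.1 h5).resolve_left (mul_ne_zero hx hy)
  have hdiv : ∀ i, lz (cr p q) ∣ σ i := by
    intro i
    have h6 : C (d3 p q w ^ 2) * σ i = lz (cr p q) * (C (eval w (σ i)) * lz (cr p q) +
        C (B (α i) q w) * lz (cr w p) + C (B (α i) p w) * lz (cr q w)) := by
      apply MvPolynomial.funext
      intro v
      have h4 := co (hσ i) (hα i) p q w v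
      rw [h1, h2, hB] at h4
      simp only [map_mul, map_add, eval_C, eval_lz, ← d3_rot]
      have e1 : d3 w p v = d3 p v w := by simp only [d3]; ring
      have e2 : d3 q w v = d3 v q w := by simp only [d3]; ring
      rw [e1, e2, h4]
      ring
    have h7 : σ i = C ((d3 p q w ^ 2)⁻¹) * (C (d3 p q w ^ 2) * σ i) := by
      rw [← mul_assoc, ← C_mul, inv_mul_cancel₀ (pow_ne_zero 2 hw), C_1, one_mul]
    rw [h7, h6]
    exact (Dvd.intro _ rfl).mul_left _
  have h8 := (hc _ hdiv).map (eval p)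
  rw [eval_lz, ← d3_rot] at h8
  have h9 : d3 p q p = 0 := by simp only [d3]; ring
  rw [h9] at h8
  exact not_isUnit_zero h8

theorem five {σ : F1 3} (hσ : H1 2 σ) (hc : Cop σ) (p : Fin 5 → Fin 3 → ℂ)
    (hp : ∀ i j, i ≠ j → cr (p i) (p j) ≠ 0) (h0 : ∀ k i, eval (p k) (σ i) = 0) : False := by
  choose α hα using fun i => quad (hσ i)
  have hd : ∀ i j k, i ≠ j → i ≠ k → j ≠ k → d3 (p i) (p j) (p k) ≠ 0 := fun i j k h1 h2 h3 =>
    col hσ hc (hp i j h1) (hp i k h2) (hp j k h3) (h0 i) (h0 j) (h0 k)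
  have hD : d3 (p 0) (p 1) (p 2) ≠ 0 := hd 0 1 2 (by decide) (by decide) (by decide)
  have hz3 : d3 (p 0) (p 1) (p 3) ≠ 0 := hd 0 1 3 (by decide) (by decide) (by decide)
  have hz4 : d3 (p 0) (p 1) (p 4) ≠ 0 := hd 0 1 4 (by decide) (by decide) (by decide)
  have h34 : d3 (p 3) (p 4) (p 2) ≠ 0 := hd 3 4 2 (by decide) (by decide) (by decide)
  have hid : d3 (p 0) (p 1) (p 2) * d3 (p 3) (p 4) (p 2) =
      d3 (p 3) (p 1) (p 2) * d3 (p 0) (p 4) (p 2) - d3 (p 0) (p 3) (p 2) * d3 (p 4) (p 1) (p 2) := by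
    simp only [d3]; ring
  have key : ∀ i v, d3 (p 0) (p 1) (p 2) ^ 2 * eval v (σ i) =
      d3 v (p 1) (p 2) * d3 (p 0) v (p 2) * B (α i) (p 0) (p 1) +
      d3 (p 0) v (p 2) * d3 (p 0) (p 1) v * B (α i) (p 1) (p 2) +
      d3 v (p 1) (p 2) * d3 (p 0) (p 1) v * B (α i) (p 0) (p 2) := by
    intro i v
    have h4 := co (hσ i) (hα i) (p 0) (p 1) (p 2) v
    rw [h0, h0, h0] at h4
    rw [h4]
    ring
  obtain ⟨x3, hx3⟩ : ∃ x, x = d3 (p 3) (p 1) (p 2) := ⟨_, rfl⟩
  obtain ⟨y3, hy3⟩ : ∃ x, x = d3 (p 0) (p 3) (p 2) := ⟨_, rfl⟩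
  obtain ⟨z3, hz3'⟩ : ∃ x, x = d3 (p 0) (p 1) (p 3) := ⟨_, rfl⟩
  obtain ⟨x4, hx4⟩ : ∃ x, x = d3 (p 4) (p 1) (p 2) := ⟨_, rfl⟩
  obtain ⟨y4, hy4⟩ : ∃ x, x = d3 (p 0) (p 4) (p 2) := ⟨_, rfl⟩
  obtain ⟨z4, hz4'⟩ : ∃ x, x = d3 (p 0) (p 1) (p 4) := ⟨_, rfl⟩
  have e3 : ∀ i, x3 * y3 * B (α i) (p 0) (p 1) + y3 * z3 * B (α i) (p 1) (p 2) +
      x3 * z3 * B (α i) (p 0) (p 2) = 0 := by
    intro i
    have := key i (p 3)
    rw [h0, mul_zero, ← hx3, ← hy3, ← hz3'] at this
    exact this.symm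
  have e4 : ∀ i, x4 * y4 * B (α i) (p 0) (p 1) + y4 * z4 * B (α i) (p 1) (p 2) +
      x4 * z4 * B (α i) (p 0) (p 2) = 0 := by
    intro i
    have := key i (p 4)
    rw [h0, mul_zero, ← hx4, ← hy4, ← hz4'] at this
    exact this.symm
  rw [← hx3, ← hy4, ← hy3, ← hx4] at hid
  rw [← hz3'] at hz3
  rw [← hz4'] at hz4
  have hn : z3 * z4 * (x3 * y4 - y3 * x4) ≠ 0 := by
    rw [← hid]
    exact mul_ne_zero (mul_ne_zero hz3 hz4) (mul_ne_zero hD h34)
  have r1 : ∀ i, z3 * z4 * (x3 * y4 - y3 * x4) * B (α i) (p 1) (p 2) =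
      x3 * x4 * (z4 * y3 - z3 * y4) * B (α i) (p 0) (p 1) := by
    intro i
    linear_combination (x3 * z3) * e4 i - (x4 * z4) * e3 i
  have r2 : ∀ i, z3 * z4 * (x3 * y4 - y3 * x4) * B (α i) (p 0) (p 2) =
      y3 * y4 * (z3 * x4 - z4 * x3) * B (α i) (p 0) (p 1) := by
    intro i
    linear_combination (y4 * z4) * e3 i - (y3 * z3) * e4 i
  have pr : ∀ i j v, B (α i) (p 0) (p 1) * eval v (σ j) = B (α j) (p 0) (p 1) * eval v (σ i) := by
    intro i j v
    have hh : z3 * z4 * (x3 * y4 - y3 * x4) * d3 (p 0) (p 1) (p 2) ^ 2 ≠ 0 :=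
      mul_ne_zero hn (pow_ne_zero 2 hD)
    apply mul_left_cancel₀ hh
    have k1 := key i v
    have k2 := key j v
    linear_combination (z3 * z4 * (x3 * y4 - y3 * x4)) * B (α i) (p 0) (p 1) * k2 -
      (z3 * z4 * (x3 * y4 - y3 * x4)) * B (α j) (p 0) (p 1) * k1 +
      B (α i) (p 0) (p 1) * (d3 (p 0) v (p 2) * d3 (p 0) (p 1) v * r1 j +
        d3 v (p 1) (p 2) * d3 (p 0) (p 1) v * r2 j) -
      B (α j) (p 0) (p 1) * (d3 (p 0) v (p 2) * d3 (p 0) (p 1) v * r1 i +
        d3 v (p 1) (p 2) * d3 (p 0) (p 1) v * r2 i)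
  by_cases hj : ∃ j, B (α j) (p 0) (p 1) ≠ 0
  · obtain ⟨j, hj⟩ := hj
    have hdiv : ∀ i, σ j ∣ σ i := by
      intro i
      refine ⟨C (B (α i) (p 0) (p 1) / B (α j) (p 0) (p 1)), ?_⟩
      apply MvPolynomial.funext
      intro v
      rw [map_mul, eval_C, mul_div_assoc', eq_div_iff hj]
      linear_combination pr j i v
    have h8 := (hc _ hdiv).map (eval (p 0))
    rw [h0] at h8
    exact not_isUnit_zero h8
  · push Not at hj
    have hz : ∀ i, σ i = 0 := by
      intro i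
      apply MvPolynomial.funext
      intro v
      have k1 := key i v
      have a1 := r1 i
      have a2 := r2 i
      rw [hj, mul_zero] at a1 a2
      have b1 := (mul_eq_zero.1 a1).resolve_left hn
      have b2 := (mul_eq_zero.1 a2).resolve_left hn
      rw [hj, b1, b2, mul_zero, mul_zero, mul_zero, add_zero, add_zero] at k1
      rw [map_zero]
      exact (mul_eq_zero.1 k1).resolve_left (pow_ne_zero 2 hD)
    have h8 := hc 0 (fun i => by rw [hz i])
    exact not_isUnit_zero h8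

/-- a point outside the zero set of finitely many non-zero polynomials -/
theorem ex_pt {ι : Type} (F : Finset ι) (P : ι → Polynomial ℂ) (h : ∀ i ∈ F, P i ≠ 0) :
    ∃ s : ℂ, ∀ i ∈ F, (P i).eval s ≠ 0 := by
  by_contra hn
  push Not at hn
  have h1 : ∏ i ∈ F, P i = 0 := by
    apply Polynomial.funext
    intro s
    obtain ⟨i, hi, h2⟩ := hn s
    rw [Polynomial.eval_prod, Polynomial.eval_zero]
    exact Finset.prod_eq_zero hi h2
  exact (Finset.prod_ne_zero_iff.2 h) h1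

end Z10

open Z10 in
theorem fin_zero {σ : F1 3} (hσ : H1 2 σ) (hc : Cop σ) : ∃ F : Finset (Fin 3 → ℂ),
    (∀ p ∈ F, p ≠ 0) ∧ ∀ p : Fin 3 → ℂ, p ≠ 0 → (∀ i, eval p (σ i) = 0) →
      ∃ p0 ∈ F, ∃ c : ℂ, c ≠ 0 ∧ p = c • p0 := by
  classical
  by_contra hn
  push Not at hn
  have hstep : ∀ F : Finset (Fin 3 → ℂ), (∀ p ∈ F, p ≠ 0) → ∃ p : Fin 3 → ℂ, p ≠ 0 ∧
      (∀ i, eval p (σ i) = 0) ∧ ∀ p0 ∈ F, cr p p0 ≠ 0 ∧ cr p0 p ≠ 0 := by
    intro F hF
    obtain ⟨p, hp, h1, h2⟩ := hn F hF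
    refine ⟨p, hp, h1, fun p0 h0 => ?_⟩
    have h3 : cr p p0 ≠ 0 := by
      intro h3
      obtain ⟨c, hc1, hc2⟩ := prop_of hp (hF p0 h0) h3
      exact h2 p0 h0 c hc1 hc2
    refine ⟨h3, fun h4 => h3 ?_⟩
    funext i
    have h5 := congrFun h4 i
    fin_cases i <;> simp [cr] at h5 ⊢ <;> linear_combination -h5
  obtain ⟨p1, n1, z1, -⟩ := hstep ∅ (by simp)
  obtain ⟨p2, n2, z2, c2⟩ := hstep {p1} (by simpa using n1)
  obtain ⟨p3, n3, z3, c3⟩ := hstep {p1, p2} (by simpa using ⟨n1, n2⟩)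
  obtain ⟨p4, n4, z4, c4⟩ := hstep {p1, p2, p3} (by simpa using ⟨n1, n2, n3⟩)
  obtain ⟨p5, n5, z5, c5⟩ := hstep {p1, p2, p3, p4} (by simpa using ⟨n1, n2, n3, n4⟩)
  simp only [Finset.mem_singleton, Finset.mem_insert, forall_eq_or_imp, forall_eq] at c2 c3 c4 c5
  refine five hσ hc ![p1, p2, p3, p4, p5] ?_ ?_
  · intro i j hij
    fin_cases i <;> fin_cases j <;> simp at hij ⊢ <;> first
      | exact c2.1 | exact c2.2 | exact c3.1.1 | exact c3.1.2 | exact c3.2.1 | exact c3.2.2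
      | exact c4.1.1 | exact c4.1.2 | exact c4.2.1.1 | exact c4.2.1.2 | exact c4.2.2.1
      | exact c4.2.2.2 | exact c5.1.1 | exact c5.1.2 | exact c5.2.1.1 | exact c5.2.1.2
      | exact c5.2.2.1.1 | exact c5.2.2.1.2 | exact c5.2.2.2.1 | exact c5.2.2.2.2
  · intro k i
    fin_cases k
    · exact z1 i
    · exact z2 i
    · exact z3 i
    · exact z4 i
    · exact z5 i

open Z10 in
theorem choose_q {σ u U : F1 3} (hσ : H1 2 σ) (hc : Cop σ) (hu : H1 1 u) (hU : H1 3 U)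
    (h : ∀ p : Fin 3 → ℂ, p ≠ 0 → (∀ i, eval p (σ i) = 0) →
      ¬ ((∀ i, eval p (u i) = 0) ∧ ∀ i, eval p (U i) = 0)) :
    ∃ q : Pn 3, q.IsHomogeneous 2 ∧ ∀ p : Fin 3 → ℂ, (∀ i, eval p (σ i) = 0) →
      (∀ i, eval p (q * u i + U i) = 0) → p = 0 := by
  classical
  obtain ⟨F, hF0, hF⟩ := fin_zero hσ hc
  -- the linear form
  obtain ⟨s, hs⟩ := ex_pt F (fun p => Polynomial.C (p 0) + Polynomial.C (p 1) * Polynomial.X +
      Polynomial.C (p 2) * Polynomial.X ^ 2) (by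
    intro p hp h0
    apply hF0 p hp
    have e0 := congrArg (fun P => Polynomial.coeff P 0) h0
    have e1 := congrArg (fun P => Polynomial.coeff P 1) h0
    have e2 := congrArg (fun P => Polynomial.coeff P 2) h0
    simp [Polynomial.coeff_X, Polynomial.coeff_C, Polynomial.coeff_X_pow] at e0 e1 e2
    funext i
    fin_cases i
    · exact e0
    · exact e1
    · exact e2)
  have hl : ∀ p ∈ F, eval p (lz ![1, s, s ^ 2]) ≠ 0 := by
    intro p hp h0
    apply hs p hp
    rw [eval_lz] at h0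
    simp [Fin.sum_univ_three] at h0 ⊢
    linear_combination h0
  -- the scalar
  have hR : ∀ p : Fin 3 → ℂ, ∃ P : Polynomial ℂ, P ≠ 0 ∧ (p ∈ F → (∀ i, eval p (σ i) = 0) →
      ∃ i, P = Polynomial.C (eval p (lz ![1, s, s ^ 2]) ^ 2 * eval p (u i)) * Polynomial.X +
        Polynomial.C (eval p (U i))) := by
    intro p
    by_cases hp : p ∈ F ∧ ∀ i, eval p (σ i) = 0
    · obtain ⟨hp1, hp2⟩ := hp
      by_cases hu0 : ∀ i, eval p (u i) = 0
      · have h1 : ∃ i, eval p (U i) ≠ 0 := by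
          by_contra hn
          push Not at hn
          exact h p (hF0 p hp1) hp2 ⟨hu0, hn⟩
        obtain ⟨i, hi⟩ := h1
        refine ⟨_, ?_, fun _ _ => ⟨i, rfl⟩⟩
        intro h2
        have e0 := congrArg (fun P => Polynomial.coeff P 0) h2
        simp at e0
        exact hi e0
      · push Not at hu0
        obtain ⟨i, hi⟩ := hu0
        refine ⟨_, ?_, fun _ _ => ⟨i, rfl⟩⟩
        intro h2
        have e0 := congrArg (fun P => Polynomial.coeff P 1) h2
        rw [Polynomial.coeff_add, Polynomial.coeff_C_mul, Polynomial.coeff_X_one, mul_one,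
          Polynomial.coeff_C_of_ne_zero one_ne_zero, add_zero, Polynomial.coeff_zero] at e0
        rcases mul_eq_zero.1 e0 with e0 | e0
        · exact hl p hp1 ((pow_eq_zero_iff two_ne_zero).1 e0)
        · exact hi e0
    · exact ⟨1, one_ne_zero, fun h1 h2 => absurd ⟨h1, h2⟩ hp⟩
  choose R hR0 hR1 using hR
  obtain ⟨t, ht⟩ := ex_pt F R (fun p _ => hR0 p)
  have hq : (C t * lz ![1, s, s ^ 2] ^ 2 : Pn 3).IsHomogeneous 2 := by
    have := (isHomogeneous_C (Fin 3) t).mul ((lz_hom ![1, s, s ^ 2]).pow 2)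
    simpa using this
  refine ⟨C t * lz ![1, s, s ^ 2] ^ 2, hq, fun p h1 h2 => ?_⟩
  by_contra hp
  obtain ⟨p0, hp0, c, hc0, rfl⟩ := hF p hp h1
  have g1 : ∀ i, eval p0 (σ i) = 0 := by
    intro i
    have := h1 i
    rw [hom_eval (hσ i)] at this
    exact (mul_eq_zero.1 this).resolve_left (pow_ne_zero 2 hc0)
  obtain ⟨i, hi⟩ := hR1 p0 hp0 g1
  apply ht p0 hp0
  have g2 := h2 i
  have hh : (C t * lz ![1, s, s ^ 2] ^ 2 * u i + U i : Pn 3).IsHomogeneous 3 :=
    (hq.mul (hu i)).add (hU i)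
  rw [hom_eval hh] at g2
  have g3 := (mul_eq_zero.1 g2).resolve_left (pow_ne_zero 3 hc0)
  rw [hi]
  simp only [map_add, map_mul, map_pow, eval_C] at g3
  simp only [Polynomial.eval_add, Polynomial.eval_mul, Polynomial.eval_C, Polynomial.eval_X]
  linear_combination g3

end Pool.Agent.Helper1.FK
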