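import Pool.Agent.Helper1.FK.Main
import Pool.Agent.Helper71.FC.Class

/-! The interface statement `IW2` of the classification. -/

set_option autoImplicit false

namespace Pool.Agent.Helper1.FK

open Pool.Agent.Helper71.FC

theorem iw2 : IW2 := fun n hn θ h hc e0 e1 σ hσ hσ0 ⟨D, hD, hv⟩ =>
  iw3 n hn θ h hc e0 e1 σ hσ hσ0 D hD hv

end Pool.Agent.Helper1.FK
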