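import Pool.Agent.Helper1.FK.M1b

/-! FK-6: `m ≠ 0`.  Linear change of coordinates with `mg m g = (1,0,0)`, `m1_normal`, `m1_dC` for the new data, back with `Case*_gauge`, `Case*_pb`. -/

set_option autoImplicit false

namespace Pool.Agent.Helper1.FK

open MvPolynomial
open scoped BigOperators
open Pool.Agent.Helper71.FL (w12 pf ct Dec Closed dd)
open Pool.Agent.Helper71.FC
open Pool.Agent.Helper93 (lsub lmap OF pb Cop)
open Pool.Agent.Helper1.FG (om7)

private theorem m1x_chg {m : Fin 3 → ℂ} (hm : m ≠ 0) :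
    ∃ g g' : Fin 3 → Fin 3 → ℂ, Inv g g' ∧ mg m g = ![1, 0, 0] := by
  by_cases h0 : m 0 = 0
  · by_cases h1 : m 1 = 0
    · have h2 : m 2 ≠ 0 := by
        intro h2
        apply hm
        funext i
        fin_cases i
        · exact h0
        · exact h1
        · exact h2
      refine ⟨![![0, 1, 0], ![0, 0, 1], ![1 / m 2, - m 0 / m 2, - m 1 / m 2]],
        ![![m 0, m 1, m 2], ![1, 0, 0], ![0, 1, 0]], ⟨?_, ?_⟩, ?_⟩
      · funext i j
        fin_cases i <;> fin_cases j <;> simp [mm, idm, Fin.sum_univ_three] <;> field_simp <;> ring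
      · funext i j
        fin_cases i <;> fin_cases j <;> simp [mm, idm, Fin.sum_univ_three] <;> field_simp <;> ring
      · funext i
        fin_cases i <;> simp [mg, Fin.sum_univ_three] <;> field_simp <;> ring
    · refine ⟨![![0, 1, 0], ![1 / m 1, - m 0 / m 1, - m 2 / m 1], ![0, 0, 1]],
        ![![m 0, m 1, m 2], ![1, 0, 0], ![0, 0, 1]], ⟨?_, ?_⟩, ?_⟩
      · funext i j
        fin_cases i <;> fin_cases j <;> simp [mm, idm, Fin.sum_univ_three] <;> field_simp <;> ring
      · funext i j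
        fin_cases i <;> fin_cases j <;> simp [mm, idm, Fin.sum_univ_three] <;> field_simp <;> ring
      · funext i
        fin_cases i <;> simp [mg, Fin.sum_univ_three] <;> field_simp <;> ring
  · refine ⟨![![1 / m 0, - m 1 / m 0, - m 2 / m 0], ![0, 1, 0], ![0, 0, 1]],
      ![![m 0, m 1, m 2], ![0, 1, 0], ![0, 0, 1]], ⟨?_, ?_⟩, ?_⟩
    · funext i j
      fin_cases i <;> fin_cases j <;> simp [mm, idm, Fin.sum_univ_three] <;> field_simp <;> ring
    · funext i j
      fin_cases i <;> fin_cases j <;> simp [mm, idm, Fin.sum_univ_three] <;> field_simp <;> ring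
    · funext i
      fin_cases i <;> simp [mg, Fin.sum_univ_three] <;> field_simp <;> ring

theorem m1 {m : Fin 3 → ℂ} (hm : m ≠ 0) {σ : F1 3} {θ0 : F2 3} (h : RD m σ θ0)
    (hn : ∀ q : Pn 3, ¬ ∀ i, σ i = q * C (m i)) : OutM m σ θ0 := by
  obtain ⟨g, g', hg, hmg⟩ := m1x_chg hm
  have h1 := RD_pb hg h
  rw [hmg] at h1
  have hn1 : ∀ q : Pn 3, ¬ ∀ i, pb g σ i = q * C ((![1, 0, 0] : Fin 3 → ℂ) i) := by
    intro q hq
    apply hn (lsub g' q)
    have h2 : pb g σ = fun i => q * pb g (cv m) i := by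
      funext i
      rw [hq i, pb_cv]
      have h3 : (∑ j, m j * g j i) = (![1, 0, 0] : Fin 3 → ℂ) i := congrFun hmg i
      rw [h3]
    have h4 := congrArg (pb g') h2
    rw [pb_smul, pb_mm, pb_mm, hg.1, pb_idm, pb_idm] at h4
    intro i
    exact congrFun h4 i
  obtain ⟨q0, C3, hq0, hC3, hgS, ⟨h12, hl⟩, hn2⟩ := m1_normal h1 hn1
  have h5 := RD_gauge h1 hq0
  have h6 : gS ![1, 0, 0] (pb g σ) q0 = df C3 := funext hgS
  rw [h6] at h5
  have h7 := m1_dC hC3 h5 h12 hl hn2
  rw [← h6] at h7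
  rcases h7 with h8 | h8 | h8
  · refine Or.inl (CaseA_pb hg ?_)
    rw [hmg]
    exact CaseA_gauge hq0 h8
  · refine Or.inr (Or.inl (CaseB_pb hg ?_))
    rw [hmg]
    exact CaseB_gauge hq0 h8
  · refine Or.inr (Or.inr (Case122_pb hg ?_))
    rw [hmg]
    exact Case122_gauge hq0 h8

end Pool.Agent.Helper1.FK
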