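import Pool.Agent.Helper1.FK.Defs

/-! FK-3: vector calculus in three variables (everything is an identity of index functions, `fin_cases` and `ring`).
`ct v ω = cr (st ω) v`; `st (w11 a b) = cr a b`; `w12 a ω 0 1 2 = pair a (st ω)`; the curl of a cross product of LINEAR fields; division lemmas:
`cr a b = 0` with `Cop b` gives `a = h b` (helper50's `div1_hom`). -/

set_option autoImplicit false

namespace Pool.Agent.Helper1.FK

open MvPolynomial
open scoped BigOperators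
open Pool.Agent.Helper71.FL (w12 pf ct Dec Closed dd)
open Pool.Agent.Helper71.FC
open Pool.Agent.Helper93 (lsub lmap OF pb Cop)
open Pool.Agent.Helper1.FG (om7)

variable {A : Type} [CommRing A]

theorem st_w11 (a b : Fin 3 → A) : st (w11 a b) = cr a b := by
  funext i
  fin_cases i <;> rfl

theorem ct_eq (v : Fin 3 → A) {ω : Fin 3 → Fin 3 → A} (h0 : ∀ i, ω i i = 0)
    (h1 : ∀ i j, ω i j = - ω j i) (j : Fin 3) : ct v ω j = cr (st ω) v j := by
  have e0 : (st ω) 0 = ω 1 2 := rfl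
  have e1 : (st ω) 1 = ω 2 0 := rfl
  have e2 : (st ω) 2 = ω 0 1 := rfl
  unfold ct
  rw [Fin.sum_univ_three]
  fin_cases j
  · change v 0 * ω 0 0 + v 1 * ω 1 0 + v 2 * ω 2 0 = (st ω) 1 * v 2 - (st ω) 2 * v 1
    rw [e1, e2, h0 0, h1 1 0]
    ring
  · change v 0 * ω 0 1 + v 1 * ω 1 1 + v 2 * ω 2 1 = (st ω) 2 * v 0 - (st ω) 0 * v 2
    rw [e2, e0, h0 1, h1 2 1]
    ring
  · change v 0 * ω 0 2 + v 1 * ω 1 2 + v 2 * ω 2 2 = (st ω) 0 * v 1 - (st ω) 1 * v 0
    rw [e0, e1, h0 2, h1 0 2]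
    ring

private theorem w12_all {a : Fin 3 → A} {ω : Fin 3 → Fin 3 → A} (h0 : ∀ i, ω i i = 0)
    (h1 : ∀ i j, ω i j = - ω j i)
    (h : a 0 * ω 1 2 + a 1 * ω 2 0 + a 2 * ω 0 1 = 0) (i j k : Fin 3) : w12 a ω i j k = 0 := by
  have h10 := h1 1 0
  have h21 := h1 2 1
  have h02 := h1 0 2
  have z0 := h0 0
  have z1 := h0 1
  have z2 := h0 2
  fin_cases i <;> fin_cases j <;> fin_cases k <;>
    simp only [w12, Fin.zero_eta, Fin.mk_one, Fin.reduceFinMk, h10, h21, h02, z0, z1, z2] <;>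
    first
      | ring1
      | linear_combination (exp := 1) h
      | linear_combination (exp := 1) -h

theorem w12_pair {a : Fin 3 → A} {ω : Fin 3 → Fin 3 → A} (h0 : ∀ i, ω i i = 0)
    (h1 : ∀ i j, ω i j = - ω j i) : (∀ i j k, w12 a ω i j k = 0) ↔ pair a (st ω) = 0 := by
  have e : pair a (st ω) = a 0 * ω 1 2 + a 1 * ω 2 0 + a 2 * ω 0 1 := by
    unfold pair
    rw [Fin.sum_univ_three]
    rfl
  rw [e]
  constructor
  · intro h
    have := h 0 1 2
    unfold w12 at this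
    exact this
  · intro h i j k
    exact w12_all h0 h1 h i j k

theorem st_inj {ω ω' : Fin 3 → Fin 3 → A} (h0 : ∀ i, ω i i = 0) (h1 : ∀ i j, ω i j = - ω j i)
    (h0' : ∀ i, ω' i i = 0) (h1' : ∀ i j, ω' i j = - ω' j i) (h : st ω = st ω') (i j : Fin 3) :
    ω i j = ω' i j := by
  have e12 : ω 1 2 = ω' 1 2 := congrFun h 0
  have e20 : ω 2 0 = ω' 2 0 := congrFun h 1
  have e01 : ω 0 1 = ω' 0 1 := congrFun h 2
  fin_cases i <;> fin_cases j
  · exact (h0 0).trans (h0' 0).symm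
  · exact e01
  · change ω 0 2 = ω' 0 2
    rw [h1 0 2, h1' 0 2, e20]
  · change ω 1 0 = ω' 1 0
    rw [h1 1 0, h1' 1 0, e01]
  · exact (h0 1).trans (h0' 1).symm
  · exact e12
  · exact e20
  · change ω 2 1 = ω' 2 1
    rw [h1 2 1, h1' 2 1, e12]
  · exact (h0 2).trans (h0' 2).symm

theorem closed_iff {ω : F2 3} (h0 : ∀ i, ω i i = 0) (h1 : ∀ i j, ω i j = - ω j i) :
    Closed ω ↔ ∑ i, pderiv i (st ω i) = 0 := by
  have e : ∑ i, pderiv i (st ω i) = pderiv 0 (ω 1 2) + pderiv 1 (ω 2 0) + pderiv 2 (ω 0 1) := by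
    rw [Fin.sum_univ_three]
    rfl
  rw [e]
  constructor
  · intro h
    exact h 0 1 2
  · intro h i j k
    have h10 := h1 1 0
    have h21 := h1 2 1
    have h02 := h1 0 2
    have z0 := h0 0
    have z1 := h0 1
    have z2 := h0 2
    fin_cases i <;> fin_cases j <;> fin_cases k <;>
      simp only [Fin.zero_eta, Fin.mk_one, Fin.reduceFinMk, h10, h21, h02, z0, z1, z2, map_neg,
        map_zero] <;>
      first
        | ring1
        | linear_combination (exp := 1) h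
        | linear_combination (exp := 1) -h

private theorem prim_ne {n : ℕ} {μ : Fin n → Pn n} (h : Cop μ) : ∃ i, μ i ≠ 0 := by
  by_contra hc
  push Not at hc
  exact not_isUnit_zero (h 0 (fun i => by rw [hc i]))

private theorem w11_of_cr {a b : Fin 3 → A} (h : ∀ i, cr a b i = 0) (i j : Fin 3) :
    w11 a b i j = 0 := by
  have z0 : a 1 * b 2 - a 2 * b 1 = 0 := h 0
  have z1 : a 2 * b 0 - a 0 * b 2 = 0 := h 1
  have z2 : a 0 * b 1 - a 1 * b 0 = 0 := h 2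
  fin_cases i <;> fin_cases j <;>
    simp only [w11, Fin.zero_eta, Fin.mk_one, Fin.reduceFinMk] <;>
    first
      | ring1
      | linear_combination z0
      | linear_combination -z0
      | linear_combination z1
      | linear_combination -z1
      | linear_combination z2
      | linear_combination -z2

private theorem H1.cr {a b : F1 3} {k l : ℕ} (ha : H1 k a) (hb : H1 l b) : H1 (k + l) (cr a b) := by
  intro i
  fin_cases i
  · exact ((ha 1).mul (hb 2)).sub ((ha 2).mul (hb 1))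
  · exact ((ha 2).mul (hb 0)).sub ((ha 0).mul (hb 2))
  · exact ((ha 0).mul (hb 1)).sub ((ha 1).mul (hb 0))

/-- `pair U (cr v1 v2) = 0` and `cr v1 v2` without common factor: `U` is a combination of `v1`, `v2` -/
theorem ker_two {v1 v2 : F1 3} (h1 : H1 1 v1) (h2 : H1 1 v2) (hc : Cop (cr v1 v2)) {d : ℕ}
    {U : F1 3} (hU : H1 (d + 1) U) (h : pair U (cr v1 v2) = 0) :
    ∃ A1 A2 : Pn 3, A1.IsHomogeneous d ∧ A2.IsHomogeneous d ∧ ∀ i, U i = A1 * v1 i + A2 * v2 i := by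
  have hs : H1 (1 + 1) (FK.cr v1 v2) := h1.cr h2
  have hUs : U 0 * (v1 1 * v2 2 - v1 2 * v2 1) + U 1 * (v1 2 * v2 0 - v1 0 * v2 2) +
      U 2 * (v1 0 * v2 1 - v1 1 * v2 0) = 0 := by
    have : pair U (FK.cr v1 v2) = U 0 * (v1 1 * v2 2 - v1 2 * v2 1) +
      U 1 * (v1 2 * v2 0 - v1 0 * v2 2) + U 2 * (v1 0 * v2 1 - v1 1 * v2 0) := by
      unfold pair
      rw [Fin.sum_univ_three]
      rfl
    rw [← this, h]
  have key : ∀ v : F1 3, (v = v1 ∨ v = v2) → ∀ i, FK.cr (FK.cr v U) (FK.cr v1 v2) i = 0 := by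
    rintro v (rfl | rfl) i <;> fin_cases i
    · change (v 2 * U 0 - v 0 * U 2) * (v 0 * v2 1 - v 1 * v2 0) -
        (v 0 * U 1 - v 1 * U 0) * (v 2 * v2 0 - v 0 * v2 2) = 0
      linear_combination (-v 0) * hUs
    · change (v 0 * U 1 - v 1 * U 0) * (v 1 * v2 2 - v 2 * v2 1) -
        (v 1 * U 2 - v 2 * U 1) * (v 0 * v2 1 - v 1 * v2 0) = 0
      linear_combination (-v 1) * hUs
    · change (v 1 * U 2 - v 2 * U 1) * (v 2 * v2 0 - v 0 * v2 2) -
        (v 2 * U 0 - v 0 * U 2) * (v 1 * v2 2 - v 2 * v2 1) = 0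
      linear_combination (-v 2) * hUs
    · change (v 2 * U 0 - v 0 * U 2) * (v1 0 * v 1 - v1 1 * v 0) -
        (v 0 * U 1 - v 1 * U 0) * (v1 2 * v 0 - v1 0 * v 2) = 0
      linear_combination (-v 0) * hUs
    · change (v 0 * U 1 - v 1 * U 0) * (v1 1 * v 2 - v1 2 * v 1) -
        (v 1 * U 2 - v 2 * U 1) * (v1 0 * v 1 - v1 1 * v 0) = 0
      linear_combination (-v 1) * hUs
    · change (v 1 * U 2 - v 2 * U 1) * (v1 2 * v 0 - v1 0 * v 2) -
        (v 2 * U 0 - v 0 * U 2) * (v1 1 * v 2 - v1 2 * v 1) = 0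
      linear_combination (-v 2) * hUs
  have hp : Pool.Agent.Helper50.FC.Prim (FK.cr v1 v2) := hc
  obtain ⟨g2, hg2, -, e2⟩ := Pool.Agent.Helper50.FC.div1_hom hp
    (w11_of_cr (key v1 (Or.inl rfl))) (h1.cr hU) hs
  obtain ⟨g1, hg1, -, e1⟩ := Pool.Agent.Helper50.FC.div1_hom hp
    (w11_of_cr (key v2 (Or.inr rfl))) (h2.cr hU) hs
  have hd : 1 + (d + 1) - (1 + 1) = d := by omega
  rw [hd] at hg1 hg2
  refine ⟨-g1, g2, hg1.neg, hg2, ?_⟩
  let R : F1 3 := fun i => U i - (-g1 * v1 i + g2 * v2 i)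
  obtain ⟨i0, hi0⟩ := prim_ne hc
  have a0 : v1 1 * U 2 - v1 2 * U 1 = g2 * (v1 1 * v2 2 - v1 2 * v2 1) := e2 0
  have a1 : v1 2 * U 0 - v1 0 * U 2 = g2 * (v1 2 * v2 0 - v1 0 * v2 2) := e2 1
  have a2 : v1 0 * U 1 - v1 1 * U 0 = g2 * (v1 0 * v2 1 - v1 1 * v2 0) := e2 2
  have b0 : v2 1 * U 2 - v2 2 * U 1 = g1 * (v1 1 * v2 2 - v1 2 * v2 1) := e1 0
  have b1 : v2 2 * U 0 - v2 0 * U 2 = g1 * (v1 2 * v2 0 - v1 0 * v2 2) := e1 1
  have b2 : v2 0 * U 1 - v2 1 * U 0 = g1 * (v1 0 * v2 1 - v1 1 * v2 0) := e1 2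
  have r1 : ∀ i, FK.cr v1 R i = 0 := by
    intro i
    fin_cases i
    · change v1 1 * (U 2 - (-g1 * v1 2 + g2 * v2 2)) - v1 2 * (U 1 - (-g1 * v1 1 + g2 * v2 1)) = 0
      linear_combination a0
    · change v1 2 * (U 0 - (-g1 * v1 0 + g2 * v2 0)) - v1 0 * (U 2 - (-g1 * v1 2 + g2 * v2 2)) = 0
      linear_combination a1
    · change v1 0 * (U 1 - (-g1 * v1 1 + g2 * v2 1)) - v1 1 * (U 0 - (-g1 * v1 0 + g2 * v2 0)) = 0
      linear_combination a2
  have r2 : ∀ i, FK.cr v2 R i = 0 := by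
    intro i
    fin_cases i
    · change v2 1 * (U 2 - (-g1 * v1 2 + g2 * v2 2)) - v2 2 * (U 1 - (-g1 * v1 1 + g2 * v2 1)) = 0
      linear_combination b0
    · change v2 2 * (U 0 - (-g1 * v1 0 + g2 * v2 0)) - v2 0 * (U 2 - (-g1 * v1 2 + g2 * v2 2)) = 0
      linear_combination b1
    · change v2 0 * (U 1 - (-g1 * v1 1 + g2 * v2 1)) - v2 1 * (U 0 - (-g1 * v1 0 + g2 * v2 0)) = 0
      linear_combination b2
  have c1 := fun i j => w11_of_cr r1 i j
  have c2 := fun i j => w11_of_cr r2 i j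
  have hR : ∀ k, R k = 0 := by
    intro k
    have hz : ∀ i j, R k * R k * (v1 i * v2 j - v1 j * v2 i) = 0 := by
      intro i j
      have x1 := c1 i k
      have x2 := c1 j k
      have y1 := c2 i k
      have y2 := c2 j k
      unfold w11 at x1 x2 y1 y2
      linear_combination (R k * v2 j) * x1 - (R k * v2 i) * x2 + (v1 k * R i) * y2 - (v1 k * R j) * y1
    have hz' : R k * R k * FK.cr v1 v2 i0 = 0 := by
      fin_cases i0
      · exact hz 1 2
      · exact hz 2 0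
      · exact hz 0 1
    rcases mul_eq_zero.1 hz' with h3 | h3
    · exact mul_self_eq_zero.1 h3
    · exact absurd h3 hi0
  intro i
  have := hR i
  exact sub_eq_zero.1 this

/-- the curl of a cross product -/
theorem curl_cr (v1 v2 : F1 3) (i : Fin 3) : st (dd (cr v1 v2)) i =
    v1 i * (∑ j, pderiv j (v2 j)) - v2 i * (∑ j, pderiv j (v1 j)) +
      (∑ j, v2 j * pderiv j (v1 i)) - ∑ j, v1 j * pderiv j (v2 i) := by
  rw [Fin.sum_univ_three, Fin.sum_univ_three, Fin.sum_univ_three, Fin.sum_univ_three]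
  fin_cases i
  · change pderiv 1 (v1 0 * v2 1 - v1 1 * v2 0) - pderiv 2 (v1 2 * v2 0 - v1 0 * v2 2) =
      v1 0 * _ - v2 0 * _ + (v2 0 * pderiv 0 (v1 0) + v2 1 * pderiv 1 (v1 0) +
        v2 2 * pderiv 2 (v1 0)) - (v1 0 * pderiv 0 (v2 0) + v1 1 * pderiv 1 (v2 0) +
        v1 2 * pderiv 2 (v2 0))
    simp only [map_sub, Derivation.leibniz, smul_eq_mul]
    ring
  · change pderiv 2 (v1 1 * v2 2 - v1 2 * v2 1) - pderiv 0 (v1 0 * v2 1 - v1 1 * v2 0) =
      v1 1 * _ - v2 1 * _ + (v2 0 * pderiv 0 (v1 1) + v2 1 * pderiv 1 (v1 1) +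
        v2 2 * pderiv 2 (v1 1)) - (v1 0 * pderiv 0 (v2 1) + v1 1 * pderiv 1 (v2 1) +
        v1 2 * pderiv 2 (v2 1))
    simp only [map_sub, Derivation.leibniz, smul_eq_mul]
    ring
  · change pderiv 0 (v1 2 * v2 0 - v1 0 * v2 2) - pderiv 1 (v1 1 * v2 2 - v1 2 * v2 1) =
      v1 2 * _ - v2 2 * _ + (v2 0 * pderiv 0 (v1 2) + v2 1 * pderiv 1 (v1 2) +
        v2 2 * pderiv 2 (v1 2)) - (v1 0 * pderiv 0 (v2 2) + v1 1 * pderiv 1 (v2 2) +
        v1 2 * pderiv 2 (v2 2))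
    simp only [map_sub, Derivation.leibniz, smul_eq_mul]
    ring

private theorem ct_par {σ w : F1 3} {ω : F2 3} (h1 : ∀ i j, ω i j = - ω j i)
    (hw : pair w σ = 0) (h : ∀ i j k, w12 σ ω i j k = 0) (i j : Fin 3) :
    w11 (ct w ω) σ i j = 0 := by
  have e : w11 (ct w ω) σ i j = ∑ k, w k * w12 σ ω k i j - pair w σ * ω i j := by
    unfold w11 ct pair w12
    rw [Finset.sum_mul, Finset.sum_mul, Finset.sum_mul, ← Finset.sum_sub_distrib,
      ← Finset.sum_sub_distrib]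
    apply Finset.sum_congr rfl
    intro k _
    rw [h1 j k]
    ring
  rw [e, hw, zero_mul, sub_zero]
  apply Finset.sum_eq_zero
  intro k _
  rw [h, mul_zero]

/-- `σ(w) = 0` for a constant `w ≠ 0` gives CaseA.  Proof: contract `σ ∧ dσ = 0`, `σ ∧ θ0 = 0` with `w`: `σ ∧ i_w dσ = 0`,
`σ ∧ i_w θ0 = 0`; divide by `σ` (`Cop σ`): `i_w dσ = 0` by degrees, `i_w θ0 = - l σ`. -/
theorem caseA_of {σ : F1 3} {θ0 : F2 3} (h : RD 0 σ θ0) (hc : Cop σ) {w : Fin 3 → ℂ} (hw : w ≠ 0)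
    (hs : pair (cv w) σ = 0) : CaseA 0 σ θ0 := by
  have hp : Pool.Agent.Helper50.FC.Prim σ := hc
  have hdd : ∀ i j, (dd σ i j).IsHomogeneous 1 := by
    intro i j
    exact ((h.hσ j).pderiv (i := i)).sub ((h.hσ i).pderiv (i := j))
  have hct : ∀ (ω : F2 3) (k : ℕ), (∀ i j, (ω i j).IsHomogeneous k) →
      ∀ j, (ct (cv w) ω j).IsHomogeneous k := by
    intro ω k hω j
    unfold ct
    apply IsHomogeneous.sum
    intro i _
    have := (isHomogeneous_C (Fin 3) (w i)).mul (hω i j)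
    rw [zero_add] at this
    exact this
  have hz : ∀ i j k, w12 σ (dd σ) i j k = 0 := by
    intro i j k
    have h2 := h.e2 i j k
    have h3 : w12 (cv (0 : Fin 3 → ℂ)) θ0 i j k = 0 := by
      simp [w12, cv]
    rw [h3, zero_add] at h2
    exact h2
  have hds : ∀ i j, dd σ i j = - dd σ j i := by
    intro i j
    unfold dd
    ring
  obtain ⟨g, -, hg0, hg⟩ := Pool.Agent.Helper50.FC.div1_hom hp
    (ct_par hds hs hz) (hct _ 1 hdd) h.hσ
  obtain ⟨l, hl, -, hle⟩ := Pool.Agent.Helper50.FC.div1_hom hp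
    (ct_par h.alt hs h.e3) (hct _ 3 h.hθ) h.hσ
  have hg1 : g = 0 := hg0 (by norm_num)
  refine ⟨w, -l, hw, hl.neg, by simp, hs, ?_, ?_⟩
  · intro j
    rw [hg j, hg1]
    simp
  · intro j
    rw [hle j]
    ring

end Pool.Agent.Helper1.FK
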