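import Pool.Agent.Helper1.FK.CoordG
import Pool.Agent.Helper1.FK.Vec

/-! FK-4: the case `m ≠ 0`, `m = dx_0`, first part.
Proof.  `m ∧ dσ = 0`: `dσ = dx_0 ∧ ρ`, `ρ` linear without `dx_0`-part, closed on the slices `x_0 = const`: `ρ = dQ'` modulo `dx_0`.  So `d(σ + Q' dx_0) = 0`,
`σ = dC - Q' dx_0` (Poincare, `Helper50/FC/Poin.lean`).  Take `q0 = Q'`: `gS = dC`, `dσ' = 0`.  Then `m ∧ θ0' = 0` and `σ' ∧ θ0' = 0` (from RD of the new data),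
so `θ0' = dx_0 ∧ λ`, `λ = λ_1 dx_1 + λ_2 dx_2` cubic, `λ_1 C_2 = λ_2 C_1` where `C_j = ∂_j C`.
`(C_1, C_2) ≠ 0`: otherwise `C = κ x_0^3` and `σ` is a multiple of `m`. -/

set_option autoImplicit false

namespace Pool.Agent.Helper1.FK

open MvPolynomial
open scoped BigOperators
open Pool.Agent.Helper71.FL (w12 pf ct Dec Closed dd)
open Pool.Agent.Helper71.FC
open Pool.Agent.Helper93 (lsub lmap OF pb Cop)
open Pool.Agent.Helper1.FG (om7)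

theorem m1_normal {σ : F1 3} {θ0 : F2 3} (h : RD ![1, 0, 0] σ θ0)
    (hn : ∀ q : Pn 3, ¬ ∀ i, σ i = q * C ((![1, 0, 0] : Fin 3 → ℂ) i)) :
    ∃ q0 C3 : Pn 3, q0.IsHomogeneous 2 ∧ C3.IsHomogeneous 3 ∧
      (∀ i, gS ![1, 0, 0] σ q0 i = pderiv i C3) ∧
      (gT ![1, 0, 0] σ θ0 q0 1 2 = 0 ∧
        pderiv 2 C3 * gT ![1, 0, 0] σ θ0 q0 0 1 = pderiv 1 C3 * gT ![1, 0, 0] σ θ0 q0 0 2) ∧
      ¬ (pderiv 1 C3 = 0 ∧ pderiv 2 C3 = 0) := by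
  have c0 : (C ((![1, 0, 0] : Fin 3 → ℂ) 0) : Pn 3) = 1 := by simp
  have c1 : (C ((![1, 0, 0] : Fin 3 → ℂ) 1) : Pn 3) = 0 := by simp
  have c2 : (C ((![1, 0, 0] : Fin 3 → ℂ) 2) : Pn 3) = 0 := by simp
  have e1 : dd σ 1 2 = 0 := by
    have h1 := h.e1 0 1 2
    unfold w12 cv at h1
    rw [c0, c1, c2] at h1
    linear_combination h1
  have hcl : pderiv 1 (σ 2) = pderiv 2 (σ 1) := by
    have : dd σ 1 2 = pderiv 1 (σ 2) - pderiv 2 (σ 1) := rfl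
    rw [this] at e1
    exact sub_eq_zero.mp e1
  obtain ⟨C3, hC, hC'⟩ := Pool.Agent.Helper50.FC.poincare_rel ({1, 2} : Finset (Fin 3)) σ 2
    (fun j _ => h.hσ j) (by
      intro i hi j hj
      simp only [Finset.mem_insert, Finset.mem_singleton] at hi hj
      rcases hi with rfl | rfl <;> rcases hj with rfl | rfl
      · rfl
      · exact hcl
      · exact hcl.symm
      · rfl)
  have p1 : pderiv 1 C3 = σ 1 := hC' 1 (by simp)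
  have p2 : pderiv 2 C3 = σ 2 := hC' 2 (by simp)
  have hq1 : pderiv 1 (pderiv 0 C3 - σ 0) = dd σ 0 1 := by
    rw [map_sub, Pool.Agent.Helper50.FC.pd_comm 1 0, p1]
    rfl
  have hq2 : pderiv 2 (pderiv 0 C3 - σ 0) = dd σ 0 2 := by
    rw [map_sub, Pool.Agent.Helper50.FC.pd_comm 2 0, p2]
    rfl
  refine ⟨pderiv 0 C3 - σ 0, C3, ?_, hC, ?_, ⟨?_, ?_⟩, ?_⟩
  · exact (hC.pderiv (i := 0)).sub (h.hσ 0)
  · intro i
    unfold gS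
    fin_cases i
    · show σ 0 + (pderiv 0 C3 - σ 0) * C ((![1, 0, 0] : Fin 3 → ℂ) 0) = pderiv 0 C3
      rw [c0]
      ring
    · show σ 1 + (pderiv 0 C3 - σ 0) * C ((![1, 0, 0] : Fin 3 → ℂ) 1) = pderiv 1 C3
      rw [c1, p1]
      ring
    · show σ 2 + (pderiv 0 C3 - σ 0) * C ((![1, 0, 0] : Fin 3 → ℂ) 2) = pderiv 2 C3
      rw [c2, p2]
      ring
  · have h2 := h.e2 0 1 2
    unfold w12 cv at h2
    rw [c0, c1, c2] at h2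
    have a20 : dd σ 2 0 = - dd σ 0 2 := by
      show pderiv 2 (σ 0) - pderiv 0 (σ 2) = -(pderiv 0 (σ 2) - pderiv 2 (σ 0))
      ring
    rw [a20] at h2
    show θ0 1 2 + (pderiv 1 (pderiv 0 C3 - σ 0) * (σ 2 + (pderiv 0 C3 - σ 0) *
      C ((![1, 0, 0] : Fin 3 → ℂ) 2)) - pderiv 2 (pderiv 0 C3 - σ 0) * (σ 1 +
        (pderiv 0 C3 - σ 0) * C ((![1, 0, 0] : Fin 3 → ℂ) 1))) +
          (pderiv 0 C3 - σ 0) * dd σ 1 2 = 0
    rw [hq1, hq2, c1, c2, e1]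
    linear_combination h2 - σ 0 * e1
  · have h2 := h.e2 0 1 2
    unfold w12 cv at h2
    rw [c0, c1, c2] at h2
    have a20 : dd σ 2 0 = - dd σ 0 2 := by
      show pderiv 2 (σ 0) - pderiv 0 (σ 2) = -(pderiv 0 (σ 2) - pderiv 2 (σ 0))
      ring
    rw [a20] at h2
    have h3 := h.e3 0 1 2
    unfold w12 at h3
    rw [h.alt 2 0] at h3
    show pderiv 2 C3 * (θ0 0 1 + (pderiv 0 (pderiv 0 C3 - σ 0) * (σ 1 + (pderiv 0 C3 - σ 0) *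
      C ((![1, 0, 0] : Fin 3 → ℂ) 1)) - pderiv 1 (pderiv 0 C3 - σ 0) * (σ 0 +
        (pderiv 0 C3 - σ 0) * C ((![1, 0, 0] : Fin 3 → ℂ) 0))) +
          (pderiv 0 C3 - σ 0) * dd σ 0 1) =
      pderiv 1 C3 * (θ0 0 2 + (pderiv 0 (pderiv 0 C3 - σ 0) * (σ 2 + (pderiv 0 C3 - σ 0) *
      C ((![1, 0, 0] : Fin 3 → ℂ) 2)) - pderiv 2 (pderiv 0 C3 - σ 0) * (σ 0 +
        (pderiv 0 C3 - σ 0) * C ((![1, 0, 0] : Fin 3 → ℂ) 0))) +
          (pderiv 0 C3 - σ 0) * dd σ 0 2)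
    rw [hq1, hq2, c0, c1, c2, p1, p2]
    linear_combination h3 - σ 0 * h2 + σ 0 * σ 0 * e1
  · rintro ⟨z1, z2⟩
    rw [p1] at z1
    rw [p2] at z2
    apply hn (σ 0)
    intro i
    fin_cases i
    · show σ 0 = σ 0 * C ((![1, 0, 0] : Fin 3 → ℂ) 0)
      rw [c0, mul_one]
    · show σ 1 = σ 0 * C ((![1, 0, 0] : Fin 3 → ℂ) 1)
      rw [c1, mul_zero, z1]
    · show σ 2 = σ 0 * C ((![1, 0, 0] : Fin 3 → ℂ) 2)
      rw [c2, mul_zero, z2]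

end Pool.Agent.Helper1.FK
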