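import Pool.Agent.Helper1.FK.M1a
import Pool.Agent.Helper18.LB.Alg

/-! FK-5: the case `m = dx_0`, `σ = dC`, `θ0 = dx_0 ∧ λ`, `λ_1 C_2 = λ_2 C_1`: one of the cases A, B, 122.
Proof.  Let `g` be the gcd of `C_1, C_2` (homogeneous), `C_j = g c_j`.
* `deg g = 0`: `λ = l (C_1 dx_1 + C_2 dx_2)`, `l` linear, closedness: `{l, C} := l_1 C_2 - l_2 C_1 = 0`, so `l = c x_0` (otherwise `C_1, C_2` are constant
  multiples of one polynomial).  CaseB with `μ = c x_0 dx_0`... precisely `dσ = 0`, `θ0 = c x_0 dx_0 ∧ dC`, `μ ∧ m = 0`, `μ ∧ σ = θ0`: `μ = c x_0 dx_0`.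
* `deg g = 2`: `s C_1 + t C_2 = 0` for constants `(s, t) ≠ 0`: `w = s ∂_1 + t ∂_2` kills `m`, `σ`, `dσ = 0`, and `i_w θ0 = 0` up to sign:
  `s λ_1 + t λ_2 = 0` from `λ_1 C_2 = λ_2 C_1`: CaseA with `l = 0`.
* `deg g = 1`: `λ_j = κ c_j`, `κ` quadratic; `c_1, c_2` not proportional (else previous case).  Closedness of `g (c_1 dx_1 + c_2 dx_2)` and of
  `κ (c_1 dx_1 + c_2 dx_2)` on the slices.
  (i) `g = x_0` up to a constant: then `C = x_0 q` (put the `x_0^3`-term into `q`), `c_j = q_j`, `{κ, q} = 0`, the linear forms `q_1, q_2` are not proportional,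
    so `κ = s q + t x_0^2`: Case122 with `n = dx_0`, `q0 = 0`, `m1 = 1`, `α = β = 1`, `γ = 0` (`d(x_0 q) = x_0 dq + q dx_0`).
  (ii) `g` not a multiple of `x_0`: `C - κ' x_0^3` is divisible by `g^2` (it is constant along `g = 0` on each slice, with zero gradient): `C = κ' x_0^3 + g^2 l''`.
    Coordinates `x_1 = g`; `l'' = a x_0 + b x_1 + e x_2`; `e ≠ 0` (else `C_2 = 0`), `x_2 = l''`: `C = κ' x_0^3 + x_1^2 x_2`, `c = (2 x_2, x_1)`, closedness:
    `x_1 κ_1 - 2 x_2 κ_2 = κ`, so `κ = c x_0 x_1` (monomials `x_0^a x_1^b x_2^c` of degree 2 with `b - 2c = 1`), `θ0 = c x_0 dx_0 ∧ dC`: CaseB.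
  The coordinate changes fix `x_0` (`RD_pb`, `Case*_pb`). -/

set_option autoImplicit false

namespace Pool.Agent.Helper1.FK

open MvPolynomial
open scoped BigOperators
open Pool.Agent.Helper71.FL (w12 pf ct Dec Closed dd)
open Pool.Agent.Helper71.FC
open Pool.Agent.Helper93 (lsub lmap OF pb Cop)
open Pool.Agent.Helper1.FG (om7)

private theorem m0 : (C ((![1, 0, 0] : Fin 3 → ℂ) 0) : Pn 3) = 1 := by simp
private theorem m1 : (C ((![1, 0, 0] : Fin 3 → ℂ) 1) : Pn 3) = 0 := by simp
private theorem m2 : (C ((![1, 0, 0] : Fin 3 → ℂ) 2) : Pn 3) = 0 := by simp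

private theorem ddf (C3 : Pn 3) (i j : Fin 3) : dd (df C3) i j = 0 := by
  show pderiv i (pderiv j C3) - pderiv j (pderiv i C3) = 0
  rw [Pool.Agent.Helper50.FC.pd_comm, sub_self]

private theorem lA {C3 : Pn 3} {θ0 : F2 3} (h : RD ![1, 0, 0] (df C3) θ0)
    (h12 : θ0 1 2 = 0) (hl : pderiv 2 C3 * θ0 0 1 = pderiv 1 C3 * θ0 0 2)
    (hn : ¬ (pderiv 1 C3 = 0 ∧ pderiv 2 C3 = 0)) {s t : ℂ} (hst : s ≠ 0 ∨ t ≠ 0)
    (hs : C s * pderiv 1 C3 + C t * pderiv 2 C3 = 0) : OutM ![1, 0, 0] (df C3) θ0 := by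
  have h21 : θ0 2 1 = 0 := by rw [h.alt, h12, neg_zero]
  have key : C s * θ0 0 1 + C t * θ0 0 2 = 0 := by
    by_cases h1 : pderiv 1 C3 = 0
    · have h2 : pderiv 2 C3 ≠ 0 := fun h2 => hn ⟨h1, h2⟩
      have : pderiv 2 C3 * (C s * θ0 0 1 + C t * θ0 0 2) = 0 := by
        linear_combination C s * hl + θ0 0 2 * hs
      exact (mul_eq_zero.mp this).resolve_left h2
    · have : pderiv 1 C3 * (C s * θ0 0 1 + C t * θ0 0 2) = 0 := by
        linear_combination θ0 0 1 * hs - C t * hl
      exact (mul_eq_zero.mp this).resolve_left h1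
  left
  refine ⟨![0, s, t], 0, ?_, isHomogeneous_zero _ _ _, ?_, ?_, ?_, ?_⟩
  · intro h0
    rcases hst with h | h
    · exact h (congrFun h0 1)
    · exact h (congrFun h0 2)
  · simp [Fin.sum_univ_three]
  · unfold pair cv df
    rw [Fin.sum_univ_three]
    show C 0 * _ + C s * _ + C t * _ = _
    rw [C_0, zero_mul, zero_add, hs]
  · intro j
    unfold ct
    simp only [ddf, mul_zero, Finset.sum_const_zero, zero_mul, neg_zero]
  · intro j
    unfold ct cv
    rw [Fin.sum_univ_three]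
    show C 0 * θ0 0 j + C s * θ0 1 j + C t * θ0 2 j = _
    rw [C_0, zero_mul, zero_add, zero_mul, neg_zero]
    fin_cases j
    · show C s * θ0 1 0 + C t * θ0 2 0 = 0
      rw [h.alt 1 0, h.alt 2 0]
      linear_combination -key
    · show C s * θ0 1 1 + C t * θ0 2 1 = 0
      rw [h.alt0, h21]
      ring
    · show C s * θ0 1 2 + C t * θ0 2 2 = 0
      rw [h.alt0, h12]
      ring

private theorem lB {C3 : Pn 3} {θ0 : F2 3} (h : RD ![1, 0, 0] (df C3) θ0)
    (h12 : θ0 1 2 = 0) (c : ℂ) (k1 : θ0 0 1 = C c * X 0 * pderiv 1 C3)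
    (k2 : θ0 0 2 = C c * X 0 * pderiv 2 C3) : OutM ![1, 0, 0] (df C3) θ0 := by
  have h21 : θ0 2 1 = 0 := by rw [h.alt, h12, neg_zero]
  have h10 : θ0 1 0 = -(C c * X 0 * pderiv 1 C3) := by rw [h.alt, k1]
  have h20 : θ0 2 0 = -(C c * X 0 * pderiv 2 C3) := by rw [h.alt, k2]
  right; left
  refine ⟨fun i => C c * X 0 * C ((![1, 0, 0] : Fin 3 → ℂ) i), ?_, ?_, ?_⟩
  · intro i
    have := ((isHomogeneous_C (Fin 3) c).mul (isHomogeneous_X ℂ (0 : Fin 3))).mul
      (isHomogeneous_C (Fin 3) ((![1, 0, 0] : Fin 3 → ℂ) i))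
    simpa using this
  · intro i j
    rw [ddf]
    unfold w11 cv
    ring
  · intro i j
    unfold w11 df
    fin_cases i <;> fin_cases j <;>
      simp only [Fin.zero_eta, Fin.mk_one, Fin.reduceFinMk, Fin.isValue, h.alt0, k1, k2, h12, h21,
        h10, h20, m0, m1, m2] <;> ring

private theorem l122 {C3 : Pn 3} {θ0 : F2 3} (h : RD ![1, 0, 0] (df C3) θ0)
    (h12 : θ0 1 2 = 0) {γ u t : ℂ} {q : Pn 3} (hq : q.IsHomogeneous 2) (hC : C3 = C γ * X 0 * q)
    (k1 : θ0 0 1 = (C u * q + C t * X 0 ^ 2) * pderiv 1 q)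
    (k2 : θ0 0 2 = (C u * q + C t * X 0 ^ 2) * pderiv 2 q) : OutM ![1, 0, 0] (df C3) θ0 := by
  have h21 : θ0 2 1 = 0 := by rw [h.alt, h12, neg_zero]
  have h10 : θ0 1 0 = -((C u * q + C t * X 0 ^ 2) * pderiv 1 q) := by rw [h.alt, k1]
  have h20 : θ0 2 0 = -((C u * q + C t * X 0 ^ 2) * pderiv 2 q) := by rw [h.alt, k2]
  have hlf : lf (![1, 0, 0] : Fin 3 → ℂ) = X 0 := by
    unfold lf
    rw [Fin.sum_univ_three, m0, m1, m2]
    ring
  right; right
  refine ⟨![1, 0, 0], 0, q, 1, γ, γ, 0, u, t, ?_, isHomogeneous_zero _ _ _, hq, ?_, ?_, ?_⟩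
  · intro h0
    exact one_ne_zero (congrFun h0 0)
  · intro i
    rw [one_mul]
  · intro i
    unfold gS df
    rw [hlf, hC]
    have hp : pderiv i (C γ * X 0 * q) = C γ * X 0 * pderiv i q + C γ * q * pderiv i (X 0) := by
      rw [Derivation.leibniz, Derivation.leibniz, pderiv_C]
      simp only [smul_eq_mul]
      ring
    rw [hp]
    fin_cases i
    · show C γ * X 0 * pderiv 0 q + C γ * q * pderiv 0 (X 0) + _ * _ = C γ * X 0 * pderiv 0 q + _
      rw [pderiv_X_self]
      show C γ * X 0 * pderiv 0 q + C γ * q * 1 + 0 * C ((![1, 0, 0] : Fin 3 → ℂ) 0) =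
        C γ * X 0 * pderiv 0 q + (C γ * q + C 0 * X 0 ^ 2) * C ((![1, 0, 0] : Fin 3 → ℂ) 0)
      rw [m0, C_0]
      ring
    · show C γ * X 0 * pderiv 1 q + C γ * q * pderiv 1 (X 0) +
        0 * C ((![1, 0, 0] : Fin 3 → ℂ) 1) =
        C γ * X 0 * pderiv 1 q + (C γ * q + C 0 * X 0 ^ 2) * C ((![1, 0, 0] : Fin 3 → ℂ) 1)
      rw [pderiv_X_of_ne (by decide : (0 : Fin 3) ≠ 1), m1]
      ring
    · show C γ * X 0 * pderiv 2 q + C γ * q * pderiv 2 (X 0) +
        0 * C ((![1, 0, 0] : Fin 3 → ℂ) 2) =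
        C γ * X 0 * pderiv 2 q + (C γ * q + C 0 * X 0 ^ 2) * C ((![1, 0, 0] : Fin 3 → ℂ) 2)
      rw [pderiv_X_of_ne (by decide : (0 : Fin 3) ≠ 2), m2]
      ring
  · intro i j
    unfold gT
    rw [hlf]
    have e1 : w11 (df (0 : Pn 3)) (gS ![1, 0, 0] (df C3) 0) i j = 0 := by
      unfold w11 df
      simp
    rw [e1, add_zero, zero_mul, add_zero]
    unfold w11 cv df
    fin_cases i <;> fin_cases j <;>
      simp only [Fin.zero_eta, Fin.mk_one, Fin.reduceFinMk, Fin.isValue, h.alt0, k1, k2, h12, h21,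
        h10, h20, m0, m1, m2] <;> ring

private theorem hom0 {f : Pn 3} (hf : f.IsHomogeneous 0) : ∃ c : ℂ, f = C c := by
  rw [← totalDegree_zero_iff_isHomogeneous, totalDegree_eq_zero_iff_eq_C] at hf
  exact ⟨_, hf⟩

private theorem euler3 {f : Pn 3} {d : ℕ} (hf : f.IsHomogeneous d) :
    X 0 * pderiv 0 f + X 1 * pderiv 1 f + X 2 * pderiv 2 f = C (d : ℂ) * f := by
  have h := hf.sum_X_mul_pderiv
  rw [Fin.sum_univ_three] at h
  rw [h, nsmul_eq_mul]
  simp

private theorem lin3 {l : Pn 3} (hl : l.IsHomogeneous 1) : ∃ a0 a1 a2 : ℂ,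
    l = C a0 * X 0 + C a1 * X 1 + C a2 * X 2 ∧ pderiv 0 l = C a0 ∧ pderiv 1 l = C a1 ∧
      pderiv 2 l = C a2 := by
  obtain ⟨a0, h0⟩ := hom0 (hl.pderiv (i := 0))
  obtain ⟨a1, h1⟩ := hom0 (hl.pderiv (i := 1))
  obtain ⟨a2, h2⟩ := hom0 (hl.pderiv (i := 2))
  refine ⟨a0, a1, a2, ?_, h0, h1, h2⟩
  have h := euler3 hl
  rw [h0, h1, h2, Nat.cast_one, C_1, one_mul] at h
  linear_combination -h

private theorem only0 {d : ℕ} : ∀ {f : Pn 3}, f.IsHomogeneous d → pderiv 1 f = 0 →
    pderiv 2 f = 0 → ∃ c : ℂ, f = C c * X 0 ^ d := by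
  induction d with
  | zero =>
    intro f hf _ _
    obtain ⟨c, hc⟩ := hom0 hf
    exact ⟨c, by rw [hc, pow_zero, mul_one]⟩
  | succ d ih =>
    intro f hf h1 h2
    have hf0 : (pderiv 0 f).IsHomogeneous d := hf.pderiv
    obtain ⟨c, hc⟩ := ih hf0 (by rw [Pool.Agent.Helper50.FC.pd_comm, h1, map_zero])
      (by rw [Pool.Agent.Helper50.FC.pd_comm, h2, map_zero])
    have h := euler3 hf
    rw [h1, h2, hc] at h
    have hd : ((d + 1 : ℕ) : ℂ) ≠ 0 := by exact_mod_cast Nat.succ_ne_zero d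
    refine ⟨((d + 1 : ℕ) : ℂ)⁻¹ * c, ?_⟩
    have h4 : (C ((d + 1 : ℕ) : ℂ)⁻¹ : Pn 3) * C ((d + 1 : ℕ) : ℂ) = 1 := by
      rw [← C_mul, inv_mul_cancel₀ hd, C_1]
    rw [C_mul, pow_succ]
    linear_combination -(C ((d + 1 : ℕ) : ℂ)⁻¹) * h - f * h4

private theorem fac {P1 P2 : Pn 3} {d : ℕ} (h1 : P1.IsHomogeneous d) (h2 : P2.IsHomogeneous d)
    (hn : ¬ (P1 = 0 ∧ P2 = 0)) : ∃ (e e' : ℕ) (c1 c2 g : Pn 3), e + e' = d ∧ c1.IsHomogeneous e ∧
      c2.IsHomogeneous e ∧ g.IsHomogeneous e' ∧ P1 = g * c1 ∧ P2 = g * c2 ∧ IsRelPrime c1 c2 := by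
  by_cases h0 : P1 = 0
  · have h0' : P2 ≠ 0 := fun h => hn ⟨h0, h⟩
    obtain ⟨e, e', a, b, ρ, hd, ha, hb, hρ, hs, ht, hr⟩ :=
      Pool.Agent.Helper18.LB.prop_vec (ι := Unit) (s := fun _ => P1) (t := fun _ => P2)
        (fun _ => h1) (fun _ => h2) (fun _ _ => rfl) ⟨(), h0'⟩
    exact ⟨e, e', b, a, ρ (), hd, hb, ha, hρ (), by rw [hs ()]; ring, by rw [ht ()]; ring, hr.symm⟩
  · obtain ⟨e, e', a, b, ρ, hd, ha, hb, hρ, hs, ht, hr⟩ :=
      Pool.Agent.Helper18.LB.prop_vec (ι := Unit) (s := fun _ => P2) (t := fun _ => P1)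
        (fun _ => h2) (fun _ => h1) (fun _ _ => rfl) ⟨(), h0⟩
    exact ⟨e, e', a, b, ρ (), hd, ha, hb, hρ (), by rw [ht ()]; ring, by rw [hs ()]; ring, hr⟩

/-- proportional to a relatively prime pair -/
private theorem divc {c1 c2 l1 l2 : Pn 3} {e k : ℕ} (h1 : c1.IsHomogeneous e)
    (h2 : c2.IsHomogeneous e) (k1 : l1.IsHomogeneous k) (k2 : l2.IsHomogeneous k)
    (hr : IsRelPrime c1 c2) (h : l1 * c2 = l2 * c1) : ∃ κ : Pn 3, κ.IsHomogeneous (k - e) ∧
      l1 = κ * c1 ∧ l2 = κ * c2 := by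
  have hp : Pool.Agent.Helper50.FC.Prim (![c1, c2] : Fin 2 → Pn 3) := by
    intro p hp
    exact hr (hp 0) (hp 1)
  obtain ⟨κ, hκ, -, hk⟩ := Pool.Agent.Helper50.FC.div1_hom (ξ := ![l1, l2]) (a := k) (b := e) hp
    (by
      intro i j
      unfold w11
      fin_cases i <;> fin_cases j
      · show l1 * c1 - l1 * c1 = 0
        ring
      · show l1 * c2 - l2 * c1 = 0
        rw [h, sub_self]
      · show l2 * c1 - l1 * c2 = 0
        rw [h, sub_self]
      · show l2 * c2 - l2 * c2 = 0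
        ring)
    (by
      intro i
      fin_cases i
      · exact k1
      · exact k2)
    (by
      intro i
      fin_cases i
      · exact h1
      · exact h2)
  exact ⟨κ, hκ, hk 0, hk 1⟩

theorem m1_dC {C3 : Pn 3} {θ0 : F2 3} (hC : C3.IsHomogeneous 3) (h : RD ![1, 0, 0] (df C3) θ0)
    (h12 : θ0 1 2 = 0) (hl : pderiv 2 C3 * θ0 0 1 = pderiv 1 C3 * θ0 0 2)
    (hn : ¬ (pderiv 1 C3 = 0 ∧ pderiv 2 C3 = 0)) : OutM ![1, 0, 0] (df C3) θ0 := by
  have hcomm : pderiv 1 (pderiv 2 C3) = pderiv 2 (pderiv 1 C3) :=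
    Pool.Agent.Helper50.FC.pd_comm _ _ _
  have hcl : pderiv 1 (θ0 0 2) = pderiv 2 (θ0 0 1) := by
    have h3 := h.cl 0 1 2
    rw [h12, h.alt 2 0, map_zero, map_neg] at h3
    linear_combination -h3
  obtain ⟨e, e', c1, c2, g, hd, hc1, hc2, hg, e1, e2, hr⟩ := fac (d := 2) (hC.pderiv (i := 1))
    (hC.pderiv (i := 2)) hn
  have hg0 : g ≠ 0 := by
    rintro rfl
    exact hn ⟨by rw [e1, zero_mul], by rw [e2, zero_mul]⟩
  obtain ⟨κ, hκ, f1, f2⟩ := divc hc1 hc2 (h.hθ 0 1) (h.hθ 0 2) hr (by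
    have h3 : g * (θ0 0 1 * c2) = g * (θ0 0 2 * c1) := by
      rw [e1, e2] at hl
      linear_combination hl
    exact mul_left_cancel₀ hg0 h3)
  -- derivatives
  rw [e1, e2] at hcomm
  rw [f1, f2] at hcl
  simp only [Derivation.leibniz, smul_eq_mul] at hcomm hcl
  have hlA : ∀ s t : ℂ, (s ≠ 0 ∨ t ≠ 0) → C s * c1 + C t * c2 = 0 →
      OutM ![1, 0, 0] (df C3) θ0 := by
    intro s t hst hs
    refine lA h h12 hl hn hst ?_
    rw [e1, e2]
    linear_combination g * hs
  have hcases : (e = 0 ∧ e' = 2) ∨ (e = 1 ∧ e' = 1) ∨ (e = 2 ∧ e' = 0) := by omega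
  rcases hcases with ⟨rfl, rfl⟩ | ⟨rfl, rfl⟩ | ⟨rfl, rfl⟩
  · -- constants
    obtain ⟨a1, ha1⟩ := hom0 hc1
    obtain ⟨a2, ha2⟩ := hom0 hc2
    by_cases h0 : a1 = 0
    · refine hlA 1 0 (Or.inl one_ne_zero) ?_
      rw [ha1, h0]
      simp
    · refine hlA a2 (-a1) (Or.inr (neg_ne_zero.mpr h0)) ?_
      rw [ha1, ha2, C_neg]
      ring
  · obtain ⟨a10, a11, a21, -, -, p11, p21⟩ := lin3 hc1
    obtain ⟨a20, a12, a22, -, -, p12, p22⟩ := lin3 hc2
    obtain ⟨g0, g1, g2, hgl, -, q1, q2⟩ := lin3 hg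
    have hκ' : κ.IsHomogeneous 2 := hκ
    rw [p12, p21, q1, q2] at hcomm
    rw [p12, p21] at hcl
    by_cases hr0 : a12 = a21
    · -- `c` closed
      rw [hr0] at hcomm hcl p12
      have E1 : C g1 * c2 = C g2 * c1 := by linear_combination hcomm
      have E2 : pderiv 1 κ * c2 = pderiv 2 κ * c1 := by linear_combination hcl
      by_cases hg12 : g1 = 0 ∧ g2 = 0
      · have hgx : g = C g0 * X 0 := by
          rw [hgl, hg12.1, hg12.2, C_0]
          ring
        have hg00 : g0 ≠ 0 := by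
          rintro rfl
          exact hg0 (by rw [hgx, C_0, zero_mul])
        obtain ⟨η, hη, m1, m2⟩ := divc hc1 hc2 (hκ'.pderiv (i := 1)) (hκ'.pderiv (i := 2)) hr E2
        obtain ⟨u, hu⟩ := hom0 (f := η) hη
        obtain ⟨q, hq, hqp⟩ := Pool.Agent.Helper50.FC.poincare_rel ({1, 2} : Finset (Fin 3))
          ![0, c1, c2] 1 (by
            intro j hj
            simp only [Finset.mem_insert, Finset.mem_singleton] at hj
            rcases hj with rfl | rfl
            · exact hc1
            · exact hc2) (by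
            intro i hi j hj
            simp only [Finset.mem_insert, Finset.mem_singleton] at hi hj
            rcases hi with rfl | rfl <;> rcases hj with rfl | rfl
            · rfl
            · exact p12.trans p21.symm
            · exact p21.trans p12.symm
            · rfl)
        have r1 : pderiv 1 q = c1 := hqp 1 (by simp)
        have r2 : pderiv 2 q = c2 := hqp 2 (by simp)
        have hCm : ∀ (c : ℂ) {f : Pn 3} {d : ℕ}, f.IsHomogeneous d →
            (C c * f).IsHomogeneous d := by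
          intro c f d hf
          have := (isHomogeneous_C (Fin 3) c).mul hf
          rwa [zero_add] at this
        obtain ⟨t, ht⟩ := only0 (f := κ - C u * q) (hκ'.sub (hCm u hq))
          (by rw [map_sub, pderiv_C_mul, r1, m1, hu, sub_self])
          (by rw [map_sub, pderiv_C_mul, r2, m2, hu, sub_self])
        have hx1 : pderiv 1 (X 0 : Pn 3) = 0 := pderiv_X_of_ne (by decide)
        have hx2 : pderiv 2 (X 0 : Pn 3) = 0 := pderiv_X_of_ne (by decide)
        obtain ⟨δ, hδ⟩ := only0 (f := C3 - C g0 * (X 0 * q)) (hC.sub (hCm g0 (by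
            have := (isHomogeneous_X ℂ (0 : Fin 3)).mul hq
            exact this)))
          (by
            rw [map_sub, pderiv_C_mul, Derivation.leibniz, r1, e1, hx1, hgx]
            simp only [smul_eq_mul]
            ring)
          (by
            rw [map_sub, pderiv_C_mul, Derivation.leibniz, r2, e2, hx2, hgx]
            simp only [smul_eq_mul]
            ring)
        have h4 : (C g0⁻¹ : Pn 3) * C g0 = 1 := by rw [← C_mul, inv_mul_cancel₀ hg00, C_1]
        have hd1 : pderiv 1 (q + C (δ * g0⁻¹) * X 0 ^ 2) = c1 := by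
          rw [map_add, pderiv_C_mul, pderiv_pow, hx1, r1, mul_zero, mul_zero, add_zero]
        have hd2 : pderiv 2 (q + C (δ * g0⁻¹) * X 0 ^ 2) = c2 := by
          rw [map_add, pderiv_C_mul, pderiv_pow, hx2, r2, mul_zero, mul_zero, add_zero]
        refine l122 h h12 (γ := g0) (u := u) (t := t - u * (δ * g0⁻¹))
          (q := q + C (δ * g0⁻¹) * X 0 ^ 2) ?_ ?_ ?_ ?_
        · exact hq.add (hCm _ (by
            have := (isHomogeneous_X ℂ (0 : Fin 3)).pow 2
            exact this))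
        · rw [C_mul]
          linear_combination hδ - (C δ * X 0 ^ 3) * h4
        · rw [f1, hd1]
          simp only [C_sub, C_mul]
          linear_combination c1 * ht
        · rw [f2, hd2]
          simp only [C_sub, C_mul]
          linear_combination c2 * ht
      · refine hlA (-g2) g1 ?_ ?_
        · by_contra hcon
          push Not at hcon
          exact hg12 ⟨hcon.2, neg_eq_zero.mp hcon.1⟩
        · rw [C_neg]
          linear_combination E1
    · -- the resonant case
      have hr1 : a12 - a21 ≠ 0 := sub_ne_zero.mpr hr0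
      obtain ⟨r, hrr⟩ : ∃ r, r = a12 - a21 := ⟨_, rfl⟩
      rw [← hrr] at hr1
      have hCr : (C r : Pn 3) = C a12 - C a21 := by rw [hrr, C_sub]
      have hCr0 : (C r : Pn 3) ≠ 0 := fun h => hr1 (C_eq_zero.mp h)
      have E1 : C g1 * c2 - C g2 * c1 + C r * g = 0 := by
        rw [hCr]
        linear_combination hcomm
      have E2 : pderiv 1 κ * c2 - pderiv 2 κ * c1 + C r * κ = 0 := by
        rw [hCr]
        linear_combination hcl
      have hCinj : ∀ a : ℂ, (C a : Pn 3) = 0 → a = 0 := fun a h => C_eq_zero.mp h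
      have E11 : g1 * a12 - g2 * a11 + r * g1 = 0 := by
        apply hCinj
        have := congrArg (pderiv 1) E1
        rw [map_add, map_sub, pderiv_C_mul, pderiv_C_mul, pderiv_C_mul, p12, p11, q1,
          map_zero] at this
        rw [← this]
        simp only [C_add, C_sub, C_mul]
      have E12 : g1 * a22 - g2 * a21 + r * g2 = 0 := by
        apply hCinj
        have := congrArg (pderiv 2) E1
        rw [map_add, map_sub, pderiv_C_mul, pderiv_C_mul, pderiv_C_mul, p22, p21, q2,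
          map_zero] at this
        rw [← this]
        simp only [C_add, C_sub, C_mul]
      obtain ⟨_, k11, k12, -, -, s11, s12⟩ := lin3 (hκ'.pderiv (i := 1))
      obtain ⟨_, k21, k22, -, -, s21, s22⟩ := lin3 (hκ'.pderiv (i := 2))
      have hk : k21 = k12 := by
        apply C_injective (Fin 3) ℂ
        rw [← s21, ← s12, Pool.Agent.Helper50.FC.pd_comm]
      rw [hk] at s21
      have E21 : C k11 * c2 + pderiv 1 κ * C a12 - C k12 * c1 - pderiv 2 κ * C a11 +
          C r * pderiv 1 κ = 0 := by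
        have := congrArg (pderiv 1) E2
        rw [map_add, map_sub, pderiv_C_mul, Derivation.leibniz, Derivation.leibniz, p12, p11, s11,
          s21, map_zero] at this
        simp only [smul_eq_mul] at this
        linear_combination this
      have E22 : C k12 * c2 + pderiv 1 κ * C a22 - C k22 * c1 - pderiv 2 κ * C a21 +
          C r * pderiv 2 κ = 0 := by
        have := congrArg (pderiv 2) E2
        rw [map_add, map_sub, pderiv_C_mul, Derivation.leibniz, Derivation.leibniz, p22, p21, s12,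
          s22, map_zero] at this
        simp only [smul_eq_mul] at this
        linear_combination this
      obtain ⟨u, hu⟩ : ∃ u : Pn 3, u = C g2 * pderiv 1 κ - C g1 * pderiv 2 κ := ⟨_, rfl⟩
      obtain ⟨u1, hu1⟩ : ∃ u1 : ℂ, u1 = g2 * k11 - g1 * k12 := ⟨_, rfl⟩
      obtain ⟨u2, hu2⟩ : ∃ u2 : ℂ, u2 = g2 * k12 - g1 * k22 := ⟨_, rfl⟩
      have hpu1 : pderiv 1 u = C u1 := by
        rw [hu, hu1, map_sub, pderiv_C_mul, pderiv_C_mul, s11, s21, C_sub, C_mul, C_mul]
      have hpu2 : pderiv 2 u = C u2 := by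
        rw [hu, hu2, map_sub, pderiv_C_mul, pderiv_C_mul, s12, s22, C_sub, C_mul, C_mul]
      have F11 : (C g1 * C a12 - C g2 * C a11 + C r * C g1 : Pn 3) = 0 := by
        simp only [← C_mul, ← C_sub, ← C_add]
        rw [E11, C_0]
      have F12 : (C g1 * C a22 - C g2 * C a21 + C r * C g2 : Pn 3) = 0 := by
        simp only [← C_mul, ← C_sub, ← C_add]
        rw [E12, C_0]
      have E3 : C u1 * c2 - C u2 * c1 + 3 * C r * u = 0 := by
        rw [hu, hu1, hu2]
        simp only [C_sub, C_mul]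
        linear_combination C g2 * E21 - C g1 * E22 + pderiv 1 κ * F12 - pderiv 2 κ * F11 +
          (C g2 * pderiv 1 κ - C g1 * pderiv 2 κ) * hCr
      have E31 : u1 * a12 - u2 * a11 + 3 * r * u1 = 0 := by
        apply hCinj
        have h3 : (3 : Pn 3) * C r = C (3 * r) := by
          rw [C_mul]
          congr 1
        rw [h3] at E3
        have := congrArg (pderiv 1) E3
        rw [map_add, map_sub, pderiv_C_mul, pderiv_C_mul, pderiv_C_mul, p12, p11, hpu1,
          map_zero] at this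
        rw [← this]
        simp only [C_add, C_sub, C_mul]
      have E32 : u1 * a22 - u2 * a21 + 3 * r * u2 = 0 := by
        apply hCinj
        have h3 : (3 : Pn 3) * C r = C (3 * r) := by
          rw [C_mul]
          congr 1
        rw [h3] at E3
        have := congrArg (pderiv 2) E3
        rw [map_add, map_sub, pderiv_C_mul, pderiv_C_mul, pderiv_C_mul, p22, p21, hpu2,
          map_zero] at this
        rw [← this]
        simp only [C_add, C_sub, C_mul]
      have hw : g2 * u1 - g1 * u2 = 0 := by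
        have h5 : 5 * r * (g2 * u1 - g1 * u2) = 0 := by
          linear_combination g2 * E31 - g1 * E32 + u1 * E12 - u2 * E11 +
            (u1 * g2 - u2 * g1) * hrr
        have h6 : (5 * r : ℂ) ≠ 0 := mul_ne_zero (by norm_num) hr1
        exact (mul_eq_zero.mp h5).resolve_left h6
      have hwC : (C g2 * C u1 - C g1 * C u2 : Pn 3) = 0 := by
        simp only [← C_mul, ← C_sub]
        rw [hw, C_0]
      have G2 : 3 * C g2 * u - C u2 * g = 0 := by
        have : C r * (3 * C g2 * u - C u2 * g) = 0 := by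
          linear_combination C g2 * E3 - C u2 * E1 - c2 * hwC
        exact (mul_eq_zero.mp this).resolve_left hCr0
      have G1 : 3 * C g1 * u - C u1 * g = 0 := by
        have : C r * (3 * C g1 * u - C u1 * g) = 0 := by
          linear_combination C g1 * E3 - C u1 * E1 - c1 * hwC
        exact (mul_eq_zero.mp this).resolve_left hCr0
      have G2' : g2 * u2 = 0 := by
        have h7 : 2 * (g2 * u2) = 0 := by
          apply hCinj
          have h3 : (3 : Pn 3) * C g2 = C (3 * g2) := by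
            rw [C_mul]
            congr 1
          rw [h3] at G2
          have := congrArg (pderiv 2) G2
          rw [map_sub, pderiv_C_mul, pderiv_C_mul, hpu2, q2, map_zero] at this
          rw [← this, ← C_mul, ← C_mul, ← C_sub]
          congr 1
          ring
        exact (mul_eq_zero.mp h7).resolve_left two_ne_zero
      have G1' : g1 * u1 = 0 := by
        have h7 : 2 * (g1 * u1) = 0 := by
          apply hCinj
          have h3 : (3 : Pn 3) * C g1 = C (3 * g1) := by
            rw [C_mul]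
            congr 1
          rw [h3] at G1
          have := congrArg (pderiv 1) G1
          rw [map_sub, pderiv_C_mul, pderiv_C_mul, hpu1, q1, map_zero] at this
          rw [← this, ← C_mul, ← C_mul, ← C_sub]
          congr 1
          ring
        exact (mul_eq_zero.mp h7).resolve_left two_ne_zero
      have hτ : ∃ τ : Pn 3, τ.IsHomogeneous 1 ∧ pderiv 1 κ = C g1 * τ ∧ pderiv 2 κ = C g2 * τ := by
        have hCm : ∀ (c : ℂ) {f : Pn 3} {d : ℕ}, f.IsHomogeneous d →
            (C c * f).IsHomogeneous d := by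
          intro c f d hf
          have := (isHomogeneous_C (Fin 3) c).mul hf
          rwa [zero_add] at this
        by_cases hg2 : g2 = 0
        · have hg1 : g1 ≠ 0 := by
            intro hg1
            rw [hg1, hg2, C_0, zero_mul, zero_mul, sub_zero, zero_add] at E1
            exact hg0 ((mul_eq_zero.mp E1).resolve_left hCr0)
          have hg1C : (C g1 : Pn 3) ≠ 0 := fun h => hg1 (C_eq_zero.mp h)
          have hu10 : u1 = 0 := (mul_eq_zero.mp G1').resolve_left hg1
          have hu0 : u = 0 := by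
            rw [hu10, C_0, zero_mul, sub_zero] at G1
            rcases mul_eq_zero.mp G1 with h8 | h8
            · rcases mul_eq_zero.mp h8 with h9 | h9
              · exact absurd h9 (by norm_num)
              · exact absurd h9 hg1C
            · exact h8
          have h4 : (C g1⁻¹ : Pn 3) * C g1 = 1 := by rw [← C_mul, inv_mul_cancel₀ hg1, C_1]
          refine ⟨C g1⁻¹ * pderiv 1 κ, hCm _ (hκ'.pderiv (i := 1)), ?_, ?_⟩
          · linear_combination -(pderiv 1 κ) * h4
          · rw [hu] at hu0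
            have : C g1 * pderiv 2 κ = C g1 * (C g2 * (C g1⁻¹ * pderiv 1 κ)) := by
              linear_combination -hu0 - (C g2 * pderiv 1 κ) * h4
            exact mul_left_cancel₀ hg1C this
        · have hg2C : (C g2 : Pn 3) ≠ 0 := fun h => hg2 (C_eq_zero.mp h)
          have hu20 : u2 = 0 := (mul_eq_zero.mp G2').resolve_left hg2
          have hu0 : u = 0 := by
            rw [hu20, C_0, zero_mul, sub_zero] at G2
            rcases mul_eq_zero.mp G2 with h8 | h8
            · rcases mul_eq_zero.mp h8 with h9 | h9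
              · exact absurd h9 (by norm_num)
              · exact absurd h9 hg2C
            · exact h8
          have h4 : (C g2⁻¹ : Pn 3) * C g2 = 1 := by rw [← C_mul, inv_mul_cancel₀ hg2, C_1]
          refine ⟨C g2⁻¹ * pderiv 2 κ, hCm _ (hκ'.pderiv (i := 2)), ?_, ?_⟩
          · rw [hu] at hu0
            have : C g2 * pderiv 1 κ = C g2 * (C g1 * (C g2⁻¹ * pderiv 2 κ)) := by
              linear_combination hu0 - (C g1 * pderiv 2 κ) * h4
            exact mul_left_cancel₀ hg2C this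
          · linear_combination -(pderiv 2 κ) * h4
      obtain ⟨τ, hτ, t1, t2⟩ := hτ
      have hκτ : κ = g * τ := by
        have : C r * κ = C r * (g * τ) := by
          rw [t1, t2] at E2
          linear_combination E2 - τ * E1
        exact mul_left_cancel₀ hCr0 this
      have hτ1 : pderiv 1 τ = 0 := by
        have : g * pderiv 1 τ = 0 := by
          rw [hκτ, Derivation.leibniz, q1] at t1
          simp only [smul_eq_mul] at t1
          linear_combination t1
        exact (mul_eq_zero.mp this).resolve_left hg0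
      have hτ2 : pderiv 2 τ = 0 := by
        have : g * pderiv 2 τ = 0 := by
          rw [hκτ, Derivation.leibniz, q2] at t2
          simp only [smul_eq_mul] at t2
          linear_combination t2
        exact (mul_eq_zero.mp this).resolve_left hg0
      obtain ⟨c, hc⟩ := only0 hτ hτ1 hτ2
      rw [pow_one] at hc
      refine lB h h12 c ?_ ?_
      · rw [f1, e1, hκτ, hc]
        ring
      · rw [f2, e2, hκτ, hc]
        ring
  · -- `g` constant
    obtain ⟨γ, hγ⟩ := hom0 hg
    have hγ0 : γ ≠ 0 := by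
      rintro rfl
      exact hg0 (by rw [hγ, C_0])
    obtain ⟨k0, k1, k2, hk, -, d1, d2⟩ := lin3 hκ
    have hc12 : pderiv 1 c2 = pderiv 2 c1 := by
      rw [hγ] at hcomm
      rw [pderiv_C, pderiv_C, mul_zero, add_zero, mul_zero, add_zero] at hcomm
      have : (C γ : Pn 3) ≠ 0 := fun h => hγ0 (C_eq_zero.mp h)
      exact mul_left_cancel₀ this hcomm
    rw [d1, d2, hc12] at hcl
    have hcl' : C k1 * c2 = C k2 * c1 := by linear_combination hcl
    by_cases hk12 : k1 = 0 ∧ k2 = 0
    · refine lB h h12 (k0 * γ⁻¹) ?_ ?_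
      · rw [f1, e1, hk, hk12.1, hk12.2, hγ, C_mul]
        have h4 : (C γ⁻¹ : Pn 3) * C γ = 1 := by rw [← C_mul, inv_mul_cancel₀ hγ0, C_1]
        rw [C_0]
        linear_combination -(C k0 * X 0 * c1) * h4
      · rw [f2, e2, hk, hk12.1, hk12.2, hγ, C_mul]
        have h4 : (C γ⁻¹ : Pn 3) * C γ = 1 := by rw [← C_mul, inv_mul_cancel₀ hγ0, C_1]
        rw [C_0]
        linear_combination -(C k0 * X 0 * c2) * h4
    · refine hlA (-k2) k1 ?_ ?_
      · by_contra hcon
        push Not at hcon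
        exact hk12 ⟨hcon.2, neg_eq_zero.mp hcon.1⟩
      · rw [C_neg]
        linear_combination hcl'

end Pool.Agent.Helper1.FK
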