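import Pool.Agent.Helper1.FK.Coord
import Pool.Agent.Helper1.FK.CoordG
import Pool.Agent.Helper50.FC.Poin

/-! FK-16: CaseA and CaseB on the level of `θ`.
`out_A`: choose `q0` quadratic with `w(q0) = l` and pass to `Y = Q - q0(φ)` (`RF_gauge`): now `l = 0`; choose coordinates with `w = e_2`: `m_2 = 0`, `σ_2 = 0`, `i_(e_2) dσ = 0`, `i_(e_2) θ0 = 0`, closedness: all
coefficients are polynomials in `x_0, x_1`.  `Φ = (x_0, x_1, Y)` (as forms on `ℂ^n`), `r_0 = - (Y m_1 + σ_1)`, `r_1 = Y m_0 + σ_0`, `r_2 = Y (∂_0 σ_1 - ∂_1 σ_0) + (θ0)_01`; divergence free.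
`out_B`: `df Q + pb φ μ` is in `E_1`; it is not 0 since `θ = (dQ + μ) ∧ (Q m + σ)` is not 0. -/

set_option autoImplicit false

namespace Pool.Agent.Helper1.FK

open MvPolynomial
open scoped BigOperators
open Pool.Agent.Helper71.FL (w12 pf ct Dec Closed dd)
open Pool.Agent.Helper71.FC
open Pool.Agent.Helper93 (lsub lmap OF pb Cop)
open Pool.Agent.Helper1.FG (om7)

variable {n : ℕ} {θ : F2 n} {φ : Fin 3 → Fin n → ℂ} {Q : Pn n} {m : Fin 3 → ℂ} {σ : F1 3}
  {θ0 : F2 3}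

private theorem lsub_C {M N : ℕ} (φ : Fin M → Fin N → ℂ) (c : ℂ) : lsub φ (C c : Pn M) = C c := by
  unfold lsub
  rw [aeval_C]
  rfl

private theorem df_lsub_X {M N : ℕ} (φ : Fin M → Fin N → ℂ) (k : Fin M) (i : Fin N) :
    df (lsub φ (X k)) i = C (φ k i) := by
  unfold df lsub
  rw [aeval_X, map_sum, Finset.sum_eq_single i]
  · rw [pderiv_C_mul, pderiv_X_self, mul_one]
  · intro j _ hj
    rw [pderiv_C_mul, pderiv_X_of_ne hj, mul_zero]
  · intro h
    exact absurd (Finset.mem_univ i) h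

private theorem hR_hom {M N : ℕ} (φ : Fin M → Fin N → ℂ) (k : Fin M) :
    (lsub φ (X k)).IsHomogeneous 1 := lsub_hom (isHomogeneous_X ℂ k)

/-- the case `w = e_0` after the gauge transformation -/
private theorem core (Y : Pn n) (hY : Y.IsHomogeneous 2) (hR : RD m σ θ0)
    (hF : RF θ φ Y m σ θ0) (hm : m 0 = 0) (hs0 : σ 0 = 0) (hs : ∀ j, pderiv 0 (σ j) = 0)
    (ht : ∀ j, θ0 0 j = 0) : Fam3 ![1, 1, 2] θ := by
  have hclosed := hR.cl 0 1 2
  have ht2 : θ0 2 0 = 0 := by rw [hR.alt 2 0, ht 2, neg_zero]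
  rw [ht2, ht 1, map_zero, map_zero, add_zero, add_zero] at hclosed
  set Φ' : Fin 3 → Pn 3 := ![X 1, X 2, 0] with hΦ'
  have key : ∀ (h : Pn 3) (d : ℕ), h.IsHomogeneous d → pderiv 0 h = 0 →
      ∃ r : MvPolynomial (Fin 3) ℂ, IsWeightedHomogeneous (![1, 1, 2] : Fin 3 → ℕ) r d ∧
        pderiv 2 r = 0 ∧ aeval Φ' r = h ∧ aeval Φ' (pderiv 0 r) = pderiv 1 h ∧
        aeval Φ' (pderiv 1 r) = pderiv 2 h := by
    intro h d hh h0
    refine Pool.Agent.Helper50.FC.few (a := 1) (b := 2) (by decide) hh ?_ Φ' rfl rfl ![1, 1, 2] rfl rfl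
    intro j hj1 hj2
    have : j = 0 := by
      fin_cases j
      · rfl
      · exact absurd rfl hj1
      · exact absurd rfl hj2
    rw [this, h0]
  obtain ⟨r1, w1, p1, a1, b1, c1⟩ := key (σ 1) 2 (hR.hσ 1) (hs 1)
  obtain ⟨r2, w2, p2, a2, b2, c2⟩ := key (σ 2) 2 (hR.hσ 2) (hs 2)
  obtain ⟨t, w3, p3, a3, b3, c3⟩ := key (θ0 1 2) 3 (hR.hθ 1 2) hclosed
  set Ψ : Fin 3 → Pn n := ![lsub φ (X 1), lsub φ (X 2), Y] with hΨ
  have ev : ∀ r : MvPolynomial (Fin 3) ℂ, pderiv 2 r = 0 → aeval Ψ r = lsub φ (aeval Φ' r) := by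
    intro r hr
    have h4 : (aeval Ψ : MvPolynomial (Fin 3) ℂ →ₐ[ℂ] Pn n) r = ((lsub φ).comp (aeval Φ')) r := by
      refine hom_congr_vars (f₁ := ((aeval Ψ : MvPolynomial (Fin 3) ℂ →ₐ[ℂ] Pn n) :
        MvPolynomial (Fin 3) ℂ →+* Pn n)) (f₂ := (((lsub φ).comp (aeval Φ') :
        MvPolynomial (Fin 3) ℂ →ₐ[ℂ] Pn n) : MvPolynomial (Fin 3) ℂ →+* Pn n)) ?_ ?_ rfl
      · ext c
        simp
      · intro i hi _
        have hi2 : i ≠ 2 := fun hc => Pool.Agent.Helper50.FC.notMem_vars hr (hc ▸ hi)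
        simp only [RingHom.coe_coe, AlgHom.comp_apply, aeval_X]
        fin_cases i
        · rfl
        · rfl
        · exact absurd rfl hi2
    exact h4
  have hp02 : pderiv 2 (pderiv 0 r2) = 0 := by
    rw [Pool.Agent.Helper50.FC.pd_comm, p2, map_zero]
  have hp11 : pderiv 2 (pderiv 1 r1) = 0 := by
    rw [Pool.Agent.Helper50.FC.pd_comm, p1, map_zero]
  refine ⟨Ψ, ![-(X 2 * C (m 2) + r2), X 2 * C (m 1) + r1, X 2 * (pderiv 0 r2 - pderiv 1 r1) + t],
    ?_, ?_, ?_, ?_⟩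
  · intro a
    fin_cases a
    · exact hR_hom φ 1
    · exact hR_hom φ 2
    · exact hY
  · have hX2 : IsWeightedHomogeneous (![1, 1, 2] : Fin 3 → ℕ) (X 2 : MvPolynomial (Fin 3) ℂ) 2 :=
      isWeightedHomogeneous_X ℂ _ 2
    have hC : ∀ c : ℂ, IsWeightedHomogeneous (![1, 1, 2] : Fin 3 → ℕ) (C c : MvPolynomial (Fin 3) ℂ) 0 :=
      fun c => isWeightedHomogeneous_C _ c
    intro a
    fin_cases a
    · show IsWeightedHomogeneous (![1, 1, 2] : Fin 3 → ℕ) (-(X 2 * C (m 2) + r2)) 2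
      have h5 := (hC (-1)).mul ((hX2.mul (hC (m 2))).add w2)
      simpa using h5
    · show IsWeightedHomogeneous (![1, 1, 2] : Fin 3 → ℕ) (X 2 * C (m 1) + r1) 2
      exact (hX2.mul (hC (m 1))).add w1
    · show IsWeightedHomogeneous (![1, 1, 2] : Fin 3 → ℕ) (X 2 * (pderiv 0 r2 - pderiv 1 r1) + t) 3
      have h6 : IsWeightedHomogeneous (![1, 1, 2] : Fin 3 → ℕ) (pderiv 0 r2) 1 :=
        w2.pderiv (by simp)
      have h7 : IsWeightedHomogeneous (![1, 1, 2] : Fin 3 → ℕ) (pderiv 1 r1) 1 :=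
        w1.pderiv (by simp)
      have h8 : IsWeightedHomogeneous (![1, 1, 2] : Fin 3 → ℕ) (pderiv 0 r2 - pderiv 1 r1) 1 := by
        have h9 := (hC (-1)).mul h7
        have h10 := h6.add (by simpa using h9 : IsWeightedHomogeneous (![1, 1, 2] : Fin 3 → ℕ) (-pderiv 1 r1) 1)
        rw [sub_eq_add_neg]
        exact h10
      exact (hX2.mul h8).add w3
  · rw [Fin.sum_univ_three]
    simp only [Matrix.cons_val_zero, Matrix.cons_val_one, Matrix.cons_val]
    simp only [map_neg, map_add, map_sub, Derivation.leibniz, smul_eq_mul, pderiv_C, pderiv_X_self,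
      pderiv_X_of_ne (show (2 : Fin 3) ≠ 0 by decide), pderiv_X_of_ne (show (2 : Fin 3) ≠ 1 by decide),
      hp02, hp11, p3]
    ring
  · intro i j
    rw [hF i j, Fin.sum_univ_three]
    have e01 : (0 : Fin 3) + 1 = 1 := rfl
    have e02 : (0 : Fin 3) + 2 = 2 := rfl
    have e11 : (1 : Fin 3) + 1 = 2 := rfl
    have e12 : (1 : Fin 3) + 2 = 0 := rfl
    have e21 : (2 : Fin 3) + 1 = 0 := rfl
    have e22 : (2 : Fin 3) + 2 = 1 := rfl
    rw [e01, e02, e11, e12, e21, e22]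
    have f0 : ∀ i, df (Ψ 0) i = C (φ 1 i) := fun i => df_lsub_X φ 1 i
    have f1 : ∀ i, df (Ψ 1) i = C (φ 2 i) := fun i => df_lsub_X φ 2 i
    have f2 : Ψ 2 = Y := rfl
    have A1 : aeval Ψ r1 = lsub φ (σ 1) := by rw [ev r1 p1, a1]
    have A2 : aeval Ψ r2 = lsub φ (σ 2) := by rw [ev r2 p2, a2]
    have A3 : aeval Ψ t = lsub φ (θ0 1 2) := by rw [ev t p3, a3]
    have A4 : aeval Ψ (pderiv 0 r2) = lsub φ (pderiv 1 (σ 2)) := by rw [ev _ hp02, b2]
    have A5 : aeval Ψ (pderiv 1 r1) = lsub φ (pderiv 2 (σ 1)) := by rw [ev _ hp11, c1]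
    have g1 : ∀ i, pb φ (cv m) i = C (φ 1 i) * C (m 1) + C (φ 2 i) * C (m 2) := by
      intro i
      unfold pb cv
      rw [Fin.sum_univ_three, hm, lsub_C, lsub_C, lsub_C, C_0]
      ring
    have g2 : ∀ i, pb φ σ i = C (φ 1 i) * lsub φ (σ 1) + C (φ 2 i) * lsub φ (σ 2) := by
      intro i
      unfold pb
      rw [Fin.sum_univ_three, hs0, map_zero]
      ring
    have d0 : ∀ j, dd σ 0 j = 0 := by
      intro j
      unfold dd
      rw [hs j, hs0, map_zero, sub_zero]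
    have d0' : ∀ j, dd σ j 0 = 0 := by
      intro j
      unfold dd
      rw [hs j, hs0, map_zero, sub_zero]
    have d11 : ∀ j, dd σ j j = 0 := by
      intro j
      unfold dd
      rw [sub_self]
    have d12 : dd σ 1 2 = pderiv 1 (σ 2) - pderiv 2 (σ 1) := rfl
    have d21 : dd σ 2 1 = -(pderiv 1 (σ 2) - pderiv 2 (σ 1)) := by
      unfold dd
      ring
    have g3 : pb2 φ (dd σ) i j = (C (φ 1 i) * C (φ 2 j) - C (φ 2 i) * C (φ 1 j)) *
        (lsub φ (pderiv 1 (σ 2)) - lsub φ (pderiv 2 (σ 1))) := by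
      unfold pb2
      simp only [Fin.sum_univ_three]
      rw [d0, d0, d0, d0', d0', d11, d11, d12, d21]
      simp only [map_zero, map_neg, map_sub, map_mul]
      ring
    have t0' : ∀ j, θ0 j 0 = 0 := by
      intro j
      rw [hR.alt, ht, neg_zero]
    have g4 : pb2 φ θ0 i j = (C (φ 1 i) * C (φ 2 j) - C (φ 2 i) * C (φ 1 j)) *
        lsub φ (θ0 1 2) := by
      unfold pb2
      simp only [Fin.sum_univ_three]
      rw [ht, ht, ht, t0', t0', hR.alt0, hR.alt0, hR.alt 2 1]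
      simp only [map_zero, map_neg, map_mul]
      ring
    simp only [Matrix.cons_val_zero, Matrix.cons_val_one, Matrix.cons_val]
    simp only [map_neg, map_add, map_sub, map_mul, aeval_X, aeval_C, A1, A2, A3, A4, A5, f2,
      algebraMap_eq]
    rw [g3, g4]
    unfold w11
    simp only [f0, f1, g1, g2]
    ring

theorem out_A (hQ : Q.IsHomogeneous 2) (hR : RD m σ θ0) (hF : RF θ φ Q m σ θ0)
    (h : CaseA m σ θ0) : Fam3 ![1, 1, 2] θ := by
  obtain ⟨w, l, hw, hl, h1, h2, h3, h4⟩ := h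
  obtain ⟨g, g', hg, hgw⟩ := exists_basis (n := 3) (r := 1) (by norm_num) (fun _ => w)
    (LinearIndependent.of_subsingleton (v := fun _ : Fin 1 => w) 0 hw)
  have hgw0 := hgw 0
  have hcol : ∀ k, g k 0 = w k := by
    intro k
    have h5 := congrFun hgw0 k
    have h6 : lmap g (fun j => if j = Fin.castLE (by norm_num) (0 : Fin 1) then 1 else 0) k =
        ∑ l, g k l * (if l = (0 : Fin 3) then 1 else 0) := rfl
    rw [h6] at h5
    simpa using h5
  have hR1 := RD_pb hg hR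
  have hF1 := RF_pb hg hF
  set m' := mg m g with hm'
  set σ' := pb g σ with hσ'
  set θ' := pb2 g θ0 with hθ'
  set l' := lsub g l with hl'
  have hl1 : l'.IsHomogeneous 1 := lsub_hom hl
  have hm0 : m' 0 = 0 := by
    rw [hm']
    unfold mg
    rw [← h1]
    exact Finset.sum_congr rfl fun j _ => by rw [hcol, mul_comm]
  have hs0 : σ' 0 = 0 := by
    rw [hσ']
    unfold pb
    have h5 := congrArg (lsub g) h2
    unfold pair cv at h5
    rw [map_sum, map_zero] at h5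
    rw [← h5]
    refine Finset.sum_congr rfl fun j _ => ?_
    rw [map_mul, lsub_C, hcol]
  have gen : ∀ (Θ : F2 3) (j : Fin 3), pb2 g Θ 0 j = ∑ q, C (g q j) * lsub g (ct (cv w) Θ q) := by
    intro Θ j
    unfold pb2 ct cv
    rw [Finset.sum_comm]
    refine Finset.sum_congr rfl fun q _ => ?_
    rw [map_sum, Finset.mul_sum]
    refine Finset.sum_congr rfl fun k _ => ?_
    rw [C_mul, map_mul, lsub_C, hcol]
    ring
  have hd0 : ∀ j, dd σ' 0 j = -(l' * C (m' j)) := by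
    intro j
    rw [hσ', ← pb2_dd, gen]
    have h5 : ∀ q, C (g q j) * lsub g (ct (cv w) (dd σ) q) = -(l' * C (m q * g q j)) := by
      intro q
      rw [h3 q, map_neg, map_mul, lsub_C, C_mul, hl']
      ring
    rw [Finset.sum_congr rfl fun q _ => h5 q, Finset.sum_neg_distrib, ← Finset.mul_sum, hm']
    unfold mg
    rw [map_sum]
  have ht0 : ∀ j, θ' 0 j = -(l' * σ' j) := by
    intro j
    rw [hθ', gen]
    have h5 : ∀ q, C (g q j) * lsub g (ct (cv w) θ0 q) = -(l' * (C (g q j) * lsub g (σ q))) := by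
      intro q
      rw [h4 q, map_neg, map_mul, hl']
      ring
    rw [Finset.sum_congr rfl fun q _ => h5 q, Finset.sum_neg_distrib, ← Finset.mul_sum, hσ']
    rfl
  set q0 := Pool.Agent.Helper50.FC.intj 0 l' with hq0
  have hq : q0.IsHomogeneous 2 := Pool.Agent.Helper50.FC.intj_hom 0 hl1
  have hdq : pderiv 0 q0 = l' := Pool.Agent.Helper50.FC.pderiv_intj 0 l'
  have hR2 := RD_gauge hR1 hq
  have hF2 := RF_gauge hF1 q0
  have hs0'' : gS m' σ' q0 0 = 0 := by
    unfold gS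
    rw [hs0, hm0, C_0, mul_zero, add_zero]
  have hs'' : ∀ j, pderiv 0 (gS m' σ' q0 j) = 0 := by
    intro j
    unfold gS
    have h5 := hd0 j
    unfold dd at h5
    rw [hs0, map_zero, sub_zero] at h5
    rw [map_add, h5, Derivation.leibniz, pderiv_C, smul_zero, zero_add, smul_eq_mul, hdq]
    ring
  refine core (Q - lsub (mm g' φ) q0) (hQ.sub (lsub_hom hq)) hR2 hF2 hm0 hs0'' hs'' ?_
  intro j
  unfold gT w11 df
  rw [ht0 j, hd0 j, hs0'', hdq]
  unfold gS
  ring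

theorem out_B (hθ : Fol θ) (hQ : Q.IsHomogeneous 2) (hR : RD m σ θ0) (hF : RF θ φ Q m σ θ0)
    (h : CaseB m σ θ0) : EE θ 1 ≠ ⊥ := by
  obtain ⟨μ, hμ, h1, h2⟩ := h
  set ξ : F1 n := fun i => df Q i + pb φ μ i with hξ
  set ρ : F1 n := fun i => Q * pb φ (cv m) i + pb φ σ i with hρ
  have e1 : pb2 φ (dd σ) = w11 (pb φ μ) (pb φ (cv m)) := by
    have : dd σ = w11 μ (cv m) := by
      funext i j
      exact h1 i j
    rw [this, pb2_w11]
  have e2 : pb2 φ θ0 = w11 (pb φ μ) (pb φ σ) := by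
    have : θ0 = w11 μ σ := by
      funext i j
      exact h2 i j
    rw [this, pb2_w11]
  have e3 : ∀ i j, θ i j = w11 ξ ρ i j := by
    intro i j
    rw [hF i j, e1, e2]
    unfold w11
    simp only [hξ, hρ]
    ring
  have hmem : ξ ∈ EE θ 1 := by
    refine ⟨fun i => ?_, fun i j k => ?_⟩
    · exact IsHomogeneous.add (hQ.pderiv) (pb_hom hμ i)
    · unfold w12
      rw [e3, e3, e3]
      unfold w11
      ring
  intro hbot
  rw [hbot, Submodule.mem_bot] at hmem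
  have h0 : ∀ i j, θ i j = 0 := by
    intro i j
    rw [e3]
    unfold w11
    rw [hmem]
    simp
  have h3 := hθ.prim 0 (fun i j => by rw [h0])
  exact not_isUnit_zero h3

end Pool.Agent.Helper1.FK
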