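import Pool.Agent.Helper1.FK.Coord
import Pool.Agent.Helper1.FK.CoordG

/-! FK-17: Case122 and Case7 on the level of `θ`.
`out_122`: after the gauge `Y = Q - q0(φ)`: `θ = dY ∧ (m1 Y dx + α x dq + (β q + γ x^2) dx) + (α - β) Y dx ∧ dq + (s q + t x^2) dx ∧ dq`, `x = lf n` composed with `φ`, `q` composed with `φ`.
`Φ = (x, Y, q)`, `r_0 = α x`, `r_1 = - ((α - β) Y + s q + t x^2)`, `r_2 = - (m1 Y + β q + γ x^2)` in the coordinates `(x, Y, q)`: divergence free.
`out_7`: `θ = dd (om7 a b x Y c ka kb kx kQ 0)`, `a, b, x` composed with `φ`, `Y = Q - q0(φ)`: the part of `om7` with `y` is `c x (y dρ - ρ dy)`, its differential is `dy ∧ c (2 x dρ + ρ dx) + y c dx ∧ dρ`, and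
`dσ = c dx ∧ dρ`. -/

set_option autoImplicit false

namespace Pool.Agent.Helper1.FK

open MvPolynomial
open scoped BigOperators
open Pool.Agent.Helper71.FL (w12 pf ct Dec Closed dd)
open Pool.Agent.Helper71.FC
open Pool.Agent.Helper93 (lsub lmap OF pb Cop)
open Pool.Agent.Helper1.FG (om7)

variable {n : ℕ} {θ : F2 n} {φ : Fin 3 → Fin n → ℂ} {Q : Pn n} {m : Fin 3 → ℂ} {σ : F1 3}
  {θ0 : F2 3}

private theorem pc {k : ℕ} (i j : Fin k) (p : Pn k) : pderiv i (pderiv j p) = pderiv j (pderiv i p) := by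
  classical
  have h : ⁅(pderiv i : Derivation ℂ (MvPolynomial (Fin k) ℂ) (MvPolynomial (Fin k) ℂ)),
      (pderiv j : Derivation ℂ (MvPolynomial (Fin k) ℂ) (MvPolynomial (Fin k) ℂ))⁆ = 0 := by
    apply MvPolynomial.derivation_ext
    intro l
    rw [Derivation.commutator_apply, pderiv_X, pderiv_X]
    simp [Pi.single_apply, apply_ite]
  have h2 := congrArg (fun d => d p) h
  simp only [Derivation.commutator_apply, Derivation.coe_zero, Pi.zero_apply] at h2
  exact sub_eq_zero.mp h2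

private theorem df_lf {k : ℕ} (a : Fin k → ℂ) (i : Fin k) : pderiv i (lf a) = C (a i) := by
  classical
  unfold lf
  rw [map_sum, Finset.sum_eq_single i]
  · rw [pderiv_C_mul, pderiv_X_self, mul_one]
  · intro j _ hj
    rw [pderiv_C_mul, pderiv_X_of_ne hj, mul_zero]
  · intro h
    exact absurd (Finset.mem_univ i) h

private theorem lf_hom {k : ℕ} (a : Fin k → ℂ) : (lf a).IsHomogeneous 1 := by
  unfold lf
  refine IsHomogeneous.sum _ _ _ fun i _ => ?_
  have := (isHomogeneous_C (Fin k) (a i)).mul (isHomogeneous_X ℂ i)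
  rwa [zero_add] at this

private theorem lsC {k l : ℕ} (φ : Fin k → Fin l → ℂ) (c : ℂ) : lsub φ (C c) = C c := by
  unfold lsub
  rw [aeval_C]
  rfl

theorem out_122 (hQ : Q.IsHomogeneous 2) (hF : RF θ φ Q m σ θ0) (h : Case122 m σ θ0) :
    Fam3 ![1, 2, 2] θ := by
  obtain ⟨nn, q0, q, m1, α, β, γ, s, t, _, hq0, hq, hm, hS, hT⟩ := h
  have hR := RF_gauge hF q0
  set Y : Pn n := Q - lsub φ q0 with hY
  set x : Pn n := lsub φ (lf nn) with hx
  set p : Pn n := lsub φ q with hp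
  have hS' : gS m σ q0 = fun i => (fun i => (C α * lf nn) * df q i) i +
      (fun i => (C β * q + C γ * lf nn ^ 2) * df (lf nn) i) i := by
    funext i
    rw [hS i]
    unfold df
    simp only [df_lf]
  have hpS : pb φ (gS m σ q0) = fun i => (C α * x) * pderiv i p +
      (C β * p + C γ * x ^ 2) * pderiv i x := by
    rw [hS', pb_add, pb_smul, pb_smul, pb_df, pb_df]
    funext i
    unfold df
    simp only [map_mul, map_add, map_pow, lsC, ← hx, ← hp]
  have hm' : cv m = fun i => C m1 * df (lf nn) i := by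
    funext i
    unfold cv df
    rw [df_lf, hm i, C_mul]
  have hpm : pb φ (cv m) = fun i => C m1 * pderiv i x := by
    rw [hm', pb_smul, pb_df]
    funext i
    unfold df
    simp only [lsC, ← hx]
  have hT' : gT m σ θ0 q0 = fun i j => (C s * q + C t * lf nn ^ 2) * w11 (df (lf nn)) (df q) i j := by
    funext i j
    rw [hT i j]
    unfold w11 df cv
    simp only [df_lf]
  have hpT : pb2 φ (gT m σ θ0 q0) = fun i j => (C s * p + C t * x ^ 2) * w11 (df x) (df p) i j := by
    rw [hT', pb2_smul, pb2_w11, pb_df, pb_df]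
    funext i j
    simp only [map_mul, map_add, map_pow, lsC, ← hx, ← hp]
  have hdd : ∀ i j, pb2 φ (dd (gS m σ q0)) i j =
      (C α - C β) * (pderiv i x * pderiv j p - pderiv j x * pderiv i p) := by
    intro i j
    rw [pb2_dd, hpS]
    unfold dd
    simp only [map_add, pderiv_mul, pderiv_C, pderiv_pow, pc i j p, pc i j x]
    ring
  refine ⟨![x, Y, p], ![C α * X 0, -((C α - C β) * X 1 + C s * X 2 + C t * X 0 ^ 2),
    -(C m1 * X 1 + C β * X 2 + C γ * X 0 ^ 2)], ?_, ?_, ?_, ?_⟩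
  · intro a
    fin_cases a
    · exact lsub_hom (lf_hom nn)
    · exact hQ.sub (lsub_hom hq0)
    · exact lsub_hom hq
  · have hX0 : IsWeightedHomogeneous (![1, 2, 2] : Fin 3 → ℕ) (X 0 : MvPolynomial (Fin 3) ℂ) 1 :=
      isWeightedHomogeneous_X ℂ _ 0
    have hX1 : IsWeightedHomogeneous (![1, 2, 2] : Fin 3 → ℕ) (X 1 : MvPolynomial (Fin 3) ℂ) 2 :=
      isWeightedHomogeneous_X ℂ _ 1
    have hX2 : IsWeightedHomogeneous (![1, 2, 2] : Fin 3 → ℕ) (X 2 : MvPolynomial (Fin 3) ℂ) 2 :=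
      isWeightedHomogeneous_X ℂ _ 2
    have hX00 : IsWeightedHomogeneous (![1, 2, 2] : Fin 3 → ℕ) ((X 0) ^ 2 : MvPolynomial (Fin 3) ℂ) 2 := by
      have := hX0.pow 2
      simpa using this
    intro a
    fin_cases a
    · exact hX0.C_mul α
    · have h1 := (((hX1.C_mul (α - β)).add (hX2.C_mul s)).add (hX00.C_mul t)).neg
      rw [C_sub] at h1
      exact h1
    · exact (((hX1.C_mul m1).add (hX2.C_mul β)).add (hX00.C_mul γ)).neg
  · rw [Fin.sum_univ_three]
    show pderiv 0 (C α * X 0 : MvPolynomial (Fin 3) ℂ) +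
      pderiv 1 (-((C α - C β) * X 1 + C s * X 2 + C t * X 0 ^ 2) : MvPolynomial (Fin 3) ℂ) +
      pderiv 2 (-(C m1 * X 1 + C β * X 2 + C γ * X 0 ^ 2) : MvPolynomial (Fin 3) ℂ) = 0
    rw [← C_sub]
    simp only [map_neg, map_add, pderiv_C_mul, pderiv_pow, pderiv_X_self,
      pderiv_X_of_ne (R := ℂ) (show (2 : Fin 3) ≠ 1 by decide),
      pderiv_X_of_ne (R := ℂ) (show (0 : Fin 3) ≠ 1 by decide),
      pderiv_X_of_ne (R := ℂ) (show (1 : Fin 3) ≠ 2 by decide),
      pderiv_X_of_ne (R := ℂ) (show (0 : Fin 3) ≠ 2 by decide)]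
    rw [C_sub]
    ring
  · intro i j
    rw [hR i j, hdd i j, hpT, hpS, hpm, Fin.sum_univ_three]
    show _ = aeval ![x, Y, p] (C α * X 0 : MvPolynomial (Fin 3) ℂ) * w11 (df Y) (df p) i j +
      aeval ![x, Y, p] (-((C α - C β) * X 1 + C s * X 2 + C t * X 0 ^ 2) : MvPolynomial (Fin 3) ℂ) *
        w11 (df p) (df x) i j +
      aeval ![x, Y, p] (-(C m1 * X 1 + C β * X 2 + C γ * X 0 ^ 2) : MvPolynomial (Fin 3) ℂ) *
        w11 (df x) (df Y) i j
    have h0 : aeval ![x, Y, p] (X 0 : MvPolynomial (Fin 3) ℂ) = x := by rw [aeval_X]; rfl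
    have h1 : aeval ![x, Y, p] (X 1 : MvPolynomial (Fin 3) ℂ) = Y := by rw [aeval_X]; rfl
    have h2 : aeval ![x, Y, p] (X 2 : MvPolynomial (Fin 3) ℂ) = p := by rw [aeval_X]; rfl
    have hc : ∀ c : ℂ, aeval ![x, Y, p] (C c : MvPolynomial (Fin 3) ℂ) = (C c : Pn n) := by
      intro c
      rw [aeval_C]
      rfl
    simp only [map_neg, map_add, map_mul, map_sub, map_pow, h0, h1, h2, hc]
    unfold w11 df
    ring

theorem out_7 (hQ : Q.IsHomogeneous 2) (hF : RF θ φ Q 0 σ θ0) (h : Case7 σ θ0) : OKF θ := by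
  obtain ⟨a, b, x, q0, c, ka, kb, kx, kQ, ha, hb, hx, hq0, hk, hc, hab, hS, hT⟩ := h
  have hR := RF_gauge hF q0
  have hS0 : gS 0 σ q0 = fun i => ((fun i => (C c * (2 * x)) * df (a * b) i) i +
      (fun i => (C c * (a * b)) * df x i) i) := by
    funext i
    unfold gS df
    rw [hS i]
    simp only [Pi.zero_apply, map_zero]
    ring
  set Y : Pn n := Q - lsub φ q0 with hY
  have hsA : ∀ f g : Pn 3, lsub φ (f * g) = lsub φ f * lsub φ g := fun f g => map_mul _ _ _
  have h2 : lsub φ (2 : Pn 3) = 2 := map_ofNat _ 2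
  have hpS : pb φ (gS 0 σ q0) = fun i => (C c * (2 * lsub φ x)) * pderiv i (lsub φ a * lsub φ b) +
      (C c * (lsub φ a * lsub φ b)) * pderiv i (lsub φ x) := by
    rw [hS0, pb_add, pb_smul, pb_smul, pb_df, pb_df]
    funext i
    unfold df
    simp only [hsA, lsC, h2]
  have hpm : pb φ (cv 0) = fun _ => 0 := by
    funext i
    unfold pb cv
    simp
  have hT' : gT 0 σ θ0 q0 = dd (fun i => om7 a b x 0 c ka kb kx kQ 0 i) := by
    funext i j
    exact hT i j
  have hom : (fun i => om7 a b x 0 c ka kb kx kQ 0 i) = fun i =>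
      (fun i => (C ka * b * x * (a * b)) * df a i) i + (fun i =>
      (fun i => (C kb * a * x * (a * b)) * df b i) i + (fun i =>
      (fun i => (C kx * a * b * (a * b)) * df x i) i +
      (fun i => (C kQ * a * b * x) * df (a * b) i) i) i) i := by
    funext i
    unfold Pool.Agent.Helper1.FG.om7 df
    simp only [mul_zero, add_zero, map_zero, sub_zero, zero_mul]
    ring
  have hpo : pb φ (fun i => om7 a b x 0 c ka kb kx kQ 0 i) = fun i =>
      (C ka * lsub φ b * lsub φ x * (lsub φ a * lsub φ b)) * pderiv i (lsub φ a) +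
      ((C kb * lsub φ a * lsub φ x * (lsub φ a * lsub φ b)) * pderiv i (lsub φ b) +
      ((C kx * lsub φ a * lsub φ b * (lsub φ a * lsub φ b)) * pderiv i (lsub φ x) +
      (C kQ * lsub φ a * lsub φ b * lsub φ x) * pderiv i (lsub φ a * lsub φ b))) := by
    rw [hom, pb_add, pb_add, pb_add, pb_smul, pb_smul, pb_smul, pb_smul, pb_df, pb_df, pb_df, pb_df]
    funext i
    unfold df
    simp only [hsA, lsC]
  have hY2 : Y.IsHomogeneous 2 := hQ.sub (lsub_hom hq0)
  refine Or.inr (Or.inr (Or.inr (Or.inr (Or.inr (Or.inr (Or.inr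
      ⟨lsub φ a, lsub φ b, lsub φ x, Y, c, ka, kb, kx, kQ, lsub_hom ha, lsub_hom hb,
        lsub_hom hx, hY2, hk, hc, hab, ?_⟩))))))
  funext i j
  rw [hR i j, hT', pb2_dd, pb2_dd, hpo, hpS, hpm]
  have e : (fun i => om7 (lsub φ a) (lsub φ b) (lsub φ x) Y c ka kb kx kQ 0 i) = fun i =>
      (C c * lsub φ x * Y) * pderiv i (lsub φ a * lsub φ b) +
      (-(C c * lsub φ x * (lsub φ a * lsub φ b)) * pderiv i Y +
      ((C ka * lsub φ b * lsub φ x * (lsub φ a * lsub φ b)) * pderiv i (lsub φ a) +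
      ((C kb * lsub φ a * lsub φ x * (lsub φ a * lsub φ b)) * pderiv i (lsub φ b) +
      ((C kx * lsub φ a * lsub φ b * (lsub φ a * lsub φ b)) * pderiv i (lsub φ x) +
      (C kQ * lsub φ a * lsub φ b * lsub φ x) * pderiv i (lsub φ a * lsub φ b))))) := by
    funext i
    unfold Pool.Agent.Helper1.FG.om7
    simp only [add_zero, map_zero, zero_mul]
    ring
  rw [e]
  generalize lsub φ a = A
  generalize lsub φ b = B
  generalize lsub φ x = x'
  have hp2 : ∀ i : Fin n, pderiv i (2 : Pn n) = 0 := by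
    intro i
    rw [show (2 : Pn n) = C 2 from (map_ofNat C 2).symm]
    exact pderiv_C
  unfold dd w11 df
  simp only [map_add, map_neg, pderiv_mul, pderiv_C, hp2, pc i j A, pc i j B, pc i j x', pc i j Y]
  ring

end Pool.Agent.Helper1.FK
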