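import Pool.Agent.Helper1.FK.Coord

/-! FK-18: CaseD on the level of `θ` (`k = 2` in `OKF`).
`Φ = (x_0, x_1, x_2, Q)` (`x_i` the linear form with coefficients `φ i`), fields on `ℂ^4` with coordinates `(x_0, x_1, x_2, y)`:
`v 0 = (v2, - (c1 y + A1))`, `v 1 = (v1, c2 y + A2)`.  Then `det (e_3, e_j, v 0, v 1) = (cr v1 v2)_j = σ_j` and `det (e_i, e_j, v 0, v 1) = ((c1 y + A1) v1 + (c2 y + A2) v2)_k = (y u + U)_k` for `(i,j,k)`
cyclic: `stdF Φ v = θ` by `RF` (`m = 0`).  `ClV v`: `θ_R = dy ∧ σ + y dσ + θ0` is closed.  `P = (X 0, X 1, X 2, q)`: at `p` the values of `mins` are `± σ_j(p)` and `± (q u + U)_k(p)`. -/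

set_option autoImplicit false

namespace Pool.Agent.Helper1.FK

open MvPolynomial
open scoped BigOperators
open Pool.Agent.Helper71.FL (w12 pf ct Dec Closed dd)
open Pool.Agent.Helper71.FC
open Pool.Agent.Helper93 (lsub lmap OF pb Cop)
open Pool.Agent.Helper1.FG (om7)

private theorem ren_wh {p : Pn 3} {d : ℕ} (hp : p.IsHomogeneous d) :
    IsWeightedHomogeneous (![1, 1, 1, 2] : Fin 4 → ℕ) (rename Fin.castSucc p) d := by
  have h : ∀ s ∈ p.support, rename Fin.castSucc (monomial s (coeff s p)) ∈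
      weightedHomogeneousSubmodule ℂ (![1, 1, 1, 2] : Fin 4 → ℕ) d := by
    intro s hs
    rw [mem_weightedHomogeneousSubmodule, rename_monomial]
    apply isWeightedHomogeneous_monomial
    have h1 := hp (mem_support_iff.mp hs)
    rw [Finsupp.weight_apply] at h1 ⊢
    rw [Finsupp.sum_mapDomain_index (by simp) (by intros; simp [add_mul])]
    rw [← h1]
    refine Finsupp.sum_congr fun i _ => ?_
    fin_cases i <;> rfl
  have h2 := (weightedHomogeneousSubmodule ℂ (![1, 1, 1, 2] : Fin 4 → ℕ) d).sum_mem h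
  rw [← map_sum, ← p.as_sum] at h2
  exact (mem_weightedHomogeneousSubmodule _ _ _ _).mp h2

private theorem alp4 {S : Type} [CommRing S] (V1 V2 : Fin 3 → S) (b1 b2 : S) (x y : Fin 4 → S) :
    Pool.Agent.Helper1.FG.alp (k := 2)
      ![![V2 0, V2 1, V2 2, -b1], ![V1 0, V1 1, V1 2, b2]] x y =
      x 3 * (y 0 * cr V1 V2 0 + y 1 * cr V1 V2 1 + y 2 * cr V1 V2 2) -
      y 3 * (x 0 * cr V1 V2 0 + x 1 * cr V1 V2 1 + x 2 * cr V1 V2 2) +
      (x 1 * y 2 - x 2 * y 1) * (b1 * V1 0 + b2 * V2 0) +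
      (x 2 * y 0 - x 0 * y 2) * (b1 * V1 1 + b2 * V2 1) +
      (x 0 * y 1 - x 1 * y 0) * (b1 * V1 2 + b2 * V2 2) := by
  have h : Pool.Agent.Helper1.FG.alp (k := 2)
      ![![V2 0, V2 1, V2 2, -b1], ![V1 0, V1 1, V1 2, b2]] x y =
      Matrix.det !![x 0, x 1, x 2, x 3; y 0, y 1, y 2, y 3; V2 0, V2 1, V2 2, -b1;
        V1 0, V1 1, V1 2, b2] := by
    unfold Pool.Agent.Helper1.FG.alp
    congr 1
    ext i j
    fin_cases i <;> fin_cases j <;> rfl
  rw [h, Matrix.det_succ_row_zero, Fin.sum_univ_four]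
  simp only [Matrix.det_fin_three]
  simp [Matrix.submatrix_apply, Fin.succAbove, cr]
  ring


/-- the matrix of `dy ∧ s + B` -/
private def W4 {S : Type} [CommRing S] (s B : Fin 3 → S) : Fin 4 → Fin 4 → S :=
  ![![0, B 2, -B 1, -s 0], ![-B 2, 0, B 0, -s 1], ![B 1, -B 0, 0, -s 2], ![s 0, s 1, s 2, 0]]

private theorem mins4 {S : Type} [CommRing S] (V1 V2 : Fin 3 → S) (b1 b2 : S) (i j : Fin 4) :
    Pool.Agent.Helper1.FG.mins (k := 2)
      ![![V2 0, V2 1, V2 2, -b1], ![V1 0, V1 1, V1 2, b2]] (i, j) =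
      W4 (cr V1 V2) (fun k => b1 * V1 k + b2 * V2 k) i j := by
  unfold Pool.Agent.Helper1.FG.mins
  rw [alp4]
  fin_cases i <;> fin_cases j <;> simp [W4]

private noncomputable abbrev io (p : Pn 3) : MvPolynomial (Fin 4) ℂ := rename Fin.castSucc p

private theorem io0 (p : Pn 3) : pderiv 0 (io p) = io (pderiv 0 p) :=
  pderiv_rename (Fin.castSucc_injective 3) 0 p

private theorem io1 (p : Pn 3) : pderiv 1 (io p) = io (pderiv 1 p) :=
  pderiv_rename (Fin.castSucc_injective 3) 1 p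

private theorem io2 (p : Pn 3) : pderiv 2 (io p) = io (pderiv 2 p) :=
  pderiv_rename (Fin.castSucc_injective 3) 2 p

private theorem io3 (p : Pn 3) : pderiv 3 (io p) = 0 := by
  classical
  apply pderiv_eq_zero_of_notMem_vars
  intro h
  obtain ⟨i, _, hi⟩ := Finset.mem_image.mp (vars_rename _ _ h)
  fin_cases i <;> simp at hi

private theorem W4_closed {σ : F1 3} {θ0 : F2 3} (hcl : Closed θ0)
    (hd : pderiv 0 (st (dd σ) 0) + pderiv 1 (st (dd σ) 1) + pderiv 2 (st (dd σ) 2) = 0) :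
    Closed (W4 (fun k => io (σ k)) (fun k => X 3 * io (st (dd σ) k) + io (st θ0 k))) := by
  have h1 := hcl 0 1 2
  have e1 : io (pderiv 0 (st θ0 0)) + io (pderiv 1 (st θ0 1)) + io (pderiv 2 (st θ0 2)) = 0 := by
    rw [← map_add, ← map_add, show pderiv 0 (st θ0 0) + pderiv 1 (st θ0 1) + pderiv 2 (st θ0 2) = 0
      from h1, map_zero]
  have e2 : io (pderiv 0 (st (dd σ) 0)) + io (pderiv 1 (st (dd σ) 1)) +
      io (pderiv 2 (st (dd σ) 2)) = 0 := by
    rw [← map_add, ← map_add, hd, map_zero]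
  have s0 : io (st (dd σ) 0) = io (pderiv 1 (σ 2)) - io (pderiv 2 (σ 1)) := by
    rw [← map_sub]; rfl
  have s1 : io (st (dd σ) 1) = io (pderiv 2 (σ 0)) - io (pderiv 0 (σ 2)) := by
    rw [← map_sub]; rfl
  have s2 : io (st (dd σ) 2) = io (pderiv 0 (σ 1)) - io (pderiv 1 (σ 0)) := by
    rw [← map_sub]; rfl
  have p0 : pderiv 0 (X 3 : MvPolynomial (Fin 4) ℂ) = 0 := pderiv_X_of_ne (by decide)
  have p1 : pderiv 1 (X 3 : MvPolynomial (Fin 4) ℂ) = 0 := pderiv_X_of_ne (by decide)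
  have p2 : pderiv 2 (X 3 : MvPolynomial (Fin 4) ℂ) = 0 := pderiv_X_of_ne (by decide)
  have p3 : pderiv 3 (X 3 : MvPolynomial (Fin 4) ℂ) = 1 := pderiv_X_self 3
  intro i j k
  fin_cases i <;> fin_cases j <;> fin_cases k <;>
    simp [W4, Derivation.leibniz, io0, io1, io2, io3, p0, p1, p2, p3] <;>
    first | done | linear_combination e1 + X 3 * e2 | linear_combination -e1 - X 3 * e2 |
      linear_combination s0 | linear_combination s1 | linear_combination s2 |
      linear_combination -s0 | linear_combination -s1 | linear_combination -s2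

private theorem pd3 (i j : Fin 3) (p : Pn 3) : pderiv i (pderiv j p) = pderiv j (pderiv i p) := by
  have h : ⁅(pderiv i : Derivation ℂ (Pn 3) (Pn 3)), (pderiv j : Derivation ℂ (Pn 3) (Pn 3))⁆ = 0 := by
    refine MvPolynomial.derivation_ext (fun k => ?_)
    rw [Derivation.commutator_apply]
    classical
    simp only [pderiv_X, Derivation.zero_apply]
    rw [Pi.single_apply, Pi.single_apply]
    split_ifs <;> simp
  have h2 := congrArg (fun D => D p) h
  simp only [Derivation.commutator_apply, Derivation.zero_apply] at h2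
  exact sub_eq_zero.1 h2

private theorem div_curl (σ : F1 3) :
    pderiv 0 (st (dd σ) 0) + pderiv 1 (st (dd σ) 1) + pderiv 2 (st (dd σ) 2) = 0 := by
  show pderiv 0 (pderiv 1 (σ 2) - pderiv 2 (σ 1)) + pderiv 1 (pderiv 2 (σ 0) - pderiv 0 (σ 2)) +
    pderiv 2 (pderiv 0 (σ 1) - pderiv 1 (σ 0)) = 0
  rw [map_sub, map_sub, map_sub, pd3 0 1, pd3 0 2, pd3 1 2]
  ring

private theorem pb2_st {n : ℕ} (φ : Fin 3 → Fin n → ℂ) {ω : F2 3} (h0 : ∀ i, ω i i = 0)
    (h1 : ∀ i j, ω i j = - ω j i) (a b : Fin n) : pb2 φ ω a b =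
      (C (φ 1 a) * C (φ 2 b) - C (φ 2 a) * C (φ 1 b)) * lsub φ (st ω 0) +
      (C (φ 2 a) * C (φ 0 b) - C (φ 0 a) * C (φ 2 b)) * lsub φ (st ω 1) +
      (C (φ 0 a) * C (φ 1 b) - C (φ 1 a) * C (φ 0 b)) * lsub φ (st ω 2) := by
  unfold pb2
  simp only [Fin.sum_univ_three, C_mul]
  have e0 : st ω 0 = ω 1 2 := rfl
  have e1 : st ω 1 = ω 2 0 := rfl
  have e2 : st ω 2 = ω 0 1 := rfl
  rw [e0, e1, e2, h0 0, h0 1, h0 2, h1 1 0, h1 0 2, h1 2 1]
  simp only [map_neg, map_zero]
  ring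

private theorem aev {n : ℕ} (Φ : Fin 4 → Pn n) (φ : Fin 3 → Fin n → ℂ)
    (h : ∀ i : Fin 3, Φ i.castSucc = ∑ l, C (φ i l) * X l) (p : Pn 3) :
    aeval Φ (io p) = lsub φ p := by
  unfold io lsub
  rw [aeval_rename]
  congr 2
  funext i
  exact h i

private theorem lin_hom {n : ℕ} (f : Fin n → ℂ) :
    (∑ l, C (f l) * X l : Pn n).IsHomogeneous 1 := by
  apply IsHomogeneous.sum
  intro l _
  have := (isHomogeneous_C (Fin n) (f l)).mul (isHomogeneous_X ℂ l)
  rwa [zero_add] at this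

private theorem lin_pd {n : ℕ} (f : Fin n → ℂ) (a : Fin n) :
    pderiv a (∑ l, C (f l) * X l : Pn n) = C (f a) := by
  classical
  rw [map_sum]
  simp only [pderiv_C_mul, pderiv_X, Pi.single_apply]
  simp

variable {n : ℕ} {θ : F2 n} {φ : Fin 3 → Fin n → ℂ} {Q : Pn n} {σ : F1 3} {θ0 : F2 3}

theorem out_D (hQ : Q.IsHomogeneous 2) (hR : RD 0 σ θ0) (hF : RF θ φ Q 0 σ θ0)
    (h : CaseD σ θ0) : OKF θ := by
  obtain ⟨v1, v2, c1, c2, A1, A2, q, h1, h2, hA1, hA2, hs, hu, hU, hq, hT⟩ := h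
  have hB : ∀ k, (C c1 * X 3 + io A1) * io (v1 k) + (C c2 * X 3 + io A2) * io (v2 k) =
      X 3 * io (st (dd σ) k) + io (st θ0 k) := by
    intro k
    rw [hu k, hU k]
    unfold io
    simp only [map_add, map_mul, rename_C]
    ring
  have hcr : cr (fun k => io (v1 k)) (fun k => io (v2 k)) = fun k => io (σ k) := by
    funext k
    rw [hs]
    fin_cases k <;> simp [cr, io]
  have hcr2 : ∀ k, cr (fun k => lsub φ (v1 k)) (fun k => lsub φ (v2 k)) k = lsub φ (σ k) := by
    intro k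
    rw [hs]
    fin_cases k <;> simp [cr]
  have hda : ∀ i j, dd σ i j = - dd σ j i := by
    intro i j
    unfold dd
    ring
  have hd0 : ∀ i, dd σ i i = 0 := by
    intro i
    unfold dd
    ring
  refine Or.inr (Or.inr (Or.inr (Or.inr (Or.inr (Or.inl ⟨![∑ l, C (φ 0 l) * X l,
    ∑ l, C (φ 1 l) * X l, ∑ l, C (φ 2 l) * X l, Q],
    ![![io (v2 0), io (v2 1), io (v2 2), -(C c1 * X 3 + io A1)],
      ![io (v1 0), io (v1 1), io (v1 2), C c2 * X 3 + io A2]], ⟨?_, ?_⟩, ?_, ?_,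
    ![X 0, X 1, X 2, q], ?_, ?_⟩)))))
  · intro i
    fin_cases i
    · exact lin_hom (φ 0)
    · exact lin_hom (φ 1)
    · exact lin_hom (φ 2)
    · exact hQ
  · have hy : ∀ c : ℂ, IsWeightedHomogeneous (![1, 1, 1, 2] : Fin 4 → ℕ)
        (C c * X 3 : MvPolynomial (Fin 4) ℂ) 2 := fun c =>
      (isWeightedHomogeneous_X ℂ (![1, 1, 1, 2] : Fin 4 → ℕ) 3).C_mul c
    intro l i
    fin_cases l <;> fin_cases i
    · exact ren_wh (h2 0)
    · exact ren_wh (h2 1)
    · exact ren_wh (h2 2)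
    · exact ((hy c1).add (ren_wh hA1)).neg
    · exact ren_wh (h1 0)
    · exact ren_wh (h1 1)
    · exact ren_wh (h1 2)
    · exact (hy c2).add (ren_wh hA2)
  · have hm := W4_closed hR.cl (div_curl σ)
    have e : (fun i j => Pool.Agent.Helper1.FG.mins (k := 2)
        ![![io (v2 0), io (v2 1), io (v2 2), -(C c1 * X 3 + io A1)],
          ![io (v1 0), io (v1 1), io (v1 2), C c2 * X 3 + io A2]] (i, j)) =
        W4 (fun k => io (σ k)) (fun k => X 3 * io (st (dd σ) k) + io (st θ0 k)) := by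
      funext i j
      have e2 := mins4 (fun k => io (v1 k)) (fun k => io (v2 k)) (C c1 * X 3 + io A1)
        (C c2 * X 3 + io A2) i j
      rw [hcr, funext hB] at e2
      exact e2
    unfold Pool.Agent.Helper1.FG.ClV
    rw [e]
    exact hm
  · funext a b
    rw [hF a b]
    unfold Pool.Agent.Helper1.FG.stdF
    set Φ : Fin 4 → Pn n := ![∑ l, C (φ 0 l) * X l,
      ∑ l, C (φ 1 l) * X l, ∑ l, C (φ 2 l) * X l, Q] with hΦ
    have hio : ∀ p : Pn 3, aeval Φ (io p) = lsub φ p := by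
      refine aev Φ φ fun i => ?_
      fin_cases i <;> rfl
    have hy : aeval Φ (X 3 : MvPolynomial (Fin 4) ℂ) = Q := by
      rw [aeval_X]; rfl
    have e : (fun (l : Fin 2) (i : Fin 4) => aeval Φ
        ((![![io (v2 0), io (v2 1), io (v2 2), -(C c1 * X 3 + io A1)],
          ![io (v1 0), io (v1 1), io (v1 2), C c2 * X 3 + io A2]] :
            Fin 2 → Fin 4 → MvPolynomial (Fin 4) ℂ) l i)) =
        ![![lsub φ (v2 0), lsub φ (v2 1), lsub φ (v2 2), -(C c1 * Q + lsub φ A1)],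
          ![lsub φ (v1 0), lsub φ (v1 1), lsub φ (v1 2), C c2 * Q + lsub φ A2]] := by
      funext l i
      fin_cases l <;> fin_cases i
      · exact hio _
      · exact hio _
      · exact hio _
      · show aeval Φ (-(C c1 * X 3 + io A1)) = -(C c1 * Q + lsub φ A1)
        rw [map_neg, map_add, map_mul, hio, hy, aeval_C]
        rfl
      · exact hio _
      · exact hio _
      · exact hio _
      · show aeval Φ (C c2 * X 3 + io A2) = C c2 * Q + lsub φ A2
        rw [map_add, map_mul, hio, hy, aeval_C]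
        rfl
    rw [e, alp4 (fun k => lsub φ (v1 k)) (fun k => lsub φ (v2 k)), hcr2, hcr2, hcr2,
      pb2_st φ hd0 hda, pb2_st φ hR.alt0 hR.alt, hu 0, hu 1, hu 2, hU 0, hU 1, hU 2]
    have d0 : ∀ a, pderiv a (Φ 0) = C (φ 0 a) := fun a => lin_pd (φ 0) a
    have d1 : ∀ a, pderiv a (Φ 1) = C (φ 1 a) := fun a => lin_pd (φ 1) a
    have d2 : ∀ a, pderiv a (Φ 2) = C (φ 2 a) := fun a => lin_pd (φ 2) a
    have d3 : ∀ a, pderiv a (Φ 3) = pderiv a Q := fun a => rfl
    rw [d0, d1, d2, d3, d0, d1, d2, d3]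
    have hC : ∀ c : ℂ, lsub φ (C c : Pn 3) = C c := by
      intro c; unfold lsub; rw [aeval_C]; rfl
    have hz : ∀ a, pb φ (cv (0 : Fin 3 → ℂ)) a = 0 := by
      intro a
      unfold pb cv
      refine Finset.sum_eq_zero fun j _ => ?_
      rw [Pi.zero_apply, C_0, map_zero, mul_zero]
    have hp : ∀ a, pb φ σ a = C (φ 0 a) * lsub φ (σ 0) + C (φ 1 a) * lsub φ (σ 1) +
        C (φ 2 a) * lsub φ (σ 2) := by
      intro a
      unfold pb
      rw [Fin.sum_univ_three]
    unfold w11 df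
    simp only [hz, hp, map_add, map_mul, hC]
    ring
  · intro i
    fin_cases i
    · exact isHomogeneous_X ℂ 0
    · exact isHomogeneous_X ℂ 1
    · exact isHomogeneous_X ℂ 2
    · exact hq
  · set P : Fin 4 → Pn 3 := ![X 0, X 1, X 2, q] with hP
    have hio : ∀ p : Pn 3, aeval P (io p) = p := by
      intro p
      unfold io
      rw [aeval_rename]
      have : (P ∘ Fin.castSucc : Fin 3 → Pn 3) = X := by
        funext i
        fin_cases i <;> rfl
      rw [this, aeval_X_left_apply]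
    have hy : aeval P (X 3 : MvPolynomial (Fin 4) ℂ) = q := by
      rw [aeval_X]; rfl
    have e : (fun (l : Fin 2) (i : Fin 4) => aeval P
        ((![![io (v2 0), io (v2 1), io (v2 2), -(C c1 * X 3 + io A1)],
          ![io (v1 0), io (v1 1), io (v1 2), C c2 * X 3 + io A2]] :
            Fin 2 → Fin 4 → MvPolynomial (Fin 4) ℂ) l i)) =
        ![![v2 0, v2 1, v2 2, -(C c1 * q + A1)], ![v1 0, v1 1, v1 2, C c2 * q + A2]] := by
      funext l i
      fin_cases l <;> fin_cases i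
      · exact hio _
      · exact hio _
      · exact hio _
      · show aeval P (-(C c1 * X 3 + io A1)) = -(C c1 * q + A1)
        rw [map_neg, map_add, map_mul, hio, hy, aeval_C]
        rfl
      · exact hio _
      · exact hio _
      · exact hio _
      · show aeval P (C c2 * X 3 + io A2) = C c2 * q + A2
        rw [map_add, map_mul, hio, hy, aeval_C]
        rfl
    rw [e]
    have hB2 : ∀ k, (C c1 * q + A1) * v1 k + (C c2 * q + A2) * v2 k =
        q * st (dd σ) k + st θ0 k := by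
      intro k
      rw [hu k, hU k]
      ring
    intro x hx
    have hx2 : ∀ i j, eval x (W4 σ (fun k => q * st (dd σ) k + st θ0 k) i j) = 0 := by
      intro i j
      have e2 := mins4 v1 v2 (C c1 * q + A1) (C c2 * q + A2) i j
      rw [← hs, funext hB2] at e2
      rw [← e2]
      exact hx (i, j)
    refine hT x (fun i => ?_) (fun i => ?_)
    · fin_cases i
      · exact hx2 3 0
      · exact hx2 3 1
      · exact hx2 3 2
    · fin_cases i
      · exact hx2 1 2
      · exact hx2 2 0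
      · exact hx2 0 1

end Pool.Agent.Helper1.FK
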