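import Pool.Agent.Helper1.FK.Coord
import Pool.Agent.Helper1.FK.Vec
import Pool.Agent.Helper1.FG.Reg

/-! FK-9: no linear syzygy: CaseB.
Proof.  `u = st (dd σ)` is linear with `u · σ = 0`, so `dσ = 0`, `σ = dP` (Poincare).  `U = st θ0`, `U · dP = 0`, `div U = 0`.
(0) `dP` has no zero outside 0: `P_0, P_1, P_2` is a regular sequence (`Helper1/FG/Reg`), Koszul: `θ0 = μ ∧ σ`, `μ` linear.
(1) `dP(p) = 0`, `p ≠ 0`: coordinates `p = e_0`: `P = x_0 q(x_1,x_2) + c_3(x_1,x_2)`.  `q` of rank at most 1, `q = κ x_1^2`: there is a linear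
 syzygy: excluded.  So `q` has rank 2, coordinates `P = x_0 x_1 x_2 + α x_1^3 + δ x_2^3`, `α δ ≠ 0`.
(2) `U_0(p) = 0`: the derivative `∂_1 ∂_2 (U · dP)` and `div U` at `p`.
(3) `f = U_0`: `x_1 x_2 f` is in `(P_1, P_2)` and `f` is in `(x_1, x_2)`; `g = 9 α δ x_1 x_2 - x_0^2` satisfies
 `x_1 g, x_2 g ∈ (P_1, P_2)`; so `x_0^2 f ∈ (P_1, P_2)`, and `x_0` is regular modulo `(P_1, P_2)`: `f ∈ (P_1, P_2)`; then Koszul. -/

set_option autoImplicit false

namespace Pool.Agent.Helper1.FK

open MvPolynomial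
open scoped BigOperators
open Pool.Agent.Helper71.FL (w12 pf ct Dec Closed dd)
open Pool.Agent.Helper71.FC
open Pool.Agent.Helper93 (lsub lmap OF pb Cop)
open Pool.Agent.Helper1.FG (om7)

/-! ### preliminaries -/

private theorem hcm {p q : Pn 3} {a : ℕ} (hp : p.IsHomogeneous a) (b : ℕ) :
    homogeneousComponent (a + b) (p * q) = p * homogeneousComponent b q := by
  have hs := sum_homogeneousComponent q
  have h1 : p * q = ∑ i ∈ Finset.range (q.totalDegree + 1), p * homogeneousComponent i q := by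
    rw [← Finset.mul_sum, hs]
  rw [h1, map_sum]
  have h2 : ∀ i ∈ Finset.range (q.totalDegree + 1),
      homogeneousComponent (a + b) (p * homogeneousComponent i q) =
        if i = b then p * homogeneousComponent b q else 0 := by
    intro i _
    have h3 : p * homogeneousComponent i q ∈ homogeneousSubmodule (Fin 3) ℂ (a + i) :=
      hp.mul (homogeneousComponent_isHomogeneous i q)
    rw [homogeneousComponent_of_mem h3]
    by_cases h4 : i = b
    · subst h4
      rw [if_pos rfl, if_pos rfl]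
    · rw [if_neg h4, if_neg (by omega)]
  rw [Finset.sum_congr rfl h2, Finset.sum_ite_eq' (Finset.range (q.totalDegree + 1)) b]
  split_ifs with h5
  · rfl
  · rw [Finset.mem_range, not_lt] at h5
    rw [homogeneousComponent_eq_zero b q (by omega), mul_zero]

/-- no linear field kills `P` -/
private def KK (P : Pn 3) : Prop := ∀ v : F1 3, H1 1 v → pair v (df P) = 0 → v = 0

/-- the conclusion for `P` -/
private def TT (P : Pn 3) : Prop := ∀ θ0 : F2 3, RD 0 (df P) θ0 → CaseB 0 (df P) θ0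

private theorem df_hom {P : Pn 3} (hP : P.IsHomogeneous 3) (i : Fin 3) :
    (df P i).IsHomogeneous 2 := by
  have := hP.pderiv (i := i)
  simpa [df] using this

/-- Koszul: if two of the partial derivatives are a regular sequence and one coefficient is in the ideal generated by them -/
private theorem koszul {P : Pn 3} {θ0 : F2 3} (hP : P.IsHomogeneous 3) (h : RD 0 (df P) θ0)
    {i0 i1 : Fin 3} (h1 : ∀ a, df P i0 * a = 0 → a = 0)
    (h2 : ∀ a, (∃ u, df P i1 * a = df P i0 * u) → ∃ u, a = df P i0 * u)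
    (h3 : ∃ u g, θ0 i0 i1 = df P i0 * u + df P i1 * g) : CaseB 0 (df P) θ0 := by
  have hdom : ∀ a b : Pn 3, df P i0 * a = df P i0 * b → a = b := by
    intro a b hab
    have := h1 (a - b) (by rw [mul_sub, hab, sub_self])
    exact sub_eq_zero.mp this
  have hA : ∀ j k, df P i0 * θ0 j k = df P j * θ0 i0 k - df P k * θ0 i0 j := by
    intro j k
    have h4 := h.e3 i0 j k
    unfold w12 at h4
    rw [h.alt k i0] at h4
    linear_combination h4
  obtain ⟨u, g, hug⟩ := h3
  have hB : ∀ k, ∃ x, θ0 i0 k - g * df P k = df P i0 * x := by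
    intro k
    apply h2
    refine ⟨u * df P k + θ0 i1 k, ?_⟩
    have h4 := hA i1 k
    linear_combination -h4 + df P k * hug
  choose ξ hξ using hB
  have hx : ∀ j k, θ0 j k = df P j * ξ k - df P k * ξ j := by
    intro j k
    apply hdom
    rw [hA j k]
    linear_combination df P j * hξ k - df P k * hξ j
  refine ⟨fun i => -homogeneousComponent 1 (ξ i), fun i => ?_, fun i j => ?_, fun i j => ?_⟩
  · exact (homogeneousComponent_isHomogeneous _ _).neg
  · unfold dd w11 cv df
    rw [Pool.Agent.Helper50.FC.pd_comm i j P]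
    simp
  · have h5 : homogeneousComponent (2 + 1) (θ0 i j) = θ0 i j :=
      homogeneousComponent_eq_self (h.hθ i j)
    unfold w11
    rw [← h5, hx i j, map_sub, hcm (df_hom hP i), hcm (df_hom hP j)]
    ring

private theorem smooth {P : Pn 3} (hP : P.IsHomogeneous 3)
    (ht : Pool.Agent.Helper1.FG.Triv (df P)) : TT P := by
  intro θ0 h
  have hr := Pool.Agent.Helper1.FG.rseq_of_triv (N := 3) (κ := Fin 3) (by simp) (df P)
    (fun _ => 2) (fun _ => by norm_num) (df_hom hP) ht
  refine koszul hP h (i0 := 0) (i1 := 1) ?_ ?_ ?_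
  · intro a ha
    have := hr ∅ 0 (by simp) a (by rw [ha]; exact Ideal.zero_mem _)
    simpa using this
  · rintro a ⟨u, hu⟩
    have := hr {0} 1 (by simp) a (by
      rw [hu, Set.image_singleton]
      exact Ideal.mul_mem_right _ _ (Ideal.mem_span_singleton_self _))
    rw [Set.image_singleton, Ideal.mem_span_singleton'] at this
    obtain ⟨c, hc⟩ := this
    exact ⟨c, by rw [← hc, mul_comm]⟩
  · have h4 := h.e3 0 1 2
    unfold w12 at h4
    have := hr {0, 1} 2 (by simp) (θ0 0 1) (by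
      rw [Set.image_pair, Ideal.mem_span_pair]
      exact ⟨-θ0 1 2, -θ0 2 0, by linear_combination -h4⟩)
    rw [Set.image_pair, Ideal.mem_span_pair] at this
    obtain ⟨a, b, hab⟩ := this
    exact ⟨a, b, by rw [← hab]; ring⟩

/-! ### change of coordinates -/

private theorem lsub_back {g g' : Fin 3 → Fin 3 → ℂ} (hg : Inv g g') (f : Pn 3) :
    lsub g' (lsub g f) = f := by
  rw [lsub_mm, hg.1, lsub_idm]

private theorem KK_tr {g g' : Fin 3 → Fin 3 → ℂ} (hg : Inv g g') {P : Pn 3} (h : KK P) :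
    KK (lsub g P) := by
  intro v hv hp
  rw [← pb_df] at hp
  set w : F1 3 := fun j => lsub g' (∑ i, C (g j i) * v i) with hw
  have hsum : ∀ j, (∑ i, C (g j i) * v i).IsHomogeneous 1 := by
    intro j
    apply IsHomogeneous.sum
    intro i _
    have := (isHomogeneous_C (Fin 3) (g j i)).mul (hv i)
    rwa [zero_add] at this
  have hwh : H1 1 w := fun j => lsub_hom (hsum j)
  have hpw : pair w (df P) = 0 := by
    have h1 : lsub g' (pair v (pb g (df P))) = pair w (df P) := by
      unfold pair pb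
      simp only [Finset.mul_sum, hw]
      rw [map_sum]
      simp only [map_sum, Finset.sum_mul]
      rw [Finset.sum_comm]
      refine Finset.sum_congr rfl fun j _ => Finset.sum_congr rfl fun i _ => ?_
      rw [map_mul, map_mul, map_mul, lsub_back hg]
      ring
    rw [← h1, hp, map_zero]
  have h0 := h w hwh hpw
  have h1 : ∀ j, (∑ i, C (g j i) * v i) = 0 := by
    intro j
    have h2 := congrFun h0 j
    have h3 : lsub g (w j) = (∑ i, C (g j i) * v i) := by
      rw [hw]
      exact lsub_back hg.symm _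
    rw [← h3, h2]
    simp
  funext i
  have h4 : v i = ∑ j, C (g' i j) * ∑ k, C (g j k) * v k := by
    simp only [Finset.mul_sum]
    rw [Finset.sum_comm]
    have h5 : ∀ k, ∑ j, C (g' i j) * (C (g j k) * v k) = C (idm 3 i k) * v k := by
      intro k
      rw [← hg.2]
      unfold mm
      rw [map_sum, Finset.sum_mul]
      refine Finset.sum_congr rfl fun j _ => ?_
      rw [C_mul]
      ring
    rw [Finset.sum_congr rfl fun k _ => h5 k]
    unfold idm
    rw [Finset.sum_eq_single i]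
    · simp
    · intro b _ hb
      rw [if_neg (Ne.symm hb)]
      simp
    · intro hh
      exact absurd (Finset.mem_univ _) hh
  rw [h4]
  simp [h1]

private theorem TT_tr {g g' : Fin 3 → Fin 3 → ℂ} (hg : Inv g g') {P : Pn 3}
    (h : TT (lsub g P)) : TT P := by
  intro θ0 hr
  have h1 := RD_pb hg hr
  have h2 : mg 0 g = 0 := by
    funext i
    simp [mg]
  apply CaseB_pb hg
  rw [h2, pb_df] at h1 ⊢
  exact h _ h1

/-! ### the explicit cubic with singular point `e_0` -/

private noncomputable def Nf (a b c α β γ δ : ℂ) : Pn 3 :=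
  X 0 * (C a * X 1 ^ 2 + C b * (X 1 * X 2) + C c * X 2 ^ 2) +
    (C α * X 1 ^ 3 + C β * (X 1 ^ 2 * X 2) + C γ * (X 1 * X 2 ^ 2) + C δ * X 2 ^ 3)

private theorem Nf0 (a b c α β γ δ : ℂ) : df (Nf a b c α β γ δ) 0 =
    C a * X 1 ^ 2 + C b * (X 1 * X 2) + C c * X 2 ^ 2 := by
  unfold df Nf
  simp [pderiv_X]

private theorem Nf1 (a b c α β γ δ : ℂ) : df (Nf a b c α β γ δ) 1 =
    X 0 * (2 * C a * X 1 + C b * X 2) + (3 * C α * X 1 ^ 2 + 2 * C β * (X 1 * X 2) +
      C γ * X 2 ^ 2) := by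
  unfold df Nf
  simp [pderiv_X]
  ring

private theorem Nf2 (a b c α β γ δ : ℂ) : df (Nf a b c α β γ δ) 2 =
    X 0 * (C b * X 1 + 2 * C c * X 2) + (C β * X 1 ^ 2 + 2 * C γ * (X 1 * X 2) +
      3 * C δ * X 2 ^ 2) := by
  unfold df Nf
  simp [pderiv_X]
  ring

private theorem Nf_hom (a b c α β γ δ : ℂ) : (Nf a b c α β γ δ).IsHomogeneous 3 := by
  have hX : ∀ i : Fin 3, (X i : Pn 3).IsHomogeneous 1 := fun i => isHomogeneous_X ℂ i
  have hC : ∀ z : ℂ, (C z : Pn 3).IsHomogeneous 0 := fun z => isHomogeneous_C (Fin 3) z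
  unfold Nf
  have e1 : (C a * X 1 ^ 2 : Pn 3).IsHomogeneous 2 := by simpa using (hC a).mul ((hX 1).pow 2)
  have e2 : (C b * (X 1 * X 2) : Pn 3).IsHomogeneous 2 := by
    simpa using (hC b).mul ((hX 1).mul (hX 2))
  have e3 : (C c * X 2 ^ 2 : Pn 3).IsHomogeneous 2 := by simpa using (hC c).mul ((hX 2).pow 2)
  have f1 : (C α * X 1 ^ 3 : Pn 3).IsHomogeneous 3 := by simpa using (hC α).mul ((hX 1).pow 3)
  have f2 : (C β * (X 1 ^ 2 * X 2) : Pn 3).IsHomogeneous 3 := by
    simpa using (hC β).mul (((hX 1).pow 2).mul (hX 2))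
  have f3 : (C γ * (X 1 * X 2 ^ 2) : Pn 3).IsHomogeneous 3 := by
    simpa using (hC γ).mul ((hX 1).mul ((hX 2).pow 2))
  have f4 : (C δ * X 2 ^ 3 : Pn 3).IsHomogeneous 3 := by simpa using (hC δ).mul ((hX 2).pow 3)
  exact ((hX 0).mul ((e1.add e2).add e3)).add (((f1.add f2).add f3).add f4)

private theorem expl {P : Pn 3} (hP : P.IsHomogeneous 3)
    (hs : ∀ i, eval (fun j => if j = 0 then 1 else 0 : Fin 3 → ℂ) (df P i) = 0) :
    ∃ a b c α β γ δ : ℂ, P = Nf a b c α β γ δ := by
  have ht : ∀ i j k, ∃ t : ℂ, pderiv k (pderiv j (pderiv i P)) = C t := by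
    intro i j k
    have h2 : (pderiv k (pderiv j (pderiv i P))).IsHomogeneous 0 := by
      have := ((hP.pderiv (i := i)).pderiv (i := j)).pderiv (i := k)
      simpa using this
    rw [← totalDegree_zero_iff_isHomogeneous, totalDegree_eq_zero_iff_eq_C] at h2
    exact ⟨_, h2⟩
  choose t ht using ht
  have pc := fun i j (Q : Pn 3) => Pool.Agent.Helper50.FC.pd_comm i j Q
  have s1 : ∀ i j k, t i j k = t j i k := by
    intro i j k
    have : (C (t i j k) : Pn 3) = C (t j i k) := by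
      rw [← ht, ← ht, pc j i P]
    exact C_injective _ _ this
  have s2 : ∀ i j k, t i j k = t i k j := by
    intro i j k
    have : (C (t i j k) : Pn 3) = C (t i k j) := by
      rw [← ht, ← ht, pc k j (pderiv i P)]
    exact C_injective _ _ this
  have e1 : ∀ i j, pderiv j (pderiv i P) = ∑ k, X k * C (t i j k) := by
    intro i j
    have h1 : (pderiv j (pderiv i P)).IsHomogeneous 1 := by
      simpa using (hP.pderiv (i := i)).pderiv (i := j)
    have h2 := h1.sum_X_mul_pderiv
    rw [one_smul] at h2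
    rw [← h2]
    refine Finset.sum_congr rfl fun k _ => ?_
    rw [ht]
  have e2 : ∀ i, 2 * pderiv i P = ∑ j, X j * ∑ k, X k * C (t i j k) := by
    intro i
    have h1 : (pderiv i P).IsHomogeneous 2 := by simpa using (hP.pderiv (i := i))
    have h2 := h1.sum_X_mul_pderiv
    rw [nsmul_eq_mul] at h2
    have h3 : (2 : Pn 3) * pderiv i P = ((2 : ℕ) : Pn 3) * pderiv i P := by norm_num
    rw [h3, ← h2]
    refine Finset.sum_congr rfl fun j _ => ?_
    rw [e1]
  have e3 : 6 * P = ∑ i, X i * ∑ j, X j * ∑ k, X k * C (t i j k) := by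
    have h2 := hP.sum_X_mul_pderiv
    rw [nsmul_eq_mul] at h2
    have h3 : (6 : Pn 3) * P = 2 * (((3 : ℕ) : Pn 3) * P) := by push_cast; ring
    rw [h3, ← h2, Finset.mul_sum]
    refine Finset.sum_congr rfl fun i _ => ?_
    rw [← e2]
    ring
  have z : ∀ i, t i 0 0 = 0 := by
    intro i
    have h1 := congrArg (eval (fun j => if j = 0 then 1 else 0 : Fin 3 → ℂ)) (e2 i)
    rw [map_mul] at h1
    have h2 := hs i
    unfold df at h2
    rw [h2, mul_zero] at h1
    simp [Fin.sum_univ_three] at h1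
    exact h1.symm
  refine ⟨t 0 1 1 / 2, t 0 1 2, t 0 2 2 / 2, t 1 1 1 / 6, t 1 1 2 / 2, t 1 2 2 / 2, t 2 2 2 / 6, ?_⟩
  have h6 : (6 : Pn 3) ≠ 0 := by norm_num
  apply mul_left_cancel₀ h6
  rw [e3]
  have a1 : t 0 1 0 = 0 := by rw [s1]; exact z 1
  have a2 : t 0 0 1 = 0 := by rw [s2]; exact a1
  have a3 : t 0 2 0 = 0 := by rw [s1]; exact z 2
  have a4 : t 0 0 2 = 0 := by rw [s2]; exact a3
  have b1 : t 1 0 1 = t 0 1 1 := s1 _ _ _
  have b2 : t 1 1 0 = t 0 1 1 := by rw [s2]; exact b1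
  have c1 : t 0 2 1 = t 0 1 2 := s2 _ _ _
  have c2 : t 1 0 2 = t 0 1 2 := s1 _ _ _
  have c3 : t 1 2 0 = t 0 1 2 := by rw [s2]; exact c2
  have c4 : t 2 0 1 = t 0 1 2 := by rw [s1]; exact c1
  have c5 : t 2 1 0 = t 0 1 2 := by rw [s2]; exact c4
  have d1 : t 2 0 2 = t 0 2 2 := s1 _ _ _
  have d2 : t 2 2 0 = t 0 2 2 := by rw [s2]; exact d1
  have f1 : t 1 2 1 = t 1 1 2 := s2 _ _ _
  have f2 : t 2 1 1 = t 1 1 2 := by rw [s1]; exact f1
  have g1 : t 2 1 2 = t 1 2 2 := s1 _ _ _
  have g2 : t 2 2 1 = t 1 2 2 := by rw [s2]; exact g1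
  have hC : ∀ m : ℕ, [m.AtLeastTwo] → (C (OfNat.ofNat m : ℂ) : Pn 3) = OfNat.ofNat m :=
    fun m _ => map_ofNat C m
  have half : ∀ w : ℂ, (6 : Pn 3) * C (w / 2) = 3 * C w := by
    intro w
    rw [← hC 6, ← hC 3, ← C_mul, ← C_mul]
    congr 1
    ring
  have sixth : ∀ w : ℂ, (6 : Pn 3) * C (w / 6) = C w := by
    intro w
    rw [← hC 6, ← C_mul]
    congr 1
    ring
  unfold Nf
  simp only [Fin.sum_univ_three, z, a1, a2, a3, a4, b1, b2, c1, c2, c3, c4, c5, d1, d2, f1, f2, g1,
    g2, C_0, mul_zero, zero_add, add_zero]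
  linear_combination (-(X 0 * X 1 ^ 2)) * half (t 0 1 1) - X 0 * X 2 ^ 2 * half (t 0 2 2)
    - X 1 ^ 2 * X 2 * half (t 1 1 2) - X 1 * X 2 ^ 2 * half (t 1 2 2)
    - X 1 ^ 3 * sixth (t 1 1 1) - X 2 ^ 3 * sixth (t 2 2 2)

/-! ### the substitution -/

private def gm (p q r s u v : ℂ) : Fin 3 → Fin 3 → ℂ := ![![1, u, v], ![0, p, q], ![0, r, s]]

private theorem gm_inv {p q r s : ℂ} (u v : ℂ) (h : p * s - q * r ≠ 0) :
    ∃ g', Inv (gm p q r s u v) g' := by
  obtain ⟨D, hD⟩ : ∃ D, (p * s - q * r) * D = 1 := ⟨(p * s - q * r)⁻¹, mul_inv_cancel₀ h⟩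
  refine ⟨![![1, -(u * s - v * r) * D, -(v * p - u * q) * D], ![0, s * D, -q * D],
    ![0, -r * D, p * D]], ?_, ?_⟩
  · funext i j
    fin_cases i <;> fin_cases j <;> simp [mm, idm, gm, Fin.sum_univ_three] <;>
      first
      | ring1
      | linear_combination hD
  · funext i j
    fin_cases i <;> fin_cases j <;> simp [mm, idm, gm, Fin.sum_univ_three] <;>
      first
      | ring1
      | linear_combination hD
      | linear_combination (-u) * hD
      | linear_combination (-v) * hD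

private theorem gm_Nf (p q r s u v a b c α β γ δ : ℂ) :
    lsub (gm p q r s u v) (Nf a b c α β γ δ) =
    Nf (a * p ^ 2 + b * p * r + c * r ^ 2) (2 * a * p * q + b * (p * s + q * r) + 2 * c * r * s)
      (a * q ^ 2 + b * q * s + c * s ^ 2)
      (α * p ^ 3 + β * p ^ 2 * r + γ * p * r ^ 2 + δ * r ^ 3 +
        u * (a * p ^ 2 + b * p * r + c * r ^ 2))
      (3 * α * p ^ 2 * q + β * (p ^ 2 * s + 2 * p * q * r) + γ * (2 * p * r * s + q * r ^ 2) +
        3 * δ * r ^ 2 * s + u * (2 * a * p * q + b * (p * s + q * r) + 2 * c * r * s) +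
        v * (a * p ^ 2 + b * p * r + c * r ^ 2))
      (3 * α * p * q ^ 2 + β * (q ^ 2 * r + 2 * p * q * s) + γ * (p * s ^ 2 + 2 * q * r * s) +
        3 * δ * r * s ^ 2 + u * (a * q ^ 2 + b * q * s + c * s ^ 2) +
        v * (2 * a * p * q + b * (p * s + q * r) + 2 * c * r * s))
      (α * q ^ 3 + β * q ^ 2 * s + γ * q * s ^ 2 + δ * s ^ 3 +
        v * (a * q ^ 2 + b * q * s + c * s ^ 2)) := by
  have h0 : lsub (gm p q r s u v) (X 0) = X 0 + C u * X 1 + C v * X 2 := by
    unfold lsub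
    rw [aeval_X]
    simp [gm, Fin.sum_univ_three]
  have h1 : lsub (gm p q r s u v) (X 1) = C p * X 1 + C q * X 2 := by
    unfold lsub
    rw [aeval_X]
    simp [gm, Fin.sum_univ_three]
  have h2 : lsub (gm p q r s u v) (X 2) = C r * X 1 + C s * X 2 := by
    unfold lsub
    rw [aeval_X]
    simp [gm, Fin.sum_univ_three]
  have hC : ∀ z : ℂ, lsub (gm p q r s u v) (C z) = C z := by
    intro z
    unfold lsub
    rw [aeval_C]
    rfl
  have hn : ∀ m : ℕ, [m.AtLeastTwo] → (C (OfNat.ofNat m : ℂ) : Pn 3) = OfNat.ofNat m :=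
    fun m _ => map_ofNat C m
  unfold Nf
  simp only [map_add, map_mul, map_pow, h0, h1, h2, hC, hn]
  ring

/-! ### rank of the quadratic form -/

private theorem iso_pair {a b c : ℂ} (h : b ^ 2 - 4 * a * c ≠ 0) :
    ∃ p q r s : ℂ, a * p ^ 2 + b * p * r + c * r ^ 2 = 0 ∧ a * q ^ 2 + b * q * s + c * s ^ 2 = 0 ∧
      2 * a * p * q + b * (p * s + q * r) + 2 * c * r * s = 1 ∧ p * s - q * r ≠ 0 := by
  have key : ∃ p q r s : ℂ, a * p ^ 2 + b * p * r + c * r ^ 2 = 0 ∧
      a * q ^ 2 + b * q * s + c * s ^ 2 = 0 ∧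
      2 * a * p * q + b * (p * s + q * r) + 2 * c * r * s = 1 := by
    by_cases ha : a = 0
    · subst ha
      have hb : b ≠ 0 := by
        intro hb
        apply h
        rw [hb]
        ring
      refine ⟨1, -c / b ^ 2, 0, b / b ^ 2, by ring, ?_, ?_⟩
      · field_simp
        ring
      · field_simp
        ring
    · obtain ⟨d, hd⟩ : ∃ d : ℂ, d ^ 2 = b ^ 2 - 4 * a * c := IsAlgClosed.exists_pow_nat_eq _ (by norm_num)
      have hd0 : d ≠ 0 := by
        intro hd0
        apply h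
        rw [← hd, hd0]
        ring
      obtain ⟨l, hl⟩ : ∃ l : ℂ, -4 * a * d ^ 2 * l = 1 :=
        ⟨(-4 * a * d ^ 2)⁻¹, mul_inv_cancel₀ (by
          refine mul_ne_zero (mul_ne_zero (by norm_num) ha) (pow_ne_zero 2 hd0))⟩
      refine ⟨-b + d, l * (-b - d), 2 * a, l * (2 * a), ?_, ?_, ?_⟩
      · linear_combination a * hd
      · linear_combination a * l ^ 2 * hd
      · linear_combination hl + (2 * a * l) * hd
  obtain ⟨p, q, r, s, h1, h2, h3⟩ := key
  refine ⟨p, q, r, s, h1, h2, h3, fun h4 => ?_⟩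
  have h5 : (2 * a * p * q + b * (p * s + q * r) + 2 * c * r * s) ^ 2 -
      4 * (a * p ^ 2 + b * p * r + c * r ^ 2) * (a * q ^ 2 + b * q * s + c * s ^ 2) =
      (p * s - q * r) ^ 2 * (b ^ 2 - 4 * a * c) := by ring
  rw [h1, h3, h4] at h5
  norm_num at h5

private theorem ker_pair {a b c : ℂ} (h : b ^ 2 - 4 * a * c = 0) :
    ∃ p q r s : ℂ, 2 * a * p * q + b * (p * s + q * r) + 2 * c * r * s = 0 ∧
      a * q ^ 2 + b * q * s + c * s ^ 2 = 0 ∧ p * s - q * r ≠ 0 := by
  by_cases ha : a = 0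
  · subst ha
    have hb : b = 0 := by
      have : b ^ 2 = 0 := by linear_combination h
      exact pow_eq_zero_iff (two_ne_zero) |>.mp this
    subst hb
    refine ⟨0, 1, 1, 0, by ring, by ring, by norm_num⟩
  · refine ⟨1, -b, 0, 2 * a, by ring, by linear_combination (-a) * h, ?_⟩
    simpa using ha

/-- the quadratic form has rank 2 -/
private theorem disc_ne {a b c α β γ δ : ℂ} (h : KK (Nf a b c α β γ δ)) :
    b ^ 2 - 4 * a * c ≠ 0 := by
  intro h0
  obtain ⟨p, q, r, s, h1, h2, h3⟩ := ker_pair h0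
  obtain ⟨g', hg⟩ := gm_inv 0 0 h3
  have hk := KK_tr hg h
  rw [gm_Nf, h1, h2] at hk
  generalize a * p ^ 2 + b * p * r + c * r ^ 2 = κ at hk
  obtain ⟨α', β', γ', δ', hk⟩ : ∃ α' β' γ' δ', KK (Nf κ 0 0 α' β' γ' δ') := ⟨_, _, _, _, hk⟩
  have hX : ∀ i : Fin 3, (X i : Pn 3).IsHomogeneous 1 := fun i => isHomogeneous_X ℂ i
  have hCX : ∀ (z : ℂ) (i : Fin 3), (C z * X i : Pn 3).IsHomogeneous 1 := by
    intro z i
    have := (isHomogeneous_C (Fin 3) z).mul (hX i)
    rwa [zero_add] at this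
  by_cases hκ : κ = 0
  · subst hκ
    have h4 := hk ![X 0, 0, 0] (by
      intro i
      fin_cases i
      · exact hX 0
      · exact isHomogeneous_zero _ _ _
      · exact isHomogeneous_zero _ _ _) (by
      unfold pair
      rw [Fin.sum_univ_three, Nf0]
      simp)
    have h5 := congrFun h4 0
    simp at h5
  · by_cases hδ : δ' = 0
    · subst hδ
      have h4 := hk ![-(C (β' / κ) * X 1 + C (2 * γ' / κ) * X 2), 0, X 1] (by
        intro i
        fin_cases i
        · exact ((hCX _ 1).add (hCX _ 2)).neg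
        · exact isHomogeneous_zero _ _ _
        · exact hX 1) (by
        have e1 : (C κ * C (β' / κ) : Pn 3) = C β' := by
          rw [← C_mul, mul_div_cancel₀ _ hκ]
        have e2 : (C κ * C (2 * γ' / κ) : Pn 3) = 2 * C γ' := by
          rw [← C_mul, mul_div_cancel₀ _ hκ, C_mul]
          congr 1
        unfold pair
        rw [Fin.sum_univ_three, Nf0, Nf1, Nf2]
        simp
        linear_combination (-(X 1 ^ 3)) * e1 - X 1 ^ 2 * X 2 * e2)
      have h5 := congrFun h4 2
      simp at h5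
    · have h4 := hk ![-(C (6 * δ') * X 0 + C ((9 * α' * δ' - β' * γ') / κ) * X 1 +
          C ((6 * β' * δ' - 2 * γ' ^ 2) / κ) * X 2), C (3 * δ') * X 1, -(C γ' * X 1)] (by
        intro i
        fin_cases i
        · exact (((hCX _ 0).add (hCX _ 1)).add (hCX _ 2)).neg
        · exact hCX _ 1
        · exact (hCX _ 1).neg) (by
        have e1 : (C κ * C ((9 * α' * δ' - β' * γ') / κ) : Pn 3) =
            9 * C α' * C δ' - C β' * C γ' := by
          rw [← C_mul, mul_div_cancel₀ _ hκ]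
          simp only [map_sub, map_mul]
          congr 3
        have e2 : (C κ * C ((6 * β' * δ' - 2 * γ' ^ 2) / κ) : Pn 3) =
            6 * C β' * C δ' - 2 * C γ' ^ 2 := by
          rw [← C_mul, mul_div_cancel₀ _ hκ]
          simp only [map_sub, map_mul, map_pow]
          congr 3
        have e3 : (C (6 * δ') : Pn 3) = 6 * C δ' := by
          rw [C_mul]
          congr 1
        have e4 : (C (3 * δ') : Pn 3) = 3 * C δ' := by
          rw [C_mul]
          congr 1
        unfold pair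
        rw [Fin.sum_univ_three, Nf0, Nf1, Nf2]
        simp only [Matrix.cons_val, e3, e4, C_0]
        linear_combination (-(X 1 ^ 3)) * e1 - X 1 ^ 2 * X 2 * e2)
      have h5 := congrFun h4 1
      simp [hδ] at h5

/-! ### the node -/

private theorem hX1 (i : Fin 3) : (X i : Pn 3).IsHomogeneous 1 := isHomogeneous_X ℂ i

private theorem D0 (α δ : ℂ) : df (Nf 0 1 0 α 0 0 δ) 0 = X 1 * X 2 := by
  rw [Nf0]
  simp

private theorem D1 (α δ : ℂ) : df (Nf 0 1 0 α 0 0 δ) 1 = X 0 * X 2 + 3 * C α * X 1 ^ 2 := by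
  rw [Nf1]
  simp

private theorem D2 (α δ : ℂ) : df (Nf 0 1 0 α 0 0 δ) 2 = X 0 * X 1 + 3 * C δ * X 2 ^ 2 := by
  rw [Nf2]
  simp

/-- a polynomial whose coefficient of `x_0^3` vanishes -/
private theorem mem12 {f : Pn 3} (hf : f.IsHomogeneous 3)
    (h0 : eval (fun j => if j = 0 then 1 else 0 : Fin 3 → ℂ) f = 0) :
    ∃ A B : Pn 3, f = X 1 * A + X 2 * B := by
  have h1 : f ∈ Ideal.span ((X : Fin 3 → Pn 3) '' {1, 2}) := by
    rw [mem_ideal_span_X_image]
    intro m hm
    by_contra hcon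
    push Not at hcon
    have m1 : m 1 = 0 := hcon 1 (by simp)
    have m2 : m 2 = 0 := hcon 2 (by simp)
    have hcoef : eval (fun j => if j = 0 then 1 else 0 : Fin 3 → ℂ) f = coeff m f := by
      rw [eval_eq']
      rw [Finset.sum_eq_single m]
      · rw [Fin.prod_univ_three, m1, m2]
        simp
      · intro m' hm' hne
        rw [Fin.prod_univ_three]
        have hdeg : ∀ n ∈ f.support, n 0 + n 1 + n 2 = 3 := by
          intro n hn
          have := hf (mem_support_iff.mp hn)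
          rw [Finsupp.weight_apply, Finsupp.sum_fintype _ _ (by simp), Fin.sum_univ_three] at this
          simpa using this
        have e1 := hdeg m hm
        have e2 := hdeg m' hm'
        have : m' 1 ≠ 0 ∨ m' 2 ≠ 0 := by
          by_contra hc
          push Not at hc
          apply hne
          ext i
          fin_cases i
          · show m' 0 = m 0
            omega
          · show m' 1 = m 1
            omega
          · show m' 2 = m 2
            omega
        rcases this with h | h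
        · simp [h]
        · simp [h]
      · intro hh
        exact absurd hm hh
    rw [h0] at hcoef
    exact (mem_support_iff.mp hm) hcoef.symm
  rw [Set.image_pair, Ideal.mem_span_pair] at h1
  obtain ⟨A, B, hAB⟩ := h1
  exact ⟨A, B, by rw [← hAB]; ring⟩

private theorem nodal {α δ : ℂ} (hα : α ≠ 0) (hδ : δ ≠ 0) : TT (Nf 0 1 0 α 0 0 δ) := by
  intro θ0 h
  have hP := Nf_hom 0 1 0 α 0 0 δ
  have hn : ∀ m : ℕ, [m.AtLeastTwo] → (C (OfNat.ofNat m : ℂ) : Pn 3) = OfNat.ofNat m :=
    fun m _ => map_ofNat C m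
  -- the regular sequence
  have ht : Pool.Agent.Helper1.FG.Triv (![X 0 * X 2 + 3 * C α * X 1 ^ 2,
      X 0 * X 1 + 3 * C δ * X 2 ^ 2, X 0] : Fin 3 → Pn 3) := by
    intro x hx
    have e0 := hx 2
    have e1 := hx 0
    have e2 := hx 1
    simp at e0
    simp [e0, hα] at e1
    simp [e0, hδ] at e2
    funext i
    fin_cases i
    · exact e0
    · exact e1
    · exact e2
  have hf1 : (X 0 * X 2 + 3 * C α * X 1 ^ 2 : Pn 3).IsHomogeneous 2 := by
    have := df_hom hP 1
    rwa [D1] at this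
  have hf2 : (X 0 * X 1 + 3 * C δ * X 2 ^ 2 : Pn 3).IsHomogeneous 2 := by
    have := df_hom hP 2
    rwa [D2] at this
  have hr := Pool.Agent.Helper1.FG.rseq_of_triv (N := 3) (κ := Fin 3) (by simp) _
    (![2, 2, 1]) (by intro i; fin_cases i <;> simp) (by
      intro i
      fin_cases i
      · exact hf1
      · exact hf2
      · exact hX1 0) ht
  -- the value at the node
  have hcl := h.cl 0 1 2
  have h30 := h.e3 0 1 2
  unfold w12 at h30
  rw [D0, D1, D2] at h30
  set e : Fin 3 → ℂ := fun j => if j = 0 then 1 else 0 with he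
  have hv : eval e (θ0 1 2) = 0 := by
    have h1 := congrArg (fun Q => eval e (pderiv 1 (pderiv 2 Q))) h30
    have h2 := congrArg (eval e) hcl
    have h3 := (h.hθ 1 2).sum_X_mul_pderiv
    have h4 := congrArg (eval e) h3
    rw [Fin.sum_univ_three] at h4
    have p1 : ∀ i j : Fin 3, i ≠ j → pderiv i (X j : Pn 3) = 0 := fun i j hij =>
      pderiv_X_of_ne (Ne.symm hij)
    simp only [map_add, map_mul, map_pow, Derivation.leibniz, smul_eq_mul, pderiv_X_self,
      Derivation.leibniz_pow, pderiv_C, nsmul_eq_mul, map_zero, map_ofNat,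
      p1 2 0 (by decide), p1 2 1 (by decide), p1 1 0 (by decide), p1 1 2 (by decide),
      map_natCast, eval_X, eval_C, map_one] at h1
    simp [he] at h1 h2 h4
    rw [he]
    linear_combination (-1 / 2) * (h1 - h2 + h4)
  obtain ⟨A, B, hAB⟩ := mem12 (h.hθ 1 2) hv
  have hmem : ∃ u g : Pn 3, θ0 1 2 = (X 0 * X 2 + 3 * C α * X 1 ^ 2) * u +
      (X 0 * X 1 + 3 * C δ * X 2 ^ 2) * g := by
    have key : ∀ a : Pn 3, X 0 * a ∈ Ideal.span {X 0 * X 2 + 3 * C α * X 1 ^ 2,
        X 0 * X 1 + 3 * C δ * X 2 ^ 2} → a ∈ Ideal.span {X 0 * X 2 + 3 * C α * X 1 ^ 2,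
        X 0 * X 1 + 3 * C δ * X 2 ^ 2} := by
      intro a ha
      have := hr {0, 1} 2 (by simp) a (by
        rw [Set.image_pair]
        exact ha)
      rw [Set.image_pair] at this
      exact this
    have h5 : X 0 * (X 0 * θ0 1 2) ∈ Ideal.span {X 0 * X 2 + 3 * C α * X 1 ^ 2,
        X 0 * X 1 + 3 * C δ * X 2 ^ 2} := by
      rw [Ideal.mem_span_pair]
      refine ⟨-(9 * C α * C δ * θ0 2 0) - 3 * C δ * X 2 * A + X 0 * B,
        -(9 * C α * C δ * θ0 0 1) + X 0 * A - 3 * C α * X 1 * B, ?_⟩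
      linear_combination (-(9 * C α * C δ)) * h30 +
        (9 * C α * C δ * X 1 * X 2 - X 0 ^ 2) * hAB
    have h6 := key _ (key _ h5)
    rw [Ideal.mem_span_pair] at h6
    obtain ⟨a, b, hab⟩ := h6
    exact ⟨a, b, by rw [← hab]; ring⟩
  refine koszul hP h (i0 := 1) (i1 := 2) ?_ ?_ ?_
  · intro a ha
    rw [D1] at ha
    have := hr ∅ 0 (by simp) a (by
      show (X 0 * X 2 + 3 * C α * X 1 ^ 2) * a ∈ _
      rw [ha]; exact Ideal.zero_mem _)
    simpa using this
  · rintro a ⟨u, hu⟩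
    rw [D1, D2] at hu
    have := hr {0} 1 (by simp) a (by
      show (X 0 * X 1 + 3 * C δ * X 2 ^ 2) * a ∈ _
      rw [hu, Set.image_singleton]
      exact Ideal.mul_mem_right _ _ (Ideal.mem_span_singleton_self _))
    rw [Set.image_singleton, Ideal.mem_span_singleton'] at this
    obtain ⟨c, hc⟩ := this
    refine ⟨c, ?_⟩
    rw [D1, ← hc, mul_comm]
    rfl
  · rw [D1, D2]
    exact hmem

/-- all cubics without linear syzygy -/
private theorem allc {P : Pn 3} (hP : P.IsHomogeneous 3) (hK : KK P) : TT P := by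
  by_cases ht : Pool.Agent.Helper1.FG.Triv (df P)
  · exact smooth hP ht
  · unfold Pool.Agent.Helper1.FG.Triv at ht
    push Not at ht
    obtain ⟨x, hx, hx0⟩ := ht
    obtain ⟨g, g', hg, hgx⟩ := exists_basis (n := 3) (r := 1) (by norm_num) (fun _ => x)
      (by rw [linearIndependent_unique_iff]; exact hx0)
    have hs : ∀ i, eval (fun j => if j = 0 then 1 else 0 : Fin 3 → ℂ) (df (lsub g P) i) = 0 := by
      intro i
      rw [← pb_df]
      unfold pb
      rw [map_sum]
      refine Finset.sum_eq_zero fun j _ => ?_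
      rw [map_mul, Pool.Agent.Helper93.eval_lsub]
      have h1 : lmap g (fun j => if j = 0 then 1 else 0) = x := hgx 0
      rw [h1, hx j, mul_zero]
    apply TT_tr hg
    have hK2 := KK_tr hg hK
    obtain ⟨a, b, c, α, β, γ, δ, hN⟩ := expl (lsub_hom hP) hs
    rw [hN] at hK2 ⊢
    obtain ⟨p, q, r, s, h1, h2, h3, h4⟩ := iso_pair (disc_ne hK2)
    set u : ℂ := -(3 * α * p ^ 2 * q + β * (p ^ 2 * s + 2 * p * q * r) +
      γ * (2 * p * r * s + q * r ^ 2) + 3 * δ * r ^ 2 * s) with hu
    set v : ℂ := -(3 * α * p * q ^ 2 + β * (q ^ 2 * r + 2 * p * q * s) +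
      γ * (p * s ^ 2 + 2 * q * r * s) + 3 * δ * r * s ^ 2) with hv
    obtain ⟨g2, hg2⟩ := gm_inv u v h4
    apply TT_tr hg2
    have hK3 := KK_tr hg2 hK2
    rw [gm_Nf, h1, h2, h3] at hK3 ⊢
    have e1 : 3 * α * p ^ 2 * q + β * (p ^ 2 * s + 2 * p * q * r) +
        γ * (2 * p * r * s + q * r ^ 2) + 3 * δ * r ^ 2 * s + u * 1 + v * 0 = 0 := by
      rw [hu]; ring
    have e2 : 3 * α * p * q ^ 2 + β * (q ^ 2 * r + 2 * p * q * s) +
        γ * (p * s ^ 2 + 2 * q * r * s) + 3 * δ * r * s ^ 2 + u * 0 + v * 1 = 0 := by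
      rw [hv]; ring
    rw [e1, e2] at hK3 ⊢
    generalize α * p ^ 3 + β * p ^ 2 * r + γ * p * r ^ 2 + δ * r ^ 3 + u * 0 = α' at hK3 ⊢
    generalize α * q ^ 3 + β * q ^ 2 * s + γ * q * s ^ 2 + δ * s ^ 3 + v * 0 = δ' at hK3 ⊢
    refine nodal ?_ ?_
    · intro hα
      subst hα
      have h5 := hK3 ![X 0, -X 1, 0] (by
        intro i
        fin_cases i
        · exact hX1 0
        · exact (hX1 1).neg
        · exact isHomogeneous_zero _ _ _) (by
        unfold pair
        rw [Fin.sum_univ_three, D0, D1, D2]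
        simp
        ring)
      have h6 := congrFun h5 0
      simp at h6
    · intro hδ
      subst hδ
      have h5 := hK3 ![X 0, 0, -X 2] (by
        intro i
        fin_cases i
        · exact hX1 0
        · exact isHomogeneous_zero _ _ _
        · exact (hX1 2).neg) (by
        unfold pair
        rw [Fin.sum_univ_three, D0, D1, D2]
        simp
        ring)
      have h6 := congrFun h5 0
      simp at h6

theorem node {σ : F1 3} {θ0 : F2 3} (h : RD 0 σ θ0) (hc : Cop σ)
    (hw : ∀ w : Fin 3 → ℂ, w ≠ 0 → pair (cv w) σ ≠ 0)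
    (hK : ∀ v : F1 3, H1 1 v → pair v σ = 0 → v = 0) : CaseB 0 σ θ0 := by
  have hd0 : ∀ i, dd σ i i = 0 := fun i => by unfold dd; ring
  have hd1 : ∀ i j, dd σ i j = - dd σ j i := fun i j => by unfold dd; ring
  have h1 : pair σ (st (dd σ)) = 0 := by
    rw [← w12_pair hd0 hd1]
    intro i j k
    have := h.e2 i j k
    have h2 : w12 (cv (0 : Fin 3 → ℂ)) θ0 i j k = 0 := by
      unfold w12 cv
      simp
    rw [h2, zero_add] at this
    exact this
  have h2 : st (dd σ) = 0 := by
    apply hK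
    · have hdh : ∀ i j, (dd σ i j).IsHomogeneous 1 := by
        intro i j
        unfold dd
        exact (by simpa using (h.hσ j).pderiv (i := i) : (pderiv i (σ j)).IsHomogeneous 1).sub
          (by simpa using (h.hσ i).pderiv (i := j))
      intro i
      fin_cases i
      · exact hdh 1 2
      · exact hdh 2 0
      · exact hdh 0 1
    · unfold pair at h1 ⊢
      rw [← h1]
      exact Finset.sum_congr rfl fun i _ => mul_comm _ _
  have h3 : ∀ i j, dd σ i j = 0 := by
    intro i j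
    have := st_inj (ω := dd σ) (ω' := fun _ _ => 0) hd0 hd1 (fun _ => rfl) (fun _ _ => by simp)
      (by rw [h2]; funext k; fin_cases k <;> rfl) i j
    exact this
  obtain ⟨P, hP, hσ⟩ := Pool.Agent.Helper50.FC.poincare1 σ 2 h.hσ (fun i j =>
    sub_eq_zero.mp (h3 i j))
  have h4 : σ = df P := by
    funext i
    exact (hσ i).symm
  subst h4
  exact allc hP hK θ0 h

end Pool.Agent.Helper1.FK
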