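import Pool.Agent.Helper1.FK.Coord
import Pool.Agent.Helper1.FK.Vec

/-! FK-12: CaseC with `n = dx_0`: the shape of `σ`.
Proof.  Absorb `φ_0` in `g`: `φ = φ_1 dx_1 + φ_2 dx_2`.  `d` of `σ = g dx_0 + ℓ φ`, component (1,2): `∂_1 (ℓ φ_2) = ∂_2 (ℓ φ_1)`, so `ℓ φ_j = C_j` (`j = 1, 2`) for a cubic `C`
(relative Poincare); components (0,j): `∂_j g = ∂_0 C_j - c φ_j`.
(I1) `ℓ = λ x_0`: replace `φ` by `λ φ`, `c` by `c / λ`, `A` by `A / λ`: `ℓ = x_0`.  `C = x_0 q` (with the `x_0^3`-term in `q`), `φ_j = ∂_j q`, `∂_j (g - ∂_0 C + c q) = 0`: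
   `g = x_0 q_0 + (1 - c) q + κ x_0^2`, `σ = x_0 dq + ((1 - c) q + κ x_0^2) dx_0`.
(I2) `ℓ` not a multiple of `x_0`.  `C - κ' x_0^3` is divisible by `ℓ^2` (for a slice `x_0 = a`: `C` is constant along `ℓ = 0` and so is its value): `C = κ' x_0^3 + ℓ^2 l''`.
   Coordinates `x_1 = ℓ` (fixing `x_0`).  If `∂_2 l'' = 0` then `C_2 = 0`, `φ_2 = 0`, `∂_2 g = 0`: `σ(e_2) = 0`, excluded.  So `x_2 = l''` (coordinates): `C = κ' x_0^3 + x_1^2 x_2`,
   `φ = 2 x_2 dx_1 + x_1 dx_2`, `∂_j (g - C_0) = - c φ_j`: `φ` is not closed on the slices, so `c = 0`, `g = C_0 + κ'' x_0^2`: change `κ'`: `σ = d(κ x_0^3 + x_1^2 x_2)`. -/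

set_option autoImplicit false

namespace Pool.Agent.Helper1.FK

open MvPolynomial
open scoped BigOperators
open Pool.Agent.Helper71.FL (w12 pf ct Dec Closed dd)
open Pool.Agent.Helper71.FC
open Pool.Agent.Helper93 (lsub lmap OF pb Cop)
open Pool.Agent.Helper1.FG (om7)

private theorem lf3 (a : Fin 3 → ℂ) : lf a = C (a 0) * X 0 + C (a 1) * X 1 + C (a 2) * X 2 := by
  unfold lf
  rw [Fin.sum_univ_three]

private theorem pd_lf (a : Fin 3 → ℂ) (k : Fin 3) : pderiv k (lf a) = C (a k) := by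
  unfold lf
  rw [map_sum, Finset.sum_eq_single k]
  · rw [pderiv_C_mul, pderiv_X_self, mul_one]
  · intro b _ hb
    rw [pderiv_C_mul, pderiv_X_of_ne hb, mul_zero]
  · intro hk; exact absurd (Finset.mem_univ k) hk

private theorem mono0 {p : Pn 3} (hp : p.IsHomogeneous 2) (h1 : pderiv 1 p = 0)
    (h2 : pderiv 2 p = 0) : ∃ κ : ℂ, p = C κ * X 0 ^ 2 := by
  obtain ⟨b, hb⟩ := lf_of_hom (l := pderiv 0 p) (by simpa using hp.pderiv (i := 0))
  have hb1 : b 1 = 0 := by
    have h3 := pd_lf b 1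
    rw [← hb, Pool.Agent.Helper50.FC.pd_comm, h1, map_zero] at h3
    exact (C_eq_zero.1 h3.symm)
  have hb2 : b 2 = 0 := by
    have h3 := pd_lf b 2
    rw [← hb, Pool.Agent.Helper50.FC.pd_comm, h2, map_zero] at h3
    exact (C_eq_zero.1 h3.symm)
  have he := hp.sum_X_mul_pderiv
  rw [Fin.sum_univ_three, h1, h2, hb, lf3, hb1, hb2] at he
  refine ⟨b 0 / 2, ?_⟩
  have h4 : (2 : Pn 3) * p = 2 * (C (b 0 / 2) * X 0 ^ 2) := by
    have h5 : (2 : Pn 3) * p = (2 : ℕ) • p := by
      rw [nsmul_eq_mul]; norm_num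
    rw [h5, ← he]
    have h6 : (2 : Pn 3) * C (b 0 / 2) = C (b 0) := by
      have : (2 : Pn 3) = C 2 := (map_ofNat C 2).symm
      rw [this, ← C_mul]
      congr 1
      ring
    rw [C_0]
    linear_combination (-X 0 ^ 2) * h6
  exact mul_left_cancel₀ two_ne_zero h4

private theorem nums (l f1 f2 : Fin 3 → ℂ)
    (E : ∀ k, l 1 * f2 k + l k * f2 1 = l 2 * f1 k + l k * f1 2) (hl : l 1 ≠ 0 ∨ l 2 ≠ 0) :
    ∃ a : Fin 3 → ℂ, (∀ k, f1 k = 2 * l 1 * a k + l k * a 1) ∧
      ∀ k, f2 k = 2 * l 2 * a k + l k * a 2 := by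
  have E1 := E 1
  have E2 := E 2
  rcases hl with hl | hl
  · refine ⟨fun k => (f1 k - l k * (f1 1 / (3 * l 1))) / (2 * l 1), fun k => ?_, fun k => ?_⟩
    · field_simp
      ring
    · have h3 : 2 * l 1 ^ 2 * f2 k = 2 * l 1 * l 2 * f1 k + l 1 * l k * f1 2 - l 2 * l k * f1 1 := by
        linear_combination (2 * l 1) * E k - l k * E1
      have h4 : f2 k = (2 * l 1 * l 2 * f1 k + l 1 * l k * f1 2 - l 2 * l k * f1 1) /
          (2 * l 1 ^ 2) := by
        rw [← h3]
        field_simp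
      rw [h4]
      field_simp
      ring
  · refine ⟨fun k => (f2 k - l k * (f2 2 / (3 * l 2))) / (2 * l 2), fun k => ?_, fun k => ?_⟩
    · have h3 : 2 * l 2 ^ 2 * f1 k = 2 * l 1 * l 2 * f2 k + l 2 * l k * f2 1 - l 1 * l k * f2 2 := by
        linear_combination (-2 * l 2) * E k + l k * E2
      have h4 : f1 k = (2 * l 1 * l 2 * f2 k + l 2 * l k * f2 1 - l 1 * l k * f2 2) /
          (2 * l 2 ^ 2) := by
        rw [← h3]
        field_simp
      rw [h4]
      field_simp
      ring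
    · field_simp
      ring

theorem shape {σ : F1 3} {θ0 : F2 3} (h : RD 0 σ θ0)
    (hw : ∀ w : Fin 3 → ℂ, w ≠ 0 → pair (cv w) σ ≠ 0) {c : ℂ} {ℓ g A : Pn 3} {φ μ : F1 3}
    (hℓ : ℓ ≠ 0) (hℓ1 : ℓ.IsHomogeneous 1) (hg : g.IsHomogeneous 2) (hA : A.IsHomogeneous 2)
    (hφ : H1 1 φ) (hμ : H1 1 μ)
    (h1 : ∀ i, σ i = g * C ((![1, 0, 0] : Fin 3 → ℂ) i) + ℓ * φ i)
    (h2 : ∀ i j, dd σ i j = C c * w11 (cv ![1, 0, 0]) φ i j)
    (h3 : ∀ i j, θ0 i j = A * w11 (cv ![1, 0, 0]) φ i j + w11 μ σ i j) :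
    (∃ (c' κ : ℂ) (q A' : Pn 3), q.IsHomogeneous 2 ∧ A'.IsHomogeneous 2 ∧
      (∀ i, σ i = X 0 * pderiv i q +
        (C (1 - c') * q + C κ * X 0 ^ 2) * C ((![1, 0, 0] : Fin 3 → ℂ) i)) ∧
      ∀ i j, θ0 i j = A' * w11 (df (X 0)) (df q) i j + w11 μ σ i j) ∨
    ∃ (κ : ℂ) (g1 g1' : Fin 3 → Fin 3 → ℂ) (A' : Pn 3) (μ' : F1 3), Inv g1 g1' ∧
      A'.IsHomogeneous 2 ∧ H1 1 μ' ∧ pb g1 σ = df (C κ * X 0 ^ 3 + X 1 ^ 2 * X 2) ∧
      ∀ i j, pb2 g1 θ0 i j = A' * w11 (df (X 0)) ![0, 2 * X 2, X 1] i j + w11 μ' (pb g1 σ) i j := by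
  obtain ⟨l, hl⟩ := lf_of_hom hℓ1
  obtain ⟨f1, hf1⟩ := lf_of_hom (hφ 1)
  obtain ⟨f2, hf2⟩ := lf_of_hom (hφ 2)
  have s1 : σ 1 = ℓ * φ 1 := by
    rw [h1 1]; simp
  have s2 : σ 2 = ℓ * φ 2 := by
    rw [h1 2]; simp
  have d12 : pderiv 1 (σ 2) = pderiv 2 (σ 1) := by
    have := h2 1 2
    simp only [dd, w11, cv] at this
    simp at this
    exact sub_eq_zero.1 this
  have d01 : pderiv 0 (σ 1) - pderiv 1 (σ 0) = C c * φ 1 := by
    have := h2 0 1
    simp only [dd, w11, cv] at this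
    simpa using this
  have d02 : pderiv 0 (σ 2) - pderiv 2 (σ 0) = C c * φ 2 := by
    have := h2 0 2
    simp only [dd, w11, cv] at this
    simpa using this
  have hdX0 : df (X 0 : Pn 3) = cv ![1, 0, 0] := by
    funext i
    fin_cases i
    · simp [df, cv]
    · simp [df, cv, pderiv_X]
    · simp [df, cv, pderiv_X]
  by_cases hI : l 1 = 0 ∧ l 2 = 0
  · -- (I1)
    left
    have hℓX : ℓ = C (l 0) * X 0 := by
      rw [hl, lf3, hI.1, hI.2]; simp
    have hl0 : l 0 ≠ 0 := by
      intro h0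
      apply hℓ
      rw [hℓX, h0]; simp
    have hsym : f2 1 = f1 2 := by
      rw [s1, s2, hℓX, hf1, hf2] at d12
      simp only [Derivation.leibniz, smul_eq_mul, pd_lf, pderiv_C, pderiv_X] at d12
      simp at d12
      rcases d12 with h4 | h4
      · exact h4
      · exact absurd h4 hl0
    have hcl : ∀ i ∈ ({1, 2} : Finset (Fin 3)), ∀ j ∈ ({1, 2} : Finset (Fin 3)),
        pderiv i (C (l 0) * φ j) = pderiv j (C (l 0) * φ i) := by
      intro i hi j hj
      rw [pderiv_C_mul, pderiv_C_mul]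
      simp only [Finset.mem_insert, Finset.mem_singleton] at hi hj
      rcases hi with rfl | rfl <;> rcases hj with rfl | rfl
      · rfl
      · rw [hf2, hf1, pd_lf, pd_lf, hsym]
      · rw [hf2, hf1, pd_lf, pd_lf, hsym]
      · rfl
    have hη : ∀ j ∈ ({1, 2} : Finset (Fin 3)), (C (l 0) * φ j).IsHomogeneous 1 := by
      intro j _
      have := (isHomogeneous_C (Fin 3) (l 0)).mul (hφ j)
      rwa [zero_add] at this
    obtain ⟨q, hq, hqj⟩ := Pool.Agent.Helper50.FC.poincare_rel ({1, 2} : Finset (Fin 3))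
      (fun j => C (l 0) * φ j) 1 hη hcl
    have q1 : pderiv 1 q = C (l 0) * φ 1 := hqj 1 (by simp)
    have q2 : pderiv 2 q = C (l 0) * φ 2 := hqj 2 (by simp)
    have hCC : (C (c / l 0) : Pn 3) * C (l 0) = C c := by
      rw [← C_mul]
      congr 1
      field_simp
    let p : Pn 3 := σ 0 - X 0 * pderiv 0 q - C (1 - c / l 0) * q
    have hp : p.IsHomogeneous 2 := by
      refine (((h.hσ 0).sub ?_)).sub ?_
      · have h5 : (pderiv 0 q).IsHomogeneous 1 := by simpa using hq.pderiv (i := 0)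
        exact (isHomogeneous_X ℂ 0).mul h5
      · have := (isHomogeneous_C (Fin 3) (1 - c / l 0)).mul hq
        rwa [zero_add] at this
    have e1 : σ 1 = X 0 * pderiv 1 q := by
      rw [s1, hℓX, q1]; ring
    have e2 : σ 2 = X 0 * pderiv 2 q := by
      rw [s2, hℓX, q2]; ring
    have hp1 : pderiv 1 p = 0 := by
      have h5 : pderiv 0 (σ 1) = pderiv 1 q + X 0 * pderiv 1 (pderiv 0 q) := by
        rw [e1, Derivation.leibniz, pderiv_X_self, smul_eq_mul, smul_eq_mul,
          Pool.Agent.Helper50.FC.pd_comm 0 1]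
        ring
      have h6 : pderiv 1 (X 0 * pderiv 0 q) = X 0 * pderiv 1 (pderiv 0 q) := by
        rw [Derivation.leibniz, pderiv_X_of_ne (by decide), smul_eq_mul, smul_zero, add_zero]
      have h7 : C c * φ 1 = C (c / l 0) * pderiv 1 q := by
        rw [q1, ← mul_assoc, hCC]
      change pderiv 1 (σ 0 - X 0 * pderiv 0 q - C (1 - c / l 0) * q) = 0
      rw [map_sub, map_sub, h6, pderiv_C_mul, C_sub, C_1]
      linear_combination -d01 + h5 - h7
    have hp2 : pderiv 2 p = 0 := by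
      have h5 : pderiv 0 (σ 2) = pderiv 2 q + X 0 * pderiv 2 (pderiv 0 q) := by
        rw [e2, Derivation.leibniz, pderiv_X_self, smul_eq_mul, smul_eq_mul,
          Pool.Agent.Helper50.FC.pd_comm 0 2]
        ring
      have h6 : pderiv 2 (X 0 * pderiv 0 q) = X 0 * pderiv 2 (pderiv 0 q) := by
        rw [Derivation.leibniz, pderiv_X_of_ne (by decide), smul_eq_mul, smul_zero, add_zero]
      have h7 : C c * φ 2 = C (c / l 0) * pderiv 2 q := by
        rw [q2, ← mul_assoc, hCC]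
      change pderiv 2 (σ 0 - X 0 * pderiv 0 q - C (1 - c / l 0) * q) = 0
      rw [map_sub, map_sub, h6, pderiv_C_mul, C_sub, C_1]
      linear_combination -d02 + h5 - h7
    obtain ⟨κ, hκ⟩ := mono0 hp hp1 hp2
    have hκ' : σ 0 - X 0 * pderiv 0 q - C (1 - c / l 0) * q = C κ * X 0 ^ 2 := hκ
    refine ⟨c / l 0, κ, q, C (1 / l 0) * A, hq, ?_, ?_, ?_⟩
    · have := (isHomogeneous_C (Fin 3) (1 / l 0)).mul hA
      rwa [zero_add] at this
    · intro i
      fin_cases i
      · change σ 0 = X 0 * pderiv 0 q + (C (1 - c / l 0) * q + C κ * X 0 ^ 2) * C 1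
        rw [C_1]
        linear_combination hκ'
      · change σ 1 = X 0 * pderiv 1 q + (C (1 - c / l 0) * q + C κ * X 0 ^ 2) * C 0
        rw [C_0, e1]
        ring
      · change σ 2 = X 0 * pderiv 2 q + (C (1 - c / l 0) * q + C κ * X 0 ^ 2) * C 0
        rw [C_0, e2]
        ring
    · intro i j
      rw [h3 i j, hdX0]
      refine congrArg (fun z => z + w11 μ σ i j) ?_
      have hinv : (C (1 / l 0) : Pn 3) * C (l 0) = 1 := by
        rw [← C_mul, ← C_1]
        congr 1
        field_simp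
      have c0 : (cv ![1, 0, 0] : F1 3) 0 = 1 := by simp [cv]
      have c1 : (cv ![1, 0, 0] : F1 3) 1 = 0 := by simp [cv]
      have c2 : (cv ![1, 0, 0] : F1 3) 2 = 0 := by simp [cv]
      have q1' : df q 1 = C (l 0) * φ 1 := q1
      have q2' : df q 2 = C (l 0) * φ 2 := q2
      fin_cases i <;> fin_cases j <;>
        simp only [w11, Fin.zero_eta, Fin.mk_one, Fin.reduceFinMk, c0, c1, c2, q1', q2'] <;>
        first
          | ring1
          | linear_combination (exp := 1) (-A * φ 1) * hinv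
          | linear_combination (exp := 1) (A * φ 1) * hinv
          | linear_combination (exp := 1) (-A * φ 2) * hinv
          | linear_combination (exp := 1) (A * φ 2) * hinv
  · -- (I2)
    right
    have hl12 : l 1 ≠ 0 ∨ l 2 ≠ 0 := by
      by_contra hcon
      push Not at hcon
      exact hI hcon
    have E : ∀ k, l 1 * f2 k + l k * f2 1 = l 2 * f1 k + l k * f1 2 := by
      intro k
      have h4 : C (l 1) * lf f2 + lf l * C (f2 1) = C (l 2) * lf f1 + lf l * C (f1 2) := by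
        rw [s1, s2, hl, hf1, hf2] at d12
        simp only [Derivation.leibniz, smul_eq_mul, pd_lf] at d12
        linear_combination d12
      have h5 := congrArg (pderiv k) h4
      simp only [map_add, Derivation.leibniz, smul_eq_mul, pd_lf, pderiv_C, mul_zero] at h5
      have h6 : (C (l 1 * f2 k + l k * f2 1) : Pn 3) = C (l 2 * f1 k + l k * f1 2) := by
        simp only [C_add, C_mul]
        linear_combination h5
      exact C_injective _ _ h6
    obtain ⟨a, ha1, ha2⟩ := nums l f1 f2 E hl12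
    have p1 : φ 1 = 2 * C (l 1) * lf a + ℓ * C (a 1) := by
      rw [hf1, hl, lf3, lf3, lf3, ha1 0, ha1 1, ha1 2]
      have hC2 : (C 2 : Pn 3) = 2 := map_ofNat C 2
      simp only [C_add, C_mul, hC2]
      ring
    have p2 : φ 2 = 2 * C (l 2) * lf a + ℓ * C (a 2) := by
      rw [hf2, hl, lf3, lf3, lf3, ha2 0, ha2 1, ha2 2]
      have hC2 : (C 2 : Pn 3) = 2 := map_ofNat C 2
      simp only [C_add, C_mul, hC2]
      ring
    have hD : l 1 * a 2 - l 2 * a 1 ≠ 0 := by
      intro hD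
      apply hw ![0, l 2, -l 1]
      · intro h0
        rcases hl12 with h4 | h4
        · apply h4
          have := congrFun h0 2
          simpa using this
        · apply h4
          have := congrFun h0 1
          simpa using this
      · have e : pair (cv ![0, l 2, -l 1]) σ = C (l 2) * σ 1 - C (l 1) * σ 2 := by
          unfold pair cv
          rw [Fin.sum_univ_three]
          simp
          ring
        rw [e, s1, s2, p1, p2]
        have hD' : (C (l 1) : Pn 3) * C (a 2) - C (l 2) * C (a 1) = 0 := by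
          rw [← C_mul, ← C_mul, ← C_sub, hD, C_0]
        linear_combination (-ℓ ^ 2) * hD'
    have hpl : ∀ k, pderiv k ℓ = C (l k) := by
      intro k; rw [hl]; exact pd_lf l k
    have hpa : ∀ k, pderiv k (lf a) = C (a k) := pd_lf a
    have hc : c = 0 := by
      have h4 := congrArg (pderiv 2) d01
      have h5 := congrArg (pderiv 1) d02
      have h6 := congrArg (pderiv 0) d12
      rw [map_sub, pderiv_C_mul, hf1, pd_lf] at h4
      rw [map_sub, pderiv_C_mul, hf2, pd_lf] at h5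
      have h7 : (C c : Pn 3) * C (f1 2) = C c * C (f2 1) := by
        rw [← h4, ← h5, Pool.Agent.Helper50.FC.pd_comm 2 0, Pool.Agent.Helper50.FC.pd_comm 1 0,
          ← h6, Pool.Agent.Helper50.FC.pd_comm 1 2]
      rw [← C_mul, ← C_mul] at h7
      have h8 := C_injective _ _ h7
      have h9 : c * (l 1 * a 2 - l 2 * a 1) = 0 := by
        rw [ha1 2, ha2 1] at h8
        linear_combination h8
      rcases mul_eq_zero.1 h9 with h10 | h10
      · exact h10
      · exact absurd h10 hD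
    have t1 : σ 1 = pderiv 1 (ℓ ^ 2 * lf a) := by
      rw [s1, p1]
      simp only [Derivation.leibniz, Derivation.leibniz_pow, smul_eq_mul, hpl, hpa, nsmul_eq_mul]
      push_cast
      ring
    have t2 : σ 2 = pderiv 2 (ℓ ^ 2 * lf a) := by
      rw [s2, p2]
      simp only [Derivation.leibniz, Derivation.leibniz_pow, smul_eq_mul, hpl, hpa, nsmul_eq_mul]
      push_cast
      ring
    have hah : (lf a).IsHomogeneous 1 := by
      unfold lf
      refine IsHomogeneous.sum _ _ _ (fun i _ => ?_)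
      have := (isHomogeneous_C (Fin 3) (a i)).mul (isHomogeneous_X ℂ i)
      rwa [zero_add] at this
    have hF3 : (ℓ ^ 2 * lf a).IsHomogeneous 3 := by
      have := (hℓ1.pow 2).mul hah
      simpa using this
    have hR : (σ 0 - pderiv 0 (ℓ ^ 2 * lf a)).IsHomogeneous 2 := by
      refine (h.hσ 0).sub ?_
      simpa using hF3.pderiv (i := 0)
    have hR1 : pderiv 1 (σ 0 - pderiv 0 (ℓ ^ 2 * lf a)) = 0 := by
      rw [hc, C_0, zero_mul] at d01
      rw [map_sub, Pool.Agent.Helper50.FC.pd_comm 1 0, ← t1]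
      linear_combination -d01
    have hR2 : pderiv 2 (σ 0 - pderiv 0 (ℓ ^ 2 * lf a)) = 0 := by
      rw [hc, C_0, zero_mul] at d02
      rw [map_sub, Pool.Agent.Helper50.FC.pd_comm 2 0, ← t2]
      linear_combination -d02
    obtain ⟨κ, hκ⟩ := mono0 hR hR1 hR2
    let F : Pn 3 := C (κ / 3) * X 0 ^ 3 + ℓ ^ 2 * lf a
    have hF : σ = df F := by
      funext i
      fin_cases i
      · change σ 0 = pderiv 0 (C (κ / 3) * X 0 ^ 3 + ℓ ^ 2 * lf a)
        rw [map_add, pderiv_C_mul, Derivation.leibniz_pow, pderiv_X_self]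
        have h4 : (C κ : Pn 3) = C (κ / 3) * 3 := by
          have : (3 : Pn 3) = C 3 := (map_ofNat C 3).symm
          rw [this, ← C_mul]
          congr 1
          ring
        rw [h4] at hκ
        simp only [smul_eq_mul, nsmul_eq_mul, mul_one]
        push_cast
        linear_combination hκ
      · change σ 1 = pderiv 1 (C (κ / 3) * X 0 ^ 3 + ℓ ^ 2 * lf a)
        rw [map_add, pderiv_C_mul, Derivation.leibniz_pow, pderiv_X_of_ne (by decide), t1]
        simp
      · change σ 2 = pderiv 2 (C (κ / 3) * X 0 ^ 3 + ℓ ^ 2 * lf a)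
        rw [map_add, pderiv_C_mul, Derivation.leibniz_pow, pderiv_X_of_ne (by decide), t2]
        simp
    -- coordinates
    have hli : LinearIndependent ℂ (![![1, 0, 0], l, a] : Fin 3 → Fin 3 → ℂ) := by
      have hu : IsUnit (Matrix.of (![![1, 0, 0], l, a] : Fin 3 → Fin 3 → ℂ)) := by
        rw [Matrix.isUnit_iff_isUnit_det, Matrix.det_fin_three]
        simp only [Matrix.of_apply, Matrix.cons_val_zero, Matrix.cons_val_one, Matrix.cons_val]
        rw [isUnit_iff_ne_zero]
        intro h0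
        apply hD
        linear_combination h0
      rw [← Matrix.linearIndependent_rows_iff_isUnit] at hu
      exact hu
    obtain ⟨g1, g1', hinv, hgX⟩ := Pool.Agent.Helper71.FC.exists_coord (le_refl 3) _ hli
    have k0 : lsub g1 (X 0) = X 0 := by
      have h4 := hgX 0
      have h5 : lf ((![![1, 0, 0], l, a] : Fin 3 → Fin 3 → ℂ) 0) = X 0 := by
        change lf (![1, 0, 0] : Fin 3 → ℂ) = X 0
        rw [lf3]
        simp
      rw [h5] at h4
      exact h4
    have k1 : lsub g1 ℓ = X 1 := by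
      have h4 := hgX 1
      have h5 : lf ((![![1, 0, 0], l, a] : Fin 3 → Fin 3 → ℂ) 1) = ℓ := hl.symm
      rw [h5] at h4
      exact h4
    have k2 : lsub g1 (lf a) = X 2 := hgX 2
    refine ⟨κ / 3, g1, g1', lsub g1 A, pb g1 μ, hinv, lsub_hom hA, fun i => pb_hom hμ i, ?_, ?_⟩
    · rw [hF, pb_df]
      refine congrArg df ?_
      simp only [F, map_add, map_mul, map_pow, k0, k1, k2]
      rw [show lsub g1 (C (κ / 3)) = C (κ / 3) from (lsub g1).commutes (κ / 3)]
    · let ψ : F1 3 := fun i => (2 * lf a) * df ℓ i + ℓ * df (lf a) i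
      have e : θ0 = fun i j => (fun i j => A * w11 (df (X 0)) ψ i j) i j + w11 μ σ i j := by
        funext i j
        rw [h3 i j, hdX0]
        refine congrArg (fun z => A * z + w11 μ σ i j) ?_
        have c0 : (cv ![1, 0, 0] : F1 3) 0 = 1 := by simp [cv]
        have c1 : (cv ![1, 0, 0] : F1 3) 1 = 0 := by simp [cv]
        have c2 : (cv ![1, 0, 0] : F1 3) 2 = 0 := by simp [cv]
        have g1e : ψ 1 = φ 1 := by
          rw [p1]
          change (2 * lf a) * pderiv 1 ℓ + ℓ * pderiv 1 (lf a) = _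
          rw [hpl, hpa]; ring
        have g2e : ψ 2 = φ 2 := by
          rw [p2]
          change (2 * lf a) * pderiv 2 ℓ + ℓ * pderiv 2 (lf a) = _
          rw [hpl, hpa]; ring
        fin_cases i <;> fin_cases j <;>
          simp only [w11, Fin.zero_eta, Fin.mk_one, Fin.reduceFinMk, c0, c1, c2, g1e, g2e] <;>
          ring1
      have hψ : pb g1 ψ = ![0, 2 * X 2, X 1] := by
        have h4 : pb g1 ψ = fun i => lsub g1 (2 * lf a) * pb g1 (df ℓ) i +
            lsub g1 ℓ * pb g1 (df (lf a)) i := by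
          change pb g1 (fun i => (fun i => (2 * lf a) * df ℓ i) i + (fun i => ℓ * df (lf a) i) i) = _
          rw [pb_add, pb_smul, pb_smul]
        rw [h4, pb_df, pb_df, map_mul, k1, k2]
        have h5 : lsub g1 (2 : Pn 3) = 2 := map_ofNat _ 2
        rw [h5]
        funext i
        fin_cases i
        · simp [df, pderiv_X]
        · simp [df, pderiv_X]
        · simp [df, pderiv_X]
      intro i j
      rw [e, pb2_add, pb2_smul, pb2_w11, pb2_w11, pb_df, k0, hψ]

end Pool.Agent.Helper1.FK
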