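import Pool.Agent.Helper1.FK.CoordG
import Pool.Agent.Helper1.FK.Shape

/-! FK-13: solution in the case (I1): `σ = x_0 dq + ((1 - c) q + κ x_0^2) dx_0`, `θ0 = A dx_0 ∧ dq + μ ∧ σ`, closed.
Proof.  `dσ = c dx_0 ∧ dq`.  The gauge `q0` changes `μ` to `μ + dq0`, `A` to `A + c q0`.  `dμ = b dx_1 ∧ dx_2 + dx_0 ∧ ν`, `ν = dn_1`, `n_1` linear in `x_1, x_2`.
`b = 0`: gauge `μ = - n_1 dx_0`, so `θ0 = A' dx_0 ∧ dq`, `A' = A - x_0 n_1`, closed: `{A', q} := A'_1 q_2 - A'_2 q_1 = 0`; `q_1, q_2` are not proportional (`hw`), so `A' = s q + t x_0^2`: Case122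
 (`n = dx_0`, `α = 1`, `β = 1 - c`, `γ = κ`, `m1 = 0`).
`b ≠ 0`: gauge `μ = (b/2)(x_1 dx_2 - x_2 dx_1) - n_1 dx_0`; closedness: `{A', q} = b [x_0 q_0 + (1 - c) q + κ x_0^2 - (c/2)(x_1 q_1 + x_2 q_2)]`, `A' = A - x_0 n_1`.  Restrict to `x_0 = 0`:
 `{A'bar, qbar} = b (1 - 2c) qbar`.
 * `qbar` of rank 2: `q = a b' + γ x_0^2` with `(x_0, a, b')` coordinates (complete the products): in these coordinates `a = x_1, b' = x_2` (`dx_1 ∧ dx_2` changes by a constant
   and terms `dx_0 ∧ ..`; start again with the new coordinates), `q = x_1 x_2 + γ x_0^2`, `{A', q} = x_1 A'_1 - x_2 A'_2` has no `x_1 x_2`, `x_0^2` term: `c = 1/2`, `κ = - 5 γ / 2`, `A'` in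
   `<x_1 x_2, x_0^2>`.  So `σ = x_0 dρ + (1/2) ρ dx_0`, `ρ = x_1 x_2`, `θ0 = (s ρ + t x_0^2) dx_0 ∧ dρ + (b/2)(x_1 dx_2 - x_2 dx_1) ∧ σ` (the terms with `n_1` cancel), and the gauge `q0 = ε x_0^2`
   kills `t` (it changes `t` by `5 ε / 2`).  Case7 with `c = 1/2`, `κ_b - κ_a = - b/2`, `κ_x = - 2 s / 5`, `κ_a + κ_b = - κ_x - 2 κ_Q`, `κ_Q` arbitrary, because
   `d(x ρ (κ_a b da + κ_b a db) + κ_x ρ^2 dx + κ_Q ρ x dρ) = ((κ_a + κ_b)/2 + κ_Q - 2 κ_x) ρ dx ∧ dρ + ((κ_b - κ_a)/2) ρ dx ∧ (a db - b da) + 2 (κ_b - κ_a) x ρ da ∧ db` and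
   `(b/2)(a db - b da) ∧ σ = - b x ρ da ∧ db - (b/4) ρ dx ∧ (a db - b da)`.
 * `qbar` of rank 1, `qbar = x_1^2`: `q = x_1^2 + x_0 (..)`, `q` not in `x_0, x_1` only (`hw`), coordinates: `q = x_1^2 + x_0 x_2`.  `D = x_0 ∂_1 - 2 x_1 ∂_2`, `D A' = b [(1 - 2c) x_1^2 + (2 - 3c/2) x_0 x_2 + κ x_0^2]`;
   the coefficients of `x_1^2`, `x_0 x_2` of `D A'` are `(-2 a, a)`: `1 - 2c = - 4 + 3c`, `c = 1`; then `x_0` divides `σ`: contradiction.
 * `qbar = 0`: `x_0` divides `q`, so `q_1, q_2` proportional: `hw`. -/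

set_option autoImplicit false

namespace Pool.Agent.Helper1.FK

open MvPolynomial
open scoped BigOperators
open Pool.Agent.Helper71.FL (w12 pf ct Dec Closed dd)
open Pool.Agent.Helper71.FC
open Pool.Agent.Helper93 (lsub lmap OF pb Cop)
open Pool.Agent.Helper1.FG (om7)

private theorem lsub_C' {n m : ℕ} (g : Fin n → Fin m → ℂ) (a : ℂ) :
    lsub g (C a) = C a := by
  unfold lsub
  rw [aeval_C]
  rfl

private theorem C_dX0 (i : Fin 3) : (C ((![1, 0, 0] : Fin 3 → ℂ) i) : Pn 3) = df (X 0) i := by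
  fin_cases i
  · simp [df]
  · simp [df, pderiv_X]
  · simp [df, pderiv_X]

/-- the data of the case (I1) -/
private structure SI (σ : F1 3) (θ0 : F2 3) (c κ : ℂ) (q A : Pn 3) (μ : F1 3) : Prop where
  rd : RD 0 σ θ0
  cop : Cop σ
  hw : ∀ w : Fin 3 → ℂ, w ≠ 0 → pair (cv w) σ ≠ 0
  hq : q.IsHomogeneous 2
  hA : A.IsHomogeneous 2
  hμ : H1 1 μ
  h1 : ∀ i, σ i = X 0 * df q i + (C (1 - c) * q + C κ * X 0 ^ 2) * df (X 0) i
  h3 : ∀ i j, θ0 i j = A * w11 (df (X 0)) (df q) i j + w11 μ σ i j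

private theorem mg_zero (g : Fin 3 → Fin 3 → ℂ) : mg 0 g = 0 := by
  funext i
  simp [mg]

private theorem pair_pb (g : Fin 3 → Fin 3 → ℂ) (w : Fin 3 → ℂ) (σ : F1 3) :
    pair (cv w) (pb g σ) = lsub g (pair (cv (lmap g w)) σ) := by
  unfold pair cv pb
  rw [map_sum]
  simp only [Finset.mul_sum]
  rw [Finset.sum_comm]
  refine Finset.sum_congr rfl fun j _ => ?_
  rw [map_mul, lsub_C']
  show _ = C (∑ l, g j l * w l) * lsub g (σ j)
  rw [map_sum, Finset.sum_mul]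
  refine Finset.sum_congr rfl fun l _ => ?_
  rw [C_mul]
  ring

private theorem lmap_inv' {g g' : Fin 3 → Fin 3 → ℂ} (hg : Inv g g') (v : Fin 3 → ℂ) :
    lmap g' (lmap g v) = v := by
  funext i
  show ∑ l, g' i l * ∑ j, g l j * v j = v i
  have h1 : ∑ l, g' i l * ∑ j, g l j * v j = ∑ j, mm g' g i j * v j := by
    unfold mm
    simp only [Finset.mul_sum, Finset.sum_mul]
    rw [Finset.sum_comm]
    refine Finset.sum_congr rfl fun j _ => Finset.sum_congr rfl fun l _ => ?_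
    ring
  rw [h1, hg.2]
  unfold idm
  simp

private theorem SI_pb {σ : F1 3} {θ0 : F2 3} {c κ : ℂ} {q A : Pn 3} {μ : F1 3}
    (h : SI σ θ0 c κ q A μ) {g g' : Fin 3 → Fin 3 → ℂ} (hg : Inv g g')
    (h0 : lsub g (X 0) = X 0) :
    SI (pb g σ) (pb2 g θ0) c κ (lsub g q) (lsub g A) (pb g μ) := by
  refine ⟨?_, Cop_pb3 hg h.cop, ?_, lsub_hom h.hq, lsub_hom h.hA, fun i => pb_hom h.hμ i, ?_, ?_⟩
  · have := RD_pb hg h.rd
    rwa [mg_zero] at this
  · intro w hw0 h2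
    rw [pair_pb] at h2
    have h3 : pair (cv (lmap g w)) σ = 0 := by
      have h4 := congrArg (lsub g') h2
      rw [lsub_mm, hg.1, lsub_idm, map_zero] at h4
      exact h4
    refine h.hw (lmap g w) (fun h4 => hw0 ?_) h3
    rw [← lmap_inv' hg w, h4, map_zero]
  · have hσe : σ = fun i => (fun i => X 0 * df q i) i +
        (fun i => (C (1 - c) * q + C κ * X 0 ^ 2) * df (X 0) i) i := funext h.h1
    intro i
    have h2 : pb g σ i = lsub g (X 0) * pb g (df q) i +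
        lsub g (C (1 - c) * q + C κ * X 0 ^ 2) * pb g (df (X 0)) i := by
      conv_lhs => rw [hσe]
      rw [pb_add, pb_smul, pb_smul]
    rw [h2, pb_df, pb_df, h0, map_add, map_mul, map_mul, map_pow, lsub_C', lsub_C', h0]
  · have hθe : θ0 = fun i j => (fun i j => A * w11 (df (X 0)) (df q) i j) i j + w11 μ σ i j := by
      funext i j
      exact h.h3 i j
    intro i j
    have h2 : pb2 g θ0 i j = lsub g A * pb2 g (w11 (df (X 0)) (df q)) i j +
        pb2 g (w11 μ σ) i j := by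
      conv_lhs => rw [hθe]
      rw [pb2_add, pb2_smul]
    rw [h2, pb2_w11, pb2_w11, pb_df, pb_df, h0]

/-- quadratic forms in three variables -/
private noncomputable def Q6 (a00 a01 a02 a11 a12 a22 : ℂ) : Pn 3 :=
  C a00 * X 0 ^ 2 + C a01 * (X 0 * X 1) + C a02 * (X 0 * X 2) + C a11 * X 1 ^ 2 +
    C a12 * (X 1 * X 2) + C a22 * X 2 ^ 2

private theorem hom_CX (a : ℂ) {f : Pn 3} {d : ℕ} (hf : f.IsHomogeneous d) :
    (C a * f).IsHomogeneous d := by
  have := (isHomogeneous_C (Fin 3) a).mul hf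
  rwa [zero_add] at this

private theorem Q6_hom (a00 a01 a02 a11 a12 a22 : ℂ) :
    (Q6 a00 a01 a02 a11 a12 a22).IsHomogeneous 2 := by
  have hX : ∀ i j : Fin 3, (X i * X j : Pn 3).IsHomogeneous 2 := fun i j =>
    (isHomogeneous_X _ _).mul (isHomogeneous_X _ _)
  have hX2 : ∀ i : Fin 3, (X i ^ 2 : Pn 3).IsHomogeneous 2 := by
    intro i
    rw [sq]
    exact hX i i
  unfold Q6
  exact (((((hom_CX _ (hX2 _)).add (hom_CX _ (hX _ _))).add (hom_CX _ (hX _ _))).add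
    (hom_CX _ (hX2 _))).add (hom_CX _ (hX _ _))).add (hom_CX _ (hX2 _))

private theorem lf3 (a : Fin 3 → ℂ) : lf a = C (a 0) * X 0 + C (a 1) * X 1 + C (a 2) * X 2 := by
  unfold lf
  rw [Fin.sum_univ_three]

private theorem exists_Q6 {q : Pn 3} (hq : q.IsHomogeneous 2) :
    ∃ a00 a01 a02 a11 a12 a22, q = Q6 a00 a01 a02 a11 a12 a22 := by
  have h1 : ∀ i, ∃ a : Fin 3 → ℂ, pderiv i q = lf a := fun i => lf_of_hom hq.pderiv
  choose a ha using h1
  have h2 := hq.sum_X_mul_pderiv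
  rw [Fin.sum_univ_three, ha, ha, ha, lf3, lf3, lf3, nsmul_eq_mul] at h2
  refine ⟨a 0 0 / 2, (a 0 1 + a 1 0) / 2, (a 0 2 + a 2 0) / 2, a 1 1 / 2, (a 1 2 + a 2 1) / 2,
    a 2 2 / 2, ?_⟩
  have h3 : (2 : Pn 3) * q = 2 * Q6 (a 0 0 / 2) ((a 0 1 + a 1 0) / 2) ((a 0 2 + a 2 0) / 2)
      (a 1 1 / 2) ((a 1 2 + a 2 1) / 2) (a 2 2 / 2) := by
    have e : ∀ z : ℂ, (2 : Pn 3) * C (z / 2) = C z := by
      intro z
      have : (2 : Pn 3) = C 2 := by rw [map_ofNat]
      rw [this, ← C_mul]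
      congr 1
      ring
    have h4 : (2 : Pn 3) * q = X 0 * (C (a 0 0) * X 0 + C (a 0 1) * X 1 + C (a 0 2) * X 2) +
        X 1 * (C (a 1 0) * X 0 + C (a 1 1) * X 1 + C (a 1 2) * X 2) +
        X 2 * (C (a 2 0) * X 0 + C (a 2 1) * X 1 + C (a 2 2) * X 2) := by
      rw [h2]
      norm_num
    rw [h4]
    unfold Q6
    have e00 := e (a 0 0)
    have e01 := e (a 0 1 + a 1 0)
    have e02 := e (a 0 2 + a 2 0)
    have e11 := e (a 1 1)
    have e12 := e (a 1 2 + a 2 1)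
    have e22 := e (a 2 2)
    rw [C_add] at e01 e02 e12
    linear_combination (- X 0 ^ 2) * e00 - (X 0 * X 1) * e01 - (X 0 * X 2) * e02 -
      X 1 ^ 2 * e11 - (X 1 * X 2) * e12 - X 2 ^ 2 * e22
  exact mul_left_cancel₀ (two_ne_zero) h3

private theorem pd0 (a00 a01 a02 a11 a12 a22 : ℂ) : pderiv 0 (Q6 a00 a01 a02 a11 a12 a22) =
    2 * C a00 * X 0 + C a01 * X 1 + C a02 * X 2 := by
  unfold Q6
  simp [pderiv_X, Derivation.leibniz, Derivation.leibniz_pow]
  ring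

private theorem pd1 (a00 a01 a02 a11 a12 a22 : ℂ) : pderiv 1 (Q6 a00 a01 a02 a11 a12 a22) =
    C a01 * X 0 + 2 * C a11 * X 1 + C a12 * X 2 := by
  unfold Q6
  simp [pderiv_X, Derivation.leibniz, Derivation.leibniz_pow]
  ring

private theorem pd2 (a00 a01 a02 a11 a12 a22 : ℂ) : pderiv 2 (Q6 a00 a01 a02 a11 a12 a22) =
    C a02 * X 0 + C a12 * X 1 + 2 * C a22 * X 2 := by
  unfold Q6
  simp [pderiv_X, Derivation.leibniz, Derivation.leibniz_pow]
  ring

private theorem pcomm {σ : Type} {R : Type} [CommRing R] (i j : σ) (p : MvPolynomial σ R) :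
    pderiv i (pderiv j p) = pderiv j (pderiv i p) := by
  classical
  have h : ⁅(pderiv i : Derivation R (MvPolynomial σ R) (MvPolynomial σ R)),
      (pderiv j : Derivation R (MvPolynomial σ R) (MvPolynomial σ R))⁆ = 0 := by
    apply MvPolynomial.derivation_ext
    intro k
    rw [Derivation.commutator_apply, pderiv_X, pderiv_X, Derivation.zero_apply]
    by_cases hik : i = k
    · by_cases hjk : j = k
      · subst hik; subst hjk; simp
      · subst hik
        simp [hjk]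
    · by_cases hjk : j = k
      · subst hjk
        simp [hik]
      · simp [hik, hjk]
  have h2 := congrArg (fun D : Derivation R (MvPolynomial σ R) (MvPolynomial σ R) => D p) h
  simp only [Derivation.commutator_apply, Derivation.zero_apply] at h2
  exact sub_eq_zero.1 h2

private theorem SI_dd {σ : F1 3} {θ0 : F2 3} {c κ : ℂ} {q A : Pn 3} {μ : F1 3}
    (h : SI σ θ0 c κ q A μ) (i j : Fin 3) : dd σ i j = C c * w11 (df (X 0)) (df q) i j := by
  have e : ∀ i j, pderiv i (σ j) = df (X 0) i * df q j + X 0 * pderiv i (pderiv j q) +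
      (C (1 - c) * df q i + C κ * (2 * X 0 * df (X 0) i)) * df (X 0) j := by
    intro i j
    rw [h.h1 j]
    have hc : pderiv i (df (X 0 : Pn 3) j) = 0 := by rw [← C_dX0, pderiv_C]
    rw [map_add, Derivation.leibniz, Derivation.leibniz, hc, map_add, Derivation.leibniz,
      Derivation.leibniz, pderiv_C, pderiv_C, Derivation.leibniz_pow]
    unfold df
    simp only [smul_eq_mul, add_zero, zero_add, mul_zero, nsmul_eq_mul, Nat.cast_ofNat,
      pow_one, Nat.add_one_sub_one]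
    ring
  unfold dd w11
  rw [e i j, e j i, pcomm i j q]
  have h1 : (C (1 - c) : Pn 3) = 1 - C c := by rw [C_sub, C_1]
  rw [h1]
  ring

private theorem gS_zero (σ : F1 3) (q0 : Pn 3) : gS 0 σ q0 = σ := by
  funext i
  show σ i + q0 * C ((0 : Fin 3 → ℂ) i) = σ i
  rw [Pi.zero_apply, C_0, mul_zero, add_zero]

private theorem norm_mu {σ : F1 3} {θ0 : F2 3} {c κ : ℂ} {q A : Pn 3} {μ : F1 3}
    (h : SI σ θ0 c κ q A μ) : ∃ (q0 A' : Pn 3) (b : ℂ), q0.IsHomogeneous 2 ∧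
      A'.IsHomogeneous 2 ∧ ∀ i j, gT 0 σ θ0 q0 i j = A' * w11 (df (X 0)) (df q) i j +
        C b * w11 ![0, - X 2, X 1] σ i j := by
  have hl : ∀ i, ∃ m : Fin 3 → ℂ, μ i = lf m := fun i => lf_of_hom (h.hμ i)
  choose m hm using hl
  let q0 : Pn 3 := Q6 0 (- m 1 0) (- m 2 0) (- (m 1 1 / 2)) (- ((m 1 2 + m 2 1) / 2))
    (- (m 2 2 / 2))
  let b : ℂ := (m 2 1 - m 1 2) / 2
  let N : Pn 3 := μ 0 + df q0 0
  have hq0 : q0.IsHomogeneous 2 := Q6_hom _ _ _ _ _ _
  have hN : N.IsHomogeneous 1 := (h.hμ 0).add hq0.pderiv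
  have two : (2 : Pn 3) = C 2 := by rw [map_ofNat]
  have hj : ∀ j, μ j + df q0 j = N * df (X 0) j + C b * (![0, - X 2, X 1] : F1 3) j := by
    intro j
    rw [← C_dX0]
    fin_cases j
    · show μ 0 + df q0 0 = N * C 1 + C b * 0
      rw [C_1]
      ring
    · show μ 1 + pderiv 1 q0 = N * C 0 + C b * (- X 2)
      have e1 : (C b : Pn 3) = C ((m 2 1 - m 1 2) / 2) := rfl
      rw [pd1, hm 1, lf3, two, C_0, e1]
      have e2 : (C (m 1 1) : Pn 3) = C 2 * C (m 1 1 / 2) := by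
        rw [← C_mul]; congr 1; ring
      have e3 : (C (m 1 2) : Pn 3) - C ((m 1 2 + m 2 1) / 2) = - C ((m 2 1 - m 1 2) / 2) := by
        rw [← C_sub, ← C_neg]; congr 1; ring
      rw [C_neg, C_neg, C_neg]
      linear_combination X 1 * e2 + X 2 * e3
    · show μ 2 + pderiv 2 q0 = N * C 0 + C b * X 1
      have e1 : (C b : Pn 3) = C ((m 2 1 - m 1 2) / 2) := rfl
      rw [pd2, hm 2, lf3, two, C_0, e1]
      have e2 : (C (m 2 2) : Pn 3) = C 2 * C (m 2 2 / 2) := by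
        rw [← C_mul]; congr 1; ring
      have e3 : (C (m 2 1) : Pn 3) - C ((m 1 2 + m 2 1) / 2) = C ((m 2 1 - m 1 2) / 2) := by
        rw [← C_sub]; congr 1; ring
      rw [C_neg, C_neg, C_neg]
      linear_combination X 2 * e2 + X 1 * e3
  refine ⟨q0, A + C c * q0 + N * X 0, b, hq0, (h.hA.add (hom_CX _ hq0)).add
    (hN.mul (isHomogeneous_X _ _)), fun i j => ?_⟩
  unfold gT
  rw [gS_zero, SI_dd h, h.h3 i j]
  unfold w11
  linear_combination σ j * hj i - σ i * hj j + N * df (X 0) i * h.h1 j - N * df (X 0) j * h.h1 i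

/-- points -/
private def pt (x y z : ℂ) : Fin 3 → ℂ := ![x, y, z]

private theorem pt0 (x y z : ℂ) : pt x y z 0 = x := rfl
private theorem pt1 (x y z : ℂ) : pt x y z 1 = y := rfl
private theorem pt2 (x y z : ℂ) : pt x y z 2 = z := rfl

private theorem eval_Q6 (a00 a01 a02 a11 a12 a22 x y z : ℂ) :
    eval (pt x y z) (Q6 a00 a01 a02 a11 a12 a22) =
      a00 * x ^ 2 + a01 * (x * y) + a02 * (x * z) + a11 * y ^ 2 + a12 * (y * z) + a22 * z ^ 2 := by
  unfold Q6
  simp only [map_add, map_mul, map_pow, eval_C, eval_X, pt0, pt1, pt2]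

private theorem dX0_1 : df (X 0 : Pn 3) 1 = 0 := by rw [← C_dX0]; exact C_0
private theorem dX0_2 : df (X 0 : Pn 3) 2 = 0 := by rw [← C_dX0]; exact C_0
private theorem dX0_0 : df (X 0 : Pn 3) 0 = 1 := by rw [← C_dX0]; exact C_1

private theorem c122_of {σ : F1 3} {θ : F2 3} {c κ s t : ℂ} {q : Pn 3} (hq : q.IsHomogeneous 2)
    (h1 : ∀ i, σ i = X 0 * df q i + (C (1 - c) * q + C κ * X 0 ^ 2) * df (X 0) i)
    (h3 : ∀ i j, θ i j = (C s * q + C t * X 0 ^ 2) * w11 (df (X 0)) (df q) i j) :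
    Case122 0 σ θ := by
  have hlf : lf (![1, 0, 0] : Fin 3 → ℂ) = X 0 := by
    rw [lf3]
    show C 1 * X 0 + C 0 * X 1 + C 0 * X 2 = X 0
    rw [C_1, C_0]
    ring
  refine ⟨![1, 0, 0], 0, q, 0, 1, 1 - c, κ, s, t, ?_, isHomogeneous_zero _ _ _, hq, ?_, ?_, ?_⟩
  · intro h0
    have := congrFun h0 0
    simp at this
  · intro i
    simp
  · intro i
    rw [gS_zero, hlf, C_1, one_mul, C_dX0, h1 i]
    rfl
  · intro i j
    rw [hlf]
    have e : cv (![1, 0, 0] : Fin 3 → ℂ) = df (X 0) := by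
      funext i
      exact C_dX0 i
    rw [e, ← h3 i j]
    unfold gT
    have e2 : df (0 : Pn 3) = 0 := by
      funext i
      show pderiv i 0 = 0
      rw [map_zero]
    rw [e2, zero_mul, add_zero]
    unfold w11
    simp

private theorem pdmul1 (f : Pn 3) : pderiv 1 (f * X 1) = pderiv 1 f * X 1 + f := by
  rw [Derivation.leibniz, pderiv_X_self]
  simp only [smul_eq_mul]
  ring

private theorem pdmul2 (f : Pn 3) : pderiv 2 (f * X 2) = pderiv 2 f * X 2 + f := by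
  rw [Derivation.leibniz, pderiv_X_self]
  simp only [smul_eq_mul]
  ring

private theorem dd_of {σ : F1 3} {c κ : ℂ} {q : Pn 3}
    (h1 : ∀ i, σ i = X 0 * df q i + (C (1 - c) * q + C κ * X 0 ^ 2) * df (X 0) i)
    (i j : Fin 3) : dd σ i j = C c * w11 (df (X 0)) (df q) i j := by
  have e : ∀ i j, pderiv i (σ j) = df (X 0) i * df q j + X 0 * pderiv i (pderiv j q) +
      (C (1 - c) * df q i + C κ * (2 * X 0 * df (X 0) i)) * df (X 0) j := by
    intro i j
    rw [h1 j]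
    have hc : pderiv i (df (X 0 : Pn 3) j) = 0 := by rw [← C_dX0, pderiv_C]
    rw [map_add, Derivation.leibniz, Derivation.leibniz, hc, map_add, Derivation.leibniz,
      Derivation.leibniz, pderiv_C, pderiv_C, Derivation.leibniz_pow]
    unfold df
    simp only [smul_eq_mul, add_zero, zero_add, mul_zero, nsmul_eq_mul, Nat.cast_ofNat,
      pow_one, Nat.add_one_sub_one]
    ring
  unfold dd w11
  rw [e i j, e j i, pcomm i j q]
  have h1 : (C (1 - c) : Pn 3) = 1 - C c := by rw [C_sub, C_1]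
  rw [h1]
  ring

/-- the case `q = x_1 x_2 + γ x_0^2` -/
private theorem fin1 {σ : F1 3} {θ : F2 3} {c κ γ b : ℂ} {A : Pn 3} (rd : RD 0 σ θ)
    (hA : A.IsHomogeneous 2)
    (h1 : ∀ i, σ i = X 0 * df (Q6 γ 0 0 0 1 0) i +
      (C (1 - c) * Q6 γ 0 0 0 1 0 + C κ * X 0 ^ 2) * df (X 0) i)
    (h3 : ∀ i j, θ i j = A * w11 (df (X 0)) (df (Q6 γ 0 0 0 1 0)) i j +
      C b * w11 ![0, - X 2, X 1] σ i j) :
    Case122 0 σ θ ∨ Case7 σ θ := by
  obtain ⟨a00, a01, a02, a11, a12, a22, rfl⟩ := exists_Q6 hA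
  have q0 : df (Q6 γ 0 0 0 1 0) 0 = 2 * C γ * X 0 := by
    show pderiv 0 _ = _
    rw [pd0, C_0]
    ring
  have q1 : df (Q6 γ 0 0 0 1 0) 1 = X 2 := by
    show pderiv 1 _ = _
    rw [pd1, C_0, C_1]
    ring
  have q2 : df (Q6 γ 0 0 0 1 0) 2 = X 1 := by
    show pderiv 2 _ = _
    rw [pd2, C_0, C_1]
    ring
  have s0 : σ 0 = Q6 (2 * γ + (1 - c) * γ + κ) 0 0 0 (1 - c) 0 := by
    rw [h1 0, q0, dX0_0]
    unfold Q6
    simp only [C_add, C_mul, C_0, C_1]
    have : (C 2 : Pn 3) = 2 := by rw [map_ofNat]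
    rw [this]
    ring
  have s1 : σ 1 = X 0 * X 2 := by
    rw [h1 1, q1, dX0_1]
    ring
  have s2 : σ 2 = X 0 * X 1 := by
    rw [h1 2, q2, dX0_2]
    ring
  set A : Pn 3 := Q6 a00 a01 a02 a11 a12 a22 with hAdef
  have t12 : θ 1 2 = C (-(2 * b)) * (X 1 * X 2) * X 0 := by
    rw [h3 1 2]
    show A * (df (X 0) 1 * df _ 2 - df (X 0) 2 * df _ 1) + C b * (- X 2 * σ 2 - X 1 * σ 1) = _
    rw [dX0_1, dX0_2, s1, s2, C_neg, C_mul]
    have : (C 2 : Pn 3) = 2 := by rw [map_ofNat]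
    rw [this]
    ring
  have t20 : θ 2 0 = (- A + C b * σ 0) * X 1 := by
    rw [h3 2 0]
    show A * (df (X 0) 2 * df _ 0 - df (X 0) 0 * df _ 2) + C b * (X 1 * σ 0 - 0 * σ 2) = _
    rw [dX0_2, dX0_0, q2]
    ring
  have t01 : θ 0 1 = (A + C b * σ 0) * X 2 := by
    rw [h3 0 1]
    show A * (df (X 0) 0 * df _ 1 - df (X 0) 1 * df _ 0) + C b * (0 * σ 1 - - X 2 * σ 0) = _
    rw [dX0_1, dX0_0, q1]
    ring
  have hcl := rd.cl 0 1 2
  have d12 : pderiv 0 (θ 1 2) = C (-(2 * b)) * (X 1 * X 2) := by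
    rw [t12]
    simp [pderiv_X, Derivation.leibniz]
  have d20 : pderiv 1 (θ 2 0) = (- pderiv 1 A + C b * pderiv 1 (σ 0)) * X 1 +
      (- A + C b * σ 0) := by
    rw [t20, pdmul1, map_add, map_neg, Derivation.leibniz, pderiv_C]
    simp only [smul_eq_mul, mul_zero, add_zero]
  have d01 : pderiv 2 (θ 0 1) = (pderiv 2 A + C b * pderiv 2 (σ 0)) * X 2 +
      (A + C b * σ 0) := by
    rw [t01, pdmul2, map_add, Derivation.leibniz, pderiv_C]
    simp only [smul_eq_mul, mul_zero, add_zero]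
  rw [d12, d20, d01, s0, hAdef, pd1, pd2, pd1, pd2] at hcl
  have hE : ∀ x y z : ℂ, -(a01 * x * y) - 2 * a11 * y ^ 2 + a02 * x * z + 2 * a22 * z ^ 2 +
      2 * b * (2 * γ + (1 - c) * γ + κ) * x ^ 2 + 2 * b * (1 - 2 * c) * y * z = 0 := by
    intro x y z
    have h := congrArg (eval (pt x y z)) hcl
    simp only [map_add, map_mul, map_neg, map_ofNat, map_zero, eval_C, eval_X, pt0, pt1, pt2,
      eval_Q6] at h
    linear_combination h
  have e00 := hE 1 0 0
  have e11 := hE 0 1 0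
  have e22 := hE 0 0 1
  have e01 := hE 1 1 0
  have e02 := hE 1 0 1
  have e12 := hE 0 1 1
  have z11 : a11 = 0 := by linear_combination (-1 / 2) * e11
  have z22 : a22 = 0 := by linear_combination (1 / 2) * e22
  have zη : b * (2 * γ + (1 - c) * γ + κ) = 0 := by linear_combination (1 / 2) * e00
  have z01 : a01 = 0 := by linear_combination - e01 + e00 + e11
  have z02 : a02 = 0 := by linear_combination e02 - e00 - e22
  have z12 : b * (1 - 2 * c) = 0 := by linear_combination (1 / 2) * (e12 - e11 - e22)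
  subst z11 z22 z01 z02
  by_cases hb : b = 0
  · left
    refine c122_of (c := c) (κ := κ) (s := a12) (t := a00 - a12 * γ) (Q6_hom γ 0 0 0 1 0) h1
      (fun i j => ?_)
    rw [h3 i j, hb, C_0, zero_mul, add_zero]
    congr 1
    rw [hAdef]
    unfold Q6
    simp only [C_sub, C_mul, C_0, C_1]
    ring
  · right
    have hc : c = 1 / 2 := by
      have := (mul_eq_zero.1 z12).resolve_left hb
      linear_combination (-1 / 2) * this
    have hη : 2 * γ + (1 - c) * γ + κ = 0 := (mul_eq_zero.1 zη).resolve_left hb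
    have s0' : σ 0 = C (1 / 2) * (X 1 * X 2) := by
      rw [s0, hη, hc]
      unfold Q6
      have : (1 : ℂ) - 1 / 2 = 1 / 2 := by norm_num
      rw [this]
      simp only [C_0]
      ring
    have hhalf : (C (1 / 2) : Pn 3) * 2 = 1 := by
      have : (2 : Pn 3) = C 2 := by rw [map_ofNat]
      rw [this, ← C_mul, ← C_1]
      congr 1
      norm_num
    have hddσ : ∀ i j, dd σ i j = C c * w11 (df (X 0)) (df (Q6 γ 0 0 0 1 0)) i j := dd_of h1
    have hqh : (C (-(2 * a00 / 5)) * X 0 ^ 2 : Pn 3).IsHomogeneous 2 := by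
      rw [sq]
      exact hom_CX _ ((isHomogeneous_X _ _).mul (isHomogeneous_X _ _))
    refine ⟨X 1, X 2, X 0, C (-(2 * a00 / 5)) * X 0 ^ 2, 1 / 2, a12 / 5 + b / 2, a12 / 5 - b / 2,
      -(2 * a12 / 5), 0, isHomogeneous_X _ _, isHomogeneous_X _ _, isHomogeneous_X _ _, hqh,
      by ring, by norm_num, fun h => hb (by linear_combination h), fun i => ?_, ?_⟩
    · fin_cases i
      · show σ 0 = C (1 / 2) * (2 * X 0 * pderiv 0 (X 1 * X 2) + X 1 * X 2 * pderiv 0 (X 0))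
        rw [s0']
        simp [pderiv_X, Derivation.leibniz]
      · show σ 1 = C (1 / 2) * (2 * X 0 * pderiv 1 (X 1 * X 2) + X 1 * X 2 * pderiv 1 (X 0))
        rw [s1]
        have e : C (1 / 2) * (2 * X 0 * pderiv 1 (X 1 * X 2) + X 1 * X 2 * pderiv 1 (X 0)) =
            (C (1 / 2) * 2) * (X 0 * X 2 : Pn 3) := by
          rw [Derivation.leibniz, pderiv_X_self, pderiv_X_of_ne (by decide),
            pderiv_X_of_ne (by decide)]
          simp only [smul_eq_mul]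
          ring
        rw [e, hhalf, one_mul]
      · show σ 2 = C (1 / 2) * (2 * X 0 * pderiv 2 (X 1 * X 2) + X 1 * X 2 * pderiv 2 (X 0))
        rw [s2]
        have e : C (1 / 2) * (2 * X 0 * pderiv 2 (X 1 * X 2) + X 1 * X 2 * pderiv 2 (X 0)) =
            (C (1 / 2) * 2) * (X 0 * X 1 : Pn 3) := by
          rw [Derivation.leibniz, pderiv_X_self, pderiv_X_of_ne (by decide),
            pderiv_X_of_ne (by decide)]
          simp only [smul_eq_mul]
          ring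
        rw [e, hhalf, one_mul]
    · -- the 2-form
      have hg := RD_gauge rd hqh
      have o0 : (fun i => om7 (X 1 : Pn 3) (X 2) (X 0) 0 (1 / 2) (a12 / 5 + b / 2)
          (a12 / 5 - b / 2) (-(2 * a12 / 5)) 0 0 i) 0 =
          C (-(2 * a12 / 5)) * (X 1 * X 2) ^ 2 := by
        simp [om7, pderiv_X, Derivation.leibniz]
        ring
      have o1 : (fun i => om7 (X 1 : Pn 3) (X 2) (X 0) 0 (1 / 2) (a12 / 5 + b / 2)
          (a12 / 5 - b / 2) (-(2 * a12 / 5)) 0 0 i) 1 =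
          C (a12 / 5 + b / 2) * (X 0 * X 1 * X 2 ^ 2) := by
        simp [om7, pderiv_X, Derivation.leibniz]
        ring
      have o2 : (fun i => om7 (X 1 : Pn 3) (X 2) (X 0) 0 (1 / 2) (a12 / 5 + b / 2)
          (a12 / 5 - b / 2) (-(2 * a12 / 5)) 0 0 i) 2 =
          C (a12 / 5 - b / 2) * (X 0 * X 1 ^ 2 * X 2) := by
        simp [om7, pderiv_X, Derivation.leibniz]
        ring
      have hdd0 : ∀ ξ : F1 3, ∀ i, dd ξ i i = 0 := fun ξ i => sub_self _
      have hdd1 : ∀ ξ : F1 3, ∀ i j, dd ξ i j = - dd ξ j i := fun ξ i j => by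
        unfold dd
        ring
      have hsq0 : df (C (-(2 * a00 / 5)) * X 0 ^ 2 : Pn 3) 0 = C (-(2 * a00 / 5)) * (2 * X 0) := by
        show pderiv 0 _ = _
        rw [Derivation.leibniz, Derivation.leibniz_pow, pderiv_C, pderiv_X_self]
        simp
      have hsq1 : df (C (-(2 * a00 / 5)) * X 0 ^ 2 : Pn 3) 1 = 0 := by
        show pderiv 1 _ = _
        rw [Derivation.leibniz, Derivation.leibniz_pow, pderiv_C, pderiv_X_of_ne (by decide)]
        simp
      have hsq2 : df (C (-(2 * a00 / 5)) * X 0 ^ 2 : Pn 3) 2 = 0 := by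
        show pderiv 2 _ = _
        rw [Derivation.leibniz, Derivation.leibniz_pow, pderiv_C, pderiv_X_of_ne (by decide)]
        simp
      refine st_inj hg.alt0 hg.alt (hdd0 _) (hdd1 _) ?_
      have g12 : gT 0 σ θ (C (-(2 * a00 / 5)) * X 0 ^ 2) 1 2 =
          dd (fun i => om7 (X 1 : Pn 3) (X 2) (X 0) 0 (1 / 2) (a12 / 5 + b / 2)
          (a12 / 5 - b / 2) (-(2 * a12 / 5)) 0 0 i) 1 2 := by
        have l : gT 0 σ θ (C (-(2 * a00 / 5)) * X 0 ^ 2) 1 2 = C (-(2 * b)) * (X 1 * X 2) * X 0 := by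
          unfold gT
          rw [gS_zero, hddσ, t12]
          unfold w11
          rw [hsq1, hsq2, dX0_1, dX0_2]
          ring
        have r : dd (fun i => om7 (X 1 : Pn 3) (X 2) (X 0) 0 (1 / 2) (a12 / 5 + b / 2)
          (a12 / 5 - b / 2) (-(2 * a12 / 5)) 0 0 i) 1 2 =
            (2 * (C (a12 / 5 - b / 2) - C (a12 / 5 + b / 2))) * (X 1 * X 2) * X 0 := by
          unfold dd
          rw [o1, o2]
          simp [pderiv_X, Derivation.leibniz, Derivation.leibniz_pow]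
          ring
        have k : (C (-(2 * b)) : Pn 3) = 2 * (C (a12 / 5 - b / 2) - C (a12 / 5 + b / 2)) := by
          have : (2 : Pn 3) = C 2 := by rw [map_ofNat]
          rw [this, ← C_sub, ← C_mul]
          congr 1
          ring
        rw [l, r, k]
      have g20 : gT 0 σ θ (C (-(2 * a00 / 5)) * X 0 ^ 2) 2 0 =
          dd (fun i => om7 (X 1 : Pn 3) (X 2) (X 0) 0 (1 / 2) (a12 / 5 + b / 2)
          (a12 / 5 - b / 2) (-(2 * a12 / 5)) 0 0 i) 2 0 := by
        have l : gT 0 σ θ (C (-(2 * a00 / 5)) * X 0 ^ 2) 2 0 =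
            (- C a00 - 2 * C (-(2 * a00 / 5)) - C c * C (-(2 * a00 / 5))) * (X 0 ^ 2 * X 1) +
            (- C a12 + C b * C (1 / 2)) * (X 1 ^ 2 * X 2) := by
          unfold gT
          rw [gS_zero, hddσ, t20, s0']
          unfold w11
          rw [hsq0, hsq2, dX0_0, dX0_2, s2, q2, hAdef]
          unfold Q6
          simp only [C_0]
          ring
        have r : dd (fun i => om7 (X 1 : Pn 3) (X 2) (X 0) 0 (1 / 2) (a12 / 5 + b / 2)
          (a12 / 5 - b / 2) (-(2 * a12 / 5)) 0 0 i) 2 0 =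
            (2 * C (-(2 * a12 / 5)) - C (a12 / 5 - b / 2)) * (X 1 ^ 2 * X 2) := by
          unfold dd
          rw [o0, o2]
          simp [pderiv_X, Derivation.leibniz, Derivation.leibniz_pow]
          ring
        have k1 : (- C a00 - 2 * C (-(2 * a00 / 5)) - C c * C (-(2 * a00 / 5)) : Pn 3) = 0 := by
          have : (2 : Pn 3) = C 2 := by rw [map_ofNat]
          rw [this, ← C_neg, ← C_mul, ← C_mul, ← C_sub, ← C_sub, ← C_0]
          congr 1
          rw [hc]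
          ring
        have k2 : (- C a12 + C b * C (1 / 2) : Pn 3) =
            2 * C (-(2 * a12 / 5)) - C (a12 / 5 - b / 2) := by
          have : (2 : Pn 3) = C 2 := by rw [map_ofNat]
          rw [this, ← C_neg, ← C_mul, ← C_mul, ← C_sub, ← C_add]
          congr 1
          ring
        rw [l, r, k1, k2, zero_mul, zero_add]
      have g01 : gT 0 σ θ (C (-(2 * a00 / 5)) * X 0 ^ 2) 0 1 =
          dd (fun i => om7 (X 1 : Pn 3) (X 2) (X 0) 0 (1 / 2) (a12 / 5 + b / 2)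
          (a12 / 5 - b / 2) (-(2 * a12 / 5)) 0 0 i) 0 1 := by
        have l : gT 0 σ θ (C (-(2 * a00 / 5)) * X 0 ^ 2) 0 1 =
            (C a00 + 2 * C (-(2 * a00 / 5)) + C c * C (-(2 * a00 / 5))) * (X 0 ^ 2 * X 2) +
            (C a12 + C b * C (1 / 2)) * (X 1 * X 2 ^ 2) := by
          unfold gT
          rw [gS_zero, hddσ, t01, s0']
          unfold w11
          rw [hsq0, hsq1, dX0_0, dX0_1, s1, q1, hAdef]
          unfold Q6
          simp only [C_0]
          ring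
        have r : dd (fun i => om7 (X 1 : Pn 3) (X 2) (X 0) 0 (1 / 2) (a12 / 5 + b / 2)
          (a12 / 5 - b / 2) (-(2 * a12 / 5)) 0 0 i) 0 1 =
            (C (a12 / 5 + b / 2) - 2 * C (-(2 * a12 / 5))) * (X 1 * X 2 ^ 2) := by
          unfold dd
          rw [o0, o1]
          simp [pderiv_X, Derivation.leibniz, Derivation.leibniz_pow]
          ring
        have k1 : (C a00 + 2 * C (-(2 * a00 / 5)) + C c * C (-(2 * a00 / 5)) : Pn 3) = 0 := by
          have : (2 : Pn 3) = C 2 := by rw [map_ofNat]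
          rw [this, ← C_mul, ← C_mul, ← C_add, ← C_add, ← C_0]
          congr 1
          rw [hc]
          ring
        have k2 : (C a12 + C b * C (1 / 2) : Pn 3) =
            C (a12 / 5 + b / 2) - 2 * C (-(2 * a12 / 5)) := by
          have : (2 : Pn 3) = C 2 := by rw [map_ofNat]
          rw [this, ← C_mul, ← C_mul, ← C_sub, ← C_add]
          congr 1
          ring
        rw [l, r, k1, k2, zero_mul, zero_add]
      unfold st
      rw [g12, g20, g01]

/-- the case `q = x_1^2 + x_0 x_2` -/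
private theorem fin2 {σ : F1 3} {θ : F2 3} {c κ b : ℂ} {A : Pn 3} (rd : RD 0 σ θ) (hcop : Cop σ)
    (hA : A.IsHomogeneous 2)
    (h1 : ∀ i, σ i = X 0 * df (Q6 0 0 1 1 0 0) i +
      (C (1 - c) * Q6 0 0 1 1 0 0 + C κ * X 0 ^ 2) * df (X 0) i)
    (h3 : ∀ i j, θ i j = A * w11 (df (X 0)) (df (Q6 0 0 1 1 0 0)) i j +
      C b * w11 ![0, - X 2, X 1] σ i j) :
    Case122 0 σ θ := by
  obtain ⟨a00, a01, a02, a11, a12, a22, rfl⟩ := exists_Q6 hA
  have q0 : df (Q6 0 0 1 1 0 0) 0 = X 2 := by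
    show pderiv 0 _ = _
    rw [pd0, C_0, C_1]
    ring
  have q1 : df (Q6 0 0 1 1 0 0) 1 = 2 * X 1 := by
    show pderiv 1 _ = _
    rw [pd1, C_0, C_1]
    ring
  have q2 : df (Q6 0 0 1 1 0 0) 2 = X 0 := by
    show pderiv 2 _ = _
    rw [pd2, C_0, C_1]
    ring
  have s0 : σ 0 = Q6 κ 0 (2 - c) (1 - c) 0 0 := by
    rw [h1 0, q0, dX0_0]
    unfold Q6
    simp only [C_sub, C_0, C_1]
    have : (C 2 : Pn 3) = 2 := by rw [map_ofNat]
    rw [this]
    ring
  have s1 : σ 1 = X 0 * (2 * X 1) := by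
    rw [h1 1, q1, dX0_1]
    ring
  have s2 : σ 2 = X 0 * X 0 := by
    rw [h1 2, q2, dX0_2]
    ring
  set A : Pn 3 := Q6 a00 a01 a02 a11 a12 a22 with hAdef
  have t12 : θ 1 2 = C (-b) * (X 2 * X 0 ^ 2) + C (-(2 * b)) * (X 1 ^ 2 * X 0) := by
    rw [h3 1 2]
    show A * (df (X 0) 1 * df _ 2 - df (X 0) 2 * df _ 1) + C b * (- X 2 * σ 2 - X 1 * σ 1) = _
    have two : (C 2 : Pn 3) = 2 := by rw [map_ofNat]
    rw [dX0_1, dX0_2, s1, s2, C_neg, C_neg, C_mul, two]
    ring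
  have t20 : θ 2 0 = - A * X 0 + (C b * σ 0) * X 1 := by
    rw [h3 2 0]
    show A * (df (X 0) 2 * df _ 0 - df (X 0) 0 * df _ 2) + C b * (X 1 * σ 0 - 0 * σ 2) = _
    rw [dX0_2, dX0_0, q2]
    ring
  have t01 : θ 0 1 = 2 * (A * X 1) + (C b * σ 0) * X 2 := by
    rw [h3 0 1]
    show A * (df (X 0) 0 * df _ 1 - df (X 0) 1 * df _ 0) + C b * (0 * σ 1 - - X 2 * σ 0) = _
    rw [dX0_1, dX0_0, q1]
    ring
  have hcl := rd.cl 0 1 2
  have d12 : pderiv 0 (θ 1 2) = C (-b) * (2 * (X 0 * X 2)) + C (-(2 * b)) * X 1 ^ 2 := by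
    have n1 : pderiv 0 (X 1 : Pn 3) = 0 := pderiv_X_of_ne (by decide)
    have n2 : pderiv 0 (X 2 : Pn 3) = 0 := pderiv_X_of_ne (by decide)
    rw [t12]
    simp only [map_add, Derivation.leibniz, Derivation.leibniz_pow, pderiv_C, pderiv_X_self, n1, n2,
      smul_eq_mul, mul_zero, add_zero, nsmul_eq_mul, Nat.cast_ofNat, mul_one,
      Nat.add_one_sub_one, pow_one]
    ring
  have d20 : pderiv 1 (θ 2 0) = - pderiv 1 A * X 0 + C b * pderiv 1 (σ 0) * X 1 + C b * σ 0 := by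
    rw [t20, map_add, pdmul1, Derivation.leibniz, pderiv_X_of_ne (by decide), map_neg,
      Derivation.leibniz, pderiv_C]
    simp only [smul_eq_mul, mul_zero, add_zero, zero_add]
    ring
  have d01 : pderiv 2 (θ 0 1) = 2 * pderiv 2 A * X 1 + C b * pderiv 2 (σ 0) * X 2 +
      C b * σ 0 := by
    have two : (2 : Pn 3) = C 2 := by rw [map_ofNat]
    rw [t01, map_add, pdmul2, two, Derivation.leibniz, pderiv_C, Derivation.leibniz,
      pderiv_X_of_ne (by decide), Derivation.leibniz, pderiv_C]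
    simp only [smul_eq_mul, mul_zero, add_zero, zero_add]
    ring
  rw [d12, d20, d01, s0, hAdef, pd1, pd2, pd1, pd2] at hcl
  have hE : ∀ x y z : ℂ, (2 * b * κ - a01) * x ^ 2 + 2 * (a02 - a11) * (x * y) +
      (b * (4 - 3 * c) - a12) * (x * z) + (2 * a12 + b * (2 - 4 * c)) * y ^ 2 +
      4 * a22 * (y * z) = 0 := by
    intro x y z
    have h := congrArg (eval (pt x y z)) hcl
    simp only [map_add, map_mul, map_neg, map_ofNat, map_zero, map_pow, eval_C, eval_X, pt0, pt1,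
      pt2, eval_Q6] at h
    linear_combination h
  have e00 := hE 1 0 0
  have e11 := hE 0 1 0
  have e01 := hE 1 1 0
  have e02 := hE 1 0 1
  have e12 := hE 0 1 1
  have z22 : a22 = 0 := by linear_combination (1 / 4) * (e12 - e11)
  have k1 : a01 = 2 * b * κ := by linear_combination - e00
  have k2 : a02 = a11 := by linear_combination (1 / 2) * (e01 - e00 - e11)
  have k3 : a12 = b * (4 - 3 * c) := by linear_combination - e02 + e00
  have k4 : b * (1 - c) = 0 := by linear_combination (1 / 10) * e11 - (1 / 5) * k3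
  by_cases hb : b = 0
  · subst hb
    rw [mul_zero, zero_mul] at k1
    rw [zero_mul] at k3
    subst k1 k3 z22
    refine c122_of (c := c) (κ := κ) (s := a11) (t := a00) (Q6_hom 0 0 1 1 0 0) h1
      (fun i j => ?_)
    rw [h3 i j, C_0, zero_mul, add_zero]
    congr 1
    rw [hAdef, k2]
    unfold Q6
    simp only [C_0, C_1]
    ring
  · exfalso
    have hc : (1 : ℂ) - c = 0 := (mul_eq_zero.1 k4).resolve_left hb
    have hdiv : ∀ i, (X 0 : Pn 3) ∣ σ i := by
      intro i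
      fin_cases i
      · refine ⟨C κ * X 0 + C (2 - c) * X 2, ?_⟩
        show σ 0 = _
        rw [s0, hc]
        unfold Q6
        simp only [C_0]
        ring
      · exact ⟨_, s1⟩
      · exact ⟨_, s2⟩
    have hu := hcop _ hdiv
    have hu2 := hu.map (eval (0 : Fin 3 → ℂ))
    rw [eval_X, Pi.zero_apply] at hu2
    exact not_isUnit_zero hu2

/-- factorisation of binary quadratic forms -/
private theorem fac (p r s : ℂ) : ∃ u1 u2 v1 v2 : ℂ, p = u1 * v1 ∧ r = u1 * v2 + u2 * v1 ∧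
    s = u2 * v2 := by
  by_cases hp : p = 0
  · exact ⟨0, 1, r, s, by rw [hp]; ring, by ring, by ring⟩
  · obtain ⟨d, hd⟩ := IsAlgClosed.exists_eq_mul_self (r ^ 2 - 4 * p * s)
    refine ⟨1, (r + d) / (2 * p), p, r - (r + d) / 2, by ring, ?_, ?_⟩
    · field_simp
      ring
    · have h2 : (r + d) / (2 * p) * (r - (r + d) / 2) = (r ^ 2 - d * d) / (4 * p) := by
        field_simp
        ring
      rw [h2, ← hd]
      field_simp
      ring

private theorem li3 (F : Fin 3 → Fin 3 → ℂ) (h0 : F 0 = ![1, 0, 0])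
    (h : F 1 1 * F 2 2 - F 1 2 * F 2 1 ≠ 0) : LinearIndependent ℂ F := by
  have hd : Matrix.det (Matrix.of F) = F 1 1 * F 2 2 - F 1 2 * F 2 1 := by
    rw [Matrix.det_fin_three]
    simp only [Matrix.of_apply, h0]
    show (1 : ℂ) * F 1 1 * F 2 2 - 1 * F 1 2 * F 2 1 - 0 * F 1 0 * F 2 2 + 0 * F 1 2 * F 2 0 +
      0 * F 1 0 * F 2 1 - 0 * F 1 1 * F 2 0 = _
    ring
  have hu : IsUnit (Matrix.of F) := by
    rw [Matrix.isUnit_iff_isUnit_det, hd]
    exact isUnit_iff_ne_zero.2 h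
  rw [← Matrix.linearIndependent_rows_iff_isUnit] at hu
  exact hu

private theorem red {q : Pn 3} (hq : q.IsHomogeneous 2)
    (hw : ∀ w1 w2 : ℂ, (w1 ≠ 0 ∨ w2 ≠ 0) → C w1 * pderiv 1 q + C w2 * pderiv 2 q ≠ 0) :
    ∃ g g' : Fin 3 → Fin 3 → ℂ, Inv g g' ∧ lsub g (X 0) = X 0 ∧
      ((∃ γ, lsub g q = Q6 γ 0 0 0 1 0) ∨ lsub g q = Q6 0 0 1 1 0 0) := by
  obtain ⟨a00, a01, a02, a11, a12, a22, rfl⟩ := exists_Q6 hq
  have hl0 : lf (![1, 0, 0] : Fin 3 → ℂ) = X 0 := by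
    rw [lf3]
    show C 1 * X 0 + C 0 * X 1 + C 0 * X 2 = X 0
    rw [C_1, C_0]
    ring
  by_cases hd : a12 ^ 2 = 4 * a11 * a22
  · -- rank one
    obtain ⟨e1, e2, he1, he2, he⟩ : ∃ e1 e2 : ℂ, a11 = e1 * e1 ∧ a22 = e2 * e2 ∧
        a12 = 2 * e1 * e2 := by
      obtain ⟨e1, he1⟩ := IsAlgClosed.exists_eq_mul_self a11
      obtain ⟨f, hf⟩ := IsAlgClosed.exists_eq_mul_self a22
      have h2 : (a12 - 2 * e1 * f) * (a12 + 2 * e1 * f) = 0 := by
        rw [he1, hf] at hd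
        linear_combination hd
      rcases mul_eq_zero.1 h2 with h3 | h3
      · exact ⟨e1, f, he1, hf, sub_eq_zero.1 h3⟩
      · exact ⟨e1, -f, he1, by rw [hf]; ring, by linear_combination h3⟩
    subst he1 he2 he
    have hdet : e1 * a02 - e2 * a01 ≠ 0 := by
      intro h0
      have key : ∀ w1 w2 : ℂ, w1 * e1 + w2 * e2 = 0 → w1 * a01 + w2 * a02 = 0 →
          C w1 * pderiv 1 (Q6 a00 a01 a02 (e1 * e1) (2 * e1 * e2) (e2 * e2)) +
          C w2 * pderiv 2 (Q6 a00 a01 a02 (e1 * e1) (2 * e1 * e2) (e2 * e2)) = 0 := by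
        intro w1 w2 k1 k2
        have k1' : (C w1 * C e1 + C w2 * C e2 : Pn 3) = 0 := by
          rw [← C_mul, ← C_mul, ← C_add, k1, C_0]
        have k2' : (C w1 * C a01 + C w2 * C a02 : Pn 3) = 0 := by
          rw [← C_mul, ← C_mul, ← C_add, k2, C_0]
        rw [pd1, pd2]
        simp only [C_mul]
        have two : (C 2 : Pn 3) = 2 := by rw [map_ofNat]
        rw [two]
        linear_combination X 0 * k2' + 2 * (C e1 * X 1 + C e2 * X 2) * k1'
      by_cases h1 : e1 = 0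
      · by_cases h2 : e2 = 0
        · by_cases h3 : a01 = 0
          · exact hw 1 0 (Or.inl one_ne_zero) (key 1 0 (by rw [h1, h2]; ring) (by rw [h3]; ring))
          · exact hw a02 (-a01) (Or.inr (neg_ne_zero.2 h3))
              (key a02 (-a01) (by rw [h1, h2]; ring) (by ring))
        · exact hw e2 (-e1) (Or.inl h2) (key e2 (-e1) (by ring) (by linear_combination - h0))
      · exact hw e2 (-e1) (Or.inr (neg_ne_zero.2 h1))
          (key e2 (-e1) (by ring) (by linear_combination - h0))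
    obtain ⟨g, g', hg, hgx⟩ := exists_coord (le_refl 3)
      ![![1, 0, 0], ![0, e1, e2], ![a00, a01, a02]] (li3 _ rfl hdet)
    have g0 : lsub g (X 0) = X 0 := by
      have := hgx 0
      rw [← hl0]
      exact this.trans hl0.symm
    have g1 : lsub g (lf ![0, e1, e2]) = X 1 := hgx 1
    have g2 : lsub g (lf ![a00, a01, a02]) = X 2 := hgx 2
    refine ⟨g, g', hg, g0, Or.inr ?_⟩
    have hqe : Q6 a00 a01 a02 (e1 * e1) (2 * e1 * e2) (e2 * e2) =
        lf ![0, e1, e2] ^ 2 + X 0 * lf ![a00, a01, a02] := by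
      rw [lf3, lf3]
      show _ = (C 0 * X 0 + C e1 * X 1 + C e2 * X 2) ^ 2 +
        X 0 * (C a00 * X 0 + C a01 * X 1 + C a02 * X 2)
      unfold Q6
      have two : (C 2 : Pn 3) = 2 := by rw [map_ofNat]
      simp only [C_mul, C_0, two]
      ring
    rw [hqe, map_add, map_mul, map_pow, g0, g1, g2]
    unfold Q6
    simp only [C_0, C_1]
    ring
  · -- rank two
    obtain ⟨u1, u2, v1, v2, hu, huv, hv⟩ := fac a11 a12 a22
    subst hu huv hv
    have hD : u1 * v2 - u2 * v1 ≠ 0 := by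
      intro h0
      apply hd
      linear_combination (u1 * v2 - u2 * v1) * h0
    obtain ⟨α, β, h1, h2⟩ : ∃ α β : ℂ, a01 = α * u1 + β * v1 ∧ a02 = α * u2 + β * v2 := by
      refine ⟨(a01 * v2 - a02 * v1) / (u1 * v2 - u2 * v1), (u1 * a02 - u2 * a01) /
        (u1 * v2 - u2 * v1), ?_, ?_⟩
      · rw [div_mul_eq_mul_div, div_mul_eq_mul_div, ← add_div, eq_div_iff hD]
        ring
      · rw [div_mul_eq_mul_div, div_mul_eq_mul_div, ← add_div, eq_div_iff hD]
        ring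
    subst h1 h2
    obtain ⟨g, g', hg, hgx⟩ := exists_coord (le_refl 3)
      ![![1, 0, 0], ![β, u1, u2], ![α, v1, v2]] (li3 _ rfl hD)
    have g0 : lsub g (X 0) = X 0 := by
      have := hgx 0
      rw [← hl0]
      exact this.trans hl0.symm
    have g1 : lsub g (lf ![β, u1, u2]) = X 1 := hgx 1
    have g2 : lsub g (lf ![α, v1, v2]) = X 2 := hgx 2
    refine ⟨g, g', hg, g0, Or.inl ⟨a00 - α * β, ?_⟩⟩
    have hqe : Q6 a00 (α * u1 + β * v1) (α * u2 + β * v2) (u1 * v1) (u1 * v2 + u2 * v1)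
        (u2 * v2) = lf ![β, u1, u2] * lf ![α, v1, v2] + C (a00 - α * β) * X 0 ^ 2 := by
      rw [lf3, lf3]
      show _ = (C β * X 0 + C u1 * X 1 + C u2 * X 2) * (C α * X 0 + C v1 * X 1 + C v2 * X 2) +
        C (a00 - α * β) * X 0 ^ 2
      unfold Q6
      simp only [C_mul, C_add, C_sub]
      ring
    rw [hqe, map_add, map_mul, map_mul, map_pow, g0, g1, g2, lsub_C']
    unfold Q6
    simp only [C_0, C_1]
    ring

theorem solI {σ : F1 3} {θ0 : F2 3} (h : RD 0 σ θ0) (hc : Cop σ)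
    (hw : ∀ w : Fin 3 → ℂ, w ≠ 0 → pair (cv w) σ ≠ 0) {c κ : ℂ} {q A : Pn 3} {μ : F1 3}
    (hq : q.IsHomogeneous 2) (hA : A.IsHomogeneous 2) (hμ : H1 1 μ)
    (h1 : ∀ i, σ i = X 0 * pderiv i q +
      (C (1 - c) * q + C κ * X 0 ^ 2) * C ((![1, 0, 0] : Fin 3 → ℂ) i))
    (h3 : ∀ i j, θ0 i j = A * w11 (df (X 0)) (df q) i j + w11 μ σ i j) :
    Case122 0 σ θ0 ∨ Case7 σ θ0 := by
  have hS : SI σ θ0 c κ q A μ := ⟨h, hc, hw, hq, hA, hμ, fun i => by
    rw [h1 i, C_dX0]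
    rfl, h3⟩
  have hq2 : ∀ w1 w2 : ℂ, (w1 ≠ 0 ∨ w2 ≠ 0) → C w1 * pderiv 1 q + C w2 * pderiv 2 q ≠ 0 := by
    intro w1 w2 hw12 h0
    refine hw ![0, w1, w2] ?_ ?_
    · intro h2
      rcases hw12 with h4 | h4
      · exact h4 (congrFun h2 1)
      · exact h4 (congrFun h2 2)
    · show ∑ i, C ((![0, w1, w2] : Fin 3 → ℂ) i) * σ i = 0
      rw [Fin.sum_univ_three, hS.h1 1, hS.h1 2, dX0_1, dX0_2]
      show C 0 * σ 0 + C w1 * (X 0 * pderiv 1 q + (C (1 - c) * q + C κ * X 0 ^ 2) * 0) +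
        C w2 * (X 0 * pderiv 2 q + (C (1 - c) * q + C κ * X 0 ^ 2) * 0) = 0
      rw [C_0]
      linear_combination X 0 * h0
  obtain ⟨g, g', hg, hg0, hcase⟩ := red hq hq2
  have hS' := SI_pb hS hg hg0
  obtain ⟨q0, A', b, hq0, hA', h3'⟩ := norm_mu hS'
  have rd' := RD_gauge hS'.rd hq0
  rw [gS_zero] at rd'
  have up1 : Case122 0 (pb g σ) (gT 0 (pb g σ) (pb2 g θ0) q0) → Case122 0 σ θ0 := by
    intro hx
    apply Case122_pb hg
    rw [mg_zero]
    apply Case122_gauge hq0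
    rw [gS_zero]
    exact hx
  have up7 : Case7 (pb g σ) (gT 0 (pb g σ) (pb2 g θ0) q0) → Case7 σ θ0 := by
    intro hx
    apply Case7_pb hg
    apply Case7_gauge hq0
    rw [gS_zero]
    exact hx
  rcases hcase with ⟨γ, hγ⟩ | hγ
  · have hh1 := hS'.h1
    rw [hγ] at hh1 h3'
    rcases fin1 rd' hA' hh1 h3' with hx | hx
    · exact Or.inl (up1 hx)
    · exact Or.inr (up7 hx)
  · have hh1 := hS'.h1
    rw [hγ] at hh1 h3'
    exact Or.inl (up1 (fin2 rd' hS'.cop hA' hh1 h3'))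

end Pool.Agent.Helper1.FK
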