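import Pool.Agent.Helper1.FK.CoordG
import Pool.Agent.Helper1.FK.Shape

/-! FK-14: solution in the case (I2): `σ = d(κ x_0^3 + x_1^2 x_2)`, `θ0 = A dx_0 ∧ φ + μ ∧ σ` closed, `φ = 2 x_2 dx_1 + x_1 dx_2`: CaseB.
Proof.  `dφ = - dx_1 ∧ dx_2`, `x_1 φ = d(x_1^2 x_2)`.  `dμ = b dx_1 ∧ dx_2 + dx_0 ∧ ν`, `ν = dn_1`, `n_1 = ν_1 x_1 + ν_2 x_2`.  Closedness: `x_1 A_1 - 2 x_2 A_2 - A = 3 b κ x_0^2 + ν_1 x_1^2 - 2 ν_2 x_1 x_2`, so (monomial by
monomial) `A = - 3 b κ x_0^2 + ν_1 x_1^2 + ν_2 x_1 x_2 + τ x_0 x_1`.  `x_1 dx_0 ∧ φ = dx_0 ∧ σ`: the terms `x_1 (n_1 + τ x_0) dx_0 ∧ φ` are `μ' ∧ σ`, `μ' = (n_1 + τ x_0) dx_0`.  So we may assume `A = - 3 b κ x_0^2` and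
`dμ = b dx_1 ∧ dx_2`, `μ = - b φ + dq'` ; `- b φ ∧ σ = - b φ ∧ 3 κ x_0^2 dx_0 = 3 b κ x_0^2 dx_0 ∧ φ` cancels `A dx_0 ∧ φ`; so `θ0 = dq' ∧ σ` (+ `μ' ∧ σ`). -/

set_option autoImplicit false

namespace Pool.Agent.Helper1.FK

open MvPolynomial
open scoped BigOperators
open Pool.Agent.Helper71.FL (w12 pf ct Dec Closed dd)
open Pool.Agent.Helper71.FC
open Pool.Agent.Helper93 (lsub lmap OF pb Cop)
open Pool.Agent.Helper1.FG (om7)

private theorem lin3 {l : Pn 3} (h : l.IsHomogeneous 1) :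
    ∃ a b c : ℂ, l = C a * X 0 + C b * X 1 + C c * X 2 := by
  obtain ⟨a, ha⟩ := lf_of_hom h
  refine ⟨a 0, a 1, a 2, ?_⟩
  rw [ha]
  unfold lf
  rw [Fin.sum_univ_three]

private theorem quad3 {A : Pn 3} (h : A.IsHomogeneous 2) :
    ∃ a b c d e f : ℂ, A = C a * X 0 ^ 2 + C b * X 1 ^ 2 + C c * X 2 ^ 2 + C d * (X 0 * X 1) +
      C e * (X 0 * X 2) + C f * (X 1 * X 2) := by
  have h0 : (pderiv 0 A).IsHomogeneous 1 := h.pderiv
  have h1 : (pderiv 1 A).IsHomogeneous 1 := h.pderiv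
  have h2 : (pderiv 2 A).IsHomogeneous 1 := h.pderiv
  obtain ⟨a0, a1, a2, ha⟩ := lin3 h0
  obtain ⟨b0, b1, b2, hb⟩ := lin3 h1
  obtain ⟨c0, c1, c2, hc⟩ := lin3 h2
  have h3 := h.sum_X_mul_pderiv
  rw [Fin.sum_univ_three, ha, hb, hc, nsmul_eq_mul] at h3
  refine ⟨a0 / 2, b1 / 2, c2 / 2, (a1 + b0) / 2, (a2 + c0) / 2, (b2 + c1) / 2, ?_⟩
  have h4 : (C (1 / 2) : Pn 3) * 2 = 1 := by
    rw [show (2 : Pn 3) = C 2 from (map_ofNat C 2).symm, ← C_mul]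
    norm_num
  have h5 : A = C (1 / 2) * (2 * A) := by rw [← mul_assoc, h4, one_mul]
  rw [h5]
  have h6 : (2 : Pn 3) * A = X 0 * (C a0 * X 0 + C a1 * X 1 + C a2 * X 2) +
      X 1 * (C b0 * X 0 + C b1 * X 1 + C b2 * X 2) +
      X 2 * (C c0 * X 0 + C c1 * X 1 + C c2 * X 2) := by
    rw [h3]; norm_num
  rw [h6]
  simp only [div_eq_mul_inv, C_mul, C_add, one_mul]
  ring

private theorem pcomm (i j : Fin 3) (p : Pn 3) :
    pderiv i (pderiv j p) = pderiv j (pderiv i p) := by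
  have h : ⁅(pderiv i : Derivation ℂ (Pn 3) (Pn 3)), (pderiv j : Derivation ℂ (Pn 3) (Pn 3))⁆ =
      0 := by
    apply MvPolynomial.derivation_ext
    intro k
    rw [Derivation.commutator_apply]
    rw [pderiv_X, pderiv_X]
    simp only [Pi.single_apply, Derivation.coe_zero, Pi.zero_apply]
    have h0 : ∀ (a : Fin 3) (q : Prop) [Decidable q],
        pderiv a (if q then (1 : Pn 3) else 0) = 0 := by
      intro a q _
      split_ifs
      · exact pderiv_one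
      · exact map_zero _
    rw [h0 i, h0 j, sub_zero]
  have h2 := congrArg (fun D : Derivation ℂ (Pn 3) (Pn 3) => D p) h
  simp only [Derivation.commutator_apply, Derivation.coe_zero, Pi.zero_apply] at h2
  exact sub_eq_zero.mp h2

theorem solII {θ0 : F2 3} {κ : ℂ} (h : RD 0 (df (C κ * X 0 ^ 3 + X 1 ^ 2 * X 2)) θ0) {A : Pn 3}
    {μ : F1 3} (hA : A.IsHomogeneous 2) (hμ : H1 1 μ)
    (h3 : ∀ i j, θ0 i j = A * w11 (df (X 0)) ![0, 2 * X 2, X 1] i j +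
      w11 μ (df (C κ * X 0 ^ 3 + X 1 ^ 2 * X 2)) i j) :
    CaseB 0 (df (C κ * X 0 ^ 3 + X 1 ^ 2 * X 2)) θ0 := by
  obtain ⟨p0, p1, p2, hp⟩ := lin3 (hμ 0)
  obtain ⟨q0, q1, q2, hq⟩ := lin3 (hμ 1)
  obtain ⟨r0, r1, r2, hr⟩ := lin3 (hμ 2)
  obtain ⟨a, b, c, d, e, f, hA'⟩ := quad3 hA
  have hs0 : df (C κ * X 0 ^ 3 + X 1 ^ 2 * X 2 : Pn 3) 0 = 3 * C κ * X 0 ^ 2 := by
    unfold df
    simp [pderiv_X]
    ring
  have hs1 : df (C κ * X 0 ^ 3 + X 1 ^ 2 * X 2 : Pn 3) 1 = 2 * X 1 * X 2 := by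
    unfold df
    simp [pderiv_X]
    try ring
  have hs2 : df (C κ * X 0 ^ 3 + X 1 ^ 2 * X 2 : Pn 3) 2 = X 1 ^ 2 := by
    unfold df
    simp [pderiv_X]
  have hx0 : df (X 0 : Pn 3) 0 = 1 := by
    unfold df
    simp [pderiv_X]
  have hx1 : df (X 0 : Pn 3) 1 = 0 := by
    unfold df
    simp [pderiv_X]
  have hx2 : df (X 0 : Pn 3) 2 = 0 := by
    unfold df
    simp [pderiv_X]
  have t12 : θ0 1 2 = (C q0 * X 0 + C q1 * X 1 + C q2 * X 2) * X 1 ^ 2 -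
      (C r0 * X 0 + C r1 * X 1 + C r2 * X 2) * (2 * X 1 * X 2) := by
    rw [h3]
    unfold w11
    rw [hs1, hs2, hx1, hx2, hq, hr]
    ring
  have t20 : θ0 2 0 = -(A * X 1) + (C r0 * X 0 + C r1 * X 1 + C r2 * X 2) * (3 * C κ * X 0 ^ 2) -
      (C p0 * X 0 + C p1 * X 1 + C p2 * X 2) * X 1 ^ 2 := by
    rw [h3]
    unfold w11
    rw [hs0, hs2, hx0, hx2, hp, hr]
    simp
    ring
  have t01 : θ0 0 1 = A * (2 * X 2) + (C p0 * X 0 + C p1 * X 1 + C p2 * X 2) * (2 * X 1 * X 2) -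
      (C q0 * X 0 + C q1 * X 1 + C q2 * X 2) * (3 * C κ * X 0 ^ 2) := by
    rw [h3]
    unfold w11
    rw [hs0, hs1, hx0, hx1, hp, hq]
    simp
    ring
  have hcl := h.cl 0 1 2
  rw [t12, t20, t01, hA'] at hcl
  have c3 : (C 3 : Pn 3) = 3 := map_ofNat C 3
  have c2 : (C 2 : Pn 3) = 2 := map_ofNat C 2
  have hcl' : C (a + 3 * κ * (r1 - q2)) * X 0 ^ 2 + C (q0 - p1 - b) * X 1 ^ 2 +
      C (5 * c) * X 2 ^ 2 + C (3 * e) * (X 0 * X 2) + C (2 * f - 2 * (r0 - p2)) * (X 1 * X 2) =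
      (0 : Pn 3) := by
    rw [← hcl]
    have c5 : (C 5 : Pn 3) = 5 := map_ofNat C 5
    have d2 : ∀ i : Fin 3, pderiv i (2 : Pn 3) = 0 := fun i => by
      rw [← c2]
      exact pderiv_C
    have d3 : ∀ i : Fin 3, pderiv i (3 : Pn 3) = 0 := fun i => by
      rw [← c3]
      exact pderiv_C
    simp [pderiv_X, c2, c3, c5, d2, d3]
    ring
  have e0 := congrArg (eval (![1, 0, 0] : Fin 3 → ℂ)) hcl'
  have e1 := congrArg (eval (![0, 1, 0] : Fin 3 → ℂ)) hcl'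
  have e2 := congrArg (eval (![0, 0, 1] : Fin 3 → ℂ)) hcl'
  have e3 := congrArg (eval (![1, 0, 1] : Fin 3 → ℂ)) hcl'
  have e4 := congrArg (eval (![0, 1, 1] : Fin 3 → ℂ)) hcl'
  simp at e0 e1 e2 e3 e4
  have ha : a = - (3 * κ * (r1 - q2)) := by linear_combination e0
  have hb : b = q0 - p1 := by linear_combination -e1
  have he : e = 0 := by
    have : 3 * e = 0 := by linear_combination e3 - e0 - 5 * e2
    simpa using this
  have hf : f = r0 - p2 := by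
    have : 2 * (f - (r0 - p2)) = 0 := by linear_combination e4 - e1 - 5 * e2
    have h2 : f - (r0 - p2) = 0 := by simpa using this
    linear_combination h2
  subst e2
  rw [ha, hb, he, hf] at hA'
  have hlin : ∀ x y z : ℂ, (C x * X 0 + C y * X 1 + C z * X 2 : Pn 3).IsHomogeneous 1 := by
    intro x y z
    refine ((?_ : IsHomogeneous _ 1).add ?_).add ?_ <;>
      exact (isHomogeneous_X ℂ _).C_mul _
  refine ⟨![C (p0 + d) * X 0 + C q0 * X 1 + C r0 * X 2,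
    C q0 * X 0 + C q1 * X 1 + C (2 * r1 - q2) * X 2,
    C r0 * X 0 + C (2 * r1 - q2) * X 1 + C r2 * X 2], ?_, ?_, ?_⟩
  · intro i
    fin_cases i
    · exact hlin _ _ _
    · exact hlin _ _ _
    · exact hlin _ _ _
  · intro i j
    have h1 : dd (df (C κ * X 0 ^ 3 + X 1 ^ 2 * X 2 : Pn 3)) i j = 0 := by
      unfold dd df
      rw [sub_eq_zero]
      exact pcomm _ _ _
    rw [h1]
    unfold w11 cv
    simp
  · have k01 : θ0 0 1 = w11 ![C (p0 + d) * X 0 + C q0 * X 1 + C r0 * X 2,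
        C q0 * X 0 + C q1 * X 1 + C (2 * r1 - q2) * X 2,
        C r0 * X 0 + C (2 * r1 - q2) * X 1 + C r2 * X 2]
        (df (C κ * X 0 ^ 3 + X 1 ^ 2 * X 2)) 0 1 := by
      rw [t01, hA']
      unfold w11
      rw [hs0, hs1]
      simp [c2, c3]
      ring
    have k12 : θ0 1 2 = w11 ![C (p0 + d) * X 0 + C q0 * X 1 + C r0 * X 2,
        C q0 * X 0 + C q1 * X 1 + C (2 * r1 - q2) * X 2,
        C r0 * X 0 + C (2 * r1 - q2) * X 1 + C r2 * X 2]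
        (df (C κ * X 0 ^ 3 + X 1 ^ 2 * X 2)) 1 2 := by
      rw [t12]
      unfold w11
      rw [hs1, hs2]
      simp [c2]
      ring
    have k20 : θ0 2 0 = w11 ![C (p0 + d) * X 0 + C q0 * X 1 + C r0 * X 2,
        C q0 * X 0 + C q1 * X 1 + C (2 * r1 - q2) * X 2,
        C r0 * X 0 + C (2 * r1 - q2) * X 1 + C r2 * X 2]
        (df (C κ * X 0 ^ 3 + X 1 ^ 2 * X 2)) 2 0 := by
      rw [t20, hA']
      unfold w11
      rw [hs0, hs2]
      simp [c2, c3]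
      ring
    have hneg : ∀ (ξ η : F1 3) (i j : Fin 3), w11 ξ η j i = - w11 ξ η i j := by
      intro ξ η i j
      unfold w11
      ring
    have hz : ∀ (ξ η : F1 3) (i : Fin 3), w11 ξ η i i = 0 := by
      intro ξ η i
      unfold w11
      ring
    intro i j
    fin_cases i <;> fin_cases j
    · exact (h.alt0 0).trans (hz _ _ 0).symm
    · exact k01
    · exact (h.alt 0 2).trans ((congrArg Neg.neg k20).trans (hneg _ _ 2 0).symm)
    · exact (h.alt 1 0).trans ((congrArg Neg.neg k01).trans (hneg _ _ 0 1).symm)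
    · exact (h.alt0 1).trans (hz _ _ 1).symm
    · exact k12
    · exact k20
    · exact (h.alt 2 1).trans ((congrArg Neg.neg k12).trans (hneg _ _ 1 2).symm)
    · exact (h.alt0 2).trans (hz _ _ 2).symm

end Pool.Agent.Helper1.FK
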