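import Pool.Agent.Helper1.FK.NetC
import Pool.Agent.Helper1.FK.Node
import Pool.Agent.Helper1.FK.FinZ
import Pool.Agent.Helper1.FK.Bad
import Pool.Agent.Helper1.FK.SolI
import Pool.Agent.Helper1.FK.SolII

/-! FK-15: the case `m = 0`, assembly.
`caseC_out`: coordinates with `mg`/`pb`: `n` becomes `(1,0,0)` (constant covector; `pb g (cv n) = cv ![1,0,0]`), `shape`, `solI`, `solII`, back with `Case*_pb`.
`r0`: if `σ(w) = 0` for some `w ≠ 0`: `caseA_of`.  Otherwise: no linear syzygy: `node`.  A linear syzygy: `net`; second alternative: `caseC_of`, `caseC_out`.  First alternative `σ = cr v1 v2`: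
`ker_two` for `u` and `U`; if there is no bad point: `choose_q`, CaseD; a bad point `p`: coordinates `p = e_2` (the hypotheses are transported with `RD_pb`; `pb g` of `cr v1 v2`: use again
`net`/`ker_two` for the new data, or transport `v_i`), `bad_st`, `bad_v`, `caseC_out`. -/

set_option autoImplicit false

namespace Pool.Agent.Helper1.FK

open MvPolynomial
open scoped BigOperators
open Pool.Agent.Helper71.FL (w12 pf ct Dec Closed dd)
open Pool.Agent.Helper71.FC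
open Pool.Agent.Helper93 (lsub lmap OF pb Cop)
open Pool.Agent.Helper1.FG (om7)

private theorem mg_zero (g : Fin 3 → Fin 3 → ℂ) : mg 0 g = 0 := by
  funext i
  simp [mg]

private theorem pair_pb (g : Fin 3 → Fin 3 → ℂ) (w : Fin 3 → ℂ) (σ : F1 3) :
    pair (cv w) (pb g σ) = lsub g (pair (cv (lmap g w)) σ) := by
  unfold pair pb cv
  simp only [map_sum, map_mul, Finset.mul_sum]
  rw [Finset.sum_comm]
  apply Finset.sum_congr rfl
  intro j _
  have h1 : lsub g (C (lmap g w j)) = ∑ l, C (g j l * w l) := by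
    have : lmap g w j = ∑ l, g j l * w l := rfl
    rw [this, map_sum, map_sum]
    apply Finset.sum_congr rfl
    intro l _
    unfold lsub
    rw [aeval_C]
    rfl
  rw [h1, Finset.sum_mul]
  apply Finset.sum_congr rfl
  intro l _
  rw [C_mul]
  ring

private theorem lmap_inv {g g' : Fin 3 → Fin 3 → ℂ} (hg : Inv g g') (w : Fin 3 → ℂ) :
    lmap g' (lmap g w) = w := by
  funext k
  show ∑ l, g' k l * (∑ m, g l m * w m) = w k
  simp only [Finset.mul_sum]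
  rw [Finset.sum_comm]
  have h1 : ∀ m, ∑ l, g' k l * (g l m * w m) = idm 3 k m * w m := by
    intro m
    rw [← hg.2]
    unfold mm
    rw [Finset.sum_mul]
    apply Finset.sum_congr rfl
    intro l _
    ring
  simp only [h1]
  unfold idm
  simp

private theorem hw_pb {g g' : Fin 3 → Fin 3 → ℂ} (hg : Inv g g') {σ : F1 3}
    (hw : ∀ w : Fin 3 → ℂ, w ≠ 0 → pair (cv w) σ ≠ 0) (w : Fin 3 → ℂ) (h : w ≠ 0) :
    pair (cv w) (pb g σ) ≠ 0 := by
  intro h0
  rw [pair_pb] at h0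
  have h1 : pair (cv (lmap g w)) σ = 0 := by
    have h2 := congrArg (lsub g') h0
    rw [lsub_mm, map_zero, hg.1, lsub_idm] at h2
    exact h2
  refine hw (lmap g w) ?_ h1
  intro h3
  apply h
  rw [← lmap_inv hg w, h3, map_zero]

private theorem back {g g' : Fin 3 → Fin 3 → ℂ} (hg : Inv g g') {σ : F1 3} {θ0 : F2 3}
    (h : CaseB 0 (pb g σ) (pb2 g θ0) ∨ Case122 0 (pb g σ) (pb2 g θ0) ∨
      Case7 (pb g σ) (pb2 g θ0)) :
    CaseB 0 σ θ0 ∨ Case122 0 σ θ0 ∨ Case7 σ θ0 := by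
  rcases h with h | h | h
  · left
    apply CaseB_pb hg
    rw [mg_zero]
    exact h
  · right; left
    apply Case122_pb hg
    rw [mg_zero]
    exact h
  · right; right
    exact Case7_pb hg h

private theorem RD_pb0 {g g' : Fin 3 → Fin 3 → ℂ} (hg : Inv g g') {σ : F1 3} {θ0 : F2 3}
    (h : RD 0 σ θ0) : RD 0 (pb g σ) (pb2 g θ0) := by
  have h1 := RD_pb hg h
  rw [mg_zero] at h1
  exact h1

private theorem exists_n {n : Fin 3 → ℂ} (hn : n ≠ 0) :
    ∃ g g' : Fin 3 → Fin 3 → ℂ, Inv g g' ∧ pb g (cv n) = cv ![1, 0, 0] := by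
  obtain ⟨g, g', hg, h1⟩ := exists_coord (n := 3) (r := 1) (by omega) (fun _ => n)
    (by
      rw [linearIndependent_unique_iff]
      exact hn)
  refine ⟨g, g', hg, ?_⟩
  have h2 := h1 0
  have hcast : Fin.castLE (show 1 ≤ 3 by omega) 0 = (0 : Fin 3) := by
    ext; simp
  rw [hcast] at h2
  have hdf : ∀ a : Fin 3 → ℂ, cv a = df (lf a) := by
    intro a
    funext i
    unfold cv df lf
    rw [map_sum]
    simp only [pderiv_C_mul, pderiv_X, Pi.single_apply]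
    simp
  rw [hdf n, pb_df, h2]
  funext i
  unfold df cv
  fin_cases i <;> simp

theorem caseC_out {σ : F1 3} {θ0 : F2 3} (h : RD 0 σ θ0) (hc : Cop σ)
    (hw : ∀ w : Fin 3 → ℂ, w ≠ 0 → pair (cv w) σ ≠ 0) (hC : CaseC σ θ0) :
    CaseB 0 σ θ0 ∨ Case122 0 σ θ0 ∨ Case7 σ θ0 := by
  obtain ⟨n, c, ℓ, g, A, φ, μ, hn, hℓ, hℓ1, hg, hA, hφ, hμ, h1, h2, h3⟩ := hC
  obtain ⟨γ, γ', hγ, hγn⟩ := exists_n hn
  apply back hγ
  have hR := RD_pb0 hγ h
  have hc' := Cop_pb3 hγ hc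
  have hw' := hw_pb hγ hw
  have hℓ' : lsub γ ℓ ≠ 0 := by
    intro h0
    apply hℓ
    have h4 := congrArg (lsub γ') h0
    rw [lsub_mm, map_zero, hγ.1, lsub_idm] at h4
    exact h4
  have k1 : ∀ i, pb γ σ i = lsub γ g * C ((![1, 0, 0] : Fin 3 → ℂ) i) + lsub γ ℓ * pb γ φ i := by
    have e1 : σ = fun i => g * cv n i + ℓ * φ i := funext h1
    intro i
    have e2 := congrFun (pb_add γ (fun i => g * cv n i) (fun i => ℓ * φ i)) i
    rw [pb_smul, pb_smul, hγn] at e2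
    rw [e1]
    exact e2
  have k2 : ∀ i j, dd (pb γ σ) i j = C c * w11 (cv ![1, 0, 0]) (pb γ φ) i j := by
    intro i j
    rw [← pb2_dd]
    have e1 : dd σ = fun i j => C c * w11 (cv n) φ i j := by
      funext i j
      exact h2 i j
    rw [e1, pb2_smul, pb2_w11, hγn]
    unfold lsub
    rw [aeval_C]
    rfl
  have k3 : ∀ i j, pb2 γ θ0 i j = lsub γ A * w11 (cv ![1, 0, 0]) (pb γ φ) i j +
      w11 (pb γ μ) (pb γ σ) i j := by
    intro i j
    have e1 : θ0 = fun i j => A * w11 (cv n) φ i j + w11 μ σ i j := by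
      funext i j
      exact h3 i j
    conv_lhs => rw [e1]
    rw [pb2_add, pb2_smul, pb2_w11, hγn, pb2_w11]
  rcases shape hR hw' hℓ' (lsub_hom hℓ1) (lsub_hom hg) (lsub_hom hA) (pb_hom hφ) (pb_hom hμ) k1 k2 k3
    with ⟨c', κ, q, A', hq, hA', f1, f2⟩ | ⟨κ, g1, g1', A', μ', hg1, hA', hμ', f1, f2⟩
  · right
    exact solI hR hc' hw' hq hA' (pb_hom hμ) f1 f2
  · apply back hg1
    left
    have hR1 := RD_pb0 hg1 hR
    rw [f1] at hR1 f2 ⊢
    exact solII hR1 hA' hμ' f2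

private theorem dd_alt0 (σ : F1 3) (i : Fin 3) : dd σ i i = 0 := by
  unfold dd
  ring

private theorem dd_alt (σ : F1 3) (i j : Fin 3) : dd σ i j = - dd σ j i := by
  unfold dd
  ring

private theorem st_H {k : ℕ} {ω : F2 3} (h : ∀ i j, (ω i j).IsHomogeneous k) : H1 k (st ω) := by
  intro i
  fin_cases i
  · exact h 1 2
  · exact h 2 0
  · exact h 0 1

private theorem pair_comm' (a b : F1 3) : pair a b = pair b a := by
  unfold pair
  apply Finset.sum_congr rfl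
  intro i _
  ring

private theorem const_of {p : Pn 3} (h : p.IsHomogeneous 0) : ∃ c : ℂ, p = C c :=
  ⟨coeff 0 p, by
    apply MvPolynomial.totalDegree_eq_zero_iff_eq_C.mp
    exact Nat.le_zero.mp h.totalDegree_le⟩

private theorem aux1 {σ : F1 3} {θ0 : F2 3} (h : RD 0 σ θ0) (hc : Cop σ)
    (hw : ∀ w : Fin 3 → ℂ, w ≠ 0 → pair (cv w) σ ≠ 0) :
    (CaseB 0 σ θ0 ∨ Case122 0 σ θ0 ∨ Case7 σ θ0) ∨
    ∃ (v1 v2 : F1 3) (c1 c2 : ℂ) (A1 A2 : Pn 3), H1 1 v1 ∧ H1 1 v2 ∧ A1.IsHomogeneous 2 ∧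
      A2.IsHomogeneous 2 ∧ σ = cr v1 v2 ∧ (∀ i, st (dd σ) i = C c1 * v1 i + C c2 * v2 i) ∧
      (∀ i, st θ0 i = A1 * v1 i + A2 * v2 i) := by
  by_cases hK : ∀ v : F1 3, H1 1 v → pair v σ = 0 → v = 0
  · exact Or.inl (Or.inl (node h hc hw hK))
  push Not at hK
  obtain ⟨v, hv, hvσ, hv0⟩ := hK
  rcases net h.hσ hc hw hv hv0 hvσ with ⟨v1, v2, h1, h2, hs⟩ |
    ⟨n, ℓ, g, φ, hn, hℓ, hℓ1, hg, hφ, h4, h5, h6, h7⟩
  · right
    have hu : H1 1 (st (dd σ)) := st_H (Pool.Agent.Helper71.FL.dd_hom h.hσ)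
    have hU : H1 3 (st θ0) := st_H h.hθ
    have pu : pair (st (dd σ)) σ = 0 := by
      rw [pair_comm']
      apply (w12_pair (dd_alt0 σ) (dd_alt σ)).mp
      intro i j k
      have e := h.e2 i j k
      have e0 : w12 (cv (0 : Fin 3 → ℂ)) θ0 i j k = 0 := by
        unfold w12 cv
        simp
      rw [e0, zero_add] at e
      exact e
    have pU : pair (st θ0) σ = 0 := by
      rw [pair_comm']
      exact (w12_pair h.alt0 h.alt).mp h.e3
    have hc2 : Cop (cr v1 v2) := by rw [← hs]; exact hc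
    rw [hs] at pu pU
    obtain ⟨B1, B2, hB1, hB2, hB⟩ := ker_two h1 h2 hc2 (d := 0) hu (by rw [← hs] at pu ⊢; exact pu)
    obtain ⟨A1, A2, hA1, hA2, hA⟩ := ker_two h1 h2 hc2 (d := 2) hU pU
    obtain ⟨c1, rfl⟩ := const_of hB1
    obtain ⟨c2, rfl⟩ := const_of hB2
    exact ⟨v1, v2, c1, c2, A1, A2, h1, h2, hA1, hA2, hs, hB, hA⟩
  · left
    exact caseC_out h hc hw (caseC_of h hn hℓ hℓ1 hg hφ h4 h5 h6 h7)

private theorem exists_p {p : Fin 3 → ℂ} (hp : p ≠ 0) :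
    ∃ g g' : Fin 3 → Fin 3 → ℂ, Inv g g' ∧ lmap g ![0, 0, 1] = p := by
  obtain ⟨g, g', hg, h1⟩ := exists_basis (n := 3) (r := 1) (by omega) (fun _ => p)
    (by
      rw [linearIndependent_unique_iff]
      exact hp)
  have h2 := h1 0
  have hcast : Fin.castLE (show 1 ≤ 3 by omega) 0 = (0 : Fin 3) := by
    ext; simp
  rw [hcast] at h2
  refine ⟨fun i j => g i (Equiv.swap 0 2 j), fun i j => g' (Equiv.swap 0 2 i) j, ⟨?_, ?_⟩, ?_⟩
  · rw [← hg.1]
    funext i j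
    exact Equiv.sum_comp (Equiv.swap (0 : Fin 3) 2) (fun l => g i l * g' l j)
  · funext i j
    have h3 : mm g' g (Equiv.swap 0 2 i) (Equiv.swap 0 2 j) = idm 3 i j := by
      rw [hg.2]
      unfold idm
      simp
    exact h3
  · funext k
    have h4 := congrFun h2 k
    rw [← h4]
    show ∑ l, g k (Equiv.swap 0 2 l) * (![0, 0, 1] : Fin 3 → ℂ) l =
      ∑ l, g k l * (if l = 0 then 1 else 0)
    simp [Fin.sum_univ_three]

private theorem eval_pb {g : Fin 3 → Fin 3 → ℂ} {x : Fin 3 → ℂ} {ξ : F1 3}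
    (h : ∀ i, eval (lmap g x) (ξ i) = 0) (i : Fin 3) : eval x (pb g ξ i) = 0 := by
  unfold pb
  rw [map_sum]
  apply Finset.sum_eq_zero
  intro j _
  rw [map_mul, Pool.Agent.Helper93.eval_lsub, h, mul_zero]

private theorem eval_st {p : Fin 3 → ℂ} {ω : F2 3} (h0 : ∀ i, ω i i = 0)
    (h1 : ∀ i j, ω i j = - ω j i) (h : ∀ i, eval p (st ω i) = 0) (k l : Fin 3) :
    eval p (ω k l) = 0 := by
  have a0 : eval p (ω 1 2) = 0 := h 0
  have a1 : eval p (ω 2 0) = 0 := h 1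
  have a2 : eval p (ω 0 1) = 0 := h 2
  fin_cases k <;> fin_cases l
  · simp [h0]
  · exact a2
  · show eval p (ω 0 2) = 0
    rw [h1, map_neg, a1, neg_zero]
  · show eval p (ω 1 0) = 0
    rw [h1, map_neg, a2, neg_zero]
  · simp [h0]
  · exact a0
  · exact a1
  · show eval p (ω 2 1) = 0
    rw [h1, map_neg, a0, neg_zero]
  · simp [h0]

private theorem eval_pb2 {g : Fin 3 → Fin 3 → ℂ} {x : Fin 3 → ℂ} {ω : F2 3} (h0 : ∀ i, ω i i = 0)
    (h1 : ∀ i j, ω i j = - ω j i) (h : ∀ i, eval (lmap g x) (st ω i) = 0) (i : Fin 3) :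
    eval x (st (pb2 g ω) i) = 0 := by
  have key : ∀ i j, eval x (pb2 g ω i j) = 0 := by
    intro i j
    unfold pb2
    rw [map_sum]
    apply Finset.sum_eq_zero
    intro k _
    rw [map_sum]
    apply Finset.sum_eq_zero
    intro l _
    rw [map_mul, Pool.Agent.Helper93.eval_lsub, eval_st h0 h1 h, mul_zero]
  fin_cases i
  · exact key 1 2
  · exact key 2 0
  · exact key 0 1

private theorem out_of {σ : F1 3} {θ0 : F2 3}
    (h : CaseB 0 σ θ0 ∨ Case122 0 σ θ0 ∨ Case7 σ θ0) : Out0 σ θ0 := by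
  rcases h with h | h | h
  · exact Or.inr (Or.inl h)
  · exact Or.inr (Or.inr (Or.inl h))
  · exact Or.inr (Or.inr (Or.inr (Or.inl h)))

theorem r0 {σ : F1 3} {θ0 : F2 3} (h : RD 0 σ θ0) (hc : Cop σ) : Out0 σ θ0 := by
  by_cases hw : ∀ w : Fin 3 → ℂ, w ≠ 0 → pair (cv w) σ ≠ 0
  swap
  · push Not at hw
    obtain ⟨w, hw0, hws⟩ := hw
    exact Or.inl (caseA_of h hc hw0 hws)
  rcases aux1 h hc hw with h1 | ⟨v1, v2, c1, c2, A1, A2, h1, h2, hA1, hA2, hs, hu, hU⟩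
  · exact out_of h1
  by_cases hbad : ∀ p : Fin 3 → ℂ, p ≠ 0 → (∀ i, eval p (σ i) = 0) →
      ¬ ((∀ i, eval p (st (dd σ) i) = 0) ∧ ∀ i, eval p (st θ0 i) = 0)
  · obtain ⟨q, hq, hq2⟩ := choose_q h.hσ hc (st_H (Pool.Agent.Helper71.FL.dd_hom h.hσ)) (st_H h.hθ) hbad
    exact Or.inr (Or.inr (Or.inr (Or.inr ⟨v1, v2, c1, c2, A1, A2, q, h1, h2, hA1, hA2, hs, hu, hU,
      hq, hq2⟩)))
  push Not at hbad
  obtain ⟨p, hp, hp1, hp2, hp3⟩ := hbad
  apply out_of
  obtain ⟨g, g', hg, hgp⟩ := exists_p hp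
  apply back hg
  have hR := RD_pb0 hg h
  have hc' := Cop_pb3 hg hc
  have hw' := hw_pb hg hw
  have p1 : ∀ i, eval ![0, 0, 1] (pb g σ i) = 0 := fun i => eval_pb (by rw [hgp]; exact hp1) i
  have p2 : ∀ i, eval ![0, 0, 1] (st (dd (pb g σ)) i) = 0 := by
    intro i
    rw [← pb2_dd]
    exact eval_pb2 (dd_alt0 σ) (dd_alt σ) (by rw [hgp]; exact hp2) i
  have p3 : ∀ i, eval ![0, 0, 1] (st (pb2 g θ0) i) = 0 := fun i =>
    eval_pb2 h.alt0 h.alt (by rw [hgp]; exact hp3) i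
  rcases aux1 hR hc' hw' with h1 | ⟨v1, v2, c1, c2, A1, A2, h1, h2, hA1, hA2, hs, hu, hU⟩
  · exact h1
  rcases bad_st hR hc' h1 h2 hA1 hA2 hs hu hU p1 p2 p3 with ⟨s, t, hst, ha, hb, hd⟩ | ⟨w, hw0, hws⟩
  · rcases bad_v hR hc' h1 h2 hA1 hA2 hs hu hU hst ha hb hd with hC | ⟨w, hw0, hws⟩
    · exact caseC_out hR hc' hw' hC
    · exact absurd hws (hw' w hw0)
  · exact absurd hws (hw' w hw0)

end Pool.Agent.Helper1.FK
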