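import Pool.Agent.Helper1.FK.Bridge
import Pool.Agent.Helper1.FK.M1
import Pool.Agent.Helper1.FK.R0
import Pool.Agent.Helper1.FK.OutA
import Pool.Agent.Helper1.FK.OutC
import Pool.Agent.Helper1.FK.OutD

/-! FK-20: assembly. -/

set_option autoImplicit false

namespace Pool.Agent.Helper1.FK

open MvPolynomial
open scoped BigOperators
open Pool.Agent.Helper71.FL (w12 pf ct Dec Closed dd)
open Pool.Agent.Helper71.FC
open Pool.Agent.Helper93 (lsub lmap OF pb Cop)
open Pool.Agent.Helper1.FG (om7)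

theorem iw3 : IW3 := by
  intro n hn θ hθ hc h0 h1 σ hσ hσ0 D hD hDσ
  obtain ⟨φ, Q, m, σ', θ0, hQ, hR, hF, hm0, hm1⟩ :=
    exists_RF hn hθ hc h0 h1 hσ hσ0 D hD hDσ
  by_cases hm : m = 0
  · subst hm
    rcases r0 hR (hm0 rfl) with h | h | h | h | h
    · exact OKF_of_Fam112 (out_A hQ hR hF h)
    · exact absurd h1 (out_B hθ hQ hR hF h)
    · exact OKF_of_Fam122 (out_122 hQ hF h)
    · exact out_7 hQ hF h
    · exact out_D hQ hR hF h
  · rcases m1 hm hR (hm1 hm) with h | h | h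
    · exact OKF_of_Fam112 (out_A hQ hR hF h)
    · exact absurd h1 (out_B hθ hQ hR hF h)
    · exact OKF_of_Fam122 (out_122 hQ hF h)

end Pool.Agent.Helper1.FK
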