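import Pool.Agent.Helper1.FK.Vec

/-! FK-7: linear syzygies of three quadrics.
`σ` has no common factor and `σ(w) ≠ 0` for all constant `w ≠ 0`; `v ≠ 0` is a linear field with `σ(v) = 0`.  Let `r` be the rank of `v` (dimension of the span of the
three linear forms `v_i`).
* `r = 1`: `v = l w`, `l σ(w) = 0`: impossible.
* `r = 3`: `v_0, v_1, v_2` is a regular sequence, Koszul: `σ = cr v v2` with `v2` linear (a linear change of variables makes `v_i = X i`).
* `r = 2`: there is a constant covector `n ≠ 0` with `n · v = 0`; choose a basis of constant covectors `n, n', n''` (a linear change of the coefficient vector; to keep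
  the identities simple one may use an invertible matrix acting on coefficient vectors): `v = (v_0, v_1, 0)`, `v_0, v_1` independent linear forms,
  `σ_0 v_0 + σ_1 v_1 = 0`, so `σ_0 = ℓ v_1`, `σ_1 = - ℓ v_0`, `ℓ ≠ 0` linear.  If `σ_2 = α v_0 + β v_1` (`α, β` linear) then `v2 = (-β, α, ℓ)` is
  another linear syzygy and `cr v v2 = (v_1 ℓ, - v_0 ℓ, v_0 α + v_1 β) = σ`.  Otherwise (`σ_2` not in the prime ideal `(v_0, v_1)`): second alternative with
  `n = (0,0,1)`, `g = σ_2`, `φ = (v_1, -v_0, 0)`; `cr n φ = (v_0, v_1, 0) = v`; if `U · σ = 0` then `ℓ (v_1 U_0 - v_0 U_1) + σ_2 U_2 = 0`, `gcd(ℓ, σ_2) = 1`, so `U_2 = ℓ t`,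
  `v_1 U_0 - v_0 U_1 = - σ_2 t`, `t` in `(v_0, v_1)`: `t = α v_0 + β v_1`; `U - (α (0, σ_2, ℓ v_0) + β (- σ_2, 0, ℓ v_1))` has last component 0 and is a multiple of `v`;
  the two vectors are `- e_0 × σ`, `- e_1 × σ`: `μ = (- α, - β, 0)`.
Without changing coordinates: take a constant vector `e` with `n · e = 1`; `cr n σ = ℓ v`, `g = σ · e`, `φ = cr v e` (then `cr n φ = v`, `σ = g n + ℓ φ`). -/

set_option autoImplicit false

namespace Pool.Agent.Helper1.FK

open MvPolynomial
open scoped BigOperators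
open Pool.Agent.Helper71.FL (w12 pf ct Dec Closed dd)
open Pool.Agent.Helper71.FC
open Pool.Agent.Helper93 (lsub lmap OF pb Cop)
open Pool.Agent.Helper1.FG (om7)

private theorem nt_lin {f : Pn 3} (h : f.IsHomogeneous 1) : ∃ a : Fin 3 → ℂ,
    f = ∑ i, C (a i) * X i := by
  have h1 := h.sum_X_mul_pderiv
  have h2 : ∀ i, ∃ c : ℂ, pderiv i f = C c := fun i =>
    ⟨_, totalDegree_eq_zero_iff_eq_C.1 (Nat.le_zero.1 (h.pderiv (i := i)).totalDegree_le)⟩
  choose a ha using h2
  refine ⟨a, ?_⟩
  simp only [ha, one_smul] at h1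
  rw [← h1]
  exact Finset.sum_congr rfl fun i _ => mul_comm _ _

private theorem nt_hc_mul {p q : Pn 3} {a : ℕ} (hp : p.IsHomogeneous a) (b : ℕ) :
    homogeneousComponent (a + b) (p * q) = p * homogeneousComponent b q := by
  have hs := sum_homogeneousComponent q
  have h1 : p * q = ∑ i ∈ Finset.range (q.totalDegree + 1), p * homogeneousComponent i q := by
    rw [← Finset.mul_sum, hs]
  rw [h1, map_sum]
  have h2 : ∀ i ∈ Finset.range (q.totalDegree + 1),
      homogeneousComponent (a + b) (p * homogeneousComponent i q) =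
        if i = b then p * homogeneousComponent b q else 0 := by
    intro i _
    have h3 : p * homogeneousComponent i q ∈ homogeneousSubmodule (Fin 3) ℂ (a + i) :=
      hp.mul (homogeneousComponent_isHomogeneous i q)
    rw [homogeneousComponent_of_mem h3]
    by_cases h4 : i = b
    · subst h4
      rw [if_pos rfl, if_pos rfl]
    · rw [if_neg h4, if_neg (by omega)]
  rw [Finset.sum_congr rfl h2, Finset.sum_ite_eq' (Finset.range (q.totalDegree + 1)) b]
  split_ifs with h5
  · rfl
  · rw [Finset.mem_range, not_lt] at h5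
    rw [homogeneousComponent_eq_zero b q (by omega), mul_zero]

/-- homogeneous quotients -/
private theorem nt_hom_quot {p q f : Pn 3} {a b : ℕ} (hp : p.IsHomogeneous a) (hp0 : p ≠ 0)
    (hf : f.IsHomogeneous (a + b)) (h : f = p * q) : q.IsHomogeneous b := by
  have h1 : homogeneousComponent (a + b) f = f := homogeneousComponent_eq_self hf
  have h2 := nt_hc_mul (q := q) hp b
  rw [← h, h1] at h2
  have h3 : q = homogeneousComponent b q := mul_left_cancel₀ hp0 (by rw [← h2, ← h])
  rw [h3]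
  exact homogeneousComponent_isHomogeneous _ _

/-- substitution of a multiple of one linear form -/
private theorem nt_sub {f L : Pn 3} {d : ℕ} (hf : f.IsHomogeneous d) (u : Fin 3 → ℂ) :
    aeval (fun k => C (u k) * L) f = C (eval u f) * L ^ d := by
  rw [aeval_def, eval₂_eq', eval_eq', map_sum, Finset.sum_mul]
  refine Finset.sum_congr rfl fun s hs => ?_
  have h2 : ∑ i, s i = d := by
    have h3 : Finsupp.weight (fun _ : Fin 3 => (1 : ℕ)) s = d := hf (mem_support_iff.1 hs)
    rw [← Finsupp.degree_eq_weight_one, Finsupp.degree_eq_sum] at h3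
    exact h3
  simp only [mul_pow, Finset.prod_mul_distrib, Finset.prod_pow_eq_pow_sum, h2, map_mul, map_prod,
    map_pow]
  rw [algebraMap_eq]
  ring

private theorem nt_ideal {p q : Pn 3} {g : Fin 3 → Pn 3}
    (hg : ∀ k, X k - g k ∈ Ideal.span {p, q}) (f : Pn 3) :
    f - aeval g f ∈ Ideal.span {p, q} := by
  rw [← Ideal.Quotient.eq]
  have h : (Ideal.Quotient.mk (Ideal.span {p, q})) =
      (Ideal.Quotient.mk (Ideal.span {p, q})).comp (aeval g : Pn 3 →ₐ[ℂ] Pn 3).toRingHom := by
    apply ringHom_ext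
    · intro r
      simp [algebraMap_eq]
    · intro i
      have := hg i
      rw [← Ideal.Quotient.eq] at this
      simpa using this
  exact DFunLike.congr_fun h f

/-- forms vanishing on the line -/
private theorem nt_line {p q L f : Pn 3} {u : Fin 3 → ℂ} (hp : p.IsHomogeneous 1)
    (hq : q.IsHomogeneous 1) (hX : ∀ k, X k - C (u k) * L ∈ Ideal.span {p, q}) {d : ℕ}
    (hf : f.IsHomogeneous (1 + d)) (h : eval u f = 0) :
    ∃ a b : Pn 3, a.IsHomogeneous d ∧ b.IsHomogeneous d ∧ f = a * p + b * q := by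
  have h1 := nt_ideal hX f
  rw [nt_sub hf, h, map_zero, zero_mul, sub_zero, Ideal.mem_span_pair] at h1
  obtain ⟨a, b, hab⟩ := h1
  refine ⟨homogeneousComponent d a, homogeneousComponent d b,
    homogeneousComponent_isHomogeneous _ _, homogeneousComponent_isHomogeneous _ _, ?_⟩
  have h2 : homogeneousComponent (1 + d) f = f := homogeneousComponent_eq_self hf
  rw [← h2, ← hab, map_add, mul_comm a p, mul_comm b q, nt_hc_mul hp, nt_hc_mul hq,
    mul_comm p, mul_comm q]

private theorem nt_H1_cr {a b : F1 3} {k l : ℕ} (ha : H1 k a) (hb : H1 l b) :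
    H1 (k + l) (cr a b) := by
  intro i
  fin_cases i
  · exact ((ha 1).mul (hb 2)).sub ((ha 2).mul (hb 1))
  · exact ((ha 2).mul (hb 0)).sub ((ha 0).mul (hb 2))
  · exact ((ha 0).mul (hb 1)).sub ((ha 1).mul (hb 0))

private theorem nt_H1_cv (w : Fin 3 → ℂ) : H1 0 (cv w) := fun i => isHomogeneous_C (Fin 3) (w i)

private theorem nt_H1_pair {a b : F1 3} {k l : ℕ} (ha : H1 k a) (hb : H1 l b) :
    (pair a b).IsHomogeneous (k + l) := by
  unfold pair
  exact IsHomogeneous.sum _ _ _ fun i _ => (ha i).mul (hb i)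

private theorem nt_p3 {A : Type} [CommRing A] (a b : Fin 3 → A) :
    pair a b = a 0 * b 0 + a 1 * b 1 + a 2 * b 2 := by
  unfold pair
  rw [Fin.sum_univ_three]

/-- a linear syzygy has coprime components -/
private theorem nt_cop {σ v : F1 3} (hw : ∀ w : Fin 3 → ℂ, w ≠ 0 → pair (cv w) σ ≠ 0)
    (hv : H1 1 v) (hv0 : v ≠ 0) (h : pair v σ = 0) : Pool.Agent.Helper50.FC.Prim v := by
  intro p hp
  by_contra hu
  choose q hq using hp
  have hp0 : p ≠ 0 := by
    rintro rfl
    apply hv0
    funext i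
    rw [hq i, zero_mul]
    rfl
  have hd : p.totalDegree ≠ 0 := by
    intro h0
    have h1 := totalDegree_eq_zero_iff_eq_C.1 h0
    apply hu
    rw [h1]
    refine (IsUnit.mk0 _ ?_).map (C : ℂ →+* Pn 3)
    intro h2
    rw [h2, map_zero] at h1
    exact hp0 h1
  have hC : ∀ i, ∃ w : ℂ, q i = C w := by
    intro i
    by_cases hi : q i = 0
    · exact ⟨0, by rw [hi, map_zero]⟩
    · refine ⟨_, totalDegree_eq_zero_iff_eq_C.1 ?_⟩
      have h1 : v i ≠ 0 := by
        rw [hq i]
        exact mul_ne_zero hp0 hi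
      have h2 := (hv i).totalDegree h1
      rw [hq i, totalDegree_mul_of_isDomain hp0 hi] at h2
      omega
  choose w hwq using hC
  have hw0 : w ≠ 0 := by
    rintro rfl
    apply hv0
    funext i
    rw [hq i, hwq i]
    simp
  apply hw w hw0
  have h3 : p * pair (cv w) σ = 0 := by
    rw [← h, nt_p3, nt_p3, hq 0, hq 1, hq 2, hwq 0, hwq 1, hwq 2]
    unfold cv
    ring
  exact (mul_eq_zero.1 h3).resolve_left hp0

/-- the regular case: three independent linear forms -/
private theorem nt_reg {σ v : F1 3} (hσ : H1 2 σ) (hv : H1 1 v) (h : pair v σ = 0)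
    {M : Matrix (Fin 3) (Fin 3) ℂ} (hM : ∀ i, v i = ∑ j, C (M i j) * X j) (hd : M.det ≠ 0) :
    ∃ v1 v2 : F1 3, H1 1 v1 ∧ H1 1 v2 ∧ σ = cr v1 v2 := by
  have hu : IsUnit M.det := IsUnit.mk0 _ hd
  have e1 : M * M⁻¹ = 1 := Matrix.mul_nonsing_inv M hu
  have e2 : M⁻¹ * M = 1 := Matrix.nonsing_inv_mul M hu
  set N := M⁻¹ with hN
  -- the derivations
  let D : Fin 3 → Pn 3 → Pn 3 := fun i f => ∑ k, C (N k i) * pderiv k f
  have hDadd : ∀ i f g, D i (f + g) = D i f + D i g := by
    intro i f g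
    simp only [D, map_add, mul_add, Finset.sum_add_distrib]
  have hDmul : ∀ i f g, D i (f * g) = f * D i g + g * D i f := by
    intro i f g
    simp only [D, Derivation.leibniz, smul_eq_mul, Finset.mul_sum, ← Finset.sum_add_distrib]
    refine Finset.sum_congr rfl fun k _ => ?_
    ring
  have hDv : ∀ i j, D i (v j) = if i = j then 1 else 0 := by
    intro i j
    have h1 : D i (v j) = C ((M * N) j i) := by
      simp only [D, hM j, Matrix.mul_apply, map_sum, Derivation.leibniz, pderiv_C, pderiv_X,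
        smul_eq_mul, mul_zero, add_zero, map_mul]
      refine Finset.sum_congr rfl fun k _ => ?_
      simp only [Fin.sum_univ_three, Pi.single_apply]
      fin_cases k <;> simp <;> ring
    rw [h1, e1, Matrix.one_apply]
    by_cases hij : i = j
    · rw [if_pos hij, if_pos hij.symm, map_one]
    · rw [if_neg hij, if_neg (Ne.symm hij), map_zero]
  have hE : ∀ f : Pn 3, ∑ i, v i * D i f = ∑ k, X k * pderiv k f := by
    intro f
    have h1 : ∀ k, ∑ i, C (N k i) * v i = X k := by
      intro k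
      have h2 : ∑ i, C (N k i) * v i = ∑ j, C ((N * M) k j) * X j := by
        simp only [hM, Finset.mul_sum, Matrix.mul_apply, map_sum, Finset.sum_mul, map_mul]
        rw [Finset.sum_comm]
        refine Finset.sum_congr rfl fun j _ => Finset.sum_congr rfl fun i _ => ?_
        ring
      rw [h2, e2]
      simp [Matrix.one_apply]
    simp only [D, Finset.mul_sum]
    rw [Finset.sum_comm]
    refine Finset.sum_congr rfl fun k _ => ?_
    rw [← h1 k, Finset.sum_mul]
    refine Finset.sum_congr rfl fun i _ => ?_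
    ring
  have hDh : ∀ i j, (D i (σ j)).IsHomogeneous 1 := by
    intro i j
    simp only [D]
    refine IsHomogeneous.sum _ _ _ fun k _ => ?_
    have := (isHomogeneous_C (Fin 3) (N k i)).mul ((hσ j).pderiv (i := k))
    rwa [zero_add] at this
  let ω : F2 3 := fun i j => D i (σ j) - D j (σ i)
  have hω : ∀ i j, (ω i j).IsHomogeneous 1 := fun i j => (hDh i j).sub (hDh j i)
  have h0 : ∀ i, ω i i = 0 := fun i => sub_self _
  have h1 : ∀ i j, ω i j = - ω j i := fun i j => by
    simp only [ω]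
    ring
  have hct : ∀ j, ct v ω j = 3 * σ j := by
    intro j
    have a1 : ∑ i, v i * D i (σ j) = 2 * σ j := by
      rw [hE, (hσ j).sum_X_mul_pderiv]
      simp
    have a2 : σ j + ∑ i, v i * D j (σ i) = 0 := by
      have h3 : D j (pair v σ) = 0 := by
        rw [h]
        simp [D]
      rw [nt_p3, hDadd, hDadd, hDmul, hDmul, hDmul, hDv, hDv, hDv] at h3
      rw [Fin.sum_univ_three]
      fin_cases j
      · simp at h3 ⊢
        linear_combination h3
      · simp at h3 ⊢
        linear_combination h3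
      · simp at h3 ⊢
        linear_combination h3
    unfold ct
    simp only [ω, mul_sub, Finset.sum_sub_distrib]
    rw [a1]
    linear_combination -a2
  refine ⟨fun i => C (1 / 3) * st ω i, v, ?_, hv, ?_⟩
  · intro i
    have h2 : (st ω i).IsHomogeneous 1 := by
      fin_cases i
      · exact hω 1 2
      · exact hω 2 0
      · exact hω 0 1
    have := (isHomogeneous_C (Fin 3) (1 / 3 : ℂ)).mul h2
    rwa [zero_add] at this
  · funext j
    have h2 := hct j
    rw [ct_eq v h0 h1 j] at h2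
    have h3 : cr (fun i => C (1 / 3) * st ω i) v j = C (1 / 3) * cr (st ω) v j := by
      fin_cases j
      · change C (1 / 3) * st ω 1 * v 2 - C (1 / 3) * st ω 2 * v 1 =
          C (1 / 3) * (st ω 1 * v 2 - st ω 2 * v 1)
        ring
      · change C (1 / 3) * st ω 2 * v 0 - C (1 / 3) * st ω 0 * v 2 =
          C (1 / 3) * (st ω 2 * v 0 - st ω 0 * v 2)
        ring
      · change C (1 / 3) * st ω 0 * v 1 - C (1 / 3) * st ω 1 * v 0 =
          C (1 / 3) * (st ω 0 * v 1 - st ω 1 * v 0)
        ring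
    rw [h3, h2]
    have h4 : (C (1 / 3 : ℂ) : Pn 3) * 3 = 1 := by
      have h5 : (3 : Pn 3) = C 3 := (map_ofNat C 3).symm
      rw [h5, ← map_mul]
      norm_num
    linear_combination -σ j * h4

/-- the common zero of the three linear forms -/
private theorem nt_zero {σ v : F1 3} (hw : ∀ w : Fin 3 → ℂ, w ≠ 0 → pair (cv w) σ ≠ 0)
    (hv0 : v ≠ 0) (h : pair v σ = 0)
    {M : Matrix (Fin 3) (Fin 3) ℂ} (hM : ∀ i, v i = ∑ j, C (M i j) * X j) (hd : M.det = 0) :
    ∃ (i j : Fin 3) (u : Fin 3 → ℂ) (L : Pn 3), (∀ k, eval u (v k) = 0) ∧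
      ∀ k, X k - C (u k) * L ∈ Ideal.span {v i, v j} := by
  have hex : ∃ i j, cr (M i) (M j) ≠ 0 := by
    by_contra hcon
    push Not at hcon
    have hM0 : ∃ i a, M i a ≠ 0 := by
      by_contra hc
      push Not at hc
      apply hv0
      funext i
      rw [hM i]
      simp [hc]
    obtain ⟨i0, a0, hi0⟩ := hM0
    have hmin : ∀ i j a b, M i a * M j b = M i b * M j a := by
      intro i j a b
      have x0 : M i 1 * M j 2 - M i 2 * M j 1 = 0 := congrFun (hcon i j) 0
      have x1 : M i 2 * M j 0 - M i 0 * M j 2 = 0 := congrFun (hcon i j) 1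
      have x2 : M i 0 * M j 1 - M i 1 * M j 0 = 0 := congrFun (hcon i j) 2
      fin_cases a <;> fin_cases b <;>
        simp only [Fin.zero_eta, Fin.mk_one, Fin.reduceFinMk] <;>
        first
          | rfl
          | linear_combination x0
          | linear_combination -x0
          | linear_combination x1
          | linear_combination -x1
          | linear_combination x2
          | linear_combination -x2
    have hrel : ∀ j, C (M i0 a0) * v j = C (M j a0) * v i0 := by
      intro j
      rw [hM j, hM i0, Finset.mul_sum, Finset.mul_sum]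
      refine Finset.sum_congr rfl fun b _ => ?_
      have := congrArg (C : ℂ → Pn 3) (hmin i0 j a0 b)
      rw [map_mul, map_mul] at this
      linear_combination X b * this
    have hne : (fun j => M j a0) ≠ (0 : Fin 3 → ℂ) := fun h0 => hi0 (congrFun h0 i0)
    have hvi : v i0 ≠ 0 := by
      intro h0
      have h2 := congrArg (coeff (Finsupp.single a0 1)) (hM i0)
      rw [h0, coeff_zero, coeff_sum] at h2
      simp only [coeff_C_mul, coeff_X'] at h2
      rw [Finset.sum_eq_single a0] at h2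
      · simp at h2
        exact hi0 h2.symm
      · intro b _ hb
        rw [if_neg, mul_zero]
        intro h3
        exact hb (Finsupp.single_left_injective one_ne_zero h3)
      · intro h3
        exact absurd (Finset.mem_univ _) h3
    apply hw _ hne
    have h3 : v i0 * pair (cv fun j => M j a0) σ = 0 := by
      have : C (M i0 a0) * pair v σ = 0 := by rw [h, mul_zero]
      rw [nt_p3] at this ⊢
      unfold cv
      linear_combination this - σ 0 * hrel 0 - σ 1 * hrel 1 - σ 2 * hrel 2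
    exact (mul_eq_zero.1 h3).resolve_left hvi
  obtain ⟨i, j, hij⟩ := hex
  obtain ⟨k0, hk0⟩ : ∃ k, cr (M i) (M j) k ≠ 0 := by
    by_contra hc
    push Not at hc
    exact hij (funext hc)
  set p := M i with hp
  set q := M j with hq
  set u := cr p q with hu
  have u0 : u 0 = p 1 * q 2 - p 2 * q 1 := rfl
  have u1 : u 1 = p 2 * q 0 - p 0 * q 2 := rfl
  have u2 : u 2 = p 0 * q 1 - p 1 * q 0 := rfl
  obtain ⟨t, ht⟩ : ∃ t : Fin 3 → ℂ, u 0 * t 0 + u 1 * t 1 + u 2 * t 2 = 1 := by
    refine ⟨Pi.single k0 (u k0)⁻¹, ?_⟩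
    fin_cases k0
    · simp at hk0 ⊢
      field_simp
    · simp at hk0 ⊢
      field_simp
    · simp at hk0 ⊢
      field_simp
  refine ⟨i, j, u, ∑ k, C (t k) * X k, ?_, ?_⟩
  · intro k
    have hd3 : M k 0 * u 0 + M k 1 * u 1 + M k 2 * u 2 = 0 := by
      rw [Matrix.det_fin_three] at hd
      rw [u0, u1, u2, hp, hq]
      fin_cases i <;> fin_cases j <;> fin_cases k <;>
        simp only [Fin.zero_eta, Fin.mk_one, Fin.reduceFinMk] <;>
        first
          | ring1
          | linear_combination hd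
          | linear_combination -hd
    rw [hM k, Fin.sum_univ_three]
    simp only [map_add, map_mul, eval_C, eval_X]
    exact hd3
  · intro k
    rw [Ideal.mem_span_pair]
    have hvi := hM i
    have hvj := hM j
    rw [Fin.sum_univ_three] at hvi hvj
    have hCt := congrArg (C : ℂ → Pn 3) ht
    simp only [map_add, map_mul, map_one] at hCt
    have c0 : (C (u 0) : Pn 3) = C (p 1) * C (q 2) - C (p 2) * C (q 1) := by
      rw [u0, map_sub, map_mul, map_mul]
    have c1 : (C (u 1) : Pn 3) = C (p 2) * C (q 0) - C (p 0) * C (q 2) := by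
      rw [u1, map_sub, map_mul, map_mul]
    have c2 : (C (u 2) : Pn 3) = C (p 0) * C (q 1) - C (p 1) * C (q 0) := by
      rw [u2, map_sub, map_mul, map_mul]
    rw [hvi, hvj, Fin.sum_univ_three]
    rw [c0, c1, c2] at hCt
    fin_cases k
    · refine ⟨C (q 1) * C (t 2) - C (q 2) * C (t 1), C (t 1) * C (p 2) - C (t 2) * C (p 1), ?_⟩
      simp only [Fin.zero_eta, Fin.mk_one, Fin.reduceFinMk]
      rw [c0]
      linear_combination X 0 * hCt
    · refine ⟨C (q 2) * C (t 0) - C (q 0) * C (t 2), C (t 2) * C (p 0) - C (t 0) * C (p 2), ?_⟩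
      simp only [Fin.zero_eta, Fin.mk_one, Fin.reduceFinMk]
      rw [c1]
      linear_combination X 1 * hCt
    · refine ⟨C (q 0) * C (t 1) - C (q 1) * C (t 0), C (t 0) * C (p 1) - C (t 1) * C (p 0), ?_⟩
      simp only [Fin.zero_eta, Fin.mk_one, Fin.reduceFinMk]
      rw [c2]
      linear_combination X 2 * hCt

/-- vectors killed by `n` and `φ = v × e` are multiples of `v` -/
private theorem nt_par {v U : F1 3} {n e : Fin 3 → ℂ} {d : ℕ}
    (hp : Pool.Agent.Helper50.FC.Prim v) (hv : H1 1 v) (hU : H1 (1 + d) U)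
    (hne : pair (cv n) (cv e) = 1) (hnv : pair (cv n) v = 0) (hnU : pair (cv n) U = 0)
    (hφ : pair U (cr v (cv e)) = 0) : ∃ A : Pn 3, A.IsHomogeneous d ∧ ∀ i, U i = A * v i := by
  rw [nt_p3] at hne hnv hnU hφ
  have h0 : U 0 * (v 1 * cv e 2 - v 2 * cv e 1) + U 1 * (v 2 * cv e 0 - v 0 * cv e 2) +
      U 2 * (v 0 * cv e 1 - v 1 * cv e 0) = 0 := hφ
  have e0 : U 1 * v 2 - U 2 * v 1 = 0 := by
    linear_combination -(U 1 * v 2 - U 2 * v 1) * hne + cv n 0 * h0 +
      (U 1 * cv e 2 - U 2 * cv e 1) * hnv - (v 1 * cv e 2 - v 2 * cv e 1) * hnU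
  have e1 : U 2 * v 0 - U 0 * v 2 = 0 := by
    linear_combination -(U 2 * v 0 - U 0 * v 2) * hne + cv n 1 * h0 +
      (U 2 * cv e 0 - U 0 * cv e 2) * hnv - (v 2 * cv e 0 - v 0 * cv e 2) * hnU
  have e2 : U 0 * v 1 - U 1 * v 0 = 0 := by
    linear_combination -(U 0 * v 1 - U 1 * v 0) * hne + cv n 2 * h0 +
      (U 0 * cv e 1 - U 1 * cv e 0) * hnv - (v 0 * cv e 1 - v 1 * cv e 0) * hnU
  have hw : ∀ i j, w11 U v i j = 0 := by
    intro i j
    unfold w11
    fin_cases i <;> fin_cases j <;>
      simp only [Fin.zero_eta, Fin.mk_one, Fin.reduceFinMk] <;>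
      first
        | ring1
        | linear_combination e0
        | linear_combination -e0
        | linear_combination e1
        | linear_combination -e1
        | linear_combination e2
        | linear_combination -e2
  obtain ⟨g, hg, -, h2⟩ := Pool.Agent.Helper50.FC.div1_hom hp hw hU hv
  rw [Nat.add_sub_cancel_left] at hg
  exact ⟨g, hg, h2⟩

theorem net {σ v : F1 3} (hσ : H1 2 σ) (hc : Cop σ) (hw : ∀ w : Fin 3 → ℂ, w ≠ 0 → pair (cv w) σ ≠ 0)
    (hv : H1 1 v) (hv0 : v ≠ 0) (h : pair v σ = 0) :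
    (∃ v1 v2 : F1 3, H1 1 v1 ∧ H1 1 v2 ∧ σ = cr v1 v2) ∨
    ∃ (n : Fin 3 → ℂ) (ℓ g : Pn 3) (φ : F1 3), n ≠ 0 ∧ ℓ ≠ 0 ∧ ℓ.IsHomogeneous 1 ∧
      g.IsHomogeneous 2 ∧ H1 1 φ ∧ (∀ i, σ i = g * C (n i) + ℓ * φ i) ∧
      (∀ i, v i = cr (cv n) φ i) ∧
      (∀ U : F1 3, H1 1 U → pair U σ = 0 → ∃ c : ℂ, ∀ i, U i = C c * v i) ∧
      ∀ U : F1 3, H1 3 U → pair U σ = 0 → ∃ (A : Pn 3) (μ : F1 3), A.IsHomogeneous 2 ∧ H1 1 μ ∧
        ∀ i, U i = A * v i + cr μ σ i := by
  have hex : ∀ i, ∃ a : Fin 3 → ℂ, v i = ∑ j, C (a j) * X j := fun i => nt_lin (hv i)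
  choose M hM using hex
  by_cases hd : (Matrix.of M).det = 0
  swap
  · exact Or.inl (nt_reg hσ hv h (M := Matrix.of M) hM hd)
  have hp := nt_cop hw hv hv0 h
  -- the constant covector
  obtain ⟨n, hn0, hnM⟩ := Matrix.exists_vecMul_eq_zero_iff.2 hd
  have hnv : pair (cv n) v = 0 := by
    have h1 : ∀ j, n 0 * M 0 j + n 1 * M 1 j + n 2 * M 2 j = 0 := by
      intro j
      have := congrFun hnM j
      simpa [Matrix.vecMul, dotProduct, Fin.sum_univ_three] using this
    have h2 : ∀ j, (C (n 0) * C (M 0 j) + C (n 1) * C (M 1 j) + C (n 2) * C (M 2 j) : Pn 3) = 0 := by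
      intro j
      have := congrArg (C : ℂ → Pn 3) (h1 j)
      simpa only [map_add, map_mul, map_zero] using this
    rw [nt_p3, hM 0, hM 1, hM 2, Fin.sum_univ_three, Fin.sum_univ_three, Fin.sum_univ_three]
    unfold cv
    linear_combination X 0 * h2 0 + X 1 * h2 1 + X 2 * h2 2
  obtain ⟨k0, hk0⟩ : ∃ k, n k ≠ 0 := by
    by_contra hcon
    push Not at hcon
    exact hn0 (funext hcon)
  obtain ⟨e, he⟩ : ∃ e : Fin 3 → ℂ, pair (cv n) (cv e) = 1 := by
    refine ⟨Pi.single k0 (n k0)⁻¹, ?_⟩
    unfold pair cv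
    rw [Finset.sum_eq_single k0]
    · rw [Pi.single_eq_same, ← map_mul, mul_inv_cancel₀ hk0, map_one]
    · intro b _ hb
      rw [Pi.single_eq_of_ne hb, map_zero, mul_zero]
    · intro h3
      exact absurd (Finset.mem_univ _) h3
  -- `n × σ = ℓ v`
  have hs3 := h
  rw [nt_p3] at hs3
  have hn3 := hnv
  rw [nt_p3] at hn3
  have he3 := he
  rw [nt_p3] at he3
  have hpar : ∀ i j, w11 (cr (cv n) σ) v i j = 0 := by
    have x0 : (cr (cv n) σ) 1 * v 2 - (cr (cv n) σ) 2 * v 1 = 0 := by
      change (cv n 2 * σ 0 - cv n 0 * σ 2) * v 2 - (cv n 0 * σ 1 - cv n 1 * σ 0) * v 1 = 0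
      linear_combination σ 0 * hn3 - cv n 0 * hs3
    have x1 : (cr (cv n) σ) 2 * v 0 - (cr (cv n) σ) 0 * v 2 = 0 := by
      change (cv n 0 * σ 1 - cv n 1 * σ 0) * v 0 - (cv n 1 * σ 2 - cv n 2 * σ 1) * v 2 = 0
      linear_combination σ 1 * hn3 - cv n 1 * hs3
    have x2 : (cr (cv n) σ) 0 * v 1 - (cr (cv n) σ) 1 * v 0 = 0 := by
      change (cv n 1 * σ 2 - cv n 2 * σ 1) * v 1 - (cv n 2 * σ 0 - cv n 0 * σ 2) * v 0 = 0
      linear_combination σ 2 * hn3 - cv n 2 * hs3
    intro i j
    unfold w11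
    fin_cases i <;> fin_cases j <;>
      simp only [Fin.zero_eta, Fin.mk_one, Fin.reduceFinMk] <;>
      first
        | ring1
        | linear_combination x0
        | linear_combination -x0
        | linear_combination x1
        | linear_combination -x1
        | linear_combination x2
        | linear_combination -x2
  obtain ⟨ℓ, hℓ, -, hℓv⟩ := Pool.Agent.Helper50.FC.div1_hom hp hpar
    (nt_H1_cr (nt_H1_cv n) hσ) hv
  have hℓ1 : ℓ.IsHomogeneous 1 := hℓ
  have l0 : cv n 1 * σ 2 - cv n 2 * σ 1 = ℓ * v 0 := hℓv 0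
  have l1 : cv n 2 * σ 0 - cv n 0 * σ 2 = ℓ * v 1 := hℓv 1
  have l2 : cv n 0 * σ 1 - cv n 1 * σ 0 = ℓ * v 2 := hℓv 2
  set g : Pn 3 := pair (cv e) σ with hg
  have hg2 : g.IsHomogeneous 2 := by
    have := nt_H1_pair (nt_H1_cv e) hσ
    rwa [zero_add] at this
  set φ : F1 3 := cr v (cv e) with hφ
  have hφ1 : H1 1 φ := nt_H1_cr hv (nt_H1_cv e)
  have f0 : φ 0 = v 1 * cv e 2 - v 2 * cv e 1 := rfl
  have f1 : φ 1 = v 2 * cv e 0 - v 0 * cv e 2 := rfl
  have f2 : φ 2 = v 0 * cv e 1 - v 1 * cv e 0 := rfl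
  have g3 : g = cv e 0 * σ 0 + cv e 1 * σ 1 + cv e 2 * σ 2 := by rw [hg, nt_p3]
  have s0 : σ 0 = g * cv n 0 + ℓ * φ 0 := by
    rw [f0, g3]
    linear_combination -σ 0 * he3 + cv e 2 * l1 - cv e 1 * l2
  have s1 : σ 1 = g * cv n 1 + ℓ * φ 1 := by
    rw [f1, g3]
    linear_combination -σ 1 * he3 + cv e 0 * l2 - cv e 2 * l0
  have s2 : σ 2 = g * cv n 2 + ℓ * φ 2 := by
    rw [f2, g3]
    linear_combination -σ 2 * he3 + cv e 1 * l0 - cv e 0 * l1
  have hsi : ∀ i, σ i = g * C (n i) + ℓ * φ i := by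
    intro i
    fin_cases i
    · exact s0
    · exact s1
    · exact s2
  have w0 : v 0 = cv n 1 * φ 2 - cv n 2 * φ 1 := by
    rw [f1, f2]
    linear_combination -v 0 * he3 + cv e 0 * hn3
  have w1 : v 1 = cv n 2 * φ 0 - cv n 0 * φ 2 := by
    rw [f0, f2]
    linear_combination -v 1 * he3 + cv e 1 * hn3
  have w2 : v 2 = cv n 0 * φ 1 - cv n 1 * φ 0 := by
    rw [f0, f1]
    linear_combination -v 2 * he3 + cv e 2 * hn3
  have hvi : ∀ i, v i = cr (cv n) φ i := by
    intro i
    fin_cases i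
    · exact w0
    · exact w1
    · exact w2
  have hℓ0 : ℓ ≠ 0 := by
    intro h0
    -- a constant vector killed by `n`
    obtain ⟨w, hw0, hwn⟩ : ∃ w : Fin 3 → ℂ, w ≠ 0 ∧ w 0 * n 0 + w 1 * n 1 + w 2 * n 2 = 0 := by
      by_cases hz : n 0 = 0 ∧ n 1 = 0
      · refine ⟨![1, 0, 0], ?_, ?_⟩
        · intro h1
          have := congrFun h1 0
          simp at this
        · simp [hz.1]
      · refine ⟨![n 1, - n 0, 0], ?_, ?_⟩
        · intro h1
          apply hz
          constructor
          · have := congrFun h1 1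
            simpa using this
          · have := congrFun h1 0
            simpa using this
        · simp
          ring
    apply hw w hw0
    have h1 := congrArg (C : ℂ → Pn 3) hwn
    simp only [map_add, map_mul, map_zero] at h1
    rw [nt_p3, hsi 0, hsi 1, hsi 2, h0]
    unfold cv
    linear_combination g * h1
  -- the common zero of `v`
  obtain ⟨i, j, u, L, hu, hX⟩ := nt_zero hw hv0 h (M := Matrix.of M) hM hd
  by_cases hgu : eval u g = 0
  · left
    obtain ⟨a, b, ha, hb, hab⟩ := nt_line (d := 1) (hv i) (hv j) hX hg2 hgu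
    -- `g = c · v`
    let c : F1 3 := fun k => (if k = i then a else 0) + if k = j then b else 0
    have hc1 : H1 1 c := by
      intro k
      have hz : (0 : Pn 3).IsHomogeneous 1 := isHomogeneous_zero _ _ _
      apply IsHomogeneous.add
      · split_ifs
        · exact ha
        · exact hz
      · split_ifs
        · exact hb
        · exact hz
    have hgc : g = c 0 * v 0 + c 1 * v 1 + c 2 * v 2 := by
      rw [← nt_p3]
      unfold pair
      simp only [c, add_mul, ite_mul, zero_mul, Finset.sum_add_distrib]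
      rw [Finset.sum_ite_eq' , Finset.sum_ite_eq', if_pos (Finset.mem_univ _),
        if_pos (Finset.mem_univ _)]
      exact hab
    refine ⟨v, fun k => cr (cv n) c k + ℓ * C (e k), hv, ?_, ?_⟩
    · intro k
      apply IsHomogeneous.add
      · have := nt_H1_cr (nt_H1_cv n) hc1 k
        rwa [zero_add] at this
      · exact hℓ1.mul (isHomogeneous_C (Fin 3) (e k))
    · funext k
      fin_cases k
      · change σ 0 = v 1 * ((cv n 0 * c 1 - cv n 1 * c 0) + ℓ * cv e 2) -
          v 2 * ((cv n 2 * c 0 - cv n 0 * c 2) + ℓ * cv e 1)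
        rw [s0, f0, hgc]
        linear_combination c 0 * hn3
      · change σ 1 = v 2 * ((cv n 1 * c 2 - cv n 2 * c 1) + ℓ * cv e 0) -
          v 0 * ((cv n 0 * c 1 - cv n 1 * c 0) + ℓ * cv e 2)
        rw [s1, f1, hgc]
        linear_combination c 1 * hn3
      · change σ 2 = v 0 * ((cv n 2 * c 0 - cv n 0 * c 2) + ℓ * cv e 1) -
          v 1 * ((cv n 1 * c 2 - cv n 2 * c 1) + ℓ * cv e 0)
        rw [s2, f2, hgc]
        linear_combination c 2 * hn3
  · right
    have hrel : IsRelPrime ℓ g := by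
      intro p h1 h2
      apply hc
      intro k
      rw [hsi k]
      exact dvd_add (Dvd.dvd.mul_right h2 _) (Dvd.dvd.mul_right h1 _)
    -- the common part of the two divisions
    have key : ∀ (d : ℕ) (U : F1 3), H1 (1 + d) U → pair U σ = 0 → ∃ t : Pn 3,
        t.IsHomogeneous d ∧ pair (cv n) U = ℓ * t ∧ pair U φ = - (g * t) ∧ eval u t = 0 := by
      intro d U hU hUσ
      have h1 : g * pair (cv n) U + ℓ * pair U φ = 0 := by
        rw [nt_p3] at hUσ
        rw [nt_p3, nt_p3]
        linear_combination hUσ - U 0 * s0 - U 1 * s1 - U 2 * s2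
      have h2 : ℓ ∣ pair (cv n) U := by
        apply hrel.dvd_of_dvd_mul_left
        exact ⟨- pair U φ, by linear_combination h1⟩
      obtain ⟨t, ht⟩ := h2
      have h3 : pair U φ = - (g * t) := by
        rw [ht] at h1
        apply mul_left_cancel₀ hℓ0
        linear_combination h1
      have hth : t.IsHomogeneous d := by
        have h4 := nt_H1_pair (nt_H1_cv n) hU
        rw [zero_add] at h4
        exact nt_hom_quot hℓ1 hℓ0 h4 ht
      refine ⟨t, hth, ht, h3, ?_⟩
      have h5 := congrArg (eval u) h3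
      rw [nt_p3, f0, f1, f2] at h5
      simp only [map_add, map_mul, map_sub, hu, map_neg, zero_mul, mul_zero, sub_zero,
        add_zero] at h5
      have h6 : eval u g * eval u t = 0 := by linear_combination h5
      exact (mul_eq_zero.1 h6).resolve_left hgu
    refine ⟨n, ℓ, g, φ, hn0, hℓ0, hℓ1, hg2, hφ1, hsi, hvi, ?_, ?_⟩
    · intro U hU hUσ
      obtain ⟨t, ht, h1, h2, h3⟩ := key 0 U hU hUσ
      have ht0 : t = 0 := by
        have h4 := totalDegree_eq_zero_iff_eq_C.1 (Nat.le_zero.1 ht.totalDegree_le)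
        rw [h4, eval_C] at h3
        rw [h4, h3, map_zero]
      rw [ht0, mul_zero] at h1
      rw [ht0, mul_zero, neg_zero] at h2
      obtain ⟨A, hA, hUA⟩ := nt_par (d := 0) hp hv hU he hnv h1 h2
      have h4 := totalDegree_eq_zero_iff_eq_C.1 (Nat.le_zero.1 hA.totalDegree_le)
      exact ⟨_, fun k => by rw [hUA k, h4]⟩
    · intro U hU hUσ
      obtain ⟨t, ht, h1, h2, h3⟩ := key 2 U hU hUσ
      obtain ⟨a, b, ha, hb, hab⟩ := nt_line (d := 1) (hv i) (hv j) hX ht h3
      let c : F1 3 := fun k => (if k = i then a else 0) + if k = j then b else 0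
      have hc1 : H1 1 c := by
        intro k
        have hz : (0 : Pn 3).IsHomogeneous 1 := isHomogeneous_zero _ _ _
        apply IsHomogeneous.add
        · split_ifs
          · exact ha
          · exact hz
        · split_ifs
          · exact hb
          · exact hz
      have htc : t = c 0 * v 0 + c 1 * v 1 + c 2 * v 2 := by
        rw [← nt_p3]
        unfold pair
        simp only [c, add_mul, ite_mul, zero_mul, Finset.sum_add_distrib]
        rw [Finset.sum_ite_eq' , Finset.sum_ite_eq', if_pos (Finset.mem_univ _),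
          if_pos (Finset.mem_univ _)]
        exact hab
      let W : F1 3 := fun k => U k + cr c σ k
      have hW : H1 (1 + 2) W := fun k => (hU k).add (nt_H1_cr hc1 hσ k)
      have W0 : W 0 = U 0 + (c 1 * σ 2 - c 2 * σ 1) := rfl
      have W1 : W 1 = U 1 + (c 2 * σ 0 - c 0 * σ 2) := rfl
      have W2 : W 2 = U 2 + (c 0 * σ 1 - c 1 * σ 0) := rfl
      have h4 : pair (cv n) W = 0 := by
        rw [nt_p3] at h1 ⊢
        rw [W0, W1, W2]
        rw [htc] at h1
        linear_combination h1 - c 0 * l0 - c 1 * l1 - c 2 * l2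
      have h5 : pair W φ = 0 := by
        apply mul_left_cancel₀ hℓ0
        rw [nt_p3] at hUσ
        have h6 : W 0 * σ 0 + W 1 * σ 1 + W 2 * σ 2 = 0 := by
          rw [W0, W1, W2]
          linear_combination hUσ
        rw [nt_p3] at h4 ⊢
        linear_combination h6 - g * h4 - W 0 * s0 - W 1 * s1 - W 2 * s2
      obtain ⟨A, hA, hUA⟩ := nt_par (d := 2) hp hv hW he hnv h4 h5
      refine ⟨A, fun k => - c k, hA, fun k => (hc1 k).neg, ?_⟩
      intro k
      have h7 : W k = U k + cr c σ k := rfl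
      have h8 : cr (fun k => - c k) σ k = - cr c σ k := by
        fin_cases k
        · change - c 1 * σ 2 - - c 2 * σ 1 = - (c 1 * σ 2 - c 2 * σ 1)
          ring
        · change - c 2 * σ 0 - - c 0 * σ 2 = - (c 2 * σ 0 - c 0 * σ 2)
          ring
        · change - c 0 * σ 1 - - c 1 * σ 0 = - (c 0 * σ 1 - c 1 * σ 0)
          ring
      rw [h8, ← hUA k, h7]
      ring

end Pool.Agent.Helper1.FK
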