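import Pool.Agent.Helper1.FK.Net

/-! FK-8: one linear syzygy: CaseC.
`u = st (dd σ)` satisfies `u · σ = 0` (`e2`, `m = 0`): `u = c v`, `v = cr n φ`; `U = st θ0`, `U · σ = 0` (`e3`): `U = A v + cr μ σ`; translate with `st_w11`, `st_inj`. -/

set_option autoImplicit false

namespace Pool.Agent.Helper1.FK

open MvPolynomial
open scoped BigOperators
open Pool.Agent.Helper71.FL (w12 pf ct Dec Closed dd)
open Pool.Agent.Helper71.FC
open Pool.Agent.Helper93 (lsub lmap OF pb Cop)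
open Pool.Agent.Helper1.FG (om7)

private theorem nc_pair_comm (a b : F1 3) : pair a b = pair b a := by
  unfold pair
  exact Finset.sum_congr rfl fun i _ => mul_comm _ _

private theorem nc_dd_alt0 (σ : F1 3) (i : Fin 3) : dd σ i i = 0 := by
  unfold dd
  ring

private theorem nc_dd_alt (σ : F1 3) (i j : Fin 3) : dd σ i j = - dd σ j i := by
  unfold dd
  ring

private theorem nc_w_alt0 (a b : F1 3) (i : Fin 3) : w11 a b i i = 0 := by
  unfold w11
  ring

private theorem nc_w_alt (a b : F1 3) (i j : Fin 3) : w11 a b i j = - w11 a b j i := by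
  unfold w11
  ring

private theorem nc_dd_hom {σ : F1 3} (h : H1 2 σ) (i j : Fin 3) : (dd σ i j).IsHomogeneous 1 := by
  unfold dd
  exact ((h j).pderiv).sub ((h i).pderiv)

theorem caseC_of {σ : F1 3} {θ0 : F2 3} (h : RD 0 σ θ0) {v : F1 3} {n : Fin 3 → ℂ} {ℓ g : Pn 3}
    {φ : F1 3} (hn : n ≠ 0) (hℓ : ℓ ≠ 0) (h1 : ℓ.IsHomogeneous 1) (h2 : g.IsHomogeneous 2)
    (h3 : H1 1 φ) (h4 : ∀ i, σ i = g * C (n i) + ℓ * φ i) (h5 : ∀ i, v i = cr (cv n) φ i)
    (h6 : ∀ U : F1 3, H1 1 U → pair U σ = 0 → ∃ c : ℂ, ∀ i, U i = C c * v i)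
    (h7 : ∀ U : F1 3, H1 3 U → pair U σ = 0 → ∃ (A : Pn 3) (μ : F1 3), A.IsHomogeneous 2 ∧
      H1 1 μ ∧ ∀ i, U i = A * v i + cr μ σ i) : CaseC σ θ0 := by
  have hU1 : H1 1 (st (dd σ)) := by
    intro i
    fin_cases i
    · exact nc_dd_hom h.hσ 1 2
    · exact nc_dd_hom h.hσ 2 0
    · exact nc_dd_hom h.hσ 0 1
  have hU3 : H1 3 (st θ0) := by
    intro i
    fin_cases i
    · exact h.hθ 1 2
    · exact h.hθ 2 0
    · exact h.hθ 0 1
  have hp1 : pair (st (dd σ)) σ = 0 := by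
    rw [nc_pair_comm]
    refine (w12_pair (nc_dd_alt0 σ) (nc_dd_alt σ)).1 ?_
    intro i j k
    have := h.e2 i j k
    have h0 : w12 (cv (0 : Fin 3 → ℂ)) θ0 i j k = 0 := by
      unfold w12 cv
      simp
    rw [h0, zero_add] at this
    exact this
  have hp3 : pair (st θ0) σ = 0 := by
    rw [nc_pair_comm]
    exact (w12_pair h.alt0 h.alt).1 h.e3
  obtain ⟨c, hc⟩ := h6 _ hU1 hp1
  obtain ⟨A, μ, hA, hμ, hAμ⟩ := h7 _ hU3 hp3
  refine ⟨n, c, ℓ, g, A, φ, μ, hn, hℓ, h1, h2, hA, h3, hμ, h4, ?_, ?_⟩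
  · intro i j
    refine st_inj (ω := dd σ) (ω' := fun i j => C c * w11 (cv n) φ i j) (nc_dd_alt0 σ)
      (nc_dd_alt σ) ?_ ?_ ?_ i j
    · intro i
      show C c * w11 (cv n) φ i i = 0
      rw [nc_w_alt0, mul_zero]
    · intro i j
      show C c * w11 (cv n) φ i j = - (C c * w11 (cv n) φ j i)
      rw [nc_w_alt (cv n) φ i j]
      ring
    · have e : st (fun i j => C c * w11 (cv n) φ i j) = fun i => C c * st (w11 (cv n) φ) i := by
        funext i
        fin_cases i <;> rfl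
      rw [e, st_w11]
      funext i
      rw [hc i, h5 i]
  · intro i j
    refine st_inj (ω := θ0) (ω' := fun i j => A * w11 (cv n) φ i j + w11 μ σ i j) h.alt0
      h.alt ?_ ?_ ?_ i j
    · intro i
      show A * w11 (cv n) φ i i + w11 μ σ i i = 0
      rw [nc_w_alt0, nc_w_alt0, mul_zero, zero_add]
    · intro i j
      show A * w11 (cv n) φ i j + w11 μ σ i j = - (A * w11 (cv n) φ j i + w11 μ σ j i)
      rw [nc_w_alt (cv n) φ i j, nc_w_alt μ σ i j]
      ring
    · have e : st (fun i j => A * w11 (cv n) φ i j + w11 μ σ i j) =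
          fun i => A * st (w11 (cv n) φ) i + st (w11 μ σ) i := by
        funext i
        fin_cases i <;> rfl
      rw [e, st_w11, st_w11]
      funext i
      rw [hAμ i, h5 i]

end Pool.Agent.Helper1.FK
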